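import Pool.Agent.AEN.RigD

/-!
# Alternation of lines, balanced branches, many good pieces: the theorem for codes

The theorem on rigid ends is a hypothesis.
-/

set_option autoImplicit false

namespace AEN

open Finset AE15 AED AELT AEK AEJ AEB AEG AEF AET AEW AEY
open scoped Classical

/-- **the coarse state** of all trees which have a branch of comparable size with a chain of branches; the window of the
exits is `θ` -/
theorem alt_coarse (b l : ℕ) (hb : 1 ≤ b) (hR : RigSt b (ab b l)) : ∃ A' : ℕ, ∀ θ : ℝ, 0 < θ → θ ≤ 1 / 2 →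
    ∀ {k e bt cap : ℝ}, 0 < k → 0 < e → 0 < bt → 0 < cap → ∃ (κ ε₀ μ₀ : ℝ) (K₁ : ℕ), 0 < κ ∧ κ ≤ cap ∧ 0 < ε₀ ∧ 0 < μ₀ ∧
      ∀ K : ℕ, K₁ ≤ K → ∀ M : ℕ, ∃ C₀ : ℝ, ∀ C : ℝ, C₀ ≤ C → ∀ {ε μ : ℝ}, ε ≤ ε₀ → μ ≤ μ₀ → ∀ n : ℕ,
        (∀ (c : Fd) (d0 : Bool) (a : Bool × Fd) (m : ℕ), c.len ≤ b → c.Deg b → AESK.PtT 0 (d0, c) a m →
          BlN θ ε μ M (Rgn b l K A' θ ε μ M n) (EndP θ ε M) a.2 → κ * (c.size + 1) < a.2.size + 1 →
            (M : ℝ) ≤ κ * (c.size + 1) → Coarse k e bt C c) ∧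
        ∀ c : Fd, c.len ≤ b → c.Deg b → BlN θ ε μ M (Rgn b l K A' θ ε μ M n) (EndP θ ε M) c → Coarse k e bt C c := by
  obtain ⟨A', hA'⟩ := rig_coarse b l hb hR
  refine ⟨A', ?_⟩
  intro θ hθ hθ2 k e bt cap hk he hbt hcap
  have hθ1 : θ ≤ 1 := by linarith
  obtain ⟨ke, ee, be, u1, u2, u3, hrig⟩ := hA' θ hθ hθ1
  -- the constants of the coarse state for which everything is proved
  obtain ⟨k₂, hk₂⟩ : ∃ k₂ : ℝ, k₂ = min (min (θ / 1024) ke) k := ⟨_, rfl⟩
  obtain ⟨e₂, he₂⟩ : ∃ e₂ : ℝ, e₂ = min (min (θ / 64) ee) e := ⟨_, rfl⟩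
  obtain ⟨b₂, hb₂⟩ : ∃ b₂ : ℝ, b₂ = min (min (θ / 1000) be) bt := ⟨_, rfl⟩
  have k0 : 0 < k₂ := by rw [hk₂]; exact lt_min (lt_min (by positivity) u1) hk
  have e0 : 0 < e₂ := by rw [he₂]; exact lt_min (lt_min (by positivity) u2) he
  have b0 : 0 < b₂ := by rw [hb₂]; exact lt_min (lt_min (by positivity) u3) hbt
  have k1 : k₂ ≤ θ / 1024 := by rw [hk₂]; exact (min_le_left _ _).trans (min_le_left _ _)
  have e1 : e₂ ≤ θ / 64 := by rw [he₂]; exact (min_le_left _ _).trans (min_le_left _ _)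
  have b1 : b₂ ≤ θ / 1000 := by rw [hb₂]; exact (min_le_left _ _).trans (min_le_left _ _)
  have k2 : k₂ ≤ ke := by rw [hk₂]; exact (min_le_left _ _).trans (min_le_right _ _)
  have e2 : e₂ ≤ ee := by rw [he₂]; exact (min_le_left _ _).trans (min_le_right _ _)
  have b2 : b₂ ≤ be := by rw [hb₂]; exact (min_le_left _ _).trans (min_le_right _ _)
  have k3 : k₂ ≤ k := by rw [hk₂]; exact min_le_right _ _
  have e3 : e₂ ≤ e := by rw [he₂]; exact min_le_right _ _
  have b3 : b₂ ≤ bt := by rw [hb₂]; exact min_le_right _ _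
  obtain ⟨κ, ε₁, μ₁, hκ, hκc, hκ2, hε₁, hμ₁, hstep⟩ := stepN hθ hθ1 (jump_ex b hb hθ hθ1) (many_ex b hb hθ hθ1) k0 e0 b0
    hcap
  obtain ⟨Cs, hstep⟩ := hstep 1 one_pos le_rfl
  obtain ⟨ε₂, hε₂, hend⟩ := endP_to b hb hθ hθ1 k₂ e₂ b₂ κ k0 e0 b0 hκ
  obtain ⟨K₁, hrig⟩ := hrig hκ k0 e0 b0
  have hκlt : ∀ x : ℝ, 0 < x → κ * x < x := fun x hx => by
    have h1 : κ * x < 1 * x := mul_lt_mul_of_pos_right (by linarith) hx
    linarith
  refine ⟨κ, min ε₁ ε₂, μ₁, K₁, hκ, hκc, lt_min hε₁ hε₂, hμ₁, ?_⟩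
  intro K hK M
  obtain ⟨Cr, hrig⟩ := hrig K hK
  obtain ⟨Ce, hend⟩ := hend M
  obtain ⟨Cm, hsmall⟩ := coarse_small hb (M := M / κ) b0
  refine ⟨max (max (max Cs Cr) (max Ce Cm)) (2 * M), ?_⟩
  intro C hC ε μ hε hμ n
  have c5 : 2 * (M : ℝ) ≤ C := (le_max_right _ _).trans hC
  replace hC := (le_max_left _ _).trans hC
  have c1 : Cs ≤ C := (le_max_left _ _).trans ((le_max_left _ _).trans hC)
  have c2 : Cr ≤ C := (le_max_right _ _).trans ((le_max_left _ _).trans hC)
  have c3 : Ce ≤ C := (le_max_left _ _).trans ((le_max_right _ _).trans hC)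
  have c4 : Cm ≤ C := (le_max_right _ _).trans ((le_max_right _ _).trans hC)
  have hεa : ε ≤ ε₁ := hε.trans (min_le_left _ _)
  have hεb : ε ≤ ε₂ := hε.trans (min_le_right _ _)
  have hμa : μ ≤ 1 * μ₁ := by rw [one_mul]; exact hμ
  -- the rigid branches of one level
  have main : ∀ n : ℕ, ∀ s : ℕ, ∀ (c : Fd) (d0 : Bool) (a : Bool × Fd) (m : ℕ), c.size = s → c.len ≤ b → c.Deg b →
      AESK.PtT 0 (d0, c) a m → BlN θ ε μ M (Rgn b l K A' θ ε μ M n) (EndP θ ε M) a.2 →
        κ * (c.size + 1) < a.2.size + 1 → (M : ℝ) ≤ κ * (c.size + 1) → Coarse k₂ e₂ b₂ C c := by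
    intro n
    induction n with
    | zero =>
      intro s
      induction s using Nat.strong_induction_on with
      | _ s ih =>
        intro c d0 a m hs hl hD hP hB hlt hM
        have hnear : ∀ q : Fd, q.size < c.size → q.len ≤ b → q.Deg b →
            BlN θ ε μ M (Rgn b l K A' θ ε μ M 0) (EndP θ ε M) q → Near θ (θ / 1024) (θ / 64) (θ / 1000) 1 C q := by
          intro q hq hql hqD hBq
          refine ⟨(true, q), 0, AESK.PtT.refl, Or.inl rfl, ?_⟩
          have h1 : Coarse k₂ e₂ b₂ C q := by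
            by_cases hsm : (q.size + 1 : ℝ) ≤ M / κ
            · exact hsmall C c4 k₂ e₂ q hql hqD hsm
            · push Not at hsm
              rw [div_lt_iff₀ hκ] at hsm
              have hq1 : (0 : ℝ) < q.size + 1 := by positivity
              exact ih q.size (by omega) q true (true, q) 0 rfl hql hqD AESK.PtT.refl hBq
                (hκlt _ hq1) (by linarith)
          intro V R
          exact coarse_mono k1 e1 b1 h1
        rcases hstep C c1 hεa hμa c d0 a m hl hD hP hB hlt hM hnear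
          (fun a' m' g1 g2 g3 => hend C c3 ε hεb c d0 a' m' hl hD g1 g2 g3) with key | ⟨_, _, _, _, p, w, _, h, _⟩
        · intro V R
          exact key
        · exact h.elim
    | succ n ihn =>
      -- the exits of the lines
      have hW : ∀ c : Fd, c.len ≤ b → c.Deg b → Wc θ ε μ M (Rgn b l K A' θ ε μ M n) c → Coarse ke ee be C c := by
        intro c hl hD hc
        have h1 : Coarse k₂ e₂ b₂ C c := by
          by_cases hsm : (c.size + 1 : ℝ) ≤ M / κ
          · exact hsmall C c4 k₂ e₂ c hl hD hsm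
          · push Not at hsm
            rw [div_lt_iff₀ hκ] at hsm
            have hq1 : (0 : ℝ) < c.size + 1 := by positivity
            exact ihn c.size c true (true, c) 0 rfl hl hD AESK.PtT.refl hc.2 (hκlt _ hq1) (by linarith)
        intro V R
        exact coarse_mono k2 e2 b2 h1
      intro s
      induction s using Nat.strong_induction_on with
      | _ s ih =>
        intro c d0 a m hs hl hD hP hB hlt hM
        have hnear : ∀ q : Fd, q.size < c.size → q.len ≤ b → q.Deg b →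
            BlN θ ε μ M (Rgn b l K A' θ ε μ M (n + 1)) (EndP θ ε M) q →
              Near θ (θ / 1024) (θ / 64) (θ / 1000) 1 C q := by
          intro q hq hql hqD hBq
          refine ⟨(true, q), 0, AESK.PtT.refl, Or.inl rfl, ?_⟩
          have h1 : Coarse k₂ e₂ b₂ C q := by
            by_cases hsm : (q.size + 1 : ℝ) ≤ M / κ
            · exact hsmall C c4 k₂ e₂ q hql hqD hsm
            · push Not at hsm
              rw [div_lt_iff₀ hκ] at hsm
              have hq1 : (0 : ℝ) < q.size + 1 := by positivity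
              exact ih q.size (by omega) q true (true, q) 0 rfl hql hqD AESK.PtT.refl hBq
                (hκlt _ hq1) (by linarith)
          intro V R
          exact coarse_mono k1 e1 b1 h1
        rcases hstep C c1 hεa hμa c d0 a m hl hD hP hB hlt hM hnear
          (fun a' m' g1 g2 g3 => hend C c3 ε hεb c d0 a' m' hl hD g1 g2 g3) with key | key
        · intro V R
          exact key
        · intro V R
          exact hrig (W := Wc θ ε μ M (Rgn b l K A' θ ε μ M n)) C c2 (fun c hc => hc.win hθ2 c5) hW c d0 hl hD key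
  constructor
  · intro c d0 a m hl hD hP hB hlt hM
    exact coarse_mono k3 e3 b3 (main n c.size c d0 a m rfl hl hD hP hB hlt hM)
  · intro c hl hD hB
    have h1 : Coarse k₂ e₂ b₂ C c := by
      by_cases hsm : (c.size + 1 : ℝ) ≤ M / κ
      · exact hsmall C c4 k₂ e₂ c hl hD hsm
      · push Not at hsm
        rw [div_lt_iff₀ hκ] at hsm
        have hq1 : (0 : ℝ) < c.size + 1 := by positivity
        exact main n c.size c true (true, c) 0 rfl hl hD AESK.PtT.refl hB (hκlt _ hq1) (by linarith)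
    intro V R
    exact coarse_mono k3 e3 b3 h1

end AEN
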