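import Pool.Agent.AEN.MainN
import Pool.Agent.AEY.StepP

/-!
# Alternation of lines, balanced branches and many small pieces: the classes of codes
-/

set_option autoImplicit false

namespace AEN

open Finset AE15 AED AELT AEK AEJ AEW AEY
open scoped Classical

/-- exit trees: linear window or bounded size, and a chain of branches -/
def Wc (θ ε μ : ℝ) (M : ℕ) (Rg : Bool × Fd → ℕ → Prop) (c : Fd) : Prop :=
  (c.size + 1 ≤ M ∨ θ * (c.size + 1) + dcl c + AEB.blk c ≤ c.size + 1) ∧ BlN θ ε μ M Rg (EndP θ ε M) c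

/-- if the main line starts with two arcs away from the root, then no light arc starts at its second vertex -/
def TameR (b l K : ℕ) (F : Fd) : Prop := ∀ c c' : Fd, F.hv = some (true, c) → c.hv = some (true, c') →
  ∀ D : Fd, (true, D) ∈ c.trees → D = c' ∨ AET.FOL b l K 0 D

/-- rigid branches: lines which start against the arc to the parent, with small exits -/
def RgS (b l K A' : ℕ) (W : Fd → Prop) (p : Bool × Fd) (s : ℕ) : Prop :=
  (p.1 = false ∧ FX b l K (fun c => W c ∧ A' * (c.size + 1) < p.2.size + 1) 0 p.2 ∧ TameR b l K p.2 ∧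
      s + AEB.blk p.2 = p.2.size) ∨
    (p.1 = true ∧ FX b l K (fun c => W (mrr c) ∧ A' * (c.size + 1) < p.2.size + 1) 0 (mrr p.2) ∧
      TameR b l K (mrr p.2) ∧ s + dcl p.2 = p.2.size)

/-- the levels of rigid branches -/
def Rgn (b l K A' : ℕ) (θ ε μ : ℝ) (M : ℕ) : ℕ → Bool × Fd → ℕ → Prop
  | 0 => fun _ _ => False
  | n + 1 => RgS b l K A' (Wc θ ε μ M (Rgn b l K A' θ ε μ M n))

variable {b l K A' : ℕ} {θ ε μ : ℝ} {M : ℕ}

/-- the window of the exit trees, for large `C` -/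
theorem Wc.win {Rg : Bool × Fd → ℕ → Prop} {c : Fd} (h : Wc θ ε μ M Rg c) (hθ : θ ≤ 1 / 2) {C : ℝ} (hC : 2 * (M : ℝ) ≤ C) :
    (dcl c : ℝ) + AEB.blk c ≤ (1 - θ) * (c.size + 1 + C) := by
  have hM : (0 : ℝ) ≤ M := Nat.cast_nonneg _
  have h0 : (0 : ℝ) ≤ c.size := Nat.cast_nonneg _
  rcases h.1 with h1 | h1
  · have h4 : (c.size : ℝ) + 1 ≤ M := by exact_mod_cast h1
    have h5 : 1 / 2 * (c.size + 1 + C) ≤ (1 - θ) * (c.size + 1 + C) := mul_le_mul_of_nonneg_right (by linarith) (by linarith)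
    have h6 : (dcl c : ℝ) + AEB.blk c ≤ c.size := by exact_mod_cast AEJ.dcl_add_blk_le c
    linarith
  · have h2 : 0 ≤ (1 - θ) * C := mul_nonneg (by linarith) (by linarith)
    linarith

theorem Wc.mono {Rg Rg' : Bool × Fd → ℕ → Prop} (h : ∀ p s, Rg p s → Rg' p s) {c : Fd} (hc : Wc θ ε μ M Rg c) :
    Wc θ ε μ M Rg' c := ⟨hc.1, hc.2.mono h fun _ h => h⟩

theorem RgS.mono {W W' : Fd → Prop} (h : ∀ c, W c → W' c) {p : Bool × Fd} {s : ℕ} (hp : RgS b l K A' W p s) :
    RgS b l K A' W' p s := by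
  rcases hp with ⟨h1, h2, h3⟩ | ⟨h1, h2, h3⟩
  · exact Or.inl ⟨h1, h2.monoQ fun c hc => ⟨h c hc.1, hc.2⟩, h3⟩
  · exact Or.inr ⟨h1, h2.monoQ fun c hc => ⟨h _ hc.1, hc.2⟩, h3⟩

/-! ### larger degree bounds -/

theorem tameR_mono {b b' K : ℕ} (h : b ≤ b') {F : Fd} (hF : TameR b l K F) : TameR b' l K F := fun c c' h1 h2 D hD =>
  (hF c c' h1 h2 D hD).imp_right fun g => ⟨g.1.trans h, deg_mono h g.2.1, g.2.2⟩

theorem fx_monoB {b b' K j : ℕ} (h : b ≤ b') {Q : Fd → Prop} {F : Fd} (hF : FX b l K Q j F) : FX b' l K Q j F :=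
  ⟨hF.1.trans h, deg_mono h hF.2.1, hF.2.2⟩

theorem RgS.monoB {b b' : ℕ} (hb : b ≤ b') {W : Fd → Prop} {p : Bool × Fd} {s : ℕ} (hp : RgS b l K A' W p s) :
    RgS b' l K A' W p s := by
  rcases hp with ⟨h1, h2, h3, h4⟩ | ⟨h1, h2, h3, h4⟩
  · exact Or.inl ⟨h1, fx_monoB hb h2, tameR_mono hb h3, h4⟩
  · exact Or.inr ⟨h1, fx_monoB hb h2, tameR_mono hb h3, h4⟩

theorem rgn_monoB {b b' : ℕ} (hb : b ≤ b') (n : ℕ) : ∀ p s, Rgn b l K A' θ ε μ M n p s →
    Rgn b' l K A' θ ε μ M n p s := by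
  induction n with
  | zero => intro p s h; exact h.elim
  | succ n ih => intro p s h; exact (RgS.mono (fun c hc => hc.mono ih) h).monoB hb

theorem rgn_succ (n : ℕ) : ∀ p s, Rgn b l K A' θ ε μ M n p s → Rgn b l K A' θ ε μ M (n + 1) p s := by
  induction n with
  | zero => intro p s h; exact h.elim
  | succ n ih => intro p s h; exact RgS.mono (fun c hc => hc.mono ih) h

theorem rgn_mono {m n : ℕ} (h : m ≤ n) : ∀ p s, Rgn b l K A' θ ε μ M m p s → Rgn b l K A' θ ε μ M n p s := by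
  induction n, h using Nat.le_induction with
  | base => intro p s h; exact h
  | succ n _ ih => intro p s h; exact rgn_succ n p s (ih p s h)

theorem rgS_window {W : Fd → Prop} : RigW (RgS b l K A' W) := by
  intro p s h
  rcases h with ⟨h1, -, -, h3⟩ | ⟨h1, -, -, h3⟩
  · rw [h1]
    simp only [Bool.false_eq_true, if_false]
    omega
  · rw [h1]
    simp only [if_true]
    omega

theorem rgn_window (n : ℕ) : RigW (Rgn b l K A' θ ε μ M n) := by
  cases n with
  | zero => exact rigW_false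
  | succ n => exact rgS_window

end AEN
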