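import Pool.Agent.AEN.Alt

/-!
# The main theorem for codes
-/

set_option autoImplicit false

namespace AEN

open Finset AE15 AED AELT AEK AEJ AEB AEG AEF AET AEW AEY
open scoped Classical

/-- **Main theorem for codes** (the theorem on rigid ends is a hypothesis): chains of branches, main lines with exits,
and reversed main lines -/
theorem alt_main (hR : ∀ b l : ℕ, 1 ≤ b → RigSt b (ab b l)) (b l : ℕ) (hb : 1 ≤ b) : ∃ A' : ℕ, ∀ θ : ℝ, 0 < θ → θ ≤ 1 / 2 →
    ∃ (ε₀ μ₀ : ℝ) (K₁ : ℕ), 0 < ε₀ ∧ 0 < μ₀ ∧ ∀ K : ℕ, K₁ ≤ K → ∀ M : ℕ, ∃ C : ℕ,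
      ∀ {V : Type} {R : V → V → Prop}, AE32.Tour R → ∀ {ε μ : ℝ}, ε ≤ ε₀ → μ ≤ μ₀ → ∀ (n : ℕ) (F : Fd),
        ((F.len ≤ b ∧ F.Deg b ∧ BlN θ ε μ M (Rgn b l K A' θ ε μ M n) (EndP θ ε M) F) ∨
          FX b l K (Wc θ ε μ M (Rgn b l K A' θ ε μ M n)) 0 F ∨
          FX b l K (fun c => Wc θ ε μ M (Rgn b l K A' θ ε μ M n) (mrr c)) 0 (mrr F)) →
        ∀ X : Finset V, F.size + 1 + C ≤ X.card → In R F (fun _ => True) X := by
  obtain ⟨A', hA'⟩ := alt_coarse (b + 1) l (by omega) (hR (b + 1) l (by omega))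
  refine ⟨A', ?_⟩
  intro θ hθ hθ2
  have hθ1 : θ ≤ 1 := by linarith
  obtain ⟨ke, ee, be, K₁, m1, m2, m3, hmain⟩ := main_fx' b l hb hθ hθ1
  obtain ⟨w, hw'⟩ : ∃ w : ℝ, w = θ * θ / 2 := ⟨_, rfl⟩
  have hw0 : 0 < w := by rw [hw']; positivity
  have hw1 : w ≤ 1 := by rw [hw']; nlinarith
  have hwθ : w ≤ θ / 2 := by rw [hw']; nlinarith
  have hwθθ : w ≤ θ * θ := by rw [hw']; nlinarith
  obtain ⟨κ, ε₀, μ₀, K₂, hκ, hκc, hε₀, hμ₀, hco⟩ := hA' θ hθ hθ2 (k := min (w / 64) ke) (e := min (w / 8) ee)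
    (bt := min (w / 4) be) (cap := θ / 2) (lt_min (by positivity) m1) (lt_min (by positivity) m2)
    (lt_min (by positivity) m3) (by positivity)
  refine ⟨min ε₀ (1 / 2), μ₀, max K₁ K₂, lt_min hε₀ (by norm_num), hμ₀, ?_⟩
  intro K hK M
  obtain ⟨n₀, hmain⟩ := hmain K ((le_max_left _ _).trans hK)
  obtain ⟨C₁, hco⟩ := hco K ((le_max_right _ _).trans hK) M
  obtain ⟨C₃, hC₃0, hU⟩ := un_one b hb (β := 1) one_pos
  obtain ⟨L, hL⟩ : ∃ L : ℝ, L = M / κ + M := ⟨_, rfl⟩
  obtain ⟨C, hC⟩ : ∃ C : ℕ, C = ⌈max (max (max C₁ n₀) (max (L + C₃) (24 / w))) (2 * M)⌉₊ := ⟨_, rfl⟩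
  have hC'' : max (max (max C₁ n₀) (max (L + C₃) (24 / w))) (2 * M) ≤ (C : ℝ) := by rw [hC]; exact Nat.le_ceil _
  have c5 : 2 * (M : ℝ) ≤ C := (le_max_right _ _).trans hC''
  have hC' : max (max C₁ n₀) (max (L + C₃) (24 / w)) ≤ (C : ℝ) := (le_max_left _ _).trans hC''
  have c1 : C₁ ≤ C := (le_max_left _ _).trans ((le_max_left _ _).trans hC')
  have c2 : (n₀ : ℝ) ≤ C := (le_max_right _ _).trans ((le_max_left _ _).trans hC')
  have c3 : L + C₃ ≤ C := (le_max_left _ _).trans ((le_max_right _ _).trans hC')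
  have c4 : 24 / w ≤ C := (le_max_right _ _).trans ((le_max_right _ _).trans hC')
  rw [div_le_iff₀ hw0] at c4
  have c0 : (0 : ℝ) ≤ C := Nat.cast_nonneg _
  refine ⟨C, ?_⟩
  intro V R hT ε μ hεε hμμ n F hF X hX
  have hε1 : ε ≤ ε₀ := hεε.trans (min_le_left _ _)
  have hε2 : ε ≤ 1 / 2 := hεε.trans (min_le_right _ _)
  have hXR : (F.size : ℝ) + 1 + C ≤ X.card := by exact_mod_cast hX
  obtain ⟨hco1, hco2⟩ := hco C c1 hε1 hμμ n
  have hRB : ∀ p s, Rgn b l K A' θ ε μ M n p s → Rgn (b + 1) l K A' θ ε μ M n p s := rgn_monoB (Nat.le_succ b) n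
  -- the exits are coarse
  have hex : ∀ c : Fd, c.len ≤ b → c.Deg b → Wc θ ε μ M (Rgn b l K A' θ ε μ M n) c → Coarse ke ee be C c := by
    intro c hl hD hc
    have h1 : Coarse (min (w / 64) ke) (min (w / 8) ee) (min (w / 4) be) C c :=
      hco2 c (hl.trans (Nat.le_succ b)) (deg_mono (Nat.le_succ b) hD) (hc.2.mono hRB fun _ h => h)
    intro V R
    exact coarse_mono (min_le_right _ _) (min_le_right _ _) (min_le_right _ _) h1
  rcases hF with ⟨hl, hD, hB⟩ | hF | hF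
  · -- chains of branches
    by_cases hsm : (F.size + 1 : ℝ) ≤ L
    · exact hU hT F hl hD X (by norm_num; linarith)
    push Not at hsm
    have hM0 : (0 : ℝ) ≤ M := Nat.cast_nonneg _
    have hMκ : 0 ≤ M / κ := by positivity
    have hsκ : (M : ℝ) < κ * (F.size + 1) := by
      have h1 : M / κ < F.size + 1 := by linarith
      rw [div_lt_iff₀ hκ] at h1
      linarith
    have hs1 : (0 : ℝ) < F.size + 1 := by positivity
    -- the tree `c'` has a window and a branch of the class of comparable size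
    have hcs : ∀ (c' : Fd) (a : Bool × Fd) (m : ℕ), c'.len ≤ b + 1 → c'.Deg (b + 1) → c'.size = F.size →
        AESK.PtT 0 (true, c') a m → BlN θ ε μ M (Rgn b l K A' θ ε μ M n) (EndP θ ε M) a.2 →
        κ * (c'.size + 1) < a.2.size + 1 → w * (c'.size + 1) + dcl c' + AEB.blk c' ≤ c'.size + 1 →
        In R c' (fun _ => True) X := by
      intro c' a m hl' hD' hs' hP' hB' hlt' hwin'
      have h1 : Coarse (min (w / 64) ke) (min (w / 8) ee) (min (w / 4) be) C c' :=
        hco1 c' true a m hl' hD' hP' (hB'.mono hRB fun _ h => h) hlt' (by rw [hs']; exact hsκ.le)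
      have h2 : Coarse (w / 64) (w / 8) (w / 4) C c' := by
        intro V R
        exact coarse_mono (min_le_left _ _) (min_le_left _ _) (min_le_left _ _) h1
      exact in_of_coarse hw0 hw1 c4 c0 hwin' h2 hT X (by rw [hs']; exact hXR)
    have hκ1 : κ < 1 := by linarith
    have hlt0 : κ * ((F.size : ℝ) + 1) < (true, F).2.size + 1 := by
      have g1 : κ * ((F.size : ℝ) + 1) < 1 * ((F.size : ℝ) + 1) := mul_lt_mul_of_pos_right hκ1 (by positivity)
      rwa [one_mul] at g1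
    have hl1 : F.len ≤ b + 1 := hl.trans (Nat.le_succ b)
    have hD1 : F.Deg (b + 1) := deg_mono (Nat.le_succ b) hD
    have hB' := hB
    cases hB' with
    | small _ h0 =>
      exfalso
      have h1 : (F.size + 1 : ℝ) ≤ M := by exact_mod_cast h0
      linarith
    | rig _ p s h1 h2 h3 =>
      have h4 := rig_window' (rgn_window n) h1 h2 h3
      refine hcs F (true, F) 0 hl1 hD1 rfl AESK.PtT.refl hB hlt0 ?_
      have h5 : w * ((F.size : ℝ) + 1) ≤ θ * (F.size + 1) := mul_le_mul_of_nonneg_right (by linarith) hs1.le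
      linarith
    | fin _ h1 =>
      have h4 := endP_window ε M F hε2 h1
      refine hcs F (true, F) 0 hl1 hD1 rfl AESK.PtT.refl hB hlt0 ?_
      have h5 : w * ((F.size : ℝ) + 1) ≤ θ / 2 * (F.size + 1) := mul_le_mul_of_nonneg_right hwθ hs1.le
      linarith
    | step _ d0 q m hP hq1 hq2 hq3 hBq =>
      obtain ⟨c', g1, g2, g3, g4, g6⟩ := reroot_parent hP hq1 hl hD
      have hP' : AESK.PtT 0 (true, c') q _ := AESK.PtT.step (true, c') q 0 AESK.PtT.refl g1 (Nat.zero_le _)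
      refine g6 X (hcs c' q _ g2 g3 g4 hP' hBq ?_ ?_)
      · rw [g4]
        have h1 : κ * ((F.size : ℝ) + 1) ≤ θ / 2 * (F.size + 1) := mul_le_mul_of_nonneg_right hκc hs1.le
        have h2 : 0 < θ * ((F.size : ℝ) + 1) := by positivity
        linarith
      · have h1 := child_window g1 hq3
        have h2 : θ * (θ * (F.size + 1)) ≤ θ * (q.2.size + 1) := mul_le_mul_of_nonneg_left hq2 hθ.le
        have h3 : w * ((c'.size : ℝ) + 1) ≤ θ * θ * (F.size + 1) := by
          rw [g4]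
          exact mul_le_mul_of_nonneg_right hwθθ hs1.le
        linarith
    | many D q m hone hpsz hm hwin hBq =>
      refine hcs D.un (true, D.un) 0 hl1 hD1 rfl AESK.PtT.refl hB hlt0 ?_
      have h1 := one_window (ε := 1 / 2) (by norm_num) (by norm_num) (one_mono hε2 D hone)
      have h2 : w * ((D.un.size : ℝ) + 1) ≤ θ / 2 * (D.un.size + 1) := mul_le_mul_of_nonneg_right hwθ hs1.le
      linarith
  · -- lines
    exact hmain (W₀ := Wc θ ε μ M (Rgn b l K A' θ ε μ M n)) hT C c2 (fun c hc => hc.win hθ2 c5) F.size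
      (fun c _ hl hD hc => hex c hl hD hc) F le_rfl hF X hXR
  · -- reversed lines
    have h1 : In (rev R) (mrr F) (fun _ => True) X := by
      refine hmain (W₀ := fun c => Wc θ ε μ M (Rgn b l K A' θ ε μ M n) (mrr c)) (AEK.tour_rev hT) C c2 ?_ (mrr F).size
        ?_ (mrr F) le_rfl hF X (by rw [mrr_size]; exact hXR)
      · intro c hc
        have g3 := hc.win hθ2 c5
        rw [mrr_size, dcl_mrr, blk_mrr] at g3
        linarith
      · intro c _ hl hD hc
        have g4 : Coarse ke ee be C (mrr c) := hex (mrr c) (by rw [mrr_len]; exact hl) (mrr_deg hD) hc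
        intro V R
        exact (@coarse_mrr ke ee be C c).1 g4
    have h2 := In.mrr h1
    rw [mrr_mrr] at h2
    exact h2

end AEN
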