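import Pool.Agent.AEN.AltDefs

/-!
# The classes of codes: monotonicity in the bound for the exits
-/

set_option autoImplicit false

namespace AEN

open Finset AE15 AED AELT AEK AEJ AEW AEY
open scoped Classical

variable {b l K A' A'' : ℕ} {θ ε μ : ℝ} {M : ℕ}

theorem RgS.monoA (hA : A' ≤ A'') {W : Fd → Prop} {p : Bool × Fd} {s : ℕ} (hp : RgS b l K A'' W p s) :
    RgS b l K A' W p s := by
  have h : ∀ {x y : ℕ}, A'' * x < y → A' * x < y := fun h => lt_of_le_of_lt (Nat.mul_le_mul_right _ hA) h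
  rcases hp with ⟨h1, h2, h3⟩ | ⟨h1, h2, h3⟩
  · exact Or.inl ⟨h1, h2.monoQ fun c hc => ⟨hc.1, h hc.2⟩, h3⟩
  · exact Or.inr ⟨h1, h2.monoQ fun c hc => ⟨hc.1, h hc.2⟩, h3⟩

theorem rgn_monoA (hA : A' ≤ A'') (n : ℕ) : ∀ p s, Rgn b l K A'' θ ε μ M n p s → Rgn b l K A' θ ε μ M n p s := by
  induction n with
  | zero => intro p s h; exact h.elim
  | succ n ih => intro p s h; exact (RgS.mono (fun c hc => hc.mono ih) h).monoA hA

theorem wc_monoA (hA : A' ≤ A'') (n : ℕ) {c : Fd} (h : Wc θ ε μ M (Rgn b l K A'' θ ε μ M n) c) :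
    Wc θ ε μ M (Rgn b l K A' θ ε μ M n) c := h.mono (rgn_monoA hA n)

end AEN
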