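import Pool.Agent.AEN.CodH

/-!
# Lines and the alternating class, for a rooted tree given by its parent relation
-/

set_option autoImplicit false

namespace AEN

open Finset Relation AE15 AED AEB AET AELT AEJ LTT AEK AEY
open scoped Classical

variable {τ : Type*} [Fintype τ]

/-- the vertices of the branch at `v` which are not joined to `v` by directed paths -/
noncomputable def ncY (E P : τ → τ → Prop) (v : τ) : Finset τ :=
  (AE32.desc P v).filter (fun x => ¬ ReflTransGen E v x ∧ ¬ ReflTransGen E x v)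

/-- a line from `p a` to `p t` -/
def LineP (l K L M : ℕ) (E P : τ → τ → Prop) (h : τ → τ) (p : ℕ → τ) (a t : ℕ) : Prop :=
  a ≤ t ∧ (∀ i, a ≤ i → i < t → p (i + 1) = h (p i)) ∧ (a = 0 ∨ E (p a) (p (a - 1))) ∧
  ((AE32.desc P (p t)).card ≤ L ∨ (a < t ∧ E (p (t - 1)) (p t) ∧
      K * (inY E P (p t)).card ≤ (AE32.desc P (p (t - 1))).card ∧
      ((AE32.desc P (p t)).card ≤ M ∨ (AE32.desc P (p t)).card ≤ L * (ncY E P (p t)).card))) ∧
  ∀ q : ℕ → τ, (∀ i ≤ l, E (q i) (q (i + 1)) ∧ P (q (i + 1)) (q i)) → q (l + 1) ∈ AE32.desc P (p a) →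
    q 0 ∈ AE32.desc P (p t) ∨ ∃ u w, u ∈ AE32.desc P (p a) ∧ (a = 0 ∨ u ≠ p (a + 1)) ∧ P u w ∧ E u w ∧ w ≠ h u ∧
      K * (inY E P w).card ≤ (AE32.desc P u).card ∧ q 0 ∈ AE32.desc P w

/-- a line with respect to the arcs or to the reversed arcs -/
def LineB (l K L M : ℕ) (E P : τ → τ → Prop) (h : τ → τ) (p : ℕ → τ) (a t : ℕ) : Prop :=
  LineP l K L M E P h p a t ∨ LineP l K L M (fun a b => E b a) P h p a t

/-- the condition on the indices in `S`; `Ca`: the set of the calm vertices -/
def AltP (l K L M : ℕ) (E P : τ → τ → Prop) (h : τ → τ) (p : ℕ → τ) (m : ℕ) (S : Set ℕ) (Ca : Set τ) : Prop :=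
  (∀ i < m, P (p i) (p (i + 1))) ∧ (∀ i ∈ S, i ≤ m) ∧
  ∀ i ∈ S, M < (AE32.desc P (p i)).card →
    -- many calm vertices
    (AE32.desc P (p i)).card ≤ L * ((AE32.desc P (p i)).filter (fun x => x ∈ Ca)).card ∨
    -- a balanced branch, of comparable size or with many calm vertices outside
    (∃ j, i < j ∧ j ≤ m ∧ j ∈ S ∧ (AE32.desc P (p j)).card ≤ L * (ncY E P (p j)).card ∧
      (AE32.desc P (p i)).card ≤ L * ((AE32.desc P (p j)).card +
        ((AE32.desc P (p i) \ AE32.desc P (p j)).filter (fun x => x ∈ Ca)).card)) ∨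
    -- a line of comparable size
    (∃ j, i < j ∧ j ≤ m ∧ (AE32.desc P (p i)).card ≤ L * (AE32.desc P (p j)).card ∧
      ∃ t ∈ S, t ≤ m ∧ LineB l K L M E P h p j t)

theorem LineP.mono {l l' K K' L L' M M' : ℕ} (hl : l ≤ l') (hK : K' ≤ K) (hL : L ≤ L') (hM : M ≤ M')
    {E P : τ → τ → Prop} {h : τ → τ} {p : ℕ → τ} {a t : ℕ} (H : LineP l K L M E P h p a t) :
    LineP l' K' L' M' E P h p a t := by
  obtain ⟨h1, h2, h3, h4, h5⟩ := H
  refine ⟨h1, h2, h3, ?_, ?_⟩
  · rcases h4 with h4 | ⟨h4, h6, h7, h8⟩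
    · exact Or.inl (h4.trans hL)
    · exact Or.inr ⟨h4, h6, le_trans (Nat.mul_le_mul_right _ hK) h7,
        h8.imp (fun h8 => h8.trans hM) fun h8 => h8.trans (Nat.mul_le_mul_right _ hL)⟩
  · intro q hq hr
    have hdown : ∀ s, s ≤ l' + 1 → q (l' + 1 - s) ∈ AE32.desc P (p a) := by
      intro s
      induction s with
      | zero => intro _; exact hr
      | succ s ih =>
        intro hs
        have h6 := ih (by omega)
        have h7 := (hq (l' + 1 - (s + 1)) (by omega)).2
        rw [show l' + 1 - (s + 1) + 1 = l' + 1 - s by omega] at h7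
        exact AE32.mem_desc.2 ((AE32.mem_desc.1 h6).tail h7)
    have h6 := hdown (l' - l) (by omega)
    rw [show l' + 1 - (l' - l) = l + 1 by omega] at h6
    rcases h5 q (fun i hi => hq i (by omega)) h6 with h7 | ⟨u, w, g1, g0, g2, g3, g4, g5, g6⟩
    · exact Or.inl h7
    · exact Or.inr ⟨u, w, g1, g0, g2, g3, g4, le_trans (Nat.mul_le_mul_right _ hK) g5, g6⟩

theorem LineB.mono {l l' K K' L L' M M' : ℕ} (hl : l ≤ l') (hK : K' ≤ K) (hL : L ≤ L') (hM : M ≤ M')
    {E P : τ → τ → Prop} {h : τ → τ} {p : ℕ → τ} {a t : ℕ} (H : LineB l K L M E P h p a t) :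
    LineB l' K' L' M' E P h p a t :=
  H.imp (fun H => H.mono hl hK hL hM) fun H => H.mono hl hK hL hM

theorem AltP.mono {l K K' L M : ℕ} (hK : K' ≤ K) {E P : τ → τ → Prop} {h : τ → τ} {p : ℕ → τ} {m : ℕ} {S : Set ℕ}
    {Ca Ca' : Set τ} (hCa : Ca ⊆ Ca') (H : AltP l K L M E P h p m S Ca) : AltP l K' L M E P h p m S Ca' := by
  have hc : ∀ A : Finset τ, (A.filter (fun x => x ∈ Ca)).card ≤ (A.filter (fun x => x ∈ Ca')).card := fun A =>
    card_le_card (monotone_filter_right A fun x _ hx => hCa hx)
  refine ⟨H.1, H.2.1, fun i hi hL => ?_⟩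
  rcases H.2.2 i hi hL with g | ⟨j, g1, g2, g3, g4, g5⟩ | ⟨j, g1, g2, g3, t, ht, g4, g5⟩
  · exact Or.inl (g.trans (Nat.mul_le_mul_left _ (hc _)))
  · exact Or.inr (Or.inl ⟨j, g1, g2, g3, g4, g5.trans (Nat.mul_le_mul_left _ (Nat.add_le_add_left (hc _) _))⟩)
  · exact Or.inr (Or.inr ⟨j, g1, g2, g3, t, ht, g4, g5.mono le_rfl hK le_rfl le_rfl⟩)

theorem desc_ne_of_card {P : τ → τ → Prop} {rk : τ → ℕ} (hE : ∀ a b, P a b → rk a < rk b) {q : ℕ → τ} {n : ℕ}
    (hq : ∀ i < n, P (q (i + 1)) (q i)) : Set.InjOn q (Set.Iic n) := by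
  have hmono : ∀ d i, i + d ≤ n → rk (q (i + d)) + d ≤ rk (q i) := by
    intro d
    induction d with
    | zero => intro i _; simp
    | succ d ih =>
      intro i hi
      have h1 := ih i (by omega)
      have h2 := hE _ _ (hq (i + d) (by omega))
      rw [show i + (d + 1) = i + d + 1 by omega]
      omega
  intro i hi j hj hij
  rw [Set.mem_Iic] at hi hj
  rcases Nat.lt_trichotomy i j with h | h | h
  · have := hmono (j - i) i (by omega)
    rw [show i + (j - i) = j by omega, hij] at this
    omega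
  · exact h
  · have := hmono (i - j) j (by omega)
    rw [show j + (i - j) = i by omega, hij] at this
    omega

/-- **a line gives a forest of the class** -/
theorem line_fx {E P : τ → τ → Prop} {rk : τ → ℕ} (hE : ∀ a b, P a b → rk a < rk b)
    (hin : ∀ a b c, P a c → P b c → a = b) (hP : ∀ a c, P a c → E a c ∨ E c a) (hanti : ∀ a c, E a c → ¬ E c a)
    {b l K L M : ℕ} (hb : ∀ v, {w | E v w ∨ E w v}.ncard ≤ b) (h : τ → τ)
    (hmain : ∀ u w, P u w → P u (h u) ∧ (AE32.desc P w).card ≤ (AE32.desc P (h u)).card) {p : ℕ → τ} {m : ℕ}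
    (hp : ∀ i < m, P (p i) (p (i + 1))) {a t : ℕ} (htm : t ≤ m) {Q : Fd → Prop}
    (hQ : L < (AE32.desc P (p t)).card → Q (codH E P h (p t))) (hline : LineP l K L M E P h p a t) :
    FX b (l + L) K Q 0 (codH E P h (p a)) := by
  have hh : ∀ u w, P u w → P u (h u) := fun u w h => (hmain u w h).1
  have hvc := vc_of_cod hE hin hP hb (codH_cod' (E := E) hE hh (p a))
  refine ⟨hvc.len, hvc.deg, ?_⟩
  obtain ⟨h1, h2, -, h4, h5⟩ := hline
  have hself : p a ∈ AE32.desc P (p a) := AE32.self_mem_desc _
  have hNLa : NLH E P K h (p a) (p a) := by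
    intro u w hu huw _ _ _ hcon
    have g1 := AE32.rank_le hE (AE32.mem_desc.1 hu)
    have g2 := AE32.rank_le hE (AE32.mem_desc.1 hcon)
    have g3 := hE _ _ huw
    omega
  by_cases hsm : (AE32.desc P (p t)).card ≤ L
  · -- the branch at the end is small
    refine inX_of_inL _ (codes_hL hE hin hP hanti (L := l + L) (K := K) h hmain (r₀ := p a) ?_ _ (p a) rfl hself 0
      (wkH_zero hself) hNLa)
    intro f hf hfr hNL
    have hex : ∃ s ≤ L, f s ∉ AE32.desc P (p t) := by
      by_contra hc
      push Not at hc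
      have hinj := desc_ne_of_card (n := L) hE (q := f) (fun i hi => (hf i (by omega)).2)
      have g1 : (f '' Set.Iic L).ncard = L + 1 := by
        rw [Set.InjOn.ncard_image hinj, ← Finset.coe_Iic, Set.ncard_coe_finset, Nat.card_Iic]
      have g2 : (f '' Set.Iic L).ncard ≤ (AE32.desc P (p t)).card := by
        rw [← Set.ncard_coe_finset]
        apply Set.ncard_le_ncard _ (Set.toFinite _)
        rintro x ⟨i, hi, rfl⟩
        exact mem_coe.2 (hc i hi)
      omega
    obtain ⟨s, hs, hsv⟩ := hex
    have hdown : ∀ s', s' ≤ l + L + 1 → f (l + L + 1 - s') ∈ AE32.desc P (p a) := by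
      intro s'
      induction s' with
      | zero => intro _; exact hfr
      | succ s' ih =>
        intro hs
        have h6 := ih (by omega)
        have h7 := (hf (l + L + 1 - (s' + 1)) (by omega)).2
        rw [show l + L + 1 - (s' + 1) + 1 = l + L + 1 - s' by omega] at h7
        exact AE32.mem_desc.2 ((AE32.mem_desc.1 h6).tail h7)
    have hlast := hdown (L - s) (by omega)
    rw [show l + L + 1 - (L - s) = s + (l + 1) by omega] at hlast
    have hback : ∀ s', s' ≤ s → f 0 ∈ AE32.desc P (f s') := by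
      intro s'
      induction s' with
      | zero => intro _; exact AE32.self_mem_desc _
      | succ s' ih =>
        intro hs
        exact AE32.mem_desc.2 ((AE32.mem_desc.1 (ih (by omega))).head (hf s' (by omega)).2)
    rcases h5 (fun i => f (s + i)) (fun i hi => by
        have := hf (s + i) (by omega)
        exact this) (by simpa using hlast) with g1 | ⟨u, w, g1, -, g2, g3, g4, g5, g6⟩
    · exact hsv (by simpa using g1)
    · refine hNL u w g1 g2 g3 g4 g5 ?_
      have g7 : f s ∈ AE32.desc P w := by simpa using g6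
      exact AE32.mem_desc.2 ((AE32.mem_desc.1 g7).trans (AE32.mem_desc.1 (hback s le_rfl)))
  · -- the exit
    rcases h4 with h4 | ⟨hat, e1, e2, e3⟩
    · exact absurd h4 hsm
    have hdesc : ∀ i j, i ≤ j → j ≤ m → p j ∈ AE32.desc P (p i) := by
      intro i j hij
      induction j, hij using Nat.le_induction with
      | base => intro _; exact AE32.self_mem_desc _
      | succ j hij ih => intro hj; exact AE32.mem_desc.2 ((AE32.mem_desc.1 (ih (by omega))).tail (hp j (by omega)))
    have hrk : ∀ i j, i ≤ j → j ≤ m → rk (p i) + (j - i) ≤ rk (p j) := by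
      intro i j hij
      induction j, hij using Nat.le_induction with
      | base => intro _; simp
      | succ j hij ih =>
        intro hj
        have g1 := ih (by omega)
        have g2 := hE _ _ (hp j (by omega))
        omega
    -- the ancestors of `p t` behind `p a`
    have hanc : ∀ d, ∀ u, a + d ≤ t → u ∈ AE32.desc P (p a) → p (a + d) ∈ AE32.desc P u →
        ∃ i', a ≤ i' ∧ i' ≤ a + d ∧ u = p i' := by
      intro d
      induction d with
      | zero =>
        intro u _ hu hpu
        refine ⟨a, le_rfl, le_rfl, ?_⟩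
        rw [Nat.add_zero] at hpu
        rcases (AE32.mem_desc.1 hpu).cases_head with g1 | ⟨e, g1, g2⟩
        · exact g1
        · have g3 := AE32.rank_le hE (AE32.mem_desc.1 hu)
          have g4 := AE32.rank_le hE g2
          have g5 := hE _ _ g1
          omega
      | succ d ih =>
        intro u hd hu hpu
        rcases (AE32.mem_desc.1 hpu).cases_tail with g1 | ⟨e, g1, g2⟩
        · exact ⟨a + (d + 1), by omega, le_rfl, g1.symm⟩
        · have g3 := hin _ _ _ g2 (hp (a + d) (by omega))
          subst g3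
          obtain ⟨i', g4, g5, g6⟩ := ih u (by omega) hu (AE32.mem_desc.2 g1)
          exact ⟨i', g4, by omega, g6⟩
    have ht1 : t - 1 + 1 = t := by omega
    have hpt : P (p (t - 1)) (p t) := by
      have := hp (t - 1) (by omega)
      rwa [ht1] at this
    have hkey := codes_h hE hin hP hanti (L := l + L) (K := K) (Q := Q) h hmain (r₀ := p a) (v₀ := p t)
      (fun f hf hfr hf0 hNL => by
        have hdown : ∀ s', s' ≤ l + L + 1 → f (l + L + 1 - s') ∈ AE32.desc P (p a) := by
          intro s'
          induction s' with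
          | zero => intro _; exact hfr
          | succ s' ih =>
            intro hs
            have h6 := ih (by omega)
            have h7 := (hf (l + L + 1 - (s' + 1)) (by omega)).2
            rw [show l + L + 1 - (s' + 1) + 1 = l + L + 1 - s' by omega] at h7
            exact AE32.mem_desc.2 ((AE32.mem_desc.1 h6).tail h7)
        have hlast := hdown L (by omega)
        rw [show l + L + 1 - L = l + 1 by omega] at hlast
        rcases h5 f (fun i hi => hf i (by omega)) hlast with g1 | ⟨u, w, g1, -, g2, g3, g4, g5, g6⟩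
        · exact hf0 g1
        · exact hNL u w g1 g2 g3 g4 g5 g6)
      (fun u _ hu => by
        have := hin _ _ _ hu hpt
        subst this
        exact ⟨e1, e2⟩) (hQ (by omega))
      (fun u hur hu hne => by
        obtain ⟨i, hi1, hi2, rfl⟩ := hanc (t - a) u (by omega) hur (by rw [show a + (t - a) = t by omega]; exact hu)
        have hit : i < t := by
          rcases Nat.lt_or_ge i t with h1 | h1
          · exact h1
          · exact absurd (by rw [show i = t by omega]) hne
        rw [← h2 i hi1 hit]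
        exact hdesc (i + 1) t (by omega) htm) _ (p a) rfl hself 0 (wkH_zero hself) hNLa (by
          intro hcon
          have g1 := AE32.rank_le hE (AE32.mem_desc.1 hcon)
          have g2 := hrk a t h1 htm
          omega)
    exact hkey.2 (hdesc a t h1 htm)

end AEN
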