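import Pool.Agent.AEN.LineA
import Pool.Agent.AEN.DefsH

/-!
# No light arc starts at the second vertex of a line: the out-children of this vertex
-/

set_option autoImplicit false

namespace AEN

open Finset Relation AE15 AED AEB AET AELT AEJ LTT AEK AEY
open scoped Classical

section tame

variable {τ : Type*} [Fintype τ] {E P : τ → τ → Prop}

/-- the global code of `CodH` has the main child first -/
theorem gcod_codH {rk : τ → ℕ} (hE : ∀ a b, P a b → rk a < rk b) {h : τ → τ} (hh : ∀ u w, P u w → P u (h u)) :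
    GCod E P h (codH E P h) := by
  intro v
  have h1 := codH_eq (E := E) hE hh v
  by_cases hc : ∃ w, P v w
  · refine Or.inl ⟨((univ.filter (fun w => P v w)).erase (h v)).toList, ?_, ?_, ?_⟩
    · have := ordH_nodup P h v
      rwa [ordH, if_pos hc] at this
    · intro w
      have := mem_ordH (P := P) hh (v := v) (w := w)
      rwa [ordH, if_pos hc] at this
    · rwa [ordH, if_pos hc] at h1
  · refine Or.inr ⟨fun w hw => hc ⟨w, hw⟩, ?_⟩
    rw [ordH, if_neg hc] at h1
    exact h1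

/-- `v` is not behind a light arc of the branch at `a` which starts outside of `Xc` -/
def NLT (E P : τ → τ → Prop) (K : ℕ) (hm : τ → τ) (a : τ) (Xc : τ → Prop) (v : τ) : Prop :=
  ∀ u w, u ∈ AE32.desc P a → ¬ Xc u → P u w → E u w → w ≠ hm u → K * (inY E P w).card ≤ (AE32.desc P u).card →
    v ∉ AE32.desc P w

/-- the walks which start outside of `D` and leave no light arc have at most `L` arcs -/
def RunT (E P : τ → τ → Prop) (L K : ℕ) (hm : τ → τ) (a : τ) (Xc D : τ → Prop) : Prop :=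
  ∀ f : ℕ → τ, (∀ i ≤ L, E (f i) (f (i + 1)) ∧ P (f (i + 1)) (f i)) → f (L + 1) ∈ AE32.desc P a → ¬ D (f 0) →
    ¬ NLT E P K hm a Xc (f 0)

private theorem desc_sub' {v w : τ} (h : w ∈ AE32.desc P v) : AE32.desc P w ⊆ AE32.desc P v := by
  intro x hx
  rw [AE32.mem_desc] at h hx ⊢
  exact h.trans hx

private theorem walk_desc' {f : ℕ → τ} {j : ℕ} (h : ∀ i < j, E (f i) (f (i + 1)) ∧ P (f (i + 1)) (f i)) {i : ℕ}
    (hi : i ≤ j) : f i ∈ AE32.desc P (f j) := by
  obtain ⟨k, rfl⟩ := Nat.exists_eq_add_of_le hi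
  clear hi
  induction k with
  | zero => exact AE32.self_mem_desc _
  | succ k ih =>
    have h1 := ih fun i hi => h i (by omega)
    have h2 := (h (i + k) (by omega)).2
    exact AE32.desc_subset h2 h1

private theorem desc_lt' {h : τ → ℕ} (hE : ∀ a b, P a b → h a < h b) {v w : τ} (hvw : P v w) :
    (AE32.desc P w).card < (AE32.desc P v).card := by
  refine card_lt_card ⟨AE32.desc_subset hvw, fun hcon => ?_⟩
  exact AE32.notMem_desc hE hvw (hcon (AE32.self_mem_desc v))

private theorem wkT_le {L K : ℕ} {hm : τ → τ} {a : τ} {Xc D : τ → Prop} (h7 : RunT E P L K hm a Xc D) {j : ℕ} {v : τ}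
    (h : WkA E P a j v) (hv : NLT E P K hm a Xc v) (hD : ¬ D v) : j ≤ L := by
  obtain ⟨f, h1, h2, h3⟩ := h
  by_contra hj
  push Not at hj
  refine h7 f (fun i hi => h3 i (by omega)) ?_ (h1 ▸ hD) (h1 ▸ hv)
  exact desc_sub' h2 (walk_desc' h3 (by omega))

theorem lineT {h : τ → ℕ} (hE : ∀ a b, P a b → h a < h b) (hin : ∀ a b c, P a c → P b c → a = b)
    (hP : ∀ a c, P a c → E a c ∨ E c a) (hanti : ∀ a c, E a c → ¬ E c a) {L K : ℕ} {hm : τ → τ}
    (hmain : ∀ u w, P u w → P u (hm u) ∧ (AE32.desc P w).card ≤ (AE32.desc P (hm u)).card) {cd : τ → Fd}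
    (hc : GCod E P hm cd) {a : τ} {Xc D : τ → Prop} (h7 : RunT E P L K hm a Xc D) (n : ℕ) :
    ∀ v, (AE32.desc P v).card = n → v ∈ AE32.desc P a → (∀ x ∈ AE32.desc P v, ¬ D x) → ∀ j, WkA E P a j v →
      NLT E P K hm a Xc v → InL L K true ((cd v).size + 1) j (cd v) := by
  induction n using Nat.strong_induction_on with
  | _ n ih =>
    intro v hv hva hD j hw hNL
    rcases hc v with ⟨l, h1, h2, h3⟩ | ⟨h1, h2⟩
    swap
    · rw [h2]; trivial
    have hmv : P v (hm v) := (h2 _).1 List.mem_cons_self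
    have hsize : ∀ u, (cd u).size + 1 = (AE32.desc P u).card := fun u => cod_size hE hin hP (hc.cod hE u)
    have hNLc : ∀ c, P v c → (E v c → c ≠ hm v → ¬ K * (inY E P c).card ≤ (AE32.desc P v).card) →
        NLT E P K hm a Xc c := by
      intro c hcv hcl u w hua huX huw hE' hwm hKw hcw
      rcases (AE32.mem_desc.1 hcw).cases_tail with h8 | ⟨e, h8, h9⟩
      · subst h8
        obtain rfl := hin _ _ _ huw hcv
        exact hcl hE' hwm hKw
      · obtain rfl := hin _ _ _ h9 hcv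
        exact hNL u w hua huX huw hE' hwm hKw (AE32.mem_desc.2 h8)
    have hany : ∀ c, P v c → (E v c → (c = hm v → InL L K true ((cd c).size + 1) 0 (cd c)) ∧
        (K * (blk (cd c) + 1) ≤ (cd v).size + 1 ∨ InL L K true ((cd c).size + 1) 0 (cd c))) ∧
        (¬ E v c → j + 1 ≤ L ∧ InL L K true ((cd c).size + 1) (j + 1) (cd c)) := by
      intro c hcv
      have hca : c ∈ AE32.desc P a := desc_sub' hva (AE32.desc_subset hcv (AE32.self_mem_desc c))
      have hDc : ∀ x ∈ AE32.desc P c, ¬ D x := fun x hx => hD x (AE32.desc_subset hcv hx)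
      have h4 := ih _ (hv ▸ desc_lt' hE hcv) c rfl hca hDc
      refine ⟨fun he => ⟨fun hcm => ?_, ?_⟩, fun he => ?_⟩
      · exact h4 0 (wkA_zero hca) (hNLc c hcv fun _ h => absurd hcm h)
      · by_cases hlight : K * (inY E P c).card ≤ (AE32.desc P v).card
        · left
          rw [blk_inY hE hin hP hanti (hc.cod hE c), hsize]
          exact hlight
        · right
          exact h4 0 (wkA_zero hca) (hNLc c hcv fun _ _ => hlight)
      · have h0 : E c v := (hP _ _ hcv).resolve_left he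
        have h5 : WkA E P a (j + 1) c := wkA_succ hw h0 hcv
        have h6 := hNLc c hcv fun h => absurd h he
        exact ⟨wkT_le h7 h5 h6 (hDc c (AE32.self_mem_desc c)), h4 (j + 1) h5 h6⟩
    have hsz : ∀ c ∈ l, (cd c).size ≤ (cd (hm v)).size := by
      intro c hcl
      have h4 := (hmain v c ((h2 c).1 (List.mem_cons_of_mem _ hcl))).2
      have h5 := hsize c
      have h6 := hsize (hm v)
      omega
    have hS : (mkY E v cd (hm v :: l)).size + 1 = (cd v).size + 1 := by rw [← h3]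
    rw [h3]
    refine mkY_inL_head v cd (hm v) l ⟨fun he => ((hany _ hmv).1 he).1 rfl, (hany _ hmv).2⟩ hsz ?_
    intro c hcl
    have hcv := (h2 c).1 (List.mem_cons_of_mem _ hcl)
    rw [hS]
    exact ⟨fun he => ((hany c hcv).1 he).2, (hany c hcv).2⟩

/-- **the out-children of the second vertex of a line** (the second vertex is `u₀`, the light arcs which start at `u₀` do not
count) -/
theorem tame_of_line {h : τ → ℕ} (hE : ∀ a b, P a b → h a < h b) (hin : ∀ a b c, P a c → P b c → a = b)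
    (hP : ∀ a c, P a c → E a c ∨ E c a) (hanti : ∀ a c, E a c → ¬ E c a) {b L K : ℕ} {hm : τ → τ}
    (hmain : ∀ u w, P u w → P u (hm u) ∧ (AE32.desc P w).card ≤ (AE32.desc P (hm u)).card) {cd : τ → Fd}
    (hc : GCod E P hm cd) (hlen : ∀ v, (cd v).len ≤ b) (hdeg : ∀ v, (cd v).Deg b) {a u₀ x : τ} {D : τ → Prop}
    (hau : P a u₀) (hu : u₀ = hm a) (hux : P u₀ x) (h7 : RunT E P L K hm a (fun u => u = u₀) D)
    (hD : ∀ y ∈ AE32.desc P x, ¬ D y) : FOL b L K 0 (cd x) := by
  have hxa : x ∈ AE32.desc P a :=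
    desc_sub' (AE32.desc_subset hau (AE32.self_mem_desc u₀)) (AE32.desc_subset hux (AE32.self_mem_desc x))
  refine ⟨hlen x, hdeg x, lineT hE hin hP hanti hmain hc h7 _ x rfl hxa hD 0 (wkA_zero hxa) ?_⟩
  intro u w hua hune huw hE' hwm _ hxw
  rcases (AE32.mem_desc.1 hxw).cases_tail with h8 | ⟨e, h8, h9⟩
  · -- `w = x`
    subst h8
    exact hune (hin _ _ _ huw hux)
  · have h10 := hin _ _ _ h9 hux
    subst h10
    -- `u₀` is behind `w`, so `w = u₀`
    rcases h8.cases_tail with h11 | ⟨e', h11, h12⟩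
    · subst h11
      have h13 := hin _ _ _ huw hau
      subst h13
      exact hwm hu
    · have h13 := hin _ _ _ h12 hau
      subst h13
      -- `a` is behind `w`, and `u` is behind `a`
      have h14 := AE32.rank_le hE h11
      have h15 := AE32.rank_le hE (AE32.mem_desc.1 hua)
      have h16 := hE _ _ huw
      omega

theorem RunT.mono {L L' K : ℕ} {hm : τ → τ} {a : τ} {Xc D : τ → Prop} (h : RunT E P L K hm a Xc D) (hL : L ≤ L') :
    RunT E P L' K hm a Xc D := by
  intro f h1 h2 h3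
  refine h f (fun i hi => h1 i (by omega)) (desc_sub' h2 ?_) h3
  exact walk_desc' (j := L' + 1) (fun i hi => h1 i (by omega)) (by omega)

/-- the heavy tree is the first one, if it has maximal size -/
theorem hv_first {d : Bool} {c s : Fd} (h : ∀ q ∈ s.trees, q.2.size ≤ c.size) : (Fd.node d c s).hv = some (d, c) := by
  simp only [Fd.hv]
  cases hs : s.hv with
  | none => rfl
  | some q =>
    simp only
    rw [if_pos (h q (hv_mem hs))]

/-- the heavy tree of the global code -/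
theorem hv_codH {rk : τ → ℕ} (hE : ∀ a b, P a b → rk a < rk b) (hin : ∀ a b c, P a c → P b c → a = b)
    (hP : ∀ a c, P a c → E a c ∨ E c a) {h : τ → τ}
    (hmain : ∀ u w, P u w → P u (h u) ∧ (AE32.desc P w).card ≤ (AE32.desc P (h u)).card) {v w : τ} (hvw : P v w) :
    (codH E P h v).hv = some (decide (E v (h v)), codH E P h (h v)) := by
  have hh : ∀ u w, P u w → P u (h u) := fun u w h => (hmain u w h).1
  have hc := gcod_codH (E := E) hE hh
  have hsize : ∀ u, (codH E P h u).size + 1 = (AE32.desc P u).card := fun u => cod_size hE hin hP (codH_cod' hE hh u)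
  rcases hc v with ⟨l, h1, h2, h3⟩ | ⟨h1, h2⟩
  · rw [h3]
    show (Fd.node _ _ _).hv = _
    refine hv_first fun q hq => ?_
    rw [mkY_trees, List.mem_map] at hq
    obtain ⟨x, hx, rfl⟩ := hq
    have h4 := (hmain v x ((h2 x).1 (List.mem_cons_of_mem _ hx))).2
    have h5 := hsize x
    have h6 := hsize (h v)
    show (codH E P h x).size ≤ (codH E P h (h v)).size
    omega
  · exact absurd hvw (h1 w)

/-- **the out-children of the second vertex of a line** -/
theorem tame_codH {rk : τ → ℕ} (hE : ∀ a b, P a b → rk a < rk b) (hin : ∀ a b c, P a c → P b c → a = b)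
    (hP : ∀ a c, P a c → E a c ∨ E c a) (hanti : ∀ a c, E a c → ¬ E c a) {b l K : ℕ}
    (hb : ∀ v, {w | E v w ∨ E w v}.ncard ≤ b) (h : τ → τ)
    (hmain : ∀ u w, P u w → P u (h u) ∧ (AE32.desc P w).card ≤ (AE32.desc P (h u)).card) {p : ℕ → τ} {m : ℕ}
    (hp : ∀ i < m, P (p i) (p (i + 1))) {a t : ℕ} (hat : a + 2 ≤ t) (htm : t ≤ m)
    (hmn : ∀ i, a ≤ i → i < t → p (i + 1) = h (p i))
    (hrun : ∀ q : ℕ → τ, (∀ i ≤ l, E (q i) (q (i + 1)) ∧ P (q (i + 1)) (q i)) → q (l + 1) ∈ AE32.desc P (p a) →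
      q 0 ∈ AE32.desc P (p t) ∨ ∃ u w, u ∈ AE32.desc P (p a) ∧ u ≠ p (a + 1) ∧ P u w ∧ E u w ∧ w ≠ h u ∧
        K * (inY E P w).card ≤ (AE32.desc P u).card ∧ q 0 ∈ AE32.desc P w) {l' : ℕ} (hl : l ≤ l') {c c' : Fd}
    (h1 : (codH E P h (p a)).hv = some (true, c)) (h2 : c.hv = some (true, c')) {D : Fd} (hD : (true, D) ∈ c.trees) :
    D = c' ∨ FOL b l' K 0 D := by
  have hh : ∀ u w, P u w → P u (h u) := fun u w h => (hmain u w h).1
  have hc := gcod_codH (E := E) hE hh
  have hau := hp a (by omega)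
  have hu := hmn a le_rfl (by omega)
  have hu2 := hmn (a + 1) (by omega) (by omega)
  have hau2 := hp (a + 1) (by omega)
  rw [hv_codH hE hin hP hmain hau] at h1
  simp only [Option.some.injEq, Prod.mk.injEq] at h1
  obtain ⟨-, rfl⟩ := h1
  rw [← hu] at h2 hD
  rw [hv_codH hE hin hP hmain hau2] at h2
  simp only [Option.some.injEq, Prod.mk.injEq] at h2
  obtain ⟨-, rfl⟩ := h2
  rw [codH_eq hE hh, mkY_trees, List.mem_map] at hD
  obtain ⟨x, hx, hx2⟩ := hD
  simp only [Prod.mk.injEq] at hx2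
  obtain ⟨-, rfl⟩ := hx2
  have hux : P (p (a + 1)) x := (mem_ordH hh).1 hx
  by_cases hxm : x = h (p (a + 1))
  · exact Or.inl (by rw [hxm])
  right
  have hvc : ∀ v, (codH E P h v).len ≤ b ∧ (codH E P h v).Deg b := fun v =>
    let q := vc_of_cod hE hin hP hb (codH_cod' (E := E) hE hh v)
    ⟨q.len, q.deg⟩
  refine tame_of_line (a := p a) (u₀ := p (a + 1)) (D := fun y => y ∈ AE32.desc P (p t)) hE hin hP hanti hmain hc
    (fun v => (hvc v).1) (fun v => (hvc v).2) hau hu hux (RunT.mono (L := l) ?_ hl) ?_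
  · intro f hf hfa hf0 hNL
    rcases hrun f hf hfa with g1 | ⟨u, w, g1, g2, g3, g4, g5, g6, g7⟩
    · exact hf0 g1
    · exact hNL u w g1 g2 g3 g4 g5 g6 g7
  · intro y hy hyt
    have hdesc : ∀ j, a + 2 ≤ j → j ≤ m → p j ∈ AE32.desc P (p (a + 2)) := by
      intro j hij
      induction j, hij using Nat.le_induction with
      | base => intro _; exact AE32.self_mem_desc _
      | succ j hij ih => intro hj; exact AE32.mem_desc.2 ((AE32.mem_desc.1 (ih (by omega))).tail (hp j (by omega)))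
    have g1 : y ∈ AE32.desc P (p (a + 2)) := desc_sub' (hdesc t hat htm) hyt
    have g2 : p (a + 2) = h (p (a + 1)) := hu2
    exact disjoint_left.1 (AE32.desc_disjoint hE hin hux hau2 (by rw [show a + 1 + 1 = a + 2 by rfl, g2]; exact hxm)) hy g1

/-- the main child has the proportion `1 / b` -/
theorem card_le_main {rk : τ → ℕ} (hE : ∀ a b, P a b → rk a < rk b) (hP : ∀ a c, P a c → E a c ∨ E c a) {b : ℕ}
    (hb : ∀ v, {w | E v w ∨ E w v}.ncard ≤ b) (h : τ → τ)
    (hmain : ∀ u w, P u w → P u (h u) ∧ (AE32.desc P w).card ≤ (AE32.desc P (h u)).card) (v : τ) :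
    (AE32.desc P v).card ≤ 1 + b * (AE32.desc P (h v)).card := by
  obtain ⟨ch, hch⟩ : ∃ ch : Finset τ, ch = univ.filter (fun w => P v w) := ⟨_, rfl⟩
  have h1 : AE32.desc P v ⊆ insert v (ch.biUnion (AE32.desc P)) := by
    intro x hx
    rcases (AE32.mem_desc.1 hx).cases_head with g1 | ⟨c, g1, g2⟩
    · rw [← g1]; exact mem_insert_self _ _
    · refine mem_insert_of_mem (mem_biUnion.2 ⟨c, ?_, AE32.mem_desc.2 g2⟩)
      rw [hch, mem_filter]
      exact ⟨mem_univ _, g1⟩
  have h2 : ch.card ≤ b := by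
    rw [← Set.ncard_coe_finset]
    refine le_trans (Set.ncard_le_ncard ?_ (Set.toFinite _)) (hb v)
    intro w hw
    rw [hch] at hw
    exact hP _ _ (mem_filter.1 (mem_coe.1 hw)).2
  have h3 : (ch.biUnion (AE32.desc P)).card ≤ ch.card * (AE32.desc P (h v)).card := by
    refine card_biUnion_le.trans ?_
    rw [← smul_eq_mul]
    refine sum_le_card_nsmul _ _ _ fun w hw => ?_
    rw [hch, mem_filter] at hw
    exact (hmain v w hw.2).2
  calc (AE32.desc P v).card ≤ (insert v (ch.biUnion (AE32.desc P))).card := card_le_card h1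
    _ ≤ (ch.biUnion (AE32.desc P)).card + 1 := card_insert_le _ _
    _ ≤ ch.card * (AE32.desc P (h v)).card + 1 := by omega
    _ ≤ b * (AE32.desc P (h v)).card + 1 := by
      have := Nat.mul_le_mul_right (AE32.desc P (h v)).card h2
      omega
    _ = _ := by omega

/-- **`TameR` for a line**, in terms of the parts of `LineP`; the branch at the end is small against the first one -/
theorem tameR_codH {rk : τ → ℕ} (hE : ∀ a b, P a b → rk a < rk b) (hin : ∀ a b c, P a c → P b c → a = b)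
    (hP : ∀ a c, P a c → E a c ∨ E c a) (hanti : ∀ a c, E a c → ¬ E c a) {b l K : ℕ}
    (hb : ∀ v, {w | E v w ∨ E w v}.ncard ≤ b) (h : τ → τ)
    (hmain : ∀ u w, P u w → P u (h u) ∧ (AE32.desc P w).card ≤ (AE32.desc P (h u)).card) {p : ℕ → τ} {m : ℕ}
    (hp : ∀ i < m, P (p i) (p (i + 1))) {a t : ℕ} (hat : a ≤ t) (htm : t ≤ m)
    (hA : (b + 1) * (AE32.desc P (p t)).card < (AE32.desc P (p a)).card)
    (hmn : ∀ i, a ≤ i → i < t → p (i + 1) = h (p i))
    (hrun : ∀ q : ℕ → τ, (∀ i ≤ l, E (q i) (q (i + 1)) ∧ P (q (i + 1)) (q i)) → q (l + 1) ∈ AE32.desc P (p a) →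
      q 0 ∈ AE32.desc P (p t) ∨ ∃ u w, u ∈ AE32.desc P (p a) ∧ u ≠ p (a + 1) ∧ P u w ∧ E u w ∧ w ≠ h u ∧
        K * (inY E P w).card ≤ (AE32.desc P u).card ∧ q 0 ∈ AE32.desc P w) {l' : ℕ} (hl : l ≤ l') :
    TameR b l' K (codH E P h (p a)) := by
  have hpos : 1 ≤ (AE32.desc P (p t)).card := card_pos.2 ⟨_, AE32.self_mem_desc _⟩
  have h1 : a ≠ t := by
    rintro rfl
    have : (AE32.desc P (p a)).card ≤ (b + 1) * (AE32.desc P (p a)).card := Nat.le_mul_of_pos_left _ (by omega)
    omega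
  have h2 : a + 1 ≠ t := by
    rintro rfl
    have h3 := card_le_main hE hP hb h hmain (p a)
    rw [← hmn a le_rfl (by omega)] at h3
    have h4 : (b + 1) * (AE32.desc P (p (a + 1))).card = b * (AE32.desc P (p (a + 1))).card +
        (AE32.desc P (p (a + 1))).card := by ring
    omega
  intro c c' h3 h4 D hD
  exact tame_codH hE hin hP hanti hb h hmain hp (by omega) htm hmn hrun hl h3 h4 hD

/-- **`TameR` for a line, all arcs reversed** -/
theorem tameR_codH_mr {rk : τ → ℕ} (hE : ∀ a b, P a b → rk a < rk b) (hin : ∀ a b c, P a c → P b c → a = b)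
    (hP : ∀ a c, P a c → E a c ∨ E c a) (hanti : ∀ a c, E a c → ¬ E c a) {b l K : ℕ}
    (hb : ∀ v, {w | E v w ∨ E w v}.ncard ≤ b) (h : τ → τ)
    (hmain : ∀ u w, P u w → P u (h u) ∧ (AE32.desc P w).card ≤ (AE32.desc P (h u)).card) {p : ℕ → τ} {m : ℕ}
    (hp : ∀ i < m, P (p i) (p (i + 1))) {a t : ℕ} (hat : a ≤ t) (htm : t ≤ m)
    (hA : (b + 1) * (AE32.desc P (p t)).card < (AE32.desc P (p a)).card)
    (hmn : ∀ i, a ≤ i → i < t → p (i + 1) = h (p i))
    (hrun : ∀ q : ℕ → τ, (∀ i ≤ l, E (q (i + 1)) (q i) ∧ P (q (i + 1)) (q i)) → q (l + 1) ∈ AE32.desc P (p a) →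
      q 0 ∈ AE32.desc P (p t) ∨ ∃ u w, u ∈ AE32.desc P (p a) ∧ u ≠ p (a + 1) ∧ P u w ∧ E w u ∧ w ≠ h u ∧
        K * (inY (fun a b => E b a) P w).card ≤ (AE32.desc P u).card ∧ q 0 ∈ AE32.desc P w) {l' : ℕ} (hl : l ≤ l') :
    TameR b l' K (mrr (codH E P h (p a))) := by
  rw [mrr_codH (fun u w h => (hmain u w h).1) (fun a c h =>
    ⟨fun h1 h2 => hanti _ _ h1 h2, fun h1 => (hP a c h).resolve_left h1⟩) (p a)]
  have hb' : ∀ v, {w | E w v ∨ E v w}.ncard ≤ b := fun v => by
    have h1 : {w | E w v ∨ E v w} = {w | E v w ∨ E w v} := by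
      ext w
      exact or_comm
    rw [h1]
    exact hb v
  exact tameR_codH (E := fun a b => E b a) hE hin (fun a c h => (hP a c h).symm) (fun a c h h' => hanti _ _ h h')
    hb' h hmain hp hat htm hA hmn hrun hl

end tame

end AEN
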