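import Pool.Agent.AEN.DefsH
import Pool.Agent.AEJ.Tree

/-!
# The in-closure of the first vertex of a line has bounded size
-/

set_option autoImplicit false

namespace AEN

open Finset Relation AE15 AED AEB AET AELT AEJ LTT AEK AEY
open scoped Classical

/-- the code of the first vertex of a line, and the vertex itself -/
theorem line_weight_cod {τ : Type*} [Fintype τ] {E P : τ → τ → Prop} {rk : τ → ℕ} (hE : ∀ a b, P a b → rk a < rk b)
    (hin : ∀ a b c, P a c → P b c → a = b) (hP : ∀ a c, P a c → E a c ∨ E c a) (hanti : ∀ a c, E a c → ¬ E c a)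
    {b l K L M : ℕ} (hb : ∀ v, {w | E v w ∨ E w v}.ncard ≤ b) (h : τ → τ)
    (hmain : ∀ u w, P u w → P u (h u) ∧ (AE32.desc P w).card ≤ (AE32.desc P (h u)).card) {p : ℕ → τ} {m : ℕ}
    (hp : ∀ i < m, P (p i) (p (i + 1))) {a t : ℕ} (htm : t ≤ m) (hline : LineP l K L M E P h p a t) :
    AEB.blk (codH E P h (p a)) + 1 ≤ ∑ i ∈ range (l + L + 1), b ^ i := by
  have h1 := (line_fx hE hin hP hanti hb h hmain hp htm (Q := fun _ => True) (fun _ => trivial) hline).blk_le
    (Nat.zero_le _)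
  simpa using h1

/-- **the in-closure of the first vertex of a line has bounded size** -/
theorem line_weight (b l L : ℕ) : ∃ N0 : ℕ, ∀ {τ : Type*} [Fintype τ] {E P : τ → τ → Prop} {rk : τ → ℕ},
    (∀ a b, P a b → rk a < rk b) → (∀ a b c, P a c → P b c → a = b) → (∀ a c, P a c → E a c ∨ E c a) →
    (∀ a c, E a c → ¬ E c a) → (∀ v, {w | E v w ∨ E w v}.ncard ≤ b) → ∀ {K M : ℕ} (h : τ → τ),
    (∀ u w, P u w → P u (h u) ∧ (AE32.desc P w).card ≤ (AE32.desc P (h u)).card) → ∀ {p : ℕ → τ} {m : ℕ},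
    (∀ i < m, P (p i) (p (i + 1))) → ∀ {a t : ℕ}, t ≤ m → LineP l K L M E P h p a t →
      AEB.blk (codH E P h (p a)) + 1 ≤ N0 ∧ (inY E P (p a)).card ≤ N0 := by
  refine ⟨∑ i ∈ range (l + L + 1), b ^ i, ?_⟩
  intro τ _ E P rk hE hin hP hanti hb K M h hmain p m hp a t htm hline
  have h1 := line_weight_cod hE hin hP hanti hb h hmain hp htm hline
  refine ⟨h1, ?_⟩
  rw [← blk_inY hE hin hP hanti (codH_cod' (E := E) hE (fun u w h => (hmain u w h).1) (p a))]
  exact h1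

/-- the same with all arcs reversed -/
theorem line_weight_mr (b l L : ℕ) : ∃ N0 : ℕ, ∀ {τ : Type*} [Fintype τ] {E P : τ → τ → Prop} {rk : τ → ℕ},
    (∀ a b, P a b → rk a < rk b) → (∀ a b c, P a c → P b c → a = b) → (∀ a c, P a c → E a c ∨ E c a) →
    (∀ a c, E a c → ¬ E c a) → (∀ v, {w | E v w ∨ E w v}.ncard ≤ b) → ∀ {K M : ℕ} (h : τ → τ),
    (∀ u w, P u w → P u (h u) ∧ (AE32.desc P w).card ≤ (AE32.desc P (h u)).card) → ∀ {p : ℕ → τ} {m : ℕ},
    (∀ i < m, P (p i) (p (i + 1))) → ∀ {a t : ℕ}, t ≤ m → LineP l K L M (fun a b => E b a) P h p a t →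
      dcl (codH E P h (p a)) + 1 ≤ N0 ∧ (inY (fun a b => E b a) P (p a)).card ≤ N0 := by
  obtain ⟨N0, hN0⟩ := line_weight b l L
  refine ⟨N0, ?_⟩
  intro τ _ E P rk hE hin hP hanti hb K M h hmain p m hp a t htm hline
  have hb' : ∀ v, {w | E w v ∨ E v w}.ncard ≤ b := fun v => by
    have h1 : {w | E w v ∨ E v w} = {w | E v w ∨ E w v} := by
      ext w
      exact or_comm
    rw [h1]
    exact hb v
  obtain ⟨h1, h2⟩ := hN0 (E := fun a b => E b a) hE hin (fun a c h => (hP a c h).symm) (fun a c h h' => hanti _ _ h h')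
    hb' h hmain hp htm hline
  refine ⟨?_, h2⟩
  rw [← mrr_codH (E := E) (fun u w h => (hmain u w h).1) (fun a c h =>
    ⟨fun h1 h2 => hanti _ _ h1 h2, fun h1 => (hP a c h).resolve_left h1⟩) (p a), AEJ.blk_mrr] at h1
  exact h1

end AEN
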