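import Pool.Agent.AEN.FinalA
import Pool.Agent.AEN.TameH
import Pool.Agent.AEN.WeightH

/-!
# The branches along the path have codes of the class
-/

set_option autoImplicit false

namespace AEN

open Finset Relation AE15 AED AEB AELT AEK AEY AEJ AEW
open scoped Classical

section

variable {τ : Type*} [Fintype τ] {E P : τ → τ → Prop}

theorem ncY_rev (v : τ) : ncY (fun a b => E b a) P v = ncY E P v := by
  unfold ncY
  ext x
  have h1 : ReflTransGen (fun a b => E b a) v x ↔ ReflTransGen E x v := reflTransGen_swap
  have h2 : ReflTransGen (fun a b => E b a) x v ↔ ReflTransGen E v x := reflTransGen_swap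
  rw [mem_filter, mem_filter, h1, h2, and_comm (a := ¬ ReflTransGen E v x)]

theorem ok_monoM {ε : ℝ} {m m' : ℕ} (h : m ≤ m') (D : Dk) : D.Ok ε m → D.Ok ε m' := by
  induction D with
  | nil => exact id
  | node d c s ihc ihs => exact fun g => ⟨ihc g.1, ihs g.2⟩
  | pc1 d q s ihs => exact fun g => ⟨g.1, g.2.1.trans h, ihs g.2.2⟩
  | pc2 d M d' c s ihc ihs => exact fun g => ⟨g.1, g.2.1.trans h, ihc g.2.2.1, ihs g.2.2.2⟩

theorem endP_mono {θ θ' ε : ℝ} {m m' : ℕ} (hθ : θ' ≤ θ) (h : m ≤ m') {c : Fd} (H : EndP θ ε m c) : EndP θ' ε m' c := by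
  obtain ⟨D, h1, h2, h3⟩ := H
  exact ⟨D, h1, ok_monoM h D h2, (mul_le_mul_of_nonneg_right hθ (by positivity)).trans h3⟩

end

/-- **the branches along the path have codes of the class** -/
theorem blSt : BlSt := by
  intro b l L A' θ' hθ'
  obtain ⟨T, hT⟩ : ∃ T : ℕ, T = 2 * (L + 1) * (A' + b + 1) := ⟨_, rfl⟩
  have hT1 : 1 ≤ T := by rw [hT]; exact Nat.mul_pos (by omega) (by omega)
  have hT0 : (0 : ℝ) < T := by exact_mod_cast hT1
  obtain ⟨θ, hθd⟩ : ∃ θ : ℝ, θ = min θ' (1 / (T : ℝ)) := ⟨_, rfl⟩
  have hθ : 0 < θ := by rw [hθd]; exact lt_min hθ' (by positivity)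
  have hθa : θ ≤ θ' := by rw [hθd]; exact min_le_left _ _
  have hθb : θ ≤ 1 / (T : ℝ) := by rw [hθd]; exact min_le_right _ _
  have hθT : θ * T ≤ 1 := by
    have := mul_le_mul_of_nonneg_right hθb hT0.le
    rwa [one_div, inv_mul_cancel₀ hT0.ne'] at this
  have hθ1 : θ ≤ 1 / 2 := by
    have h1 : 2 ≤ T := by
      rw [hT]
      exact Nat.le_mul_of_pos_right _ (by omega) |>.trans (Nat.le_mul_of_pos_right _ (by omega))
    have h2 : (2 : ℝ) ≤ T := by exact_mod_cast h1
    nlinarith
  refine ⟨θ, hθ, hθ1, ?_⟩
  -- the numbers
  have key : ∀ x y : ℕ, x ≤ T * y → θ * (x : ℝ) ≤ y := by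
    intro x y hxy
    have h1 : (x : ℝ) ≤ T * y := by exact_mod_cast hxy
    have h2 : (0 : ℝ) ≤ y := Nat.cast_nonneg _
    calc θ * (x : ℝ) ≤ θ * (T * y) := mul_le_mul_of_nonneg_left h1 hθ.le
      _ = θ * T * y := by ring
      _ ≤ 1 * y := mul_le_mul_of_nonneg_right hθT h2
      _ = y := one_mul _
  obtain ⟨N₁, hN₁⟩ := line_weight b l L
  obtain ⟨N₂, hN₂⟩ := line_weight_mr b l L
  intro ε μ hε hμ m₀ K₀
  obtain ⟨B, hB⟩ : ∃ B : ℕ, (m₀ : ℝ) ≤ μ * B := by
    obtain ⟨B, hB⟩ := exists_nat_ge ((m₀ : ℝ) / μ)
    refine ⟨B, ?_⟩
    rw [div_le_iff₀ hμ] at hB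
    linarith
  obtain ⟨N₀, hN₀⟩ : ∃ N₀ : ℕ, N₀ = N₁ + N₂ := ⟨_, rfl⟩
  refine ⟨K₀, le_rfl, fun M => ?_⟩
  obtain ⟨M', hM'⟩ : ∃ M' : ℕ, M' = m₀ + M + 2 * L * B + L * ((A' + b + 1) * (L + M + 1)) + L * (2 * N₀) := ⟨_, rfl⟩
  have hMM : M ≤ M' := by rw [hM']; omega
  refine ⟨M', ?_⟩
  intro τ _ E P rk hE hin hP hanti hb h hmain p m S Ca hEM hAlt
  obtain ⟨hp, hS, hAlt⟩ := hAlt
  have hh : ∀ u w, P u w → P u (h u) := fun u w h => (hmain u w h).1
  have hx : ∀ a c, P a c → (E c a ↔ ¬ E a c) := fun a c h =>
    ⟨fun h1 h2 => hanti _ _ h1 h2, fun h1 => (hP a c h).resolve_left h1⟩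
  have hsz : ∀ v, (codH E P h v).size + 1 = (AE32.desc P v).card := fun v => cod_size hE hin hP (codH_cod' hE hh v)
  have hszR : ∀ v, ((codH E P h v).size : ℝ) + 1 = (AE32.desc P v).card := fun v => by exact_mod_cast hsz v
  obtain ⟨s, hs⟩ : ∃ s : ℕ → ℕ, s = fun i => (AE32.desc P (p i)).card := ⟨_, rfl⟩
  have hsi : ∀ i, (AE32.desc P (p i)).card = s i := fun i => by rw [hs]
  have hpos : ∀ i, 1 ≤ s i := fun i => by rw [← hsi]; exact card_pos.2 ⟨_, AE32.self_mem_desc _⟩
  have hdesc : ∀ i j, i ≤ j → j ≤ m → p j ∈ AE32.desc P (p i) := by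
    intro i j hij
    induction j, hij using Nat.le_induction with
    | base => intro _; exact AE32.self_mem_desc _
    | succ j hij ih => intro hj; exact AE32.mem_desc.2 ((AE32.mem_desc.1 (ih (by omega))).tail (hp j (by omega)))
  have hlt : ∀ i j, i < j → j ≤ m → s j < s i := by
    intro i j hij
    induction j, hij using Nat.le_induction with
    | base =>
      intro hj
      rw [← hsi, ← hsi]
      exact card_desc_lt hE (hp i (by omega))
    | succ j hij ih =>
      intro hj
      refine lt_trans ?_ (ih (by omega))
      rw [← hsi, ← hsi]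
      exact card_desc_lt hE (hp j (by omega))
  have hle : ∀ i j, i ≤ j → j ≤ m → s j ≤ s i := by
    intro i j hij hj
    rcases Nat.lt_or_ge i j with h1 | h1
    · exact (hlt i j h1 hj).le
    · rw [show i = j by omega]
  have hpt : ∀ i j, i < j → j ≤ m → ∃ d0 d m', AESK.PtT 0 (d0, codH E P h (p i)) (d, codH E P h (p j)) m' := by
    intro i j hij hj
    obtain ⟨n, hn⟩ : ∃ n, j = i + n + 1 := ⟨j - i - 1, by omega⟩
    subst hn
    obtain ⟨m', hm'⟩ := ptT_codH (E := E) hE hh (p := p) (i := i) n (fun t h1 h2 => hp t (by omega))
    exact ⟨_, _, m', hm'⟩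
  -- windows
  have hwin : ∀ v, (AE32.desc P v).card ≤ L * (ncY E P v).card →
      θ * ((codH E P h v).size + 1) + dcl (codH E P h v) + AEB.blk (codH E P h v) ≤ (codH E P h v).size + 1 := by
    intro v hv
    have h1 := window_cod hE hin hP (codH_cod' (E := E) hE hh v)
    have h2 : (dcl (codH E P h v) : ℝ) + AEB.blk (codH E P h v) + 1 + (ncY E P v).card ≤ (AE32.desc P v).card := by
      exact_mod_cast h1
    have h3 := key (AE32.desc P v).card (ncY E P v).card (by
      refine hv.trans (Nat.mul_le_mul_right _ ?_)
      rw [hT]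
      nlinarith)
    rw [hszR]
    linarith
  have hwinS : ∀ v, ((AE32.desc P v).card ≤ M ∨ (AE32.desc P v).card ≤ L * (ncY E P v).card) →
      ∀ {R : Bool × Fd → ℕ → Prop}, BlN θ ε μ M' R (EndP θ ε M') (codH E P h v) → Wc θ ε μ M' R (codH E P h v) := by
    intro v hv R hR
    refine ⟨?_, hR⟩
    rcases hv with hv | hv
    · left
      rw [hsz]
      exact hv.trans hMM
    · exact Or.inr (hwin v hv)
  -- the step to a balanced branch
  have hstep : ∀ {R : Bool × Fd → ℕ → Prop} (i j : ℕ), i < j → j ≤ m → s i ≤ T * s j →
      θ * ((codH E P h (p j)).size + 1) + dcl (codH E P h (p j)) + AEB.blk (codH E P h (p j)) ≤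
        (codH E P h (p j)).size + 1 → BlN θ ε μ M' R (EndP θ ε M') (codH E P h (p j)) →
      BlN θ ε μ M' R (EndP θ ε M') (codH E P h (p i)) := by
    intro R i j hij hj hsij hw hB
    obtain ⟨d0, d, m', hPt⟩ := hpt i j hij hj
    refine BlN.step _ d0 (d, codH E P h (p j)) m' hPt ?_ ?_ hw hB
    · have h1 := hlt i j hij hj
      rw [← hsi, ← hsi, ← hsz, ← hsz] at h1
      show (codH E P h (p j)).size < (codH E P h (p i)).size
      omega
    · show θ * ((codH E P h (p i)).size + 1) ≤ (codH E P h (p j)).size + 1
      rw [hszR, hszR, hsi, hsi]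
      exact key _ _ hsij
  have main : ∀ n, ∀ i ∈ S, m - i = n →
      BlN θ ε μ M' (Rgn b (l + L) K₀ A' θ ε μ M' (m - i)) (EndP θ ε M') (codH E P h (p i)) := by
    intro n
    induction n using Nat.strong_induction_on with
    | _ n ih =>
      intro i hiS hn
      have him := hS i hiS
      by_cases hsm : s i ≤ M'
      · exact BlN.small _ (by rw [hsz, hsi]; exact hsm)
      push Not at hsm
      have hLM : M < s i := by omega
      have hm₀ : m₀ ≤ s i := by rw [hM'] at hsm; omega
      have hfin : (AE32.desc P (p i)).card ≤ 2 * L * ((AE32.desc P (p i)).filter (fun x => x ∈ Ca)).card →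
          BlN θ ε μ M' (Rgn b (l + L) K₀ A' θ ε μ M' (m - i)) (EndP θ ε M') (codH E P h (p i)) := by
        intro hc
        exact BlN.fin _ (endP_mono hθa (by rw [hM']; omega) (hEM.1 (p i) (by rw [hsi]; exact hm₀) hc))
      have hmonoR : ∀ j, i < j → ∀ q s', Rgn b (l + L) K₀ A' θ ε μ M' (m - j) q s' →
          Rgn b (l + L) K₀ A' θ ε μ M' (m - i) q s' := fun j hj => rgn_mono (by omega)
      rcases hAlt i hiS (by rw [hsi]; exact hLM) with hA | ⟨j, hij, hjm, hjS, hjw, hA⟩ | ⟨j, hij, hjm, hA, t, htS, htm, hL⟩
      · -- many calm vertices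
        refine hfin (hA.trans (Nat.mul_le_mul_right _ (by omega)))
      · -- a balanced branch
        have hBj := (ih (m - j) (by omega) j hjS rfl).mono (hmonoR j hij) (fun _ h => h)
        obtain ⟨ca, hca⟩ : ∃ ca, ca = ((AE32.desc P (p i) \ AE32.desc P (p j)).filter (fun x => x ∈ Ca)).card := ⟨_, rfl⟩
        rw [← hca, hsi, hsi] at hA
        by_cases hbig : s i ≤ 2 * L * s j
        · refine hstep i j hij hjm (hbig.trans (Nat.mul_le_mul_right _ ?_)) (hwin _ hjw) hBj
          rw [hT]
          nlinarith
        push Not at hbig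
        have hca2 : s i ≤ 2 * L * ca := by
          have e1 : L * (s j + ca) = L * s j + L * ca := by ring
          have e2 : 2 * L * s j = 2 * (L * s j) := by ring
          have e3 : 2 * L * ca = 2 * (L * ca) := by ring
          omega
        by_cases hjB : s j < B
        · refine hfin ?_
          rw [hsi]
          refine hca2.trans (Nat.mul_le_mul_left _ ?_)
          rw [hca]
          refine card_le_card ?_
          intro x hx
          rw [mem_filter, mem_sdiff] at hx
          exact mem_filter.2 ⟨hx.1.1, hx.2⟩
        push Not at hjB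
        obtain ⟨D, g1, g2, g3⟩ := hEM.2 (p i) (p j) (hdesc i j hij.le hjm) (by
            intro hcon
            have := hlt i j hij hjm
            rw [← hsi, ← hsi, hcon] at this
            omega) (by rw [hsi]; exact hm₀) (by rw [hsi, ← hca]; exact hca2)
        rw [← g1]
        refine BlN.many D (codH E P h (p j)) m₀ g2 ?_ ?_ (hwin _ hjw) hBj
        · refine le_trans ?_ g3
          have h1 : θ * ((D.un.size : ℝ) + 1) ≤ θ' * (D.un.size + 1) := mul_le_mul_of_nonneg_right hθa (by positivity)
          linarith
        · rw [hszR, hsi]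
          refine hB.trans (mul_le_mul_of_nonneg_left ?_ hμ.le)
          exact_mod_cast hjB
      · -- a line
        rw [hsi, hsi] at hA
        have hBt := ih (m - t) (by
          have : j ≤ t := by rcases hL with hL | hL <;> exact hL.1
          omega) t htS rfl
        have hjt : j ≤ t := by rcases hL with hL | hL <;> exact hL.1
        have hsj1 : (A' + b + 1) * (L + M + 1) < s j := by
          by_contra hcon
          push Not at hcon
          have h1 : L * s j ≤ L * ((A' + b + 1) * (L + M + 1)) := Nat.mul_le_mul_left _ hcon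
          rw [hM'] at hsm
          omega
        by_cases hbig : L < s t ∧ s j ≤ (A' + b + 1) * s t
        · -- the branch at the exit is comparable
          have hMt : M < s t := by
            by_contra hcon
            push Not at hcon
            have h1 : (A' + b + 1) * s t ≤ (A' + b + 1) * (L + M + 1) := Nat.mul_le_mul_left _ (by omega)
            omega
          have hwt : (AE32.desc P (p t)).card ≤ L * (ncY E P (p t)).card := by
            rcases hL with ⟨-, -, -, h1, -⟩ | ⟨-, -, -, h1, -⟩
            · rcases h1 with h1 | ⟨-, -, -, h1 | h1⟩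
              · rw [hsi] at h1
                omega
              · rw [hsi] at h1
                omega
              · exact h1
            · rcases h1 with h1 | ⟨-, -, -, h1 | h1⟩
              · rw [hsi] at h1
                omega
              · rw [hsi] at h1
                omega
              · rwa [ncY_rev] at h1
          refine hstep i t (by omega) htm ?_ (hwin _ hwt) (hBt.mono (hmonoR t (by omega)) (fun _ h => h))
          calc s i ≤ L * s j := hA
            _ ≤ L * ((A' + b + 1) * s t) := Nat.mul_le_mul_left _ hbig.2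
            _ = L * (A' + b + 1) * s t := by ring
            _ ≤ T * s t := Nat.mul_le_mul_right _ (by rw [hT]; nlinarith)
        -- the exit is small
        have hsj2 : 2 * N₀ < s j := by
          by_contra hcon
          push Not at hcon
          have h1 : L * s j ≤ L * (2 * N₀) := Nat.mul_le_mul_left _ hcon
          rw [hM'] at hsm
          omega
        have hst : (A' + b + 1) * s t < s j := by
          by_cases h1 : L < s t
          · by_contra hcon
            push Not at hcon
            exact hbig ⟨h1, hcon⟩
          · push Not at h1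
            refine lt_of_le_of_lt (Nat.mul_le_mul_left _ ?_) hsj1
            omega
        have hst1 : A' * s t < s j := lt_of_le_of_lt (Nat.mul_le_mul_right _ (by omega)) hst
        have hst2 : (b + 1) * s t < s j := lt_of_le_of_lt (Nat.mul_le_mul_right _ (by omega)) hst
        have hj0 : j ≠ 0 := by omega
        have hj1 : j - 1 + 1 = j := by omega
        have hPj : P (p (j - 1)) (p j) := by
          have := hp (j - 1) (by omega)
          rwa [hj1] at this
        -- the rigid branch at `p j`
        have hrig : ∃ s' : ℕ, Rgn b (l + L) K₀ A' θ ε μ M' (m - i)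
            (decide (E (p (j - 1)) (p j)), codH E P h (p j)) s' ∧ s j ≤ 2 * (s' + 1) := by
          rcases hL with hL | hL
          · have hbk := (hN₁ hE hin hP hanti hb h hmain hp htm hL).1
            have hEj : E (p j) (p (j - 1)) := by
              rcases hL.2.2.1 with h1 | h1
              · exact absurd h1 hj0
              · exact h1
            have hd : decide (E (p (j - 1)) (p j)) = false := decide_eq_false (fun h1 => hanti _ _ h1 hEj)
            have hWt : L < (AE32.desc P (p t)).card →
                Wc θ ε μ M' (Rgn b (l + L) K₀ A' θ ε μ M' (m - t)) (codH E P h (p t)) ∧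
                  A' * ((codH E P h (p t)).size + 1) < (codH E P h (p j)).size + 1 := by
              intro h1
              refine ⟨hwinS _ ?_ hBt, by rw [hsz, hsz, hsi, hsi]; exact hst1⟩
              rcases hL.2.2.2.1 with h2 | h2
              · omega
              · exact h2.2.2.2
            have hfx := line_fx hE hin hP hanti hb h hmain hp htm
              (Q := fun c => Wc θ ε μ M' (Rgn b (l + L) K₀ A' θ ε μ M' (m - t)) c ∧
                A' * (c.size + 1) < (codH E P h (p j)).size + 1) hWt hL
            have htame := tameR_codH hE hin hP hanti (l := l) (K := K₀) hb h hmain hp hjt htm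
              (by rw [hsi, hsi]; exact hst2) hL.2.1 (by
                intro q hq hqr
                rcases hL.2.2.2.2 q hq hqr with h1 | ⟨u, w, h1, h2, h3⟩
                · exact Or.inl h1
                · rcases h2 with h2 | h2
                  · exact absurd h2 hj0
                  · exact Or.inr ⟨u, w, h1, h2, h3⟩) (l' := l + L) (by omega)
            refine ⟨(codH E P h (p j)).size - AEB.blk (codH E P h (p j)), ?_, ?_⟩
            · refine rgn_mono (m := m - t + 1) (by omega) _ _ ?_
              refine Or.inl ⟨hd, hfx, htame, ?_⟩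
              show (codH E P h (p j)).size - AEB.blk (codH E P h (p j)) + AEB.blk (codH E P h (p j)) =
                (codH E P h (p j)).size
              have := AEB.blk_le_size (codH E P h (p j))
              omega
            · have h1 := hsz (p j)
              rw [hsi] at h1
              omega
          · have hbk := (hN₂ hE hin hP hanti hb h hmain hp htm hL).1
            have hEj : E (p (j - 1)) (p j) := by
              rcases hL.2.2.1 with h1 | h1
              · exact absurd h1 hj0
              · exact h1
            have hd : decide (E (p (j - 1)) (p j)) = true := decide_eq_true hEj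
            have hb' : ∀ v, {w | E w v ∨ E v w}.ncard ≤ b := fun v => by
              have h1 : {w | E w v ∨ E v w} = {w | E v w ∨ E w v} := by
                ext w
                exact or_comm
              rw [h1]
              exact hb v
            have hWt : L < (AE32.desc P (p t)).card →
                Wc θ ε μ M' (Rgn b (l + L) K₀ A' θ ε μ M' (m - t)) (mrr (codH (fun a b => E b a) P h (p t))) ∧
                  A' * ((codH (fun a b => E b a) P h (p t)).size + 1) < (codH E P h (p j)).size + 1 := by
              intro h1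
              rw [← mrr_codH hh hx, mrr_mrr, mrr_size]
              refine ⟨hwinS _ ?_ hBt, by rw [hsz, hsz, hsi, hsi]; exact hst1⟩
              rcases hL.2.2.2.1 with h2 | h2
              · omega
              · have h3 := h2.2.2.2
                rwa [ncY_rev] at h3
            have hfx := line_fx (E := fun a b => E b a) hE hin (fun a c h => (hP a c h).symm)
              (fun a c h h' => hanti _ _ h h') hb' h hmain hp htm
              (Q := fun c => Wc θ ε μ M' (Rgn b (l + L) K₀ A' θ ε μ M' (m - t)) (mrr c) ∧
                A' * (c.size + 1) < (codH E P h (p j)).size + 1) hWt hL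
            rw [← mrr_codH hh hx] at hfx
            have htame := tameR_codH_mr hE hin hP hanti (l := l) (K := K₀) hb h hmain hp hjt htm
              (by rw [hsi, hsi]; exact hst2) hL.2.1 (by
                intro q hq hqr
                rcases hL.2.2.2.2 q hq hqr with h1 | ⟨u, w, h1, h2, h3⟩
                · exact Or.inl h1
                · rcases h2 with h2 | h2
                  · exact absurd h2 hj0
                  · exact Or.inr ⟨u, w, h1, h2, h3⟩) (l' := l + L) (by omega)
            have hdle : dcl (codH E P h (p j)) ≤ (codH E P h (p j)).size := by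
              have := AEB.blk_le_size (mrr (codH E P h (p j)))
              rwa [AEJ.blk_mrr, mrr_size] at this
            refine ⟨(codH E P h (p j)).size - dcl (codH E P h (p j)), ?_, ?_⟩
            · refine rgn_mono (m := m - t + 1) (by omega) _ _ ?_
              refine Or.inr ⟨hd, hfx, htame, ?_⟩
              show (codH E P h (p j)).size - dcl (codH E P h (p j)) + dcl (codH E P h (p j)) =
                (codH E P h (p j)).size
              omega
            · have h1 := hsz (p j)
              rw [hsi] at h1
              omega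
        obtain ⟨s', hR, hs'⟩ := hrig
        have hmem : (decide (E (p (j - 1)) (p j)), codH E P h (p j)) ∈ (codH E P h (p (j - 1))).trees :=
          mem_codH hE hh hPj
        have hsize' : θ * ((codH E P h (p (j - 1))).size + 1) ≤ (s' : ℝ) + 1 := by
          have h1 : s (j - 1) ≤ T * (s' + 1) := by
            calc s (j - 1) ≤ s i := hle i (j - 1) (by omega) (by omega)
              _ ≤ L * s j := hA
              _ ≤ L * (2 * (s' + 1)) := Nat.mul_le_mul_left _ hs'
              _ = 2 * L * (s' + 1) := by ring
              _ ≤ T * (s' + 1) := Nat.mul_le_mul_right _ (by rw [hT]; nlinarith)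
          have h2 := key _ _ h1
          rw [hszR, hsi]
          push_cast at h2
          exact h2
        have hBj1 : BlN θ ε μ M' (Rgn b (l + L) K₀ A' θ ε μ M' (m - i)) (EndP θ ε M') (codH E P h (p (j - 1))) :=
          BlN.rig _ _ _ hmem hR hsize'
        rcases Nat.lt_or_ge i (j - 1) with h1 | h1
        · refine hstep i (j - 1) h1 (by omega) ?_ (rig_window' (rgn_window _) hmem hR hsize') hBj1
          calc s i ≤ L * s j := hA
            _ ≤ L * s (j - 1) := Nat.mul_le_mul_left _ (hle (j - 1) j (by omega) hjm)
            _ ≤ T * s (j - 1) := Nat.mul_le_mul_right _ (by rw [hT]; nlinarith)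
        · rw [show i = j - 1 by omega] at hBj1 ⊢
          exact hBj1
  intro i hi
  exact ⟨main _ i hi rfl, fun h2 _ => hwinS _ h2 (main _ i hi rfl)⟩

end AEN
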