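import Pool.Agent.AEN.StmtA
import Pool.Agent.AEN.DefsH
import Pool.Agent.AEN.AltDefs
import Pool.Agent.AET.GlueP

/-!
# Alternation of lines, balanced branches and many small pieces: from oriented trees to codes
-/

set_option autoImplicit false

namespace AEN

open Finset Relation AE15 AED AEB AELT AEK AEY AEJ AEW
open scoped Classical

section

variable {τ : Type*} [Fintype τ] {G : SimpleGraph τ} {r : τ} {E : τ → τ → Prop}

/-- the parent relation of the tree rooted at `r` -/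
def Pr (G : SimpleGraph τ) (r : τ) : τ → τ → Prop := fun a c => G.Adj a c ∧ G.dist r c = G.dist r a + 1

theorem desc_br (hG : G.IsTree) (u x : τ) : x ∈ AE32.desc (Pr G r) u ↔ x ∈ Br G r u := by
  rw [AE32.mem_desc]
  exact AET.reach_iffP hG r u x

theorem card_br (hG : G.IsTree) (u : τ) : (AE32.desc (Pr G r) u).card = (Br G r u).ncard := by
  rw [← Set.ncard_coe_finset]
  congr 1
  ext x
  rw [mem_coe]
  exact desc_br hG u x

theorem card_ic (hadj : ∀ a c, E a c → G.Adj a c) (w : τ) :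
    (inY E (Pr G r) w).card = (Ic E G r w).ncard := by
  rw [← Set.ncard_coe_finset]
  congr 1
  ext x
  rw [mem_coe, mem_inY, Ic, Set.mem_ofPred_eq]
  have hrel : (fun a b => E a b ∧ Pr G r b a) = fun a b => E a b ∧ G.dist r a = G.dist r b + 1 := by
    funext a b
    apply propext
    constructor
    · rintro ⟨h1, h2⟩
      exact ⟨h1, h2.2⟩
    · rintro ⟨h1, h2⟩
      exact ⟨h1, (hadj _ _ h1).symm, h2⟩
  rw [hrel]

theorem card_nc (hG : G.IsTree) (u : τ) : (ncY E (Pr G r) u).card = (Nc E G r u).ncard := by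
  rw [← Set.ncard_coe_finset]
  congr 1
  ext x
  rw [mem_coe, ncY, mem_filter, desc_br hG, Nc, Set.mem_ofPred_eq]

theorem card_ca (hG : G.IsTree) (u : τ) (Ca : Set τ) :
    ((AE32.desc (Pr G r) u).filter (fun x => x ∈ Ca)).card = (Br G r u ∩ Ca).ncard := by
  rw [← Set.ncard_coe_finset]
  congr 1
  ext x
  rw [mem_coe, mem_filter, desc_br hG, Set.mem_inter_iff]

theorem card_ca' (hG : G.IsTree) (u w : τ) (Ca : Set τ) :
    ((AE32.desc (Pr G r) u \ AE32.desc (Pr G r) w).filter (fun x => x ∈ Ca)).card =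
      ((Br G r u \ Br G r w) ∩ Ca).ncard := by
  rw [← Set.ncard_coe_finset]
  congr 1
  ext x
  rw [mem_coe, mem_filter, mem_sdiff, desc_br hG, desc_br hG, Set.mem_inter_iff, Set.mem_diff]

theorem lineP_of (hG : G.IsTree) (hadj : ∀ a c, E a c → G.Adj a c) {l K L M : ℕ} {h : τ → τ} {p : ℕ → τ} {a t : ℕ}
    (H : LineG l K L M E G r h p a t) : LineP l K L M E (Pr G r) h p a t := by
  obtain ⟨h1, h2, h3, h4, h5⟩ := H
  refine ⟨h1, h2, h3, ?_, ?_⟩
  · rw [card_br hG, card_ic hadj, card_br hG, card_nc hG]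
    exact h4
  · intro q hq hr
    rcases h5 q (fun i hi => ⟨(hq i hi).1, (hq i hi).2.2⟩) ((desc_br hG _ _).1 hr) with h6 | ⟨u, w, g1, g0, g2, g3, g4, g5, g6⟩
    · exact Or.inl ((desc_br hG _ _).2 h6)
    · refine Or.inr ⟨u, w, (desc_br hG _ _).2 g1, g0, ⟨hadj _ _ g2, g3⟩, g2, g4, ?_, (desc_br hG _ _).2 g6⟩
      rw [card_ic hadj, card_br hG]
      exact g5

theorem lineB_of (hG : G.IsTree) (hadj : ∀ a c, E a c → G.Adj a c) {l K L M : ℕ} {h : τ → τ} {p : ℕ → τ} {a t : ℕ}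
    (H : LineD l K L M E G r h p a t) : LineB l K L M E (Pr G r) h p a t := by
  rcases H with H | H
  · exact Or.inl (lineP_of hG hadj H)
  · exact Or.inr (lineP_of hG (fun a c hac => (hadj c a hac).symm) H)

theorem altP_of (hG : G.IsTree) (hadj : ∀ a c, E a c → G.Adj a c) {l K L M : ℕ} {h : τ → τ} (H : AltG l K L M E G r h) :
    ∃ (p : ℕ → τ) (m : ℕ) (S : Set ℕ), p 0 = r ∧ (0 ∈ S ∨ ∃ t ∈ S, LineB l K L M E (Pr G r) h p 0 t) ∧
      AltP l K L M E (Pr G r) h p m S (Calm E G l K) := by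
  obtain ⟨p, m, S, h1, h2, h3, h4, h5⟩ := H
  refine ⟨p, m, S, h1, ?_, h2, h3, ?_⟩
  · rcases h4 with h4 | ⟨t, ht, h4⟩
    · exact Or.inl h4
    · exact Or.inr ⟨t, ht, lineB_of hG hadj h4⟩
  · intro i hi hL
    rw [card_br hG] at hL
    rcases h5 i hi hL with g | ⟨j, g1, g2, g3, g4, g5⟩ | ⟨j, g1, g2, g3, t, ht, g4⟩
    · refine Or.inl ?_
      rw [card_ca hG, card_br hG]
      exact g
    · refine Or.inr (Or.inl ⟨j, g1, g2, g3, ?_, ?_⟩)
      · rw [card_br hG, card_nc hG]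
        exact g4
      · rw [card_br hG, card_br hG, card_ca' hG]
        exact g5
    · refine Or.inr (Or.inr ⟨j, g1, g2, ?_, t, ht, h3 t ht, lineB_of hG hadj g4⟩)
      rw [card_br hG, card_br hG]
      exact g3

end

/-- the main theorem on codes -/
def MainSt : Prop := ∀ b l : ℕ, 1 ≤ b → ∃ A' : ℕ, ∀ θ : ℝ, 0 < θ → θ ≤ 1 / 2 → ∃ (ε₀ μ₀ : ℝ) (K : ℕ), 0 < ε₀ ∧ 0 < μ₀ ∧
  ∀ M : ℕ, ∃ C : ℕ, ∀ {V : Type} {R : V → V → Prop}, AE32.Tour R → ∀ {ε μ : ℝ}, ε ≤ ε₀ → μ ≤ μ₀ → ∀ n : ℕ,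
    (∀ c : Fd, c.len ≤ b → c.Deg b → BlN θ ε μ M (Rgn b l K A' θ ε μ M n) (EndP θ ε M) c →
      ∀ X : Finset V, c.size + 1 + C ≤ X.card → In R c (fun _ => True) X) ∧
    (∀ F : Fd, FX b l K (Wc θ ε μ M (Rgn b l K A' θ ε μ M n)) 0 F →
      ∀ X : Finset V, F.size + 1 + C ≤ X.card → In R F (fun _ => True) X) ∧
    ∀ F : Fd, FX b l K (fun c => Wc θ ε μ M (Rgn b l K A' θ ε μ M n) (mrr c)) 0 (mrr F) →
      ∀ X : Finset V, F.size + 1 + C ≤ X.card → In R F (fun _ => True) X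

/-- many calm vertices give many good pieces, for the set `Ca` -/
def EndMany (L : ℕ) {τ : Type} [Fintype τ] (E P : τ → τ → Prop) (h : τ → τ) (θ' ε : ℝ) (m₀ : ℕ) (Ca : Set τ) : Prop :=
  (∀ v, m₀ ≤ (AE32.desc P v).card → (AE32.desc P v).card ≤ L * ((AE32.desc P v).filter (fun x => x ∈ Ca)).card →
    EndP θ' ε m₀ (codH E P h v)) ∧
  ∀ v w, w ∈ AE32.desc P v → w ≠ v → m₀ ≤ (AE32.desc P v).card →
    (AE32.desc P v).card ≤ L * ((AE32.desc P v \ AE32.desc P w).filter (fun x => x ∈ Ca)).card →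
    ∃ D : Dk, D.un = codH E P h v ∧ One ε m₀ (codH E P h w) D ∧
      θ' * (D.un.size + 1) + ((codH E P h w).size + 1) ≤ D.psz

/-- the graph side of the pieces -/
def CalmSt : Prop := ∀ b l L : ℕ, 1 ≤ b → ∃ θ' : ℝ, 0 < θ' ∧ ∀ ε : ℝ, 0 < ε → ∃ ρ m₀ : ℕ,
  ∀ {τ : Type} [Fintype τ] {E : τ → τ → Prop} (_ : ∀ a c, E a c → ¬ E c a) (_ : (SimpleGraph.fromRel E).IsTree)
    (_ : ∀ v, {w | E v w ∨ E w v}.ncard ≤ b) (r : τ) (h : τ → τ)
    (_ : ∀ u w, Pr (SimpleGraph.fromRel E) r u w → Pr (SimpleGraph.fromRel E) r u (h u)),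
    EndMany L E (Pr (SimpleGraph.fromRel E) r) h θ' ε m₀ (Calm E (SimpleGraph.fromRel E) l ρ)

/-- the branches at `p i`, `i ∈ S`, have codes of the class -/
def BlSt : Prop := ∀ b l L A' : ℕ, ∀ θ' : ℝ, 0 < θ' → ∃ θ : ℝ, 0 < θ ∧ θ ≤ 1 / 2 ∧ ∀ {ε μ : ℝ}, 0 < ε → 0 < μ →
  ∀ m₀ K₀ : ℕ, ∃ K, K₀ ≤ K ∧ ∀ M : ℕ, ∃ M', ∀ {τ : Type} [Fintype τ] {E P : τ → τ → Prop} {rk : τ → ℕ}
    (_ : ∀ a b, P a b → rk a < rk b) (_ : ∀ a b c, P a c → P b c → a = b) (_ : ∀ a c, P a c → E a c ∨ E c a)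
    (_ : ∀ a c, E a c → ¬ E c a) (_ : ∀ v, {w | E v w ∨ E w v}.ncard ≤ b) (h : τ → τ)
    (_ : ∀ u w, P u w → P u (h u) ∧ (AE32.desc P w).card ≤ (AE32.desc P (h u)).card) {p : ℕ → τ} {m : ℕ} {S : Set ℕ}
    {Ca : Set τ}, EndMany (2 * L) E P h θ' ε m₀ Ca → AltP l K L M E P h p m S Ca → ∀ i ∈ S,
      BlN θ ε μ M' (Rgn b (l + L) K₀ A' θ ε μ M' (m - i)) (EndP θ ε M') (codH E P h (p i)) ∧
      (((AE32.desc P (p i)).card ≤ M ∨ (AE32.desc P (p i)).card ≤ L * (ncY E P (p i)).card) →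
        L < (AE32.desc P (p i)).card →
          Wc θ ε μ M' (Rgn b (l + L) K₀ A' θ ε μ M' (m - i)) (codH E P h (p i)))

theorem calm_mono {τ : Type*} {E : τ → τ → Prop} {G : SimpleGraph τ} {l ρ ρ' : ℕ} (h : ρ ≤ ρ') :
    Calm E G l ρ' ⊆ Calm E G l ρ := by
  intro v hv q hq
  obtain ⟨i, h1, h2⟩ := hv q hq
  exact ⟨i, h1, by omega⟩

/-- **the final assembly** -/
theorem final_of (hmain : MainSt) (hcalm : CalmSt) (hbl : BlSt) : FinalSt := by
  intro Δ l L
  obtain ⟨A', hA⟩ := hmain (max Δ 1) (l + L) (le_max_right _ _)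
  obtain ⟨θ', hθ', hE'⟩ := hcalm (max Δ 1) l (2 * L) (le_max_right _ _)
  obtain ⟨θ, hθ, hθ1, hB⟩ := hbl (max Δ 1) l L A' θ' hθ'
  obtain ⟨ε₀, μ₀, K₀, hε, hμ, hK₀⟩ := hA θ hθ hθ1
  obtain ⟨ρ, m₀, hρ⟩ := hE' ε₀ hε
  obtain ⟨K₁, hKK, hM⟩ := hB hε hμ m₀ K₀
  refine ⟨max K₁ ρ, fun M => ?_⟩
  obtain ⟨M', hM'⟩ := hM M
  obtain ⟨C, hC⟩ := hK₀ M'
  refine ⟨C + 1, fun k n hn R h1 h2 h3 E h4 h5 h6 r h hh h7 => ?_⟩
  have hadj : ∀ a c, E a c → (SimpleGraph.fromRel E).Adj a c := by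
    intro a c hac
    rw [SimpleGraph.fromRel_adj]
    exact ⟨fun he => by subst he; exact h4 _ _ hac hac, Or.inl hac⟩
  obtain ⟨p, m, S, hp0, h0', hAlt'⟩ := altP_of h5 hadj h7
  have hAlt := hAlt'.mono (le_max_left K₁ ρ) (calm_mono (le_max_right K₁ ρ))
  have h0 : 0 ∈ S ∨ ∃ t ∈ S, LineB l K₁ L M E (Pr (SimpleGraph.fromRel E) r) h p 0 t :=
    h0'.imp_right fun ⟨t, ht, hl⟩ => ⟨t, ht, hl.mono le_rfl (le_max_left K₁ ρ) le_rfl le_rfl⟩
  have h5' := h5
  obtain ⟨G, hG⟩ : ∃ G, G = SimpleGraph.fromRel E := ⟨_, rfl⟩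
  rw [← hG] at h5 hh hadj h0 hAlt
  have h6' : ∀ v, {w | E v w ∨ E w v}.ncard ≤ max Δ 1 := by
    intro v
    refine le_trans (le_of_eq ?_) ((h6 v).trans (le_max_left _ _))
    congr 1
    ext w
    rw [SimpleGraph.mem_neighborSet, SimpleGraph.fromRel_adj]
    constructor
    · intro h
      refine ⟨?_, h⟩
      rintro rfl
      rcases h with h | h
      · exact h4 _ _ h h
      · exact h4 _ _ h h
    · intro h
      exact h.2
  have hE : ∀ a c, Pr G r a c → G.dist r a < G.dist r c := by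
    intro a c h
    have := h.2
    omega
  have hin : ∀ a b c, Pr G r a c → Pr G r b c → a = b := fun a b c h1 h2 =>
    parent_unique' h5 r h1.1 h2.1 h1.2 h2.2
  have hP : ∀ a c, Pr G r a c → E a c ∨ E c a := by
    intro a c h
    have h1 := h.1
    rw [hG, SimpleGraph.fromRel_adj] at h1
    exact h1.2
  have hmc : ∀ u w, Pr G r u w → Pr G r u (h u) ∧
      (AE32.desc (Pr G r) w).card ≤ (AE32.desc (Pr G r) (h u)).card := by
    intro u w huw
    obtain ⟨g1, g2, g3⟩ := hh u w huw.1 huw.2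
    refine ⟨⟨g1, g2⟩, ?_⟩
    rw [card_br h5, card_br h5]
    exact g3
  have hhP : ∀ u w, Pr G r u w → Pr G r u (h u) := fun u w h => (hmc u w h).1
  have hEM := hρ h4 h5' h6' r h (by rw [← hG]; exact hhP)
  rw [← hG] at hEM
  have hall := hM' (rk := fun v => G.dist r v) hE hin hP h4 h6' h hmc hEM hAlt
  have hvc := vc_of_cod (h := fun v => G.dist r v) hE hin hP h6' (codH_cod' (E := E) (rk := fun v => G.dist r v) hE hhP r)
  have hroot : AE32.desc (Pr G r) r = univ := by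
    rw [eq_univ_iff_forall]
    intro v
    rw [desc_br h5, Br, Set.mem_ofPred_eq, SimpleGraph.dist_self, zero_add]
  have hsz := hvc.size
  rw [hroot, card_univ, Fintype.card_fin] at hsz
  have hT : AE32.Tour R := ⟨h1, h2, h3⟩
  have hcard : (codH E (Pr G r) h r).size + 1 + C ≤ (univ : Finset (Fin n)).card := by
    rw [card_univ, Fintype.card_fin]
    omega
  have hcon : In R (codH E (Pr G r) h r) (fun _ => True) (univ : Finset (Fin n)) := by
    rcases h0 with h0 | ⟨t, ht, hl | hl⟩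
    · have h8 := (hall 0 h0).1
      rw [hp0] at h8
      exact (hC hT le_rfl le_rfl (m - 0)).1 _ hvc.len hvc.deg h8 univ hcard
    · have hQ := hall t ht
      have hfx : FX (max Δ 1) (l + L) K₀ (Wc θ ε₀ μ₀ M' (Rgn (max Δ 1) (l + L) K₀ A' θ ε₀ μ₀ M' (m - t))) 0
          (codH E (Pr G r) h (p 0)) := by
        refine line_fx (rk := fun v => G.dist r v) hE hin hP h4 h6' h hmc hAlt.1 (hAlt.2.1 t ht) (fun hlt => ?_)
          (hl.mono le_rfl hKK le_rfl le_rfl)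
        refine hQ.2 ?_ hlt
        rcases hl.2.2.2.1 with h8 | h8
        · omega
        · exact h8.2.2.2
      rw [hp0] at hfx
      exact (hC hT le_rfl le_rfl (m - t)).2.1 _ hfx univ hcard
    · have hQ := hall t ht
      have hx : ∀ a c, Pr G r a c → (E c a ↔ ¬ E a c) := by
        intro a c hac
        constructor
        · intro h8 h9
          exact h4 _ _ h8 h9
        · intro h8
          exact (hP a c hac).resolve_left h8
      have hncm : ∀ v, ncY (fun a b => E b a) (Pr G r) v = ncY E (Pr G r) v := by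
        intro v
        unfold ncY
        apply filter_congr
        intro x _
        have e1 : ∀ a b, ReflTransGen (fun a b => E b a) a b ↔ ReflTransGen E b a := fun a b => reflTransGen_swap
        rw [e1, e1]
        exact and_comm
      have hfx : FX (max Δ 1) (l + L) K₀
          (fun c => Wc θ ε₀ μ₀ M' (Rgn (max Δ 1) (l + L) K₀ A' θ ε₀ μ₀ M' (m - t)) (mrr c)) 0
          (codH (fun a b => E b a) (Pr G r) h (p 0)) := by
        refine line_fx (rk := fun v => G.dist r v) hE hin (fun a c h => (hP a c h).symm) (fun a c h => h4 c a h)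
          (fun v => by
            refine le_trans (le_of_eq ?_) (h6' v)
            congr 1
            ext w
            exact or_comm) h hmc hAlt.1 (hAlt.2.1 t ht) (fun hlt => ?_) (hl.mono le_rfl hKK le_rfl le_rfl)
        rw [← mrr_codH hhP hx, mrr_mrr]
        refine hQ.2 ?_ hlt
        rcases hl.2.2.2.1 with h8 | h8
        · omega
        · have h9 := h8.2.2.2
          rw [hncm] at h9
          exact h9
      rw [hp0, ← mrr_codH hhP hx] at hfx
      exact (hC hT le_rfl le_rfl (m - t)).2.2 _ hfx univ hcard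
  obtain ⟨x, hx, A, hA, hxA, hN', hS⟩ := hcon
  obtain ⟨f, p1, p2, p3, p4⟩ := hvc.emb hxA hS
  rw [hroot] at p2 p3 p4
  refine ⟨f, fun a b hab => p3 a (mem_univ _) b (mem_univ _) hab, fun a c hac => ?_⟩
  rcases h5.dist_eq_dist_add_one_of_adj r (hadj _ _ hac) with h | h
  · have h8 := p4 c (mem_univ _) a ⟨(hadj _ _ hac).symm, h⟩
    have h9 : ¬ E c a := h4 _ _ hac
    simpa [Adj, h9] using h8
  · have h8 := p4 a (mem_univ _) c ⟨hadj _ _ hac, h⟩
    simpa [Adj, hac] using h8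

end AEN
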