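import Pool.Agent.AEWL.OneL
import Pool.Agent.AEN.FinalA

/-!
# Vertices without long directed paths nearby: many good pieces in the code of a rooted tree
-/

set_option autoImplicit false

namespace AEN

open Finset Relation AE15 AED AEB AET AELT AEJ LTT AEK AEY AEW
open scoped Classical

theorem ok_monoM {ε : ℝ} {m m' : ℕ} (hm : m ≤ m') : ∀ D : Dk, D.Ok ε m → D.Ok ε m' := by
  intro D
  induction D with
  | nil => intro _; trivial
  | node d c s ihc ihs => rintro ⟨a1, a2⟩; exact ⟨ihc a1, ihs a2⟩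
  | pc1 d q s ihs => rintro ⟨a1, a2, a3⟩; exact ⟨a1, a2.trans hm, ihs a3⟩
  | pc2 d M d' c s ihc ihs => rintro ⟨a1, a2, a3, a4⟩; exact ⟨a1, a2.trans hm, ihc a3, ihs a4⟩

theorem one_monoM {ε : ℝ} {m m' : ℕ} (hm : m ≤ m') {q : Fd} : ∀ D : Dk, One ε m q D → One ε m' q D := by
  intro D
  induction D with
  | nil => intro h; exact h
  | node d c s ihc ihs =>
    rintro (⟨a1, a2⟩ | ⟨a1, a2⟩)
    · exact Or.inl ⟨ihc a1, ok_monoM hm _ a2⟩
    · exact Or.inr ⟨ok_monoM hm _ a1, ihs a2⟩
  | pc1 d q' s ihs =>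
    rintro (⟨a1, a2⟩ | ⟨a1, a2, a3⟩)
    · exact Or.inl ⟨a1, ok_monoM hm _ a2⟩
    · exact Or.inr ⟨a1, a2.trans hm, ihs a3⟩
  | pc2 d M d' c s ihc ihs =>
    rintro ⟨a1, a2, ⟨a3, a4⟩ | ⟨a3, a4⟩⟩
    · exact ⟨a1, a2.trans hm, Or.inl ⟨ihc a3, ok_monoM hm _ a4⟩⟩
    · exact ⟨a1, a2.trans hm, Or.inr ⟨ok_monoM hm _ a3, ihs a4⟩⟩

section shape

variable {τ : Type}

/-- the labelled forest with the given trees -/
def mkT (g : τ → Tr τ) : List τ → Tr τ
  | [] => .nil
  | w :: l => .node w (g w) (mkT g l)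

theorem mkT_congr {g g' : τ → Tr τ} : ∀ l : List τ, (∀ w ∈ l, g w = g' w) → mkT g l = mkT g' l
  | [], _ => rfl
  | w :: l, hl => by
    unfold mkT
    rw [hl w List.mem_cons_self, mkT_congr l fun u hu => hl u (List.mem_cons_of_mem _ hu)]

theorem mkT_or {E : τ → τ → Prop} {v : τ} {f : τ → Bool} {g : τ → Tr τ} {g' : τ → Fd} : ∀ l : List τ,
    (∀ w ∈ l, f w = decide (E v w) ∧ (g w).or f = g' w) → (mkT g l).or f = mkY E v g' l
  | [], _ => rfl
  | w :: l, hl => by
    obtain ⟨h1, h2⟩ := hl w List.mem_cons_self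
    show Fd.node (f w) ((g w).or f) ((mkT g l).or f) = Fd.node _ _ _
    rw [h1, h2, mkT_or l fun u hu => hl u (List.mem_cons_of_mem _ hu)]

theorem mkT_par {P : τ → τ → Prop} {v : τ} {g : τ → Tr τ} : ∀ l : List τ, (∀ w ∈ l, P v w ∧ (g w).Par P w) →
    (mkT g l).Par P v
  | [], _ => trivial
  | w :: l, hl => ⟨(hl w List.mem_cons_self).1, (hl w List.mem_cons_self).2,
      mkT_par l fun u hu => hl u (List.mem_cons_of_mem _ hu)⟩

theorem mkT_ct (p : τ → Prop) (g : τ → Tr τ) : ∀ l : List τ,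
    (mkT g l).ct p = (l.map (fun w => (g w).ct p + if p w then 1 else 0)).sum
  | [] => rfl
  | w :: l => by
    show (if p w then 1 else 0) + ((g w).ct p + (mkT g l).ct p) = _
    rw [mkT_ct p g l, List.map_cons, List.sum_cons]
    omega

theorem mkT_plug {g : τ → Tr τ} {w : τ} : ∀ l : List τ, w ∈ l → ∃ M : CT τ, mkT g l = M.plug w (g w) ∧
    ∀ (t : CT τ) (x : τ) (q : Tr τ), g w = t.plug x q → ∃ M' : CT τ, mkT g l = M'.plug x q
  | [], h => absurd h List.not_mem_nil
  | u :: l, h => by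
    rcases List.mem_cons.1 h with rfl | h
    · exact ⟨.here (mkT g l), rfl, fun t x q ht => ⟨.dn w t (mkT g l), by
        show Tr.node w (g w) (mkT g l) = Tr.node _ _ _
        rw [ht]⟩⟩
    · obtain ⟨M, h1, h2⟩ := mkT_plug (g := g) l h
      refine ⟨.nx u (g u) M, ?_, fun t x q ht => ?_⟩
      · show Tr.node u (g u) (mkT g l) = Tr.node _ _ _
        rw [h1]
      · obtain ⟨M', h3⟩ := h2 t x q ht
        refine ⟨.nx u (g u) M', ?_⟩
        show Tr.node u (g u) (mkT g l) = Tr.node _ _ _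
        rw [h3]

variable [Fintype τ] {E P : τ → τ → Prop}

/-- the labelled forest of the branches at a vertex, the main child first, up to depth `n` -/
noncomputable def trM (P : τ → τ → Prop) (h : τ → τ) : ℕ → τ → Tr τ
  | 0, _ => .nil
  | n + 1, v => mkT (trM P h n) (ordH P h v)

/-- the labelled forest of the branches at a vertex, the main child first -/
noncomputable def trH (P : τ → τ → Prop) (h : τ → τ) (v : τ) : Tr τ := trM P h (Fintype.card τ) v

variable {rk : τ → ℕ} (hE : ∀ a b, P a b → rk a < rk b) {h : τ → τ} (hh : ∀ u w, P u w → P u (h u))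

include hE hh in
theorem trH_eq (v : τ) : trH P h v = mkT (trH P h) (ordH P h v) := by
  have key : ∀ n v, (AE32.desc P v).card ≤ n → trM P h (n + 1) v = trM P h n v := by
    intro n
    induction n with
    | zero =>
      intro v hv
      have : 0 < (AE32.desc P v).card := card_pos.2 ⟨v, AE32.self_mem_desc v⟩
      omega
    | succ n ih =>
      intro v hv
      show mkT (trM P h (n + 1)) (ordH P h v) = mkT (trM P h n) (ordH P h v)
      refine mkT_congr _ fun w hw => ih w ?_
      have := card_desc_lt hE ((mem_ordH hh).1 hw)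
      omega
  have h1 := key (Fintype.card τ) v (card_le_univ _)
  show trM P h (Fintype.card τ) v = _
  rw [← h1]
  rfl

include hh in
theorem trH_or {f : τ → Bool} (hf : ∀ v w, P v w → f w = decide (E v w)) (v : τ) : (trH P h v).or f = codH E P h v := by
  have key : ∀ n v, (trM P h n v).or f = codN E P h n v := by
    intro n
    induction n with
    | zero => intro v; rfl
    | succ n ih =>
      intro v
      exact mkT_or _ fun w hw => ⟨hf v w ((mem_ordH hh).1 hw), ih w⟩
  exact key _ v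

include hh in
theorem trH_par (v : τ) : (trH P h v).Par P v := by
  have key : ∀ n v, (trM P h n v).Par P v := by
    intro n
    induction n with
    | zero => intro v; trivial
    | succ n ih =>
      intro v
      exact mkT_par _ fun w hw => ⟨(mem_ordH hh).1 hw, ih w⟩
  exact key _ v

include hE hh in
theorem trH_ct (hin : ∀ a b c, P a c → P b c → a = b) (p : τ → Prop) (n : ℕ) : ∀ v, (AE32.desc P v).card = n →
    (trH P h v).ct p + (if p v then 1 else 0) = ((AE32.desc P v).filter p).card := by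
  induction n using Nat.strong_induction_on with
  | _ n ih =>
    intro v hv
    have h1 : AE32.desc P v = insert v ((ordH P h v).toFinset.biUnion (AE32.desc P)) := by
      ext x
      rw [mem_insert, mem_biUnion]
      constructor
      · intro hx
        rcases (AE32.mem_desc.1 hx).cases_head with h2 | ⟨e, h2, h3⟩
        · exact Or.inl h2.symm
        · exact Or.inr ⟨e, by rw [List.mem_toFinset]; exact (mem_ordH hh).2 h2, AE32.mem_desc.2 h3⟩
      · rintro (rfl | ⟨e, h2, h3⟩)
        · exact AE32.self_mem_desc _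
        · rw [List.mem_toFinset] at h2
          exact AE32.desc_subset ((mem_ordH hh).1 h2) h3
    have h2 : v ∉ (ordH P h v).toFinset.biUnion (AE32.desc P) := by
      rw [mem_biUnion]
      rintro ⟨e, h2, h3⟩
      rw [List.mem_toFinset] at h2
      exact AE32.notMem_desc hE ((mem_ordH hh).1 h2) h3
    have h3 : (trH P h v).ct p = ((ordH P h v).toFinset.biUnion (fun w => (AE32.desc P w).filter p)).card := by
      rw [card_biUnion, List.sum_toFinset _ (ordH_nodup P h v), trH_eq hE hh, mkT_ct]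
      · congr 1
        refine List.map_congr_left fun w hw => ?_
        refine ih _ ?_ w rfl
        rw [← hv]
        exact card_desc_lt hE ((mem_ordH hh).1 hw)
      · intro x hx y hy hxy
        rw [Finset.mem_coe, List.mem_toFinset] at hx hy
        exact Disjoint.mono (filter_subset _ _) (filter_subset _ _)
          (AE32.desc_disjoint hE hin ((mem_ordH hh).1 hx) ((mem_ordH hh).1 hy) hxy)
    rw [h3, h1, filter_insert, filter_biUnion]
    split_ifs with hp
    · rw [card_insert_of_notMem]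
      intro hcon
      rw [mem_biUnion] at hcon
      obtain ⟨e, g1, g2⟩ := hcon
      exact h2 (mem_biUnion.2 ⟨e, g1, (mem_filter.1 g2).1⟩)
    · rfl

include hE hh in
theorem trH_plug {v w : τ} (hw : w ∈ AE32.desc P v) (hne : w ≠ v) : ∃ M : CT τ, trH P h v = M.plug w (trH P h w) := by
  have key : ∀ v, ReflTransGen P v w → w = v ∨ ∃ M : CT τ, trH P h v = M.plug w (trH P h w) := by
    intro v hv
    induction hv using ReflTransGen.head_induction_on with
    | refl => exact Or.inl rfl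
    | head h1 h2 ih =>
      right
      obtain ⟨M, g1, g2⟩ := mkT_plug (g := trH P h) _ ((mem_ordH hh).2 h1)
      rcases ih with h3 | ⟨M', h3⟩
      · refine ⟨M, ?_⟩
        rw [trH_eq hE hh, g1, h3]
      · obtain ⟨M'', h4⟩ := g2 _ _ _ h3
        refine ⟨M'', ?_⟩
        rw [trH_eq hE hh, h4]
  rcases key v (AE32.mem_desc.1 hw) with h1 | h1
  · exact absurd h1 hne
  · exact h1

end shape

/-- **Many good pieces from a positive proportion of calm vertices**, also outside a further branch; `θ'` does not depend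
on `ε`. -/
theorem calmSt : CalmSt := by
  intro b l L hb
  obtain ⟨θ, hθd⟩ : ∃ θ : ℝ, θ = 1 / (2 * ((L : ℝ) + 1)) := ⟨_, rfl⟩
  have hL0 : (0 : ℝ) ≤ L := Nat.cast_nonneg _
  have hθ : 0 < θ := by rw [hθd]; positivity
  obtain ⟨θ₁, hθ₁, H₁⟩ := loc_end b l hb hθ
  obtain ⟨θ₂, hθ₂, H₂⟩ := loc_many b l hb hθ
  refine ⟨min θ₁ θ₂, lt_min hθ₁ hθ₂, ?_⟩
  intro ε hε
  obtain ⟨r₁, m₁, n₁, H₁⟩ := H₁ ε hε
  obtain ⟨r₂, m₂, n₂, H₂⟩ := H₂ ε hε
  obtain ⟨ρ, hρ⟩ : ∃ ρ, ρ = max r₁ r₂ + l + 1 := ⟨_, rfl⟩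
  obtain ⟨m₀, hm₀⟩ : ∃ m₀, m₀ = max (max m₁ m₂) (max (max n₁ n₂) (2 * (L + 1))) := ⟨_, rfl⟩
  have hm1 : m₁ ≤ m₀ := by rw [hm₀]; exact (le_max_left _ _).trans (le_max_left _ _)
  have hm2 : m₂ ≤ m₀ := by rw [hm₀]; exact (le_max_right _ _).trans (le_max_left _ _)
  have hn1 : n₁ ≤ m₀ := by rw [hm₀]; exact ((le_max_left _ _).trans (le_max_left _ _)).trans (le_max_right _ _)
  have hn2 : n₂ ≤ m₀ := by rw [hm₀]; exact ((le_max_right _ _).trans (le_max_left _ _)).trans (le_max_right _ _)
  have hLm : 2 * (L + 1) ≤ m₀ := by rw [hm₀]; exact (le_max_right _ _).trans (le_max_right _ _)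
  refine ⟨ρ, m₀, ?_⟩
  intro τ _ E hanti hG hdeg r h hh
  obtain ⟨G, hGE⟩ : ∃ G, G = SimpleGraph.fromRel E := ⟨_, rfl⟩
  rw [← hGE] at hG hh ⊢
  obtain ⟨P, hPd⟩ : ∃ P, P = Pr G r := ⟨_, rfl⟩
  rw [← hPd] at hh ⊢
  have hPG : ∀ a c, P a c → G.Adj a c := by
    rw [hPd]
    exact fun a c h => h.1
  have hE : ∀ a c, P a c → G.dist r a < G.dist r c := by
    rw [hPd]
    intro a c h
    have := h.2
    omega
  have hin : ∀ a c d, P a d → P c d → a = c := by
    rw [hPd]
    exact fun a b c h1 h2 => parent_unique' hG r h1.1 h2.1 h1.2 h2.2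
  have hP : ∀ a c, P a c → E a c ∨ E c a := by
    intro a c hac
    have h1 := hPG a c hac
    rw [hGE, SimpleGraph.fromRel_adj] at h1
    exact h1.2
  obtain ⟨f, hf⟩ : ∃ f : τ → Bool, f = fun w => decide (∃ y, P y w ∧ E y w) := ⟨_, rfl⟩
  have hf1 : ∀ v w, P v w → (E v w ↔ f w = true) := by
    intro v w h
    rw [hf]
    simp only [decide_eq_true_eq]
    constructor
    · intro h1
      exact ⟨v, h, h1⟩
    · rintro ⟨y, h1, h2⟩
      rw [hin _ _ _ h h1]
      exact h2
  have hfd : ∀ v w, P v w → f w = decide (E v w) := by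
    intro v w hvw
    have h1 := hf1 v w hvw
    by_cases h2 : E v w
    · rw [h1.1 h2, decide_eq_true h2]
    · rw [decide_eq_false h2]
      cases h3 : f w with
      | false => rfl
      | true => exact absurd (h1.2 h3) h2
  have hf2 : ∀ v w, P v w → f w = false → E w v := by
    intro v w h h1
    have h2 : ¬ E v w := by
      rw [hf1 v w h, h1]
      simp
    exact (hP v w h).resolve_left h2
  have hadj : ∀ x y z, G.Adj x y → ∀ h, G.dist z x ≤ h → G.dist z y ≤ h + 1 := by
    intro x y z h1 h h2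
    have h3 := hG.connected.dist_triangle (u := z) (v := x) (w := y)
    have h4 : G.dist x y = 1 := SimpleGraph.dist_eq_one_iff_adj.2 h1
    omega
  obtain ⟨Mk, hMk⟩ : ∃ Mk : ℕ → τ → Prop, Mk = fun h x => ∃ v, v ∈ Calm E G l ρ ∧ G.dist v x ≤ h := ⟨_, rfl⟩
  have hMk' : ∀ h x, Mk h x ↔ ∃ v, v ∈ Calm E G l ρ ∧ G.dist v x ≤ h := by
    intro h x
    rw [hMk]
  have hmono : ∀ h h', h ≤ h' → ∀ x, Mk h x → Mk h' x := by
    intro h h' hle x hx
    obtain ⟨v, h1, h2⟩ := (hMk' _ _).1 hx
    exact (hMk' _ _).2 ⟨v, h1, h2.trans hle⟩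
  have hLip : ∀ x y, P x y → Lip Mk x y := by
    intro x y hxy
    refine ⟨fun h hx => ?_, fun h hx => ?_⟩
    · obtain ⟨v, h1, h2⟩ := (hMk' _ _).1 hx
      exact (hMk' _ _).2 ⟨v, h1, hadj x y v (hPG _ _ hxy) h h2⟩
    · obtain ⟨v, h1, h2⟩ := (hMk' _ _).1 hx
      exact (hMk' _ _).2 ⟨v, h1, hadj y x v (hPG _ _ hxy).symm h h2⟩
  have hsh : ∀ r, r ≤ max r₁ r₂ → ∀ p : ℕ → τ, (∀ i ≤ l, P (p i) (p (i + 1))) → Mk r (p 0) →
      ∀ d, ∃ i ≤ l, f (p (i + 1)) ≠ d := by
    intro r hr p hp hx d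
    obtain ⟨v, h1, h2⟩ := (hMk' _ _).1 hx
    by_contra hcon
    push Not at hcon
    have hdist : ∀ i ≤ l + 1, G.dist v (p i) ≤ r + i := by
      intro i
      induction i with
      | zero => intro _; exact h2
      | succ i ih =>
        intro hi
        exact hadj _ _ v (hPG _ _ (hp i (by omega))) _ (ih (by omega))
    cases d with
    | true =>
      obtain ⟨i, hi, h3⟩ := h1 p (fun i hi => (hf1 _ _ (hp i hi)).2 (hcon i hi))
      have := hdist i hi
      omega
    | false =>
      obtain ⟨i, hi, h3⟩ := h1 (fun i => p (l + 1 - i)) (fun i hi => by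
        have h4 := hf2 _ _ (hp (l - i) (by omega)) (hcon (l - i) (by omega))
        have e1 : l + 1 - i = l - i + 1 := by omega
        have e2 : l + 1 - (i + 1) = l - i := by omega
        simp only [e1, e2]
        exact h4)
      have := hdist (l + 1 - i) (by omega)
      omega
  have hct : ∀ v, (trH P h v).ct (Mk 0) + (if Mk 0 v then 1 else 0) = ((AE32.desc P v).filter (Mk 0)).card := fun v =>
    trH_ct (rk := fun v => G.dist r v) hE hh hin _ _ v rfl
  have hcalm : ∀ s : Finset τ, (s.filter (fun x => x ∈ Calm E G l ρ)).card ≤ (s.filter (Mk 0)).card := by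
    intro s
    refine card_le_card fun x hx => ?_
    rw [mem_filter] at hx ⊢
    refine ⟨hx.1, (hMk' _ _).2 ⟨x, hx.2, ?_⟩⟩
    rw [SimpleGraph.dist_self]
  have hor := trH_or (E := E) hh hfd
  have hlen : ∀ v, (trH P h v).len ≤ b := by
    intro v
    rw [← Tr.or_len f, hor]
    exact (vc_of_cod (h := fun v => G.dist r v) hE hin hP hdeg (codH_cod' (E := E) (rk := fun v => G.dist r v) hE hh v)).len
  have hDeg : ∀ v, (trH P h v).Deg b := by
    intro v
    rw [← Tr.or_deg f, hor]
    exact (vc_of_cod (h := fun v => G.dist r v) hE hin hP hdeg (codH_cod' (E := E) (rk := fun v => G.dist r v) hE hh v)).deg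
  have hsize : ∀ v, (trH P h v).size + 1 = (AE32.desc P v).card := by
    intro v
    rw [← Tr.or_size f, hor]
    exact cod_size (h := fun v => G.dist r v) hE hin hP (codH_cod' (E := E) (rk := fun v => G.dist r v) hE hh v)
  have hreal : ∀ n c t : ℕ, m₀ ≤ n → n ≤ L * c → c ≤ t + 1 → θ * n ≤ t := by
    intro n c t h1 h2 h3
    have h4 : n ≤ L * (t + 1) := h2.trans (Nat.mul_le_mul_left _ h3)
    have h5 : (n : ℝ) ≤ L * (t + 1) := by exact_mod_cast h4
    have h6 : (2 * ((L : ℝ) + 1)) ≤ n := by exact_mod_cast hLm.trans h1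
    rw [hθd, div_mul_eq_mul_div, one_mul, div_le_iff₀ (by positivity)]
    have h7 : (0 : ℝ) ≤ t := Nat.cast_nonneg _
    nlinarith
  refine ⟨?_, ?_⟩
  · intro v hv hvc
    obtain ⟨D, k1, k2, k3⟩ := H₁ P f Mk hmono hLip (hsh r₁ (le_max_left _ _)) (trH P h v) v (hlen v) (hDeg v)
      (trH_par hh v) (by rw [hsize]; exact hn1.trans hv) (by
        have h1 := hct v
        have h2 := hcalm (AE32.desc P v)
        have h3 := hreal _ _ ((trH P h v).ct (Mk 0)) hv hvc (by split_ifs at h1 <;> omega)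
        rw [← hsize v] at h3
        exact_mod_cast h3)
    rw [hor] at k1
    refine ⟨D, k1, ok_monoM hm1 _ k2, ?_⟩
    rw [← k1]
    exact (mul_le_mul_of_nonneg_right (min_le_left _ _) (by positivity)).trans k3
  · intro v w hw hne hv hvc
    obtain ⟨M, hM⟩ := trH_plug (rk := fun v => G.dist r v) hE hh hw hne
    have hp := trH_par hh (P := P) v
    have hl := hlen v
    have hd := hDeg v
    have hs := hsize v
    have ho := hor v
    have hc := hct v
    rw [hM] at hp hl hd hs ho hc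
    obtain ⟨D, k1, k2, k3⟩ := H₂ P f Mk hmono hLip (hsh r₂ (le_max_right _ _)) M w (trH P h w) v hl hd hp
      (by rw [hs]; exact hn2.trans hv) (by
        have h1 := hct w
        have h2 := hcalm (AE32.desc P v \ AE32.desc P w)
        have h4 : ((AE32.desc P v).filter (Mk 0)).card =
            ((AE32.desc P v \ AE32.desc P w).filter (Mk 0)).card + ((AE32.desc P w).filter (Mk 0)).card := by
          have hsub : AE32.desc P w ⊆ AE32.desc P v := fun x hx =>
            AE32.mem_desc.2 ((AE32.mem_desc.1 hw).trans (AE32.mem_desc.1 hx))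
          rw [← card_union_of_disjoint, ← filter_union, sdiff_union_of_subset hsub]
          exact Disjoint.mono (filter_subset _ _) (filter_subset _ _) sdiff_disjoint
        rw [ct_plugT] at hc
        have h3 := hreal _ _ (M.un.ct (Mk 0)) hv hvc (by split_ifs at hc h1 <;> omega)
        rw [← hs] at h3
        exact_mod_cast h3)
    rw [ho] at k1
    rw [hor] at k2 k3
    refine ⟨D, k1, one_monoM hm2 _ k2, ?_⟩
    have h5 : min θ₁ θ₂ * ((D.un.size : ℝ) + 1) ≤ θ₂ * (D.un.size + 1) :=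
      mul_le_mul_of_nonneg_right (min_le_right _ _) (by positivity)
    linarith

end AEN
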