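import Pool.Agent.AEN.OneW
import Pool.Agent.AEY.ClosR

/-!
# The closure with all options: balanced branches, many small good pieces, rigid ends

All statements are for a fixed `C` and for trees of bounded size, so that they can be used in inductions.
-/

set_option autoImplicit false

namespace AEN

open Finset AE15 AED AELT AEK AEJ AEW AEY
open scoped Classical

/-- the jump from many small pieces, with the constants `k'`, `e'`, `be'` for the branch -/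
def ManyTo (b : ℕ) (th k' e' be' : ℝ) : Prop :=
  ∀ th1 k e be : ℝ, 0 < th1 → th1 ≤ 1 → 0 < k → 0 < e → 0 < be → ∃ ε μ κ₀ : ℝ, 0 < ε ∧ 0 < μ ∧ 0 < κ₀ ∧ ∃ C0 : ℝ,
    ∀ C : ℝ, C0 ≤ C → ∀ (D : Dk) (q : Fd) (m : ℕ), D.un.len ≤ b → D.un.Deg b → One ε m q D →
      th1 * (D.un.size + 1) + (q.size + 1) ≤ D.psz → ∀ (d : Bool) (a : Bool × Fd) (j : ℕ), AESK.PtT 0 (d, q) a j →
        (m : ℝ) ≤ μ * (a.2.size + 1) → (a.2.size + 1 : ℝ) ≤ κ₀ * (D.un.size + 1) →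
          th * (a.2.size + 1) + dcl a.2 + AEB.blk a.2 ≤ a.2.size + 1 → Coarse k' e' be' C a.2 → Coarse k e be C D.un

/-- trees with a chain of branches: small trees; trees with a rigid branch at the root; trees with property `En`; trees
with a balanced branch of comparable size; trees with many small good pieces and a further balanced branch -/
inductive BlN (θ ε μ : ℝ) (M : ℕ) (Rg : Bool × Fd → ℕ → Prop) (En : Fd → Prop) : Fd → Prop
  | small (c : Fd) : c.size + 1 ≤ M → BlN θ ε μ M Rg En c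
  | rig (c : Fd) (p : Bool × Fd) (s : ℕ) : p ∈ c.trees → Rg p s → θ * (c.size + 1) ≤ (s : ℝ) + 1 →
      BlN θ ε μ M Rg En c
  | fin (c : Fd) : En c → BlN θ ε μ M Rg En c
  | step (c : Fd) (d0 : Bool) (q : Bool × Fd) (m : ℕ) : AESK.PtT 0 (d0, c) q m → q.2.size < c.size →
      θ * (c.size + 1) ≤ q.2.size + 1 → θ * (q.2.size + 1) + dcl q.2 + AEB.blk q.2 ≤ q.2.size + 1 →
        BlN θ ε μ M Rg En q.2 → BlN θ ε μ M Rg En c
  | many (D : Dk) (q : Fd) (m : ℕ) : One ε m q D → θ * (D.un.size + 1) + (q.size + 1) ≤ D.psz →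
      (m : ℝ) ≤ μ * (q.size + 1) → θ * (q.size + 1) + dcl q + AEB.blk q ≤ q.size + 1 → BlN θ ε μ M Rg En q →
        BlN θ ε μ M Rg En D.un

theorem BlN.of_blR {θ ε μ : ℝ} {M : ℕ} {Rg : Bool × Fd → ℕ → Prop} {En : Fd → Prop} {c : Fd} (h : BlR θ M Rg c) :
    BlN θ ε μ M Rg En c := by
  induction h with
  | small c h => exact BlN.small c h
  | rig c p s h1 h2 h3 => exact BlN.rig c p s h1 h2 h3
  | step c d0 q m h1 h2 h3 h4 _ ih => exact BlN.step c d0 q m h1 h2 h3 h4 ih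

theorem BlN.mono {θ ε μ : ℝ} {M : ℕ} {Rg Rg' : Bool × Fd → ℕ → Prop} {En En' : Fd → Prop} {c : Fd}
    (hRg : ∀ p s, Rg p s → Rg' p s) (hEn : ∀ c, En c → En' c) (h : BlN θ ε μ M Rg En c) : BlN θ ε μ M Rg' En' c := by
  induction h with
  | small c h => exact BlN.small c h
  | rig c p s h1 h2 h3 => exact BlN.rig c p s h1 (hRg _ _ h2) h3
  | fin c h => exact BlN.fin c (hEn c h)
  | step c d0 q m h1 h2 h3 h4 _ ih => exact BlN.step c d0 q m h1 h2 h3 h4 ih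
  | many D q m h1 h2 h3 h4 _ ih => exact BlN.many D q m h1 h2 h3 h4 ih

section descend

variable {θ ε μ : ℝ} {M : ℕ} {Rg : Bool × Fd → ℕ → Prop} {En : Fd → Prop}

/-- down to the size `T` -/
theorem descendN {T T' : ℝ} (hθ : 0 < θ) {c : Fd} (hM : (M : ℝ) ≤ T) (s : ℕ) :
    ∀ a : Bool × Fd, a.2.size = s → BlN θ ε μ M Rg En a.2 → T < a.2.size + 1 → ∀ d0 m, AESK.PtT 0 (d0, c) a m →
      (∃ q m', AESK.PtT 0 (d0, c) q m' ∧ min (θ * T) T' ≤ q.2.size + 1 ∧ q.2.size + 1 ≤ T ∧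
        θ * (q.2.size + 1) + dcl q.2 + AEB.blk q.2 ≤ q.2.size + 1 ∧ BlN θ ε μ M Rg En q.2) ∨
      (∃ a' m', AESK.PtT 0 (d0, c) a' m' ∧ T < a'.2.size + 1 ∧ ∃ p s, p ∈ a'.2.trees ∧ Rg p s ∧
        θ * (a'.2.size + 1) ≤ (s : ℝ) + 1) ∨
      (∃ (D : Dk) (q : Fd) (m' : ℕ), D.un = c ∧ One ε m' q D ∧ θ * T + (q.size + 1) ≤ D.psz ∧
        (m' : ℝ) ≤ μ * (q.size + 1) ∧ q.size + 1 ≤ T' ∧ θ * (q.size + 1) + dcl q + AEB.blk q ≤ q.size + 1 ∧
          BlN θ ε μ M Rg En q) ∨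
      (∃ a' m', AESK.PtT 0 (d0, c) a' m' ∧ T < a'.2.size + 1 ∧ En a'.2) := by
  induction s using Nat.strong_induction_on with
  | _ s ih =>
    rintro ⟨da, a⟩ hs hB hlt d0 m hP
    simp only at hs hB hlt
    cases hB with
    | small _ h =>
      exfalso
      have : (a.size + 1 : ℝ) ≤ M := by exact_mod_cast h
      linarith only [hM, hlt, this]
    | rig _ p w h1 h2 h3 => exact Or.inr (Or.inl ⟨_, _, hP, hlt, p, w, h1, h2, h3⟩)
    | fin _ h => exact Or.inr (Or.inr (Or.inr ⟨_, _, hP, hlt, h⟩))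
    | step _ d1 q m1 hP1 hq1 hq2 hq3 hBq =>
      have h1 : ∃ m', AESK.PtT 0 (da, a) q m' := by
        rcases ptT_dir hP1 with rfl | h
        · exact absurd rfl hq1.ne
        · exact h da
      obtain ⟨m', hm'⟩ := h1
      have h2 := hP.trans hm'
      have h3 : θ * T ≤ θ * (a.size + 1) := mul_le_mul_of_nonneg_left hlt.le hθ.le
      by_cases h4 : (q.2.size : ℝ) + 1 ≤ T
      · exact Or.inl ⟨q, _, h2, (min_le_left _ _).trans (by linarith only [hq2, h3]), h4, hq3, hBq⟩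
      · push Not at h4
        exact ih q.2.size (by omega) q rfl hBq h4 d0 _ h2
    | many D q m1 hone hpsz hm1 hwin hBq =>
      obtain ⟨d1, j, hPq⟩ := one_ptT hone da
      have hP2 := hP.trans hPq
      have h3 : θ * T ≤ θ * (D.un.size + 1) := mul_le_mul_of_nonneg_left hlt.le hθ.le
      by_cases h4 : (q.size : ℝ) + 1 ≤ T
      · by_cases h5 : (q.size : ℝ) + 1 ≤ T'
        · obtain ⟨D', g1, g2, g3⟩ := plug (ε := ε) (m := m1) hP D rfl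
          refine Or.inr (Or.inr (Or.inl ⟨D', q, m1, g1, g2 q hone, ?_, hm1, h5, hwin, hBq⟩))
          rw [g3]
          linarith only [hpsz, h3]
        · push Not at h5
          exact Or.inl ⟨(d1, q), _, hP2, (min_le_right _ _).trans h5.le, h4, hwin, hBq⟩
      · push Not at h4
        have h6 := one_lt hone
        exact ih q.size (by omega) (d1, q) rfl hBq h4 d0 _ hP2

end descend

/-- the outcome of the induction: the coarse state of a tree, or of a branch of comparable size with a rigid branch at its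
root -/
def Near (θ k' e' be' ρ C : ℝ) (c : Fd) : Prop := ∃ q m, AESK.PtT 0 (true, c) q m ∧ (q.2 = c ∨
  (ρ * (c.size + 1) < q.2.size + 1 ∧ θ * (q.2.size + 1) + dcl q.2 + AEB.blk q.2 ≤ q.2.size + 1)) ∧
    Coarse k' e' be' C q.2

/-- a branch of comparable size with a rigid branch at its root -/
def RigIn (θ κ : ℝ) (Rg : Bool × Fd → ℕ → Prop) (d0 : Bool) (c : Fd) : Prop := ∃ a' m', AESK.PtT 0 (d0, c) a' m' ∧
  κ * (c.size + 1) < a'.2.size + 1 ∧ ∃ p s, p ∈ a'.2.trees ∧ Rg p s ∧ θ * (a'.2.size + 1) ≤ (s : ℝ) + 1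

theorem near_branch {θ k' e' be' ρ C : ℝ} {c : Fd} {d0 : Bool} {q : Bool × Fd} {m : ℕ}
    (hP : AESK.PtT 0 (d0, c) q m) (hN : Near θ k' e' be' ρ C q.2) : ∃ r j j', AESK.PtT 0 (d0, c) r j ∧ AESK.PtT 0 (true, q.2) r j' ∧
      ρ * (q.2.size + 1) ≤ r.2.size + 1 ∧ r.2.size + 1 ≤ (q.2.size : ℝ) + 1 ∧
        θ * (r.2.size + 1) + dcl r.2 + AEB.blk r.2 ≤ r.2.size + 1 ∧ Coarse k' e' be' C r.2 ∨ r.2 = q.2 ∧
          AESK.PtT 0 (d0, c) r j ∧ Coarse k' e' be' C r.2 := by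
  obtain ⟨r, mr, hr1, hr2, hr3⟩ := hN
  rcases ptT_dir hr1 with rfl | h1
  · exact ⟨q, m, 0, Or.inr ⟨rfl, hP, hr3⟩⟩
  · obtain ⟨m1, h2⟩ := h1 q.1
    rcases hr2 with hr2 | ⟨hr2, hr4⟩
    · exact ⟨r, _, 0, Or.inr ⟨hr2, hP.trans h2, hr3⟩⟩
    · refine ⟨r, _, mr, Or.inl ⟨hP.trans h2, hr1, hr2.le, ?_, hr4, hr3⟩⟩
      have h5 := hr1.sz_le
      unfold AESK.sz at h5
      simp only at h5
      have h6 : (r.2.size : ℝ) ≤ q.2.size := by
        have : r.2.size ≤ q.2.size := by omega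
        exact_mod_cast this
      linarith only [h6]

/-- **one step** -/
theorem stepN {b : ℕ} {θ k' e' be' : ℝ} (hθ : 0 < θ) (hθ1 : θ ≤ 1) (hJ : JumpTo0 b θ k' e' be')
    (hMn : ManyTo b θ k' e' be') {k e be cap : ℝ} (hk : 0 < k) (he : 0 < e) (hbe : 0 < be) (hcap : 0 < cap) :
    ∃ κ ε₀ μ₁ : ℝ, 0 < κ ∧ κ ≤ cap ∧ κ ≤ 1 / 2 ∧ 0 < ε₀ ∧ 0 < μ₁ ∧ ∀ ρ : ℝ, 0 < ρ → ρ ≤ 1 → ∃ C0 : ℝ, ∀ C : ℝ,
      C0 ≤ C → ∀ {ε μ : ℝ}, ε ≤ ε₀ → μ ≤ ρ * μ₁ → ∀ {M : ℕ} {Rg : Bool × Fd → ℕ → Prop} {En : Fd → Prop} (c : Fd)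
        (d0 : Bool) (a : Bool × Fd) (m : ℕ), c.len ≤ b → c.Deg b → AESK.PtT 0 (d0, c) a m → BlN θ ε μ M Rg En a.2 →
          κ * (c.size + 1) < a.2.size + 1 → (M : ℝ) ≤ κ * (c.size + 1) →
            (∀ q : Fd, q.size < c.size → q.len ≤ b → q.Deg b → BlN θ ε μ M Rg En q → Near θ k' e' be' ρ C q) →
            (∀ a' m', AESK.PtT 0 (d0, c) a' m' → κ * (c.size + 1) < a'.2.size + 1 → En a'.2 → Coarse k e be C c) →
              Coarse k e be C c ∨ RigIn θ κ Rg d0 c := by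
  obtain ⟨κ₁, hκ₁, hJ⟩ := hJ k e be hk he hbe
  obtain ⟨κ, hκd⟩ : ∃ κ : ℝ, κ = min (min κ₁ cap) (1 / 2) := ⟨_, rfl⟩
  have hκ : 0 < κ := by rw [hκd]; exact lt_min (lt_min hκ₁ hcap) (by norm_num)
  have hκ1 : κ ≤ κ₁ := by rw [hκd]; exact (min_le_left _ _).trans (min_le_left _ _)
  have hκc : κ ≤ cap := by rw [hκd]; exact (min_le_left _ _).trans (min_le_right _ _)
  have hκ2 : κ ≤ 1 / 2 := by rw [hκd]; exact min_le_right _ _
  obtain ⟨ε₀, μ₁, κ₂', hε₀, hμ₁, hκ₂', C₂, hC₂⟩ := hMn (θ * κ) k e be (by positivity) (by nlinarith only [hθ1, hκ, hκ2, hθ]) hk he hbe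
  obtain ⟨κ₂, hκ₂d⟩ : ∃ κ₂ : ℝ, κ₂ = min κ₂' κ := ⟨_, rfl⟩
  have hκ₂ : 0 < κ₂ := by rw [hκ₂d]; exact lt_min hκ₂' hκ
  have hκ₂a : κ₂ ≤ κ₂' := by rw [hκ₂d]; exact min_le_left _ _
  have hκ₂b : κ₂ ≤ κ := by rw [hκ₂d]; exact min_le_right _ _
  refine ⟨κ, ε₀, μ₁, hκ, hκc, hκ2, hε₀, hμ₁, ?_⟩
  intro ρ hρ hρ1
  obtain ⟨lo, hlo⟩ : ∃ lo : ℝ, lo = min (θ * κ) κ₂ := ⟨_, rfl⟩
  have hlo0 : 0 < lo := by rw [hlo]; exact lt_min (by positivity) hκ₂
  obtain ⟨C₁, hC₁⟩ := hJ (ρ * lo) (by positivity)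
  refine ⟨max C₁ C₂, ?_⟩
  intro C hC ε μ hε hμ M Rg En c d0 a m hl hD hP hB hlt hM hnear hend
  have hC1 : C₁ ≤ C := (le_max_left _ _).trans hC
  have hC2 : C₂ ≤ C := (le_max_right _ _).trans hC
  have hc1 : (0 : ℝ) < c.size + 1 := by (clear * -; positivity)
  rcases descendN (T := κ * (c.size + 1)) (T' := κ₂ * (c.size + 1)) hθ
    hM a.2.size a rfl hB hlt d0 m hP with
      ⟨q, m', f1, f2, f3, f4, f5⟩ | ⟨a', m', f1, f2, f3⟩ | ⟨D, q, m', f1, f2, f3, f4, f5, f6, f7⟩ | ⟨a', m', f1, f2, f3⟩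
  · left
    obtain ⟨l, hl1, -⟩ := f1.spine
    obtain ⟨hql, hqD, -⟩ := AESK.spine_deg hl1 hl hD
    have hlt' : q.2.size < c.size := by
      have h1 : (q.2.size : ℝ) + 1 < c.size + 1 := by nlinarith only [hκ, hκ2, f3]
      have h2 : (q.2.size : ℝ) < c.size := by linarith only [h1]
      exact_mod_cast h2
    have hlo' : lo * (c.size + 1) ≤ q.2.size + 1 := by
      refine le_trans (le_min ?_ ?_) f2
      · rw [← mul_assoc]
        exact mul_le_mul_of_nonneg_right (by rw [hlo]; exact min_le_left _ _) hc1.le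
      · exact mul_le_mul_of_nonneg_right (by rw [hlo]; exact min_le_right _ _) hc1.le
    have hq0 : (0 : ℝ) ≤ q.2.size + 1 := by positivity
    obtain ⟨r, j, j', hr⟩ := near_branch f1 (hnear q.2 hlt' hql hqD f5)
    have hr' : AESK.PtT 0 (d0, c) r j ∧ ρ * (q.2.size + 1) ≤ r.2.size + 1 ∧ r.2.size + 1 ≤ (q.2.size : ℝ) + 1 ∧
        θ * (r.2.size + 1) + dcl r.2 + AEB.blk r.2 ≤ r.2.size + 1 ∧ Coarse k' e' be' C r.2 := by
      rcases hr with ⟨g1, -, g3, g4, g5, g6⟩ | ⟨g1, g2, g3⟩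
      · exact ⟨g1, g3, g4, g5, g6⟩
      · refine ⟨g2, ?_, ?_, ?_, g3⟩
        · rw [g1]; nlinarith only [hρ1]
        · rw [g1]
        · rw [g1]; exact f4
    obtain ⟨g1, g2, g3, g4, g5⟩ := hr'
    have n1 : ρ * lo * ((c.size : ℝ) + 1) ≤ r.2.size + 1 := by
      have h5 : ρ * (lo * (c.size + 1)) ≤ ρ * (q.2.size + 1) := mul_le_mul_of_nonneg_left hlo' hρ.le
      rw [mul_assoc]
      linarith only [g2, h5]
    have n2 : (r.2.size : ℝ) + 1 ≤ κ₁ * (c.size + 1) := (g3.trans f3).trans (mul_le_mul_of_nonneg_right hκ1 hc1.le)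
    intro V R
    exact hC₁ C hC1 c r d0 j hl hD g1 n1 n2 g4 g5
  · exact Or.inr ⟨a', m', f1, f2, f3⟩
  · left
    subst f1
    have hlt' : q.size < D.un.size := one_lt f2
    obtain ⟨d1, j1, hPq⟩ := one_ptT f2 d0
    obtain ⟨l, hl1, -⟩ := hPq.spine
    obtain ⟨hql, hqD, -⟩ := AESK.spine_deg hl1 hl hD
    have hq0 : (0 : ℝ) ≤ q.size + 1 := by positivity
    obtain ⟨r, mr, hr1, hr2, hr3⟩ := hnear q hlt' hql hqD f7
    have h5 := hr1.sz_le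
    unfold AESK.sz at h5
    simp only at h5
    have h6 : (r.2.size : ℝ) ≤ q.size := by
      have : r.2.size ≤ q.size := by omega
      exact_mod_cast this
    have hr' : ρ * (q.size + 1) ≤ (r.2.size : ℝ) + 1 ∧
        θ * (r.2.size + 1) + dcl r.2 + AEB.blk r.2 ≤ r.2.size + 1 := by
      rcases hr2 with g1 | ⟨g1, g2⟩
      · rw [g1]
        exact ⟨by nlinarith only [hρ1], f6⟩
      · exact ⟨g1.le, g2⟩
    have n1 : (m' : ℝ) ≤ μ₁ * (r.2.size + 1) := by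
      have h7 : μ * ((q.size : ℝ) + 1) ≤ ρ * μ₁ * (q.size + 1) := mul_le_mul_of_nonneg_right hμ hq0
      have h8 : μ₁ * (ρ * ((q.size : ℝ) + 1)) ≤ μ₁ * (r.2.size + 1) := mul_le_mul_of_nonneg_left hr'.1 hμ₁.le
      linarith only [f4, h7, h8]
    have n2 : (r.2.size + 1 : ℝ) ≤ κ₂' * (D.un.size + 1) := by
      have h7 : κ₂ * ((D.un.size : ℝ) + 1) ≤ κ₂' * (D.un.size + 1) := mul_le_mul_of_nonneg_right hκ₂a hc1.le
      linarith only [f5, h6, h7]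
    have n3 : θ * κ * ((D.un.size : ℝ) + 1) + (q.size + 1) ≤ D.psz := by
      rw [mul_assoc]
      exact f3
    intro V R
    exact hC₂ C hC2 D q m' hl hD (one_mono hε D f2) n3 true r mr hr1 n1 n2 hr'.2 hr3
  · exact Or.inl (hend a' m' f1 f2 f3)


/-- **the induction**, for a fixed `C` and trees with at most `n` vertices -/
theorem nearN {b : ℕ} (hb : 1 ≤ b) {θ k' e' be' : ℝ} (hθ : 0 < θ) (hθ1 : θ ≤ 1) (hk : 0 < k') (he : 0 < e')
    (hbe : 0 < be') (hJ : JumpTo0 b θ k' e' be') (hMn : ManyTo b θ k' e' be') :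
    ∃ ρ ε₀ μ₀ : ℝ, 0 < ρ ∧ ρ ≤ 1 ∧ 0 < ε₀ ∧ 0 < μ₀ ∧ ∀ M : ℕ, ∃ C0 : ℝ, ∀ C : ℝ, C0 ≤ C → ∀ {ε μ : ℝ}, ε ≤ ε₀ →
      μ ≤ μ₀ → ∀ {Rg : Bool × Fd → ℕ → Prop} {En : Fd → Prop}, RigW Rg → ∀ n : ℕ,
        (∀ (c : Fd) (p : Bool × Fd) (s : ℕ), c.size ≤ n → c.len ≤ b → c.Deg b → p ∈ c.trees → Rg p s →
          θ * (c.size + 1) ≤ (s : ℝ) + 1 → Coarse k' e' be' C c) →
        (∀ (c : Fd) (d0 : Bool) (a : Bool × Fd) (m : ℕ), c.size ≤ n → c.len ≤ b → c.Deg b → AESK.PtT 0 (d0, c) a m →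
          ρ * (c.size + 1) < a.2.size + 1 → En a.2 → Coarse k' e' be' C c) →
        ∀ c : Fd, c.size ≤ n → c.len ≤ b → c.Deg b → BlN θ ε μ M Rg En c → Near θ k' e' be' ρ C c := by
  obtain ⟨κ, ε₀, μ₁, hκ, -, hκ2, hε₀, hμ₁, h⟩ := stepN hθ hθ1 hJ hMn hk he hbe one_pos
  have hκ1 : κ ≤ 1 := by linarith only [hκ, hκ2]
  obtain ⟨C₁, hC₁⟩ := h κ hκ hκ1
  refine ⟨κ, ε₀, κ * μ₁, hκ, hκ1, hε₀, by positivity, ?_⟩
  intro M
  obtain ⟨C₂, hC₂⟩ := coarse_small hb (M := M / κ) hbe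
  refine ⟨max C₁ C₂, ?_⟩
  intro C hC ε μ hε hμ Rg En hw n hrig hend c
  have hC1 : C₁ ≤ C := (le_max_left _ _).trans hC
  have hC2 : C₂ ≤ C := (le_max_right _ _).trans hC
  obtain ⟨s, hs⟩ : ∃ s, s = c.size := ⟨_, rfl⟩
  induction s using Nat.strong_induction_on generalizing c with
  | _ s ih =>
    intro hn hl hD hB
    by_cases hsm : (c.size + 1 : ℝ) ≤ M / κ
    · exact ⟨(true, c), 0, AESK.PtT.refl, Or.inl rfl, hC₂ C hC2 k' e' c hl hD hsm⟩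
    push Not at hsm
    rw [div_lt_iff₀ hκ] at hsm
    have hc1 : (1 : ℝ) ≤ c.size + 1 := by
      have : (0 : ℝ) ≤ c.size := Nat.cast_nonneg _
      linarith only []
    have hlt : κ * ((c.size : ℝ) + 1) < (true, c).2.size + 1 := by
      simp only
      nlinarith only [hκ, hκ2]
    have hMc : (M : ℝ) ≤ κ * ((c.size : ℝ) + 1) := by linarith only [hsm]
    have hnear : ∀ q : Fd, q.size < c.size → q.len ≤ b → q.Deg b → BlN θ ε μ M Rg En q → Near θ k' e' be' κ C q :=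
      fun q hq hql hqD hBq => ih q.size (by omega) q rfl (by omega) hql hqD hBq
    have key := hC₁ C hC1 hε hμ c true (true, c) 0 hl hD AESK.PtT.refl hB hlt hMc hnear
      (fun a' m' g1 g2 g3 => hend c true a' m' hn hl hD g1 g2 g3)
    rcases key with key | ⟨a', m', f1, f2, p, w, f3, f4, f5⟩
    · exact ⟨(true, c), 0, AESK.PtT.refl, Or.inl rfl, key⟩
    · obtain ⟨l, hl1, -⟩ := f1.spine
      obtain ⟨hql, hqD, -⟩ := AESK.spine_deg hl1 hl hD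
      have h5 := f1.sz_le
      unfold AESK.sz at h5
      simp only at h5
      exact ⟨a', m', f1, Or.inr ⟨f2, rig_window' hw f3 f4 f5⟩, hrig a'.2 p w (by omega) hql hqD f3 f4 f5⟩

/-- **arbitrary constants**, for a fixed `C` and trees with at most `n` vertices -/
theorem targN {b : ℕ} (hb : 1 ≤ b) {θ k' e' be' : ℝ} (hθ : 0 < θ) (hθ1 : θ ≤ 1) (hk' : 0 < k') (he' : 0 < e')
    (hbe' : 0 < be') (hJ : JumpTo0 b θ k' e' be') (hMn : ManyTo b θ k' e' be') {k e be cap : ℝ} (hk : 0 < k) (he : 0 < e)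
    (hbe : 0 < be) (hcap : 0 < cap) :
    ∃ κ ρ ε₀ μ₀ : ℝ, 0 < κ ∧ κ ≤ cap ∧ κ ≤ 1 / 2 ∧ 0 < ρ ∧ 0 < ε₀ ∧ 0 < μ₀ ∧ ∀ M : ℕ, ∃ C0 : ℝ, ∀ C : ℝ, C0 ≤ C →
      ∀ {ε μ : ℝ}, ε ≤ ε₀ → μ ≤ μ₀ → ∀ {Rg : Bool × Fd → ℕ → Prop} {En : Fd → Prop}, RigW Rg → ∀ n : ℕ,
        (∀ (c : Fd) (p : Bool × Fd) (s : ℕ), c.size ≤ n → c.len ≤ b → c.Deg b → p ∈ c.trees → Rg p s →
          θ * (c.size + 1) ≤ (s : ℝ) + 1 → Coarse k' e' be' C c) →
        (∀ (c : Fd) (d0 : Bool) (a : Bool × Fd) (m : ℕ), c.size ≤ n → c.len ≤ b → c.Deg b → AESK.PtT 0 (d0, c) a m →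
          ρ * (c.size + 1) < a.2.size + 1 → En a.2 → Coarse k' e' be' C c) →
        ∀ (c : Fd) (d0 : Bool) (a : Bool × Fd) (m : ℕ), c.size ≤ n + 1 → c.len ≤ b → c.Deg b → AESK.PtT 0 (d0, c) a m →
          BlN θ ε μ M Rg En a.2 → κ * (c.size + 1) < a.2.size + 1 → (M : ℝ) ≤ κ * (c.size + 1) →
          (∀ a' m', AESK.PtT 0 (d0, c) a' m' → κ * (c.size + 1) < a'.2.size + 1 → En a'.2 → Coarse k e be C c) →
            Coarse k e be C c ∨ RigIn θ κ Rg d0 c := by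
  obtain ⟨ρ, ε₁, μ₁, hρ, hρ1, hε₁, hμ₁, h₁⟩ := nearN hb hθ hθ1 hk' he' hbe' hJ hMn
  obtain ⟨κ, ε₂, μ₂, hκ, hκc, hκ2, hε₂, hμ₂, h₂⟩ := stepN hθ hθ1 hJ hMn hk he hbe hcap
  obtain ⟨C₂, hC₂⟩ := h₂ ρ hρ hρ1
  refine ⟨κ, ρ, min ε₁ ε₂, min μ₁ (ρ * μ₂), hκ, hκc, hκ2, hρ, lt_min hε₁ hε₂, lt_min hμ₁ (by positivity), ?_⟩
  intro M
  obtain ⟨C₁, hC₁⟩ := h₁ M
  refine ⟨max C₁ C₂, ?_⟩
  intro C hC ε μ hε hμ Rg En hw n hrig hend c d0 a m hn hl hD hP hB hlt hM hend'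
  have hC1 : C₁ ≤ C := (le_max_left _ _).trans hC
  have hC2 : C₂ ≤ C := (le_max_right _ _).trans hC
  have hnear := hC₁ C hC1 (hε.trans (min_le_left _ _)) (hμ.trans (min_le_left _ _)) hw n hrig hend
  exact hC₂ C hC2 (hε.trans (min_le_right _ _)) (hμ.trans (min_le_right _ _)) c d0 a m hl hD hP hB hlt hM
    (fun q hq hql hqD hBq => hnear q (by omega) hql hqD hBq) hend'

/-! ### the hypotheses for all `C` -/

/-- the coarse state of the trees with a branch of comparable size with property `En`; the property has two parameters,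
the first of them being small -/
def EndTo (b : ℕ) (En : ℝ → ℕ → Fd → Prop) : Prop :=
  ∀ k e be th : ℝ, 0 < k → 0 < e → 0 < be → 0 < th → ∃ ε₁ : ℝ, 0 < ε₁ ∧ ∀ m : ℕ, ∃ C0 : ℝ, ∀ C : ℝ, C0 ≤ C →
    ∀ ε : ℝ, ε ≤ ε₁ → ∀ (c : Fd) (d0 : Bool) (a : Bool × Fd) (j : ℕ), c.len ≤ b → c.Deg b → AESK.PtT 0 (d0, c) a j →
      th * (c.size + 1) < a.2.size + 1 → En ε m a.2 → Coarse k e be C c

theorem EndTo.false (b : ℕ) : EndTo b (fun _ _ _ => False) := fun _ _ _ _ _ _ _ _ =>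
  ⟨1, one_pos, fun _ => ⟨0, fun _ _ _ _ _ _ _ _ _ _ _ _ h => h.elim⟩⟩

theorem RigTo.mono {b b' : ℕ} (h : b ≤ b') {Rg : Bool × Fd → ℕ → Prop} (hR : RigTo b' Rg) : RigTo b Rg := by
  intro k e be th hk he hbe hth
  obtain ⟨C0, hC0⟩ := hR k e be th hk he hbe hth
  exact ⟨C0, fun C hC c p s hl hD => hC0 C hC c p s (hl.trans h) (deg_mono h hD)⟩

/-- **arbitrary constants** -/
theorem targN' {b : ℕ} (hb : 1 ≤ b) {θ k' e' be' : ℝ} (hθ : 0 < θ) (hθ1 : θ ≤ 1) (hk' : 0 < k') (he' : 0 < e')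
    (hbe' : 0 < be') (hJ : JumpTo0 b θ k' e' be') (hMn : ManyTo b θ k' e' be') {Rg : Bool × Fd → ℕ → Prop}
    {En : ℝ → ℕ → Fd → Prop} (hR : RigTo b Rg) (hw : RigW Rg) (hE : EndTo b En) {k e be cap : ℝ} (hk : 0 < k) (he : 0 < e)
    (hbe : 0 < be) (hcap : 0 < cap) :
    ∃ κ ε₀ μ₀ : ℝ, 0 < κ ∧ κ ≤ cap ∧ κ ≤ 1 / 2 ∧ 0 < ε₀ ∧ 0 < μ₀ ∧ ∀ M : ℕ, ∃ C0 : ℝ, ∀ C : ℝ, C0 ≤ C →
      ∀ {ε μ : ℝ}, ε ≤ ε₀ → μ ≤ μ₀ → ∀ {Rg' : Bool × Fd → ℕ → Prop}, (∀ p s, Rg' p s → Rg p s) →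
        ∀ (c : Fd) (d0 : Bool) (a : Bool × Fd) (m : ℕ), c.len ≤ b → c.Deg b → AESK.PtT 0 (d0, c) a m →
          BlN θ ε μ M Rg' (En ε M) a.2 → κ * (c.size + 1) < a.2.size + 1 → (M : ℝ) ≤ κ * (c.size + 1) →
            Coarse k e be C c ∨ RigIn θ κ Rg' d0 c := by
  obtain ⟨κ, ρ, ε₀, μ₀, hκ, hκc, hκ2, hρ, hε₀, hμ₀, h⟩ := targN hb hθ hθ1 hk' he' hbe' hJ hMn hk he hbe hcap
  obtain ⟨ε₃, hε₃, hE₃⟩ := hE k' e' be' ρ hk' he' hbe' hρ
  obtain ⟨ε₄, hε₄, hE₄⟩ := hE k e be κ hk he hbe hκ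
  refine ⟨κ, min ε₀ (min ε₃ ε₄), μ₀, hκ, hκc, hκ2, lt_min hε₀ (lt_min hε₃ hε₄), hμ₀, ?_⟩
  intro M
  obtain ⟨C₁, hC₁⟩ := h M
  obtain ⟨C₂, hC₂⟩ := hR k' e' be' θ hk' he' hbe' hθ
  obtain ⟨C₃, hC₃⟩ := hE₃ M
  obtain ⟨C₄, hC₄⟩ := hE₄ M
  refine ⟨max (max C₁ C₂) (max C₃ C₄), ?_⟩
  intro C hC ε μ hε hμ Rg' hRg c d0 a m hl hD hP hB hlt hM
  have hC1 : C₁ ≤ C := (le_max_left _ _).trans ((le_max_left _ _).trans hC)
  have hC2 : C₂ ≤ C := (le_max_right _ _).trans ((le_max_left _ _).trans hC)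
  have hC3 : C₃ ≤ C := (le_max_left _ _).trans ((le_max_right _ _).trans hC)
  have hC4 : C₄ ≤ C := (le_max_right _ _).trans ((le_max_right _ _).trans hC)
  have hεa : ε ≤ ε₀ := hε.trans (min_le_left _ _)
  have hεb : ε ≤ ε₃ := hε.trans ((min_le_right _ _).trans (min_le_left _ _))
  have hεc : ε ≤ ε₄ := hε.trans ((min_le_right _ _).trans (min_le_right _ _))
  exact hC₁ C hC1 hεa hμ (Rg := Rg') (En := En ε M) (fun p s h => hw p s (hRg p s h)) c.size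
    (fun c p s _ g2 g3 g4 g5 g6 => hC₂ C hC2 c p s g2 g3 g4 (hRg p s g5) g6)
    (fun c d0 a m _ g2 g3 g4 g5 g6 => hC₃ C hC3 ε hεb c d0 a m g2 g3 g4 g5 g6) c d0 a m (Nat.le_succ _) hl hD hP hB hlt
    hM (fun a' m' g1 g2 g3 => hC₄ C hC4 ε hεc c d0 a' m' hl hD g1 g2 g3)

/-! ### the unrooted statement -/

/-- the root is moved to the parent of a branch -/
theorem reroot_parent {b : ℕ} {c : Fd} {d0 : Bool} {a : Bool × Fd} {m : ℕ} (h : AESK.PtT 0 (d0, c) a m)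
    (hlt : a.2.size < c.size) (hl : c.len ≤ b) (hD : c.Deg b) : ∃ c' : Fd, a ∈ c'.trees ∧ c'.len ≤ b + 1 ∧
      c'.Deg (b + 1) ∧ c'.size = c.size ∧
      ∀ {V : Type} {R : V → V → Prop} (X : Finset V), In R c' (fun _ => True) X → In R c (fun _ => True) X := by
  cases h with
  | refl => exact absurd hlt (lt_irrefl _)
  | step u _ j hu ha _ =>
    obtain ⟨c', g1, g2, g3, g4, -, g6⟩ := reroot_in hu hl hD
    exact ⟨c', g1 a ha, g2, g3, g4, g6⟩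

/-- the window of the parent -/
theorem child_window {θ : ℝ} {c : Fd} {a : Bool × Fd} (ha : a ∈ c.trees)
    (hwin : θ * (a.2.size + 1) + dcl a.2 + AEB.blk a.2 ≤ a.2.size + 1) :
    θ * (a.2.size + 1) + dcl c + AEB.blk c ≤ c.size + 1 := by
  have hperm : c.trees.Perm (a :: c.trees.erase a) := List.perm_cons_erase ha
  have e1 : c.size = a.2.size + 1 + tsz (c.trees.erase a) := by
    rw [Fd.size_eq, (hperm.map _).sum_eq, List.map_cons, List.sum_cons]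
    rfl
  have e2 : dcl c = (if a.1 then dcl a.2 + 1 else 0) + ((c.trees.erase a).map (fun p => if p.1 then dcl p.2 + 1 else 0)).sum := by
    rw [dcl_eq_sum, (hperm.map _).sum_eq, List.map_cons, List.sum_cons]
  have e3 : AEB.blk c = (if a.1 then 0 else AEB.blk a.2 + 1) +
      ((c.trees.erase a).map (fun p => if p.1 then 0 else AEB.blk p.2 + 1)).sum := by
    rw [blk_eq_sum, (hperm.map _).sum_eq, List.map_cons, List.sum_cons]
  have e4 := dcl_add_blk_list (c.trees.erase a)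
  have e5 : dcl c + AEB.blk c + a.2.size ≤ dcl a.2 + AEB.blk a.2 + c.size := by
    cases hp1 : a.1
    · rw [hp1] at e2 e3
      simp only [Bool.false_eq_true, if_false] at e2 e3
      omega
    · rw [hp1] at e2 e3
      simp only [if_true] at e2 e3
      omega
  have e6 : (dcl c : ℝ) + AEB.blk c + a.2.size ≤ dcl a.2 + AEB.blk a.2 + c.size := by exact_mod_cast e5
  linarith only [hwin, e6]

/-- **Trees with a chain of branches** -/
theorem scalesN {b : ℕ} (hb : 1 ≤ b) {θ k' e' be' : ℝ} (hθ : 0 < θ) (hθ1 : θ ≤ 1) (hk' : 0 < k') (he' : 0 < e')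
    (hbe' : 0 < be') (hJ : JumpTo0 (b + 1) θ k' e' be') (hMn : ManyTo (b + 1) θ k' e' be')
    {Rg : Bool × Fd → ℕ → Prop} {En : ℝ → ℕ → Fd → Prop} (hR : RigTo (b + 2) Rg) (hw : RigW Rg)
    (hE : EndTo (b + 1) En)
    (hEw : ∀ (ε : ℝ) m c, ε ≤ 1 / 2 → En ε m c → θ / 2 * (c.size + 1) + dcl c + AEB.blk c ≤ c.size + 1) :
    ∃ ε₀ μ₀ : ℝ, 0 < ε₀ ∧ 0 < μ₀ ∧ ∀ M : ℕ, ∃ C : ℕ, ∀ {V : Type} {R : V → V → Prop}, AE32.Tour R → ∀ {ε μ : ℝ},
      ε ≤ ε₀ → μ ≤ μ₀ → ∀ c : Fd, c.len ≤ b → c.Deg b → BlN θ ε μ M Rg (En ε M) c → ∀ X : Finset V, c.size + 1 + C ≤ X.card → In R c (fun _ => True) X := by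
  obtain ⟨w, hw'⟩ : ∃ w : ℝ, w = θ * θ / 2 := ⟨_, rfl⟩
  have hw0 : 0 < w := by rw [hw']; positivity
  have hw1 : w ≤ 1 := by rw [hw']; nlinarith only [hθ1, hθ]
  have hwθ : w ≤ θ / 2 := by rw [hw']; nlinarith only [hθ, hθ1]
  have hwθθ : w ≤ θ * θ := by rw [hw']; nlinarith only []
  obtain ⟨κ, ε₀, μ₀, hκ, hκc, hκ2, hε₀, hμ₀, h⟩ := targN' (b := b + 1) (by omega) hθ hθ1 hk' he' hbe' hJ hMn
    (RigTo.mono (by omega) hR) hw hE (k := w / 64) (e := w / 8) (be := w / 4) (cap := θ / 2) (by positivity)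
    (by positivity) (by positivity) (by positivity)
  obtain ⟨v, hv⟩ : ∃ v : ℝ, v = θ * κ := ⟨_, rfl⟩
  have hv0 : 0 < v := by rw [hv]; positivity
  have hvθ : v ≤ θ := by rw [hv]; nlinarith only [hw', hw0, hwθ, hθ, hκc]
  obtain ⟨C₂, hC₂⟩ := hR (v / 64) (v / 8) (v / 4) v (by positivity) (by positivity) (by positivity) hv0
  obtain ⟨C₃, hC₃0, hU⟩ := un_one b hb (β := 1) one_pos
  refine ⟨min ε₀ (1 / 2), μ₀, lt_min hε₀ (by norm_num), hμ₀, ?_⟩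
  intro M
  obtain ⟨C₁, hC₁⟩ := h M
  obtain ⟨L, hL⟩ : ∃ L : ℝ, L = M / κ + M := ⟨_, rfl⟩
  obtain ⟨C, hC⟩ : ∃ C : ℕ, C = ⌈max (max C₁ C₂) (max (L + C₃) (max (24 / w) (24 / v)))⌉₊ := ⟨_, rfl⟩
  have hC' : max (max C₁ C₂) (max (L + C₃) (max (24 / w) (24 / v))) ≤ (C : ℝ) := by rw [hC]; exact Nat.le_ceil _
  have c1 : C₁ ≤ C := (le_max_left _ _).trans ((le_max_left _ _).trans hC')
  have c2 : C₂ ≤ C := (le_max_right _ _).trans ((le_max_left _ _).trans hC')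
  have c3 : L + C₃ ≤ C := (le_max_left _ _).trans ((le_max_right _ _).trans hC')
  have c4 : 24 / w ≤ C := (le_max_left _ _).trans ((le_max_right _ _).trans ((le_max_right _ _).trans hC'))
  have c5 : 24 / v ≤ C := (le_max_right _ _).trans ((le_max_right _ _).trans ((le_max_right _ _).trans hC'))
  rw [div_le_iff₀ hw0] at c4
  rw [div_le_iff₀ hv0] at c5
  have c0 : (0 : ℝ) ≤ C := Nat.cast_nonneg _
  refine ⟨C, ?_⟩
  intro V R hT ε μ hεε hμμ c hl hD hB X hX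
  have hε1 : ε ≤ ε₀ := hεε.trans (min_le_left _ _)
  have hε2 : ε ≤ 1 / 2 := hεε.trans (min_le_right _ _)
  have hXR : (c.size : ℝ) + 1 + C ≤ X.card := by exact_mod_cast hX
  by_cases hsm : (c.size + 1 : ℝ) ≤ L
  · exact hU hT c hl hD X (by norm_num; linarith only [c3, hXR, hsm])
  push Not at hsm
  have hM0 : (0 : ℝ) ≤ M := Nat.cast_nonneg _
  have hMκ : 0 ≤ M / κ := by (clear * - hκ; positivity)
  have hsκ : (M : ℝ) < κ * (c.size + 1) := by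
    have h1 : M / κ < c.size + 1 := by linarith only [hL, hsm]
    rw [div_lt_iff₀ hκ] at h1
    linarith only [h1]
  have hs1 : (0 : ℝ) < c.size + 1 := by positivity
  -- a rigid branch at the root of a branch
  have hrig : ∀ (c' : Fd), c'.len ≤ b + 1 → c'.Deg (b + 1) → c'.size = c.size → RigIn θ κ Rg true c' →
      In R c' (fun _ => True) X := by
    rintro c' hl' hD' hs' ⟨a', m', f1, f2, p, s, f3, f4, f5⟩
    obtain ⟨c'', g1, g2, g3, g4, -, g6⟩ := reroot_in f1 hl' hD'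
    have hs2 : v * ((c''.size : ℝ) + 1) ≤ (s : ℝ) + 1 := by
      rw [g4]
      have h1 : θ * (κ * (c'.size + 1)) ≤ θ * (a'.2.size + 1) := mul_le_mul_of_nonneg_left f2.le hθ.le
      rw [hv]
      linarith only [f5, h1]
    exact g6 X (in_of_coarse hv0 (hvθ.trans hθ1) c5 c0 (rig_window' hw (g1 p f3) f4 hs2) (hC₂ C c2 c'' p s g2 g3
      (g1 p f3) f4 hs2) hT X (by rw [g4, hs']; exact hXR))
  -- the tree `c'` has a window and a branch of the class of comparable size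
  have hmain : ∀ (c' : Fd) (a : Bool × Fd) (m : ℕ), c'.len ≤ b + 1 → c'.Deg (b + 1) → c'.size = c.size →
      AESK.PtT 0 (true, c') a m → BlN θ ε μ M Rg (En ε M) a.2 → κ * (c'.size + 1) < a.2.size + 1 →
      w * (c'.size + 1) + dcl c' + AEB.blk c' ≤ c'.size + 1 → In R c' (fun _ => True) X := by
    intro c' a m hl' hD' hs' hP' hB' hlt' hwin'
    rcases hC₁ C c1 hε1 hμμ (Rg' := Rg) (fun _ _ h => h) c' true a m hl' hD' hP' hB' hlt'
      (by rw [hs']; exact hsκ.le) with key | key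
    · exact in_of_coarse hw0 hw1 c4 c0 hwin' key hT X (by rw [hs']; exact hXR)
    · exact hrig c' hl' hD' hs' key
  have hlt0 : κ * ((c.size : ℝ) + 1) < (true, c).2.size + 1 := by
    simp only
    nlinarith only [hθ1, hw0, hwθ, hκc]
  have hl1 : c.len ≤ b + 1 := hl.trans (Nat.le_succ b)
  have hD1 : c.Deg (b + 1) := deg_mono (Nat.le_succ b) hD
  have hB' := hB
  cases hB' with
  | small _ h0 =>
    exfalso
    have h1 : (c.size + 1 : ℝ) ≤ M := by exact_mod_cast h0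
    linarith only [hL, hsm, hMκ, h1]
  | rig _ p s h1 h2 h3 =>
    have h4 := rig_window' hw h1 h2 h3
    refine hmain c (true, c) 0 hl1 hD1 rfl AESK.PtT.refl hB hlt0 ?_
    have h5 : w * ((c.size : ℝ) + 1) ≤ θ * (c.size + 1) := mul_le_mul_of_nonneg_right (by linarith only [hw0, hwθ]) hs1.le
    linarith only [h4, h5]
  | fin _ h1 =>
    have h4 := hEw ε M c hε2 h1
    refine hmain c (true, c) 0 hl1 hD1 rfl AESK.PtT.refl hB hlt0 ?_
    have h5 : w * ((c.size : ℝ) + 1) ≤ θ / 2 * (c.size + 1) := mul_le_mul_of_nonneg_right hwθ hs1.le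
    linarith only [h4, h5]
  | step _ d0 q m hP hq1 hq2 hq3 hBq =>
    obtain ⟨c', g1, g2, g3, g4, g6⟩ := reroot_parent hP hq1 hl hD
    have hP' : AESK.PtT 0 (true, c') q _ := AESK.PtT.step (true, c') q 0 AESK.PtT.refl g1 (Nat.zero_le _)
    refine g6 X (hmain c' q _ g2 g3 g4 hP' hBq ?_ ?_)
    · rw [g4]
      have h1 : κ * ((c.size : ℝ) + 1) ≤ θ / 2 * (c.size + 1) := mul_le_mul_of_nonneg_right hκc hs1.le
      have h2 : 0 < θ * ((c.size : ℝ) + 1) := by (clear * - hθ; positivity)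
      linarith only [hθ1, hw0, hwθ, hq2, h1]
    · have h1 := child_window g1 hq3
      have h2 : θ * (θ * (c.size + 1)) ≤ θ * (q.2.size + 1) := mul_le_mul_of_nonneg_left hq2 hθ.le
      have h3 : w * ((c'.size : ℝ) + 1) ≤ θ * θ * (c.size + 1) := by
        rw [g4]
        exact mul_le_mul_of_nonneg_right hwθθ hs1.le
      linarith only [h1, h2, h3]
  | many D q m hone hpsz hm hwin hBq =>
    refine hmain D.un (true, D.un) 0 hl1 hD1 rfl AESK.PtT.refl hB hlt0 ?_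
    have h1 := one_window (ε := 1 / 2) (by norm_num) (by norm_num) (one_mono hε2 D hone)
    have h2 : w * ((D.un.size : ℝ) + 1) ≤ θ / 2 * (D.un.size + 1) := mul_le_mul_of_nonneg_right hwθ hs1.le
    linarith only [hθ1, hw0, hwθ, hpsz, h1, h2]

end AEN
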