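import Pool.Agent.AEY.CodeY

/-!
# The code of an oriented rooted tree in which the main child comes first
-/

set_option autoImplicit false

namespace AEN

open Finset Relation AE15 AED AEB AET AELT AEJ LTT AEK AEY
open scoped Classical

section glue

variable {τ : Type*} [Fintype τ] {E P : τ → τ → Prop}

/-- the children of `v`, the main child `h v` first -/
noncomputable def ordH (P : τ → τ → Prop) (h : τ → τ) (v : τ) : List τ :=
  if ∃ w, P v w then h v :: ((univ.filter (fun w => P v w)).erase (h v)).toList else []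

theorem ordH_nodup (P : τ → τ → Prop) (h : τ → τ) (v : τ) : (ordH P h v).Nodup := by
  unfold ordH
  split_ifs
  · rw [List.nodup_cons]
    exact ⟨by simp, Finset.nodup_toList _⟩
  · exact List.nodup_nil

theorem mem_ordH {h : τ → τ} (hh : ∀ u w, P u w → P u (h u)) {v w : τ} : w ∈ ordH P h v ↔ P v w := by
  unfold ordH
  split_ifs with hc
  · obtain ⟨w', hw'⟩ := hc
    have hm := hh v w' hw'
    rw [List.mem_cons, Finset.mem_toList, mem_erase, mem_filter]
    constructor
    · rintro (rfl | h1)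
      · exact hm
      · exact h1.2.2
    · intro h1
      by_cases h2 : w = h v
      · exact Or.inl h2
      · exact Or.inr ⟨h2, mem_univ _, h1⟩
  · constructor
    · intro h1
      simp at h1
    · intro h1
      exact absurd ⟨w, h1⟩ hc

/-- the forest of the branches at a vertex, up to depth `n` -/
noncomputable def codN (E P : τ → τ → Prop) (h : τ → τ) : ℕ → τ → Fd
  | 0, _ => .nil
  | n + 1, v => mkY E v (codN E P h n) (ordH P h v)

/-- the forest of the branches at a vertex, the main child first -/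
noncomputable def codH (E P : τ → τ → Prop) (h : τ → τ) (v : τ) : Fd := codN E P h (Fintype.card τ) v

theorem mkY_congr (v : τ) {g g' : τ → Fd} : ∀ l : List τ, (∀ w ∈ l, g w = g' w) → mkY E v g l = mkY E v g' l
  | [], _ => rfl
  | w :: l, hl => by
    unfold mkY
    rw [hl w List.mem_cons_self, mkY_congr v l fun u hu => hl u (List.mem_cons_of_mem _ hu)]

theorem card_desc_lt {rk : τ → ℕ} (hE : ∀ a b, P a b → rk a < rk b) {v w : τ} (hvw : P v w) :
    (AE32.desc P w).card < (AE32.desc P v).card := by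
  refine card_lt_card ⟨AE32.desc_subset hvw, fun hcon => ?_⟩
  exact AE32.notMem_desc hE hvw (hcon (AE32.self_mem_desc v))

theorem codN_stable {rk : τ → ℕ} (hE : ∀ a b, P a b → rk a < rk b) {h : τ → τ} (hh : ∀ u w, P u w → P u (h u)) (n : ℕ) :
    ∀ v, (AE32.desc P v).card ≤ n → codN E P h (n + 1) v = codN E P h n v := by
  induction n with
  | zero =>
    intro v hv
    have : 0 < (AE32.desc P v).card := card_pos.2 ⟨v, AE32.self_mem_desc v⟩
    omega
  | succ n ih =>
    intro v hv
    show mkY E v (codN E P h (n + 1)) (ordH P h v) = mkY E v (codN E P h n) (ordH P h v)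
    refine mkY_congr v _ fun w hw => ih w ?_
    have := card_desc_lt hE ((mem_ordH hh).1 hw)
    omega

theorem codH_eq {rk : τ → ℕ} (hE : ∀ a b, P a b → rk a < rk b) {h : τ → τ} (hh : ∀ u w, P u w → P u (h u)) (v : τ) :
    codH E P h v = mkY E v (codH E P h) (ordH P h v) := by
  have h1 := codN_stable (E := E) hE hh (Fintype.card τ) v (card_le_univ _)
  show codN E P h (Fintype.card τ) v = _
  rw [← h1]
  rfl

theorem codH_cod {rk : τ → ℕ} (hE : ∀ a b, P a b → rk a < rk b) {h : τ → τ} (hh : ∀ u w, P u w → P u (h u)) (n : ℕ) :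
    ∀ v, (AE32.desc P v).card = n → Cod E P v (codH E P h v) := by
  induction n using Nat.strong_induction_on with
  | _ n ih =>
    intro v hv
    rw [codH_eq hE hh]
    refine ⟨_, ordH_nodup P h v, fun w => mem_ordH hh, codL_mkY v _ _ fun w hw => ?_⟩
    have h1 : P v w := (mem_ordH hh).1 hw
    exact ih _ (by rw [← hv]; exact card_desc_lt hE h1) w rfl

theorem codH_cod' {rk : τ → ℕ} (hE : ∀ a b, P a b → rk a < rk b) {h : τ → τ} (hh : ∀ u w, P u w → P u (h u)) (v : τ) :
    Cod E P v (codH E P h v) := codH_cod hE hh _ v rfl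

theorem mem_codH {rk : τ → ℕ} (hE : ∀ a b, P a b → rk a < rk b) {h : τ → τ} (hh : ∀ u w, P u w → P u (h u)) {v w : τ}
    (hw : P v w) : (decide (E v w), codH E P h w) ∈ (codH E P h v).trees := by
  rw [codH_eq hE hh, mkY_trees, List.mem_map]
  exact ⟨w, (mem_ordH hh).2 hw, rfl⟩

/-- the branch reached along a path -/
theorem ptT_codH {rk : τ → ℕ} (hE : ∀ a b, P a b → rk a < rk b) {h : τ → τ} (hh : ∀ u w, P u w → P u (h u))
    {p : ℕ → τ} {i : ℕ} (n : ℕ) (hp : ∀ t, i ≤ t → t ≤ i + n → P (p t) (p (t + 1))) :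
    ∃ m, AESK.PtT 0 (decide (E (p i) (p (i + 1))), codH E P h (p i))
      (decide (E (p (i + n)) (p (i + n + 1))), codH E P h (p (i + n + 1))) m := by
  induction n with
  | zero =>
    have h3 := AESK.PtT.step (k := 0) (p := (decide (E (p i) (p (i + 1))), codH E P h (p i))) _
      (decide (E (p i) (p (i + 1))), codH E P h (p (i + 1))) 0
      AESK.PtT.refl (mem_codH hE hh (hp i le_rfl (by omega))) (Nat.zero_le _)
    exact ⟨_, h3⟩
  | succ n ih =>
    obtain ⟨m, hm⟩ := ih (fun t h1 h2 => hp t h1 (by omega))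
    exact ⟨_, AESK.PtT.step _ (decide (E (p (i + n + 1)) (p (i + n + 1 + 1))), codH E P h (p (i + n + 1 + 1))) _ hm
      (mem_codH hE hh (hp (i + n + 1) (by omega) (by omega))) (Nat.zero_le _)⟩

theorem mrr_mkY (hx : ∀ a c, P a c → (E c a ↔ ¬ E a c)) (v : τ) (g : τ → Fd) : ∀ l : List τ, (∀ w ∈ l, P v w) →
    mrr (mkY E v g l) = mkY (fun a b => E b a) v (fun w => mrr (g w)) l
  | [], _ => rfl
  | w :: l, hl => by
    unfold mkY
    rw [mrr, mrr_mkY hx v g l fun u hu => hl u (List.mem_cons_of_mem _ hu)]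
    congr 1
    have h1 := hx v w (hl w List.mem_cons_self)
    by_cases h2 : E v w
    · simp [h2, h1]
    · simp [h2, h1]

theorem mrr_codN {h : τ → τ} (hh : ∀ u w, P u w → P u (h u)) (hx : ∀ a c, P a c → (E c a ↔ ¬ E a c)) (n : ℕ) :
    ∀ v, mrr (codN E P h n v) = codN (fun a b => E b a) P h n v := by
  induction n with
  | zero => intro v; rfl
  | succ n ih =>
    intro v
    show mrr (mkY E v (codN E P h n) (ordH P h v)) = mkY (fun a b => E b a) v (codN (fun a b => E b a) P h n) (ordH P h v)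
    rw [mrr_mkY hx v _ _ fun w hw => (mem_ordH hh).1 hw]
    exact mkY_congr v _ fun w _ => ih w

/-- the mirror image of the code -/
theorem mrr_codH {h : τ → τ} (hh : ∀ u w, P u w → P u (h u)) (hx : ∀ a c, P a c → (E c a ↔ ¬ E a c)) (v : τ) :
    mrr (codH E P h v) = codH (fun a b => E b a) P h v := mrr_codN hh hx _ v

/-! ### Lines -/

/-- a directed walk with `j` arcs starts at `v`, goes towards the root and stays behind `r₀` -/
def WkH (E P : τ → τ → Prop) (r₀ : τ) (j : ℕ) (v : τ) : Prop :=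
  ∃ f : ℕ → τ, f 0 = v ∧ (∀ i < j, E (f i) (f (i + 1)) ∧ P (f (i + 1)) (f i)) ∧ f j ∈ AE32.desc P r₀

theorem wkH_zero {r₀ v : τ} (h : v ∈ AE32.desc P r₀) : WkH E P r₀ 0 v := ⟨fun _ => v, rfl, fun i hi => by omega, h⟩

theorem wkH_succ {r₀ : τ} {j : ℕ} {v w : τ} (h : WkH E P r₀ j v) (hw : E w v) (hP : P v w) : WkH E P r₀ (j + 1) w := by
  obtain ⟨f, h1, h2, h3⟩ := h
  refine ⟨fun i => match i with
    | 0 => w
    | i + 1 => f i, rfl, ?_, h3⟩
  intro i hi
  cases i with
  | zero =>
    show E w (f 0) ∧ P (f 0) w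
    rw [h1]
    exact ⟨hw, hP⟩
  | succ i => exact h2 i (by omega)

/-- `v` is not behind a light arc which lies behind `r₀` -/
def NLH (E P : τ → τ → Prop) (K : ℕ) (hm : τ → τ) (r₀ v : τ) : Prop :=
  ∀ u w, u ∈ AE32.desc P r₀ → P u w → E u w → w ≠ hm u → K * (inY E P w).card ≤ (AE32.desc P u).card →
    v ∉ AE32.desc P w

theorem wkH_le {l K : ℕ} {hm : τ → τ} {r₀ v₀ : τ}
    (h7 : ∀ f : ℕ → τ, (∀ i ≤ l, E (f i) (f (i + 1)) ∧ P (f (i + 1)) (f i)) → f (l + 1) ∈ AE32.desc P r₀ →
      f 0 ∉ AE32.desc P v₀ → ¬ NLH E P K hm r₀ (f 0)) {j : ℕ} {v : τ} (h : WkH E P r₀ j v) (hv : NLH E P K hm r₀ v)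
    (hv₀ : v ∉ AE32.desc P v₀) : j ≤ l := by
  obtain ⟨f, h1, h2, h3⟩ := h
  by_contra hj
  push Not at hj
  have h4 : ∀ s, s ≤ j → f (j - s) ∈ AE32.desc P r₀ := by
    intro s
    induction s with
    | zero => intro _; exact h3
    | succ s ih =>
      intro hs
      have h5 := ih (by omega)
      have h6 := (h2 (j - (s + 1)) (by omega)).2
      rw [show j - (s + 1) + 1 = j - s by omega] at h6
      exact AE32.mem_desc.2 ((AE32.mem_desc.1 h5).tail h6)
  have h5 := h4 (j - (l + 1)) (by omega)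
  rw [show j - (j - (l + 1)) = l + 1 by omega] at h5
  exact h7 f (fun i hi => h2 i (by omega)) h5 (h1 ▸ hv₀) (h1 ▸ hv)

theorem codes_h {rk : τ → ℕ} (hE : ∀ a b, P a b → rk a < rk b) (hin : ∀ a b c, P a c → P b c → a = b)
    (hP : ∀ a c, P a c → E a c ∨ E c a) (hanti : ∀ a c, E a c → ¬ E c a) {L K : ℕ} {Q : Fd → Prop} (hm : τ → τ)
    (hmain : ∀ u w, P u w → P u (hm u) ∧ (AE32.desc P w).card ≤ (AE32.desc P (hm u)).card) {r₀ v₀ : τ}
    (h7 : ∀ f : ℕ → τ, (∀ i ≤ L, E (f i) (f (i + 1)) ∧ P (f (i + 1)) (f i)) → f (L + 1) ∈ AE32.desc P r₀ →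
      f 0 ∉ AE32.desc P v₀ → ¬ NLH E P K hm r₀ (f 0))
    (hex : ∀ u, u ∈ AE32.desc P r₀ → P u v₀ → E u v₀ ∧ K * (inY E P v₀).card ≤ (AE32.desc P u).card)
    (hQ : Q (codH E P hm v₀))
    (hline : ∀ u, u ∈ AE32.desc P r₀ → v₀ ∈ AE32.desc P u → u ≠ v₀ → v₀ ∈ AE32.desc P (hm u)) (n : ℕ) :
    ∀ v, (AE32.desc P v).card = n → v ∈ AE32.desc P r₀ → ∀ j, WkH E P r₀ j v → NLH E P K hm r₀ v →
      v ∉ AE32.desc P v₀ → (v₀ ∉ AE32.desc P v → InL L K true ((codH E P hm v).size + 1) j (codH E P hm v)) ∧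
        (v₀ ∈ AE32.desc P v → InX L K Q ((codH E P hm v).size + 1) j (codH E P hm v)) := by
  have hh : ∀ u w, P u w → P u (hm u) := fun u w h => (hmain u w h).1
  have hcodv := codH_cod' (E := E) hE hh
  induction n using Nat.strong_induction_on with
  | _ n ih =>
    intro v hv hvr j hw hNL hv₀
    have hsize := cod_size hE hin hP (hcodv v)
    by_cases hne : ∃ w, P v w
    swap
    · have h1 : codH E P hm v = .nil := by
        rw [codH_eq hE hh, ordH, if_neg hne]
        rfl
      rw [h1]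
      exact ⟨fun _ => trivial, fun _ => trivial⟩
    obtain ⟨w₀, hw₀⟩ := hne
    have hmv : P v (hm v) := hh v w₀ hw₀
    have hcr : ∀ c, P v c → c ∈ AE32.desc P r₀ := fun c hc => AE32.mem_desc.2 ((AE32.mem_desc.1 hvr).tail hc)
    obtain ⟨l', hl'⟩ : ∃ l', l' = ((univ.filter (fun w => P v w)).erase (hm v)).toList := ⟨_, rfl⟩
    have hl3 : ∀ c ∈ l', P v c ∧ c ≠ hm v := by
      intro c hc
      rw [hl', Finset.mem_toList, mem_erase, mem_filter] at hc
      exact ⟨hc.2.2, hc.1⟩
    have hcode : codH E P hm v = mkY E v (codH E P hm) (hm v :: l') := by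
      rw [codH_eq hE hh, ordH, if_pos ⟨w₀, hw₀⟩, hl']
    have hlt : ∀ c, P v c → (AE32.desc P c).card < n := by
      intro c hc
      rw [← hv]
      exact card_desc_lt hE hc
    obtain ⟨g, hgdef⟩ : ∃ g : τ → Fd, g = codH E P hm := ⟨_, rfl⟩
    rw [← hgdef] at hcode hcodv hsize ih hQ ⊢
    have hsz : ∀ c ∈ l', (g c).size ≤ (g (hm v)).size := by
      intro c hc
      have h4 := (hmain v c (hl3 c hc).1).2
      have h5 := cod_size hE hin hP (hcodv c)
      have h6 := cod_size hE hin hP (hcodv (hm v))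
      omega
    -- the children which are not behind a light arc
    have hNLc : ∀ c, P v c → (E v c → c ≠ hm v → ¬ K * (inY E P c).card ≤ (AE32.desc P v).card) →
        NLH E P K hm r₀ c := by
      intro c hc hcl u w hur huw hE' hwm hKw hcw
      rcases (AE32.mem_desc.1 hcw).cases_tail with h1 | ⟨e, h1, h2⟩
      · subst h1
        obtain rfl := hin _ _ _ huw hc
        exact hcl hE' hwm hKw
      · obtain rfl := hin _ _ _ h2 hc
        exact hNL u w hur huw hE' hwm hKw (AE32.mem_desc.2 h1)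
    have hcv₀ : ∀ c, P v c → c ≠ v₀ → c ∉ AE32.desc P v₀ := by
      intro c hc hne hcw
      rcases (AE32.mem_desc.1 hcw).cases_tail with h1 | ⟨e, h1, h2⟩
      · exact hne h1
      · obtain rfl := hin _ _ _ h2 hc
        exact hv₀ (AE32.mem_desc.2 h1)
    have hany : ∀ c, P v c → v₀ ∉ AE32.desc P c → (E v c → (c = hm v → InL L K true ((g c).size + 1) 0 (g c)) ∧
        (K * (blk (g c) + 1) ≤ (mkY E v g (hm v :: l')).size + 1 ∨ InL L K true ((g c).size + 1) 0 (g c))) ∧
        (¬ E v c → j + 1 ≤ L ∧ InL L K true ((g c).size + 1) (j + 1) (g c)) := by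
      intro c hc hcn
      have hne : c ≠ v₀ := by
        rintro rfl
        exact hcn (AE32.self_mem_desc c)
      have hc0 := hcv₀ c hc hne
      refine ⟨fun he => ⟨fun hcm => ?_, ?_⟩, fun he => ?_⟩
      · exact (ih _ (hlt c hc) c rfl (hcr c hc) 0 (wkH_zero (hcr c hc)) (hNLc c hc fun _ h => absurd hcm h) hc0).1 hcn
      · by_cases hlight : K * (inY E P c).card ≤ (AE32.desc P v).card
        · left
          rw [blk_inY hE hin hP hanti (hcodv c), ← hcode, hsize]
          exact hlight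
        · right
          exact (ih _ (hlt c hc) c rfl (hcr c hc) 0 (wkH_zero (hcr c hc)) (hNLc c hc fun _ _ => hlight) hc0).1 hcn
      · have h0 : E c v := (hP _ _ hc).resolve_left he
        have h5 : WkH E P r₀ (j + 1) c := wkH_succ hw h0 hc
        have h6 := hNLc c hc fun h => absurd h he
        exact ⟨wkH_le h7 h5 h6 hc0, (ih _ (hlt c hc) c rfl (hcr c hc) (j + 1) h5 h6 hc0).1 hcn⟩
    rw [hcode]
    constructor
    · intro hvn
      have hcn : ∀ c, P v c → v₀ ∉ AE32.desc P c := fun c hc h => hvn (AE32.desc_subset hc h)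
      refine mkY_inL_head v g (hm v) l' ⟨fun he => ((hany _ hmv (hcn _ hmv)).1 he).1 rfl,
        (hany _ hmv (hcn _ hmv)).2⟩ hsz ?_
      intro c hc
      have hcv := (hl3 c hc).1
      exact ⟨fun he => ((hany c hcv (hcn c hcv)).1 he).2, (hany c hcv (hcn c hcv)).2⟩
    · intro hvi
      have hvne : v ≠ v₀ := by
        rintro rfl
        exact hv₀ (AE32.self_mem_desc v)
      have hmi := hline v hvr hvi hvne
      have hcn : ∀ c, P v c → c ≠ hm v → v₀ ∉ AE32.desc P c := fun c hc hne h =>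
        disjoint_left.1 (AE32.desc_disjoint hE hin hc hmv hne) h hmi
      refine mkY_inX_head v g (hm v) l' ?_ hsz ?_
      · by_cases hmv₀ : hm v = v₀
        · have h3 := hex v hvr (hmv₀ ▸ hmv)
          refine ⟨fun _ => Or.inl ⟨by rw [hmv₀]; exact hQ, ?_⟩, fun he => absurd (by rw [hmv₀]; exact h3.1) he⟩
          rw [blk_inY hE hin hP hanti (hcodv (hm v)), ← hcode, hsize, hmv₀]
          exact h3.2
        · have hc0 := hcv₀ _ hmv hmv₀
          refine ⟨fun he => Or.inr ?_, fun he => ?_⟩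
          · exact (ih _ (hlt _ hmv) _ rfl (hcr _ hmv) 0 (wkH_zero (hcr _ hmv))
              (hNLc _ hmv fun _ h => absurd rfl h) hc0).2 hmi
          · have h0 : E (hm v) v := (hP _ _ hmv).resolve_left he
            have h5 : WkH E P r₀ (j + 1) (hm v) := wkH_succ hw h0 hmv
            have h6 := hNLc _ hmv fun h => absurd h he
            exact ⟨wkH_le h7 h5 h6 hc0, (ih _ (hlt _ hmv) _ rfl (hcr _ hmv) (j + 1) h5 h6 hc0).2 hmi⟩
      · intro c hc
        obtain ⟨hcv, hcne⟩ := hl3 c hc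
        exact ⟨fun he => ((hany c hcv (hcn c hcv hcne)).1 he).2, (hany c hcv (hcn c hcv hcne)).2⟩

theorem codes_hL {rk : τ → ℕ} (hE : ∀ a b, P a b → rk a < rk b) (hin : ∀ a b c, P a c → P b c → a = b)
    (hP : ∀ a c, P a c → E a c ∨ E c a) (hanti : ∀ a c, E a c → ¬ E c a) {L K : ℕ} (hm : τ → τ)
    (hmain : ∀ u w, P u w → P u (hm u) ∧ (AE32.desc P w).card ≤ (AE32.desc P (hm u)).card) {r₀ : τ}
    (h7 : ∀ f : ℕ → τ, (∀ i ≤ L, E (f i) (f (i + 1)) ∧ P (f (i + 1)) (f i)) → f (L + 1) ∈ AE32.desc P r₀ →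
      ¬ NLH E P K hm r₀ (f 0)) (n : ℕ) :
    ∀ v, (AE32.desc P v).card = n → v ∈ AE32.desc P r₀ → ∀ j, WkH E P r₀ j v → NLH E P K hm r₀ v →
      InL L K true ((codH E P hm v).size + 1) j (codH E P hm v) := by
  have hh : ∀ u w, P u w → P u (hm u) := fun u w h => (hmain u w h).1
  have hcodv := codH_cod' (E := E) hE hh
  induction n using Nat.strong_induction_on with
  | _ n ih =>
    intro v hv hvr j hw hNL
    have hsize := cod_size hE hin hP (hcodv v)
    by_cases hne : ∃ w, P v w
    swap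
    · have h1 : codH E P hm v = .nil := by
        rw [codH_eq hE hh, ordH, if_neg hne]
        rfl
      rw [h1]
      exact trivial
    obtain ⟨w₀, hw₀⟩ := hne
    have hmv : P v (hm v) := hh v w₀ hw₀
    have hcr : ∀ c, P v c → c ∈ AE32.desc P r₀ := fun c hc => AE32.mem_desc.2 ((AE32.mem_desc.1 hvr).tail hc)
    obtain ⟨l', hl'⟩ : ∃ l', l' = ((univ.filter (fun w => P v w)).erase (hm v)).toList := ⟨_, rfl⟩
    have hl3 : ∀ c ∈ l', P v c ∧ c ≠ hm v := by
      intro c hc
      rw [hl', Finset.mem_toList, mem_erase, mem_filter] at hc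
      exact ⟨hc.2.2, hc.1⟩
    have hcode : codH E P hm v = mkY E v (codH E P hm) (hm v :: l') := by
      rw [codH_eq hE hh, ordH, if_pos ⟨w₀, hw₀⟩, hl']
    have hlt : ∀ c, P v c → (AE32.desc P c).card < n := by
      intro c hc
      rw [← hv]
      exact card_desc_lt hE hc
    obtain ⟨g, hgdef⟩ : ∃ g : τ → Fd, g = codH E P hm := ⟨_, rfl⟩
    rw [← hgdef] at hcode hcodv hsize ih ⊢
    have hsz : ∀ c ∈ l', (g c).size ≤ (g (hm v)).size := by
      intro c hc
      have h4 := (hmain v c (hl3 c hc).1).2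
      have h5 := cod_size hE hin hP (hcodv c)
      have h6 := cod_size hE hin hP (hcodv (hm v))
      omega
    have hNLc : ∀ c, P v c → (E v c → c ≠ hm v → ¬ K * (inY E P c).card ≤ (AE32.desc P v).card) →
        NLH E P K hm r₀ c := by
      intro c hc hcl u w hur huw hE' hwm hKw hcw
      rcases (AE32.mem_desc.1 hcw).cases_tail with h1 | ⟨e, h1, h2⟩
      · subst h1
        obtain rfl := hin _ _ _ huw hc
        exact hcl hE' hwm hKw
      · obtain rfl := hin _ _ _ h2 hc
        exact hNL u w hur huw hE' hwm hKw (AE32.mem_desc.2 h1)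
    have hany : ∀ c, P v c → (E v c → (c = hm v → InL L K true ((g c).size + 1) 0 (g c)) ∧
        (K * (blk (g c) + 1) ≤ (mkY E v g (hm v :: l')).size + 1 ∨ InL L K true ((g c).size + 1) 0 (g c))) ∧
        (¬ E v c → j + 1 ≤ L ∧ InL L K true ((g c).size + 1) (j + 1) (g c)) := by
      intro c hc
      refine ⟨fun he => ⟨fun hcm => ?_, ?_⟩, fun he => ?_⟩
      · exact ih _ (hlt c hc) c rfl (hcr c hc) 0 (wkH_zero (hcr c hc)) (hNLc c hc fun _ h => absurd hcm h)
      · by_cases hlight : K * (inY E P c).card ≤ (AE32.desc P v).card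
        · left
          rw [blk_inY hE hin hP hanti (hcodv c), ← hcode, hsize]
          exact hlight
        · right
          exact ih _ (hlt c hc) c rfl (hcr c hc) 0 (wkH_zero (hcr c hc)) (hNLc c hc fun _ _ => hlight)
      · have h0 : E c v := (hP _ _ hc).resolve_left he
        have h5 : WkH E P r₀ (j + 1) c := wkH_succ hw h0 hc
        have h6 := hNLc c hc fun h => absurd h he
        refine ⟨?_, ih _ (hlt c hc) c rfl (hcr c hc) (j + 1) h5 h6⟩
        obtain ⟨f, f1, f2, f3⟩ := h5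
        by_contra hj
        push Not at hj
        have h4 : ∀ s, s ≤ j + 1 → f (j + 1 - s) ∈ AE32.desc P r₀ := by
          intro s
          induction s with
          | zero => intro _; exact f3
          | succ s ihs =>
            intro hs
            have h5 := ihs (by omega)
            have h6 := (f2 (j + 1 - (s + 1)) (by omega)).2
            rw [show j + 1 - (s + 1) + 1 = j + 1 - s by omega] at h6
            exact AE32.mem_desc.2 ((AE32.mem_desc.1 h5).tail h6)
        have h5 := h4 (j + 1 - (L + 1)) (by omega)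
        rw [show j + 1 - (j + 1 - (L + 1)) = L + 1 by omega] at h5
        exact h7 f (fun i hi => f2 i (by omega)) h5 (f1 ▸ h6)
    rw [hcode]
    refine mkY_inL_head v g (hm v) l' ⟨fun he => ((hany _ hmv).1 he).1 rfl, (hany _ hmv).2⟩ hsz ?_
    intro c hc
    have hcv := (hl3 c hc).1
    exact ⟨fun he => ((hany c hcv).1 he).2, (hany c hcv).2⟩

end glue

end AEN
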