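import Pool.Agent.AEN.Plug

/-!
# Trees with many good pieces of bounded size, with a condition on the root
-/

set_option autoImplicit false

namespace AEN

open Finset AE15 AED AELT AEW
open scoped Classical

/-- **pieces of bounded size** -/
theorem end_many (b : ℕ) (hb : 1 ≤ b) {θ₁ k e be : ℝ} (hθ₁ : 0 < θ₁) (hθ₁1 : θ₁ ≤ 1) (hk : 0 < k) (he : 0 < e)
    (hbe : 0 < be) : ∃ ε : ℝ, 0 < ε ∧ ∀ m : ℕ, ∃ C0 : ℝ, ∀ C : ℝ, C0 ≤ C → ∀ D : Dk,
      D.un.len ≤ b → D.un.Deg b → D.Ok ε m → θ₁ * (D.un.size + 1) ≤ D.psz → AEJ.Coarse k e be C D.un := by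
  obtain ⟨g, hg⟩ : ∃ g : ℝ, g = min (min k e) (min be θ₁) / 64 := ⟨_, rfl⟩
  have hg0 : 0 < g := by rw [hg]; positivity
  have hgk : 64 * g ≤ k := by
    rw [hg]; linarith [min_le_left k e, min_le_left (min k e) (min be θ₁)]
  have hge : 64 * g ≤ e := by
    rw [hg]; linarith [min_le_right k e, min_le_left (min k e) (min be θ₁)]
  have hgb : 64 * g ≤ be := by
    rw [hg]; linarith [min_le_left be θ₁, min_le_right (min k e) (min be θ₁)]
  have hgt : 64 * g ≤ θ₁ := by
    rw [hg]; linarith [min_le_right be θ₁, min_le_right (min k e) (min be θ₁)]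
  have hg1 : g ≤ 1 := by linarith
  have hgsq : g ^ 2 ≤ 1 := by
    have : g ^ 2 ≤ 1 ^ 2 := by gcongr
    simpa using this
  obtain ⟨n₀, hn₀⟩ := core_root b hb hθ₁ hθ₁1 hg0 hgk hge hgb hgt
  refine ⟨g ^ 2 / 4096, by positivity, fun m => ⟨n₀ + 1024 * m + 1, ?_⟩⟩
  intro C hC D hl hD hok hpsz V R hT X N hX hA
  have t1 : (0 : ℝ) ≤ (n₀ : ℝ) := Nat.cast_nonneg _
  have t2 : (0 : ℝ) ≤ (m : ℝ) := Nat.cast_nonneg _
  have t3 : (0 : ℝ) ≤ D.un.size := Nat.cast_nonneg _
  have hnX : (n₀ : ℝ) ≤ X.card := by linarith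
  obtain ⟨S, z, A, ps, hSX, hzX, hAX, hzA, hSA, hNz, hemb, hdeg⟩ := hn₀ hT X N (by exact_mod_cast hnX) D hl hD hpsz
    (by linarith) hA
  have hAc := hemb.card
  have hUc : (X \ insert z A).card + (D.csz + 1) = X.card := by
    have h1 : insert z A ⊆ X := insert_subset hzX hAX
    have h2 : (insert z A).card = D.csz + 1 := by rw [card_insert_of_notMem hzA, hAc]
    rw [← h2]
    exact card_sdiff_add_card_eq_card h1
  have hsize := D.size_un
  have hSU : S ⊆ X \ insert z A := by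
    intro v hv
    rw [mem_sdiff]
    exact ⟨hSX hv, fun hm => disjoint_left.1 hSA hv hm⟩
  have hsum := hemb.sum
  have hXm : D.un.size + 1 + 1024 * m ≤ X.card := by
    have : ((D.un.size + 1 + 1024 * m : ℕ) : ℝ) ≤ X.card := by push_cast; linarith
    exact_mod_cast this
  obtain ⟨Q, hQU, hPl⟩ := absorb_list hT (ε := g ^ 2 / 4096) (by positivity) (by linarith) (m := m) (C := 1024 * m) le_rfl
    ps (hemb.ok hok) (U := X \ insert z A) (S := S) hSU (by rw [hsum]; omega) (by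
      intro p hp w hw d
      have h2 := hdeg w (hemb.hosts p hp hw) d
      rw [hsum]
      have h6 : ((D.psz : ℕ) : ℝ) ≤ X.card := by
        have : D.psz ≤ X.card := by omega
        exact_mod_cast this
      have h8 : 64 * (g ^ 2 / 4096) * ((D.psz : ℕ) : ℝ) ≤ 64 * (g ^ 2 / 4096) * X.card :=
        mul_le_mul_of_nonneg_left h6 (by positivity)
      have h9 : 0 ≤ g ^ 2 * (X.card : ℝ) := by positivity
      have e1 : 64 * (g ^ 2 / 4096) * (X.card : ℝ) = g ^ 2 * X.card / 64 := by ring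
      have e3 : g ^ 2 / 32 * (X.card : ℝ) = g ^ 2 * X.card / 32 := by ring
      rw [e1] at h8
      rw [e3] at h2
      linarith)
  have hd : Disjoint Q (insert z A) := disjoint_sdiff.symm.mono_left hQU
  refine ⟨z, hzX, A ∪ Q, union_subset hAX (hQU.trans sdiff_subset), ?_, hNz, hemb.done hzA hPl hd⟩
  rw [mem_union]
  rintro (hm | hm)
  · exact hzA hm
  · exact disjoint_left.1 hd hm (mem_insert_self _ _)

variable {ε : ℝ} {m k : ℕ}

/-- a decomposition of a child into good pieces is extended to the tree -/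
theorem in_trees_ok {r : Bool × Fd} (F : Fd) : r ∈ F.trees → ∀ D : Dk, D.un = r.2 → D.Ok ε m → ∃ D' : Dk, D'.un = F ∧
    D'.Ok ε m ∧ D'.psz = D.psz := by
  induction F with
  | nil => intro h; simp [Fd.trees] at h
  | node d c s _ ihs =>
    intro h D hD hok
    rw [Fd.trees, List.mem_cons] at h
    rcases h with rfl | h
    · exact ⟨.node d D (ofF s), by simp only [Dk.un, ofF_un, hD], ⟨hok, ofF_ok s⟩,
        by simp only [Dk.psz, ofF_psz, add_zero]⟩
    · obtain ⟨D', h1, h2, h3⟩ := ihs h D hD hok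
      exact ⟨.node d (ofF c) D', by simp only [Dk.un, ofF_un, h1], ⟨ofF_ok c, h2⟩,
        by simp only [Dk.psz, ofF_psz, h3, zero_add]⟩

/-- a decomposition of a branch into good pieces is extended to the tree -/
theorem plug_ok {p q : Bool × Fd} {j : ℕ} (h : AESK.PtT k p q j) : ∀ D : Dk, D.un = q.2 → D.Ok ε m →
    ∃ D' : Dk, D'.un = p.2 ∧ D'.Ok ε m ∧ D'.psz = D.psz := by
  induction h with
  | refl => intro D hD hok; exact ⟨D, hD, hok, rfl⟩
  | step q r j _ hr _ ih =>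
    intro D hD hok
    obtain ⟨D1, h1, h2, h3⟩ := in_trees_ok q.2 hr D hD hok
    obtain ⟨D2, h4, h5, h6⟩ := ih D1 h1 h2
    exact ⟨D2, h4, h5, h6.trans h3⟩

end AEN
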