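import Pool.Agent.AEN.GlueN
import Pool.Agent.AEN.CodH

/-!
# Decompositions of a code of a tree, the code being a function of the vertex

`g v` is the code of the branch at `v`, for every vertex `v`; for example `g = codH E P h`.
-/

set_option autoImplicit false

namespace AEN

open Finset Relation AE15 AED AELT AESK AEJT AEW AEY
open scoped Classical

section glue

variable {τ : Type*} [Fintype τ] {E P : τ → τ → Prop} {g : τ → Fd}

/-- the list version -/
theorem exists_dk_listG {ε : ℝ} {m : ℕ} {Z : Finset τ} {y : τ} (f : τ → ℕ) (v : τ)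
    (hgood : ∀ w ∈ Z, w ≠ y → Good1 ε (g w) ∧ (g w).size + 1 ≤ m)
    (hf : ∀ w ∈ Z, f w = (g w).size + 1)
    (hanti : ∀ w ∈ Z, y ∈ Z → y ∈ AE32.desc P w → w = y)
    (l : List τ) (hnd : l.Nodup)
    (hdis : ∀ c ∈ l, ∀ d ∈ l, c ≠ d → Disjoint (AE32.desc P c) (AE32.desc P d))
    (ih : ∀ c ∈ l, c ∉ Z → ∃ D : Dk, D.un = g c ∧ D.psz = f c ∧
      (¬ (y ∈ Z ∧ y ∈ AE32.desc P c) → D.Ok ε m) ∧ ((y ∈ Z ∧ y ∈ AE32.desc P c) → One ε m (g y) D)) :
    ∃ D : Dk, D.un = mkY E v g l ∧ D.psz = (l.map f).sum ∧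
      ((∀ c ∈ l, ¬ (y ∈ Z ∧ y ∈ AE32.desc P c)) → D.Ok ε m) ∧
      ((∃ c ∈ l, y ∈ Z ∧ y ∈ AE32.desc P c) → One ε m (g y) D) := by
  induction l with
  | nil => exact ⟨.nil, rfl, rfl, fun _ => trivial, by simp⟩
  | cons c l ihl =>
    rw [List.nodup_cons] at hnd
    obtain ⟨D', h1, h2, h3, h4⟩ := ihl hnd.2
      (fun c hc d hd => hdis c (List.mem_cons_of_mem _ hc) d (List.mem_cons_of_mem _ hd))
      (fun c hc => ih c (List.mem_cons_of_mem _ hc))
    have hcl : ∀ d ∈ l, y ∈ AE32.desc P c → y ∉ AE32.desc P d := fun d hd h =>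
      disjoint_left.1 (hdis c List.mem_cons_self d (List.mem_cons_of_mem _ hd) (fun e => hnd.1 (e ▸ hd))) h
    by_cases hc : c ∈ Z
    · refine ⟨.pc1 (decide (E v c)) (g c) D', ?_, ?_, ?_, ?_⟩
      · simp only [Dk.un, h1]
        rfl
      · simp only [Dk.psz, h2, List.map_cons, List.sum_cons, hf c hc]
        omega
      · intro h
        have hcy : c ≠ y := fun e => h c List.mem_cons_self ⟨e ▸ hc, e ▸ AE32.self_mem_desc c⟩
        exact ⟨(hgood c hc hcy).1, (hgood c hc hcy).2, h3 (fun d hd => h d (List.mem_cons_of_mem _ hd))⟩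
      · rintro ⟨d, hd, hy, hyd⟩
        rcases List.mem_cons.1 hd with rfl | hd
        · have e := hanti d hc hy hyd
          subst e
          exact Or.inl ⟨rfl, h3 (fun d' hd' h => hcl d' hd' hyd h.2)⟩
        · have hcy : c ≠ y := fun e => hcl d hd (e ▸ AE32.self_mem_desc c) hyd
          exact Or.inr ⟨(hgood c hc hcy).1, (hgood c hc hcy).2, h4 ⟨d, hd, hy, hyd⟩⟩
    · obtain ⟨Dc, g1, g2, g3, g4⟩ := ih c List.mem_cons_self hc
      refine ⟨.node (decide (E v c)) Dc D', ?_, ?_, ?_, ?_⟩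
      · simp only [Dk.un, h1, g1]
        rfl
      · simp only [Dk.psz, h2, g2, List.map_cons, List.sum_cons]
      · intro h
        exact ⟨g3 (h c List.mem_cons_self), h3 (fun d hd => h d (List.mem_cons_of_mem _ hd))⟩
      · rintro ⟨d, hd, hy, hyd⟩
        rcases List.mem_cons.1 hd with rfl | hd
        · exact Or.inl ⟨g4 ⟨hy, hyd⟩, h3 (fun d' hd' h => hcl d' hd' hyd h.2)⟩
        · exact Or.inr ⟨g3 (fun h => hcl d hd h.2 hyd), h4 ⟨d, hd, hy, hyd⟩⟩

/-- **an antichain gives a decomposition** -/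
theorem exists_dkG {rk : τ → ℕ} (hE : ∀ a b, P a b → rk a < rk b) (hin : ∀ a b c, P a c → P b c → a = b)
    (hg : ∀ v, ∃ l : List τ, l.Nodup ∧ (∀ w, w ∈ l ↔ P v w) ∧ g v = mkY E v g l)
    (hsz : ∀ v, (g v).size + 1 = (AE32.desc P v).card) {ε : ℝ} {m : ℕ} {Z : Finset τ} {y : τ}
    (hgood : ∀ w ∈ Z, w ≠ y → Good1 ε (g w) ∧ (g w).size + 1 ≤ m)
    (hanti : ∀ w ∈ Z, ∀ w' ∈ Z, w' ∈ AE32.desc P w → w = w') (n : ℕ) :
    ∀ v, (AE32.desc P v).card = n → v ∉ Z → ∃ D : Dk, D.un = g v ∧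
      D.psz = ∑ w ∈ Z.filter (fun w => w ∈ AE32.desc P v), (AE32.desc P w).card ∧
      (¬ (y ∈ Z ∧ y ∈ AE32.desc P v) → D.Ok ε m) ∧ ((y ∈ Z ∧ y ∈ AE32.desc P v) → One ε m (g y) D) := by
  obtain ⟨f, hf⟩ : ∃ f : τ → ℕ, f = fun c => ∑ w ∈ Z.filter (fun w => w ∈ AE32.desc P c), (AE32.desc P w).card := ⟨_, rfl⟩
  have hfZ : ∀ w ∈ Z, f w = (g w).size + 1 := by
    intro w hw
    have h1 : Z.filter (fun w' => w' ∈ AE32.desc P w) = {w} := by
      ext w'
      rw [mem_filter, mem_singleton]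
      constructor
      · rintro ⟨h1, h2⟩
        exact (hanti w hw w' h1 h2).symm
      · rintro rfl
        exact ⟨hw, AE32.self_mem_desc w'⟩
    rw [hf]
    simp only
    rw [h1, sum_singleton, hsz]
  induction n using Nat.strong_induction_on with
  | _ n ih =>
    intro v hv hvZ
    obtain ⟨l, hl1, hl2, hl3⟩ := hg v
    obtain ⟨D, h1, h2, h3, h4⟩ := exists_dk_listG (E := E) (P := P) (g := g) (ε := ε) (m := m) (Z := Z) (y := y) f v hgood
      hfZ (fun w hw hy h => hanti w hw y hy h) l hl1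
      (fun c hc d hd hcd => AE32.desc_disjoint hE hin ((hl2 c).1 hc) ((hl2 d).1 hd) hcd)
      (fun c hc hcZ => by
        rw [hf]
        exact ih _ (by rw [← hv]; exact desc_card_lt hE ((hl2 c).1 hc)) c rfl hcZ)
    obtain ⟨hdesc, hnv⟩ := desc_eq hE v
    have hcase : ∀ x, x ∈ Z → (x ∈ AE32.desc P v ↔ ∃ c ∈ l, x ∈ AE32.desc P c) := by
      intro x hx
      have hxv : x ≠ v := fun e => hvZ (e ▸ hx)
      rw [hdesc, mem_insert, mem_biUnion]
      constructor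
      · rintro (e | ⟨c, e1, e2⟩)
        · exact absurd e hxv
        · exact ⟨c, (hl2 c).2 (mem_chl.1 e1), e2⟩
      · rintro ⟨c, e1, e2⟩
        exact Or.inr ⟨c, mem_chl.2 ((hl2 c).1 e1), e2⟩
    refine ⟨D, by rw [hl3, h1], ?_, ?_, ?_⟩
    · rw [h2, hf, ← List.sum_toFinset _ hl1]
      have h5 : Z.filter (fun w => w ∈ AE32.desc P v) =
          l.toFinset.biUnion (fun c => Z.filter (fun w => w ∈ AE32.desc P c)) := by
        ext x
        rw [mem_filter, mem_biUnion]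
        constructor
        · rintro ⟨e1, e2⟩
          obtain ⟨c, e3, e4⟩ := (hcase x e1).1 e2
          exact ⟨c, List.mem_toFinset.2 e3, mem_filter.2 ⟨e1, e4⟩⟩
        · rintro ⟨c, e3, e4⟩
          rw [mem_filter] at e4
          exact ⟨e4.1, (hcase x e4.1).2 ⟨c, List.mem_toFinset.1 e3, e4.2⟩⟩
      rw [h5, sum_biUnion]
      intro c hc d hd hcd
      have h6 := AE32.desc_disjoint hE hin ((hl2 c).1 (List.mem_toFinset.1 hc)) ((hl2 d).1 (List.mem_toFinset.1 hd)) hcd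
      show Disjoint (Z.filter (fun w => w ∈ AE32.desc P c)) (Z.filter (fun w => w ∈ AE32.desc P d))
      rw [disjoint_left]
      intro x hx hx'
      rw [mem_filter] at hx hx'
      exact disjoint_left.1 h6 hx.2 hx'.2
    · intro h
      exact h3 (fun c hc hy => h ⟨hy.1, (hcase y hy.1).2 ⟨c, hc, hy.2⟩⟩)
    · rintro ⟨hy, hyv⟩
      obtain ⟨c, e1, e2⟩ := (hcase y hy).1 hyv
      exact h4 ⟨c, e1, hy, e2⟩

/-- with an exceptional branch `y` -/
theorem exists_oneG {rk : τ → ℕ} (hE : ∀ a b, P a b → rk a < rk b) (hin : ∀ a b c, P a c → P b c → a = b)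
    (hg : ∀ v, ∃ l : List τ, l.Nodup ∧ (∀ w, w ∈ l ↔ P v w) ∧ g v = mkY E v g l)
    (hsz : ∀ v, (g v).size + 1 = (AE32.desc P v).card) {v y : τ} (hy : y ∈ AE32.desc P v) (hne : y ≠ v) {W : Finset τ}
    (hW : ∀ w ∈ W, w ∈ AE32.desc P v ∧ w ≠ v ∧ y ∉ AE32.desc P w ∧ w ∉ AE32.desc P y)
    (hdis : ∀ w ∈ W, ∀ w' ∈ W, w ≠ w' → w' ∉ AE32.desc P w) {ε : ℝ} {m : ℕ}
    (hgood : ∀ w ∈ W, Good1 ε (g w) ∧ (g w).size + 1 ≤ m) :
    ∃ D : Dk, D.un = g v ∧ One ε m (g y) D ∧ D.psz = ∑ w ∈ W, (AE32.desc P w).card + (AE32.desc P y).card := by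
  have hyW : y ∉ W := fun h => (hW y h).2.2.1 (AE32.self_mem_desc y)
  obtain ⟨D, h1, h2, -, h4⟩ := exists_dkG (E := E) (P := P) (g := g) hE hin hg hsz (ε := ε) (m := m) (Z := insert y W)
    (y := y)
    (by
      intro w hw hwy
      rcases mem_insert.1 hw with e | hw
      · exact absurd e hwy
      · exact hgood w hw)
    (by
      intro w hw w' hw' hww
      rcases mem_insert.1 hw with e1 | h1
      · rcases mem_insert.1 hw' with e2 | h2
        · exact e1.trans e2.symm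
        · exact absurd (e1 ▸ hww) (hW w' h2).2.2.2
      · rcases mem_insert.1 hw' with e2 | h2
        · exact absurd (e2 ▸ hww) (hW w h1).2.2.1
        · by_contra hne'
          exact hdis w h1 w' h2 hne' hww) _ v rfl
    (by
      rw [mem_insert]
      rintro (e | e)
      · exact hne e.symm
      · exact (hW v e).2.1 rfl)
  refine ⟨D, h1, h4 ⟨mem_insert_self _ _, hy⟩, ?_⟩
  have h5 : (insert y W).filter (fun w => w ∈ AE32.desc P v) = insert y W := by
    refine filter_true_of_mem ?_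
    intro w hw
    rcases mem_insert.1 hw with e | hw
    · exact e ▸ hy
    · exact (hW w hw).1
  rw [h2, h5, sum_insert hyW, add_comm]

/-- without an exceptional branch -/
theorem exists_okG {rk : τ → ℕ} (hE : ∀ a b, P a b → rk a < rk b) (hin : ∀ a b c, P a c → P b c → a = b)
    (hg : ∀ v, ∃ l : List τ, l.Nodup ∧ (∀ w, w ∈ l ↔ P v w) ∧ g v = mkY E v g l)
    (hsz : ∀ v, (g v).size + 1 = (AE32.desc P v).card) {v : τ} {W : Finset τ}
    (hW : ∀ w ∈ W, w ∈ AE32.desc P v ∧ w ≠ v) (hdis : ∀ w ∈ W, ∀ w' ∈ W, w ≠ w' → w' ∉ AE32.desc P w) {ε : ℝ} {m : ℕ}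
    (hgood : ∀ w ∈ W, Good1 ε (g w) ∧ (g w).size + 1 ≤ m) :
    ∃ D : Dk, D.un = g v ∧ D.Ok ε m ∧ D.psz = ∑ w ∈ W, (AE32.desc P w).card := by
  have hvW : v ∉ W := fun e => (hW v e).2 rfl
  obtain ⟨D, h1, h2, h3, -⟩ := exists_dkG (E := E) (P := P) (g := g) hE hin hg hsz (ε := ε) (m := m) (Z := W) (y := v)
    (fun w hw _ => hgood w hw) (fun w hw w' hw' hww => by
      by_contra hne
      exact hdis w hw w' hw' hne hww) _ v rfl hvW
  refine ⟨D, h1, h3 (fun e => hvW e.1), ?_⟩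
  rw [h2, filter_true_of_mem (fun w hw => (hW w hw).1)]

/-- the children of a vertex, for the code with the main child first -/
theorem codH_list {rk : τ → ℕ} (hE : ∀ a b, P a b → rk a < rk b) {h : τ → τ} (hh : ∀ u w, P u w → P u (h u)) (v : τ) :
    ∃ l : List τ, l.Nodup ∧ (∀ w, w ∈ l ↔ P v w) ∧ codH E P h v = mkY E v (codH E P h) l :=
  ⟨ordH P h v, ordH_nodup P h v, fun _ => mem_ordH hh, codH_eq hE hh v⟩

end glue

end AEN
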