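import Pool.Agent.AEN.Plug
import Pool.Agent.AEJT.Typ
import Pool.Agent.AEJ.BlCod

/-!
# Decompositions of the coded tree of an oriented rooted tree

An antichain of branches of a rooted tree is turned into the pieces of a decomposition of its coded tree: for every code
(`exists_one_cod`, `exists_ok_cod`, `good_cod`) and for the code `code E P v` (`exists_one_graph`, `exists_ok_graph`).
-/

set_option autoImplicit false

namespace AEN

open Finset Relation AE15 AED AELT AESK AEJT AEW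
open scoped Classical

/-! ### Sizes of closures -/

theorem clo_true_size (q : Fd) : (clo true q).size = AEB.blk q := by
  induction q with
  | nil => rfl
  | node d c s ihc ihs =>
    cases d
    · simp only [clo, Bool.false_eq_true, if_false, Fd.size, ihc, ihs, AEB.blk]
      omega
    · simp only [clo, if_true, ihs, AEB.blk, zero_add]

theorem clo_false_size (q : Fd) : (clo false q).size = dcl q := by
  induction q with
  | nil => rfl
  | node d c s ihc ihs =>
    cases d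
    · simp [clo, ihs, dcl]
    · simp only [clo, Bool.true_eq_false, if_false, Fd.size, ihc, ihs, dcl, if_true]
      omega

theorem good1_iff {ε : ℝ} {q : Fd} : Good1 ε q ↔ (dcl q : ℝ) + 1 ≤ ε * (q.size + 1) ∧
    (AEB.blk q : ℝ) + 1 ≤ ε * (q.size + 1) := by
  constructor
  · intro h
    have h1 := h false
    have h2 := h true
    rw [clo_false_size] at h1
    rw [clo_true_size] at h2
    exact ⟨h1, h2⟩
  · rintro ⟨h1, h2⟩ σ
    cases σ
    · rw [clo_false_size]
      exact h1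
    · rw [clo_true_size]
      exact h2

/-! ### From an antichain to a decomposition -/

section glue

variable {τ : Type*} [Fintype τ] {E P : τ → τ → Prop}

/-- the list version -/
theorem exists_dk_list {ε : ℝ} {m : ℕ} {Z : Finset τ} {y : τ} (f : τ → ℕ) (v : τ)
    (hgood : ∀ w ∈ Z, w ≠ y → Good1 ε (code E P w) ∧ (code E P w).size + 1 ≤ m)
    (hf : ∀ w ∈ Z, f w = (code E P w).size + 1)
    (hanti : ∀ w ∈ Z, y ∈ Z → y ∈ AE32.desc P w → w = y)
    (l : List τ) (hnd : l.Nodup)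
    (hdis : ∀ c ∈ l, ∀ d ∈ l, c ≠ d → Disjoint (AE32.desc P c) (AE32.desc P d))
    (ih : ∀ c ∈ l, c ∉ Z → ∃ D : Dk, D.un = code E P c ∧ D.psz = f c ∧
      (¬ (y ∈ Z ∧ y ∈ AE32.desc P c) → D.Ok ε m) ∧ ((y ∈ Z ∧ y ∈ AE32.desc P c) → One ε m (code E P y) D)) :
    ∃ D : Dk, D.un = mk (l.map (fun w => (decide (E v w), code E P w))) ∧ D.psz = (l.map f).sum ∧
      ((∀ c ∈ l, ¬ (y ∈ Z ∧ y ∈ AE32.desc P c)) → D.Ok ε m) ∧
      ((∃ c ∈ l, y ∈ Z ∧ y ∈ AE32.desc P c) → One ε m (code E P y) D) := by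
  induction l with
  | nil => exact ⟨.nil, rfl, rfl, fun _ => trivial, by simp⟩
  | cons c l ihl =>
    rw [List.nodup_cons] at hnd
    obtain ⟨D', h1, h2, h3, h4⟩ := ihl hnd.2
      (fun c hc d hd => hdis c (List.mem_cons_of_mem _ hc) d (List.mem_cons_of_mem _ hd))
      (fun c hc => ih c (List.mem_cons_of_mem _ hc))
    have hcl : ∀ d ∈ l, y ∈ AE32.desc P c → y ∉ AE32.desc P d := fun d hd h =>
      disjoint_left.1 (hdis c List.mem_cons_self d (List.mem_cons_of_mem _ hd) (fun e => hnd.1 (e ▸ hd))) h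
    by_cases hc : c ∈ Z
    · refine ⟨.pc1 (decide (E v c)) (code E P c) D', ?_, ?_, ?_, ?_⟩
      · simp only [Dk.un, h1]
        rfl
      · simp only [Dk.psz, h2, List.map_cons, List.sum_cons, hf c hc]
        omega
      · intro h
        have hcy : c ≠ y := fun e => h c List.mem_cons_self ⟨e ▸ hc, e ▸ AE32.self_mem_desc c⟩
        exact ⟨(hgood c hc hcy).1, (hgood c hc hcy).2, h3 (fun d hd => h d (List.mem_cons_of_mem _ hd))⟩
      · rintro ⟨d, hd, hy, hyd⟩
        rcases List.mem_cons.1 hd with rfl | hd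
        · have e := hanti d hc hy hyd
          subst e
          exact Or.inl ⟨rfl, h3 (fun d' hd' h => hcl d' hd' hyd h.2)⟩
        · have hcy : c ≠ y := fun e => hcl d hd (e ▸ AE32.self_mem_desc c) hyd
          exact Or.inr ⟨(hgood c hc hcy).1, (hgood c hc hcy).2, h4 ⟨d, hd, hy, hyd⟩⟩
    · obtain ⟨Dc, g1, g2, g3, g4⟩ := ih c List.mem_cons_self hc
      refine ⟨.node (decide (E v c)) Dc D', ?_, ?_, ?_, ?_⟩
      · simp only [Dk.un, h1, g1]
        rfl
      · simp only [Dk.psz, h2, g2, List.map_cons, List.sum_cons]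
      · intro h
        exact ⟨g3 (h c List.mem_cons_self), h3 (fun d hd => h d (List.mem_cons_of_mem _ hd))⟩
      · rintro ⟨d, hd, hy, hyd⟩
        rcases List.mem_cons.1 hd with rfl | hd
        · exact Or.inl ⟨g4 ⟨hy, hyd⟩, h3 (fun d' hd' h => hcl d' hd' hyd h.2)⟩
        · exact Or.inr ⟨g3 (fun h => hcl d hd h.2 hyd), h4 ⟨d, hd, hy, hyd⟩⟩

/-- **an antichain gives a decomposition** -/
theorem exists_dk {h : τ → ℕ} (hE : ∀ a b, P a b → h a < h b) (hin : ∀ a b c, P a c → P b c → a = b)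
    {ε : ℝ} {m : ℕ} {Z : Finset τ} {y : τ}
    (hgood : ∀ w ∈ Z, w ≠ y → Good1 ε (code E P w) ∧ (code E P w).size + 1 ≤ m)
    (hanti : ∀ w ∈ Z, ∀ w' ∈ Z, ReflTransGen P w w' → w = w') (n : ℕ) :
    ∀ v, (AE32.desc P v).card = n → v ∉ Z → ∃ D : Dk, D.un = code E P v ∧
      D.psz = ∑ w ∈ Z.filter (fun w => w ∈ AE32.desc P v), (AE32.desc P w).card ∧
      (¬ (y ∈ Z ∧ y ∈ AE32.desc P v) → D.Ok ε m) ∧ ((y ∈ Z ∧ y ∈ AE32.desc P v) → One ε m (code E P y) D) := by
  obtain ⟨f, hf⟩ : ∃ f : τ → ℕ, f = fun c => ∑ w ∈ Z.filter (fun w => w ∈ AE32.desc P c), (AE32.desc P w).card := ⟨_, rfl⟩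
  have hfZ : ∀ w ∈ Z, f w = (code E P w).size + 1 := by
    intro w hw
    have h1 : Z.filter (fun w' => w' ∈ AE32.desc P w) = {w} := by
      ext w'
      rw [mem_filter, mem_singleton, AE32.mem_desc]
      constructor
      · rintro ⟨h1, h2⟩
        exact (hanti w hw w' h1 h2).symm
      · rintro rfl
        exact ⟨hw, ReflTransGen.refl⟩
    rw [hf]
    simp only
    rw [h1, sum_singleton, code_size hE hin _ w rfl]
  induction n using Nat.strong_induction_on with
  | _ n ih =>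
    intro v hv hvZ
    have hmem : ∀ c, c ∈ (chl P v).toList ↔ P v c := fun c => by rw [mem_toList, mem_chl]
    obtain ⟨D, h1, h2, h3, h4⟩ := exists_dk_list (E := E) (P := P) (ε := ε) (m := m) (Z := Z) (y := y) f v hgood hfZ
      (fun w hw hy h => hanti w hw y hy (AE32.mem_desc.1 h)) (chl P v).toList (Finset.nodup_toList _)
      (fun c hc d hd hcd => AE32.desc_disjoint hE hin ((hmem c).1 hc) ((hmem d).1 hd) hcd)
      (fun c hc hcZ => by
        rw [hf]
        exact ih _ (by rw [← hv]; exact desc_card_lt hE ((hmem c).1 hc)) c rfl hcZ)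
    obtain ⟨hdesc, hnv⟩ := desc_eq hE v
    have hcase : ∀ x, x ∈ Z → (x ∈ AE32.desc P v ↔ ∃ c ∈ (chl P v).toList, x ∈ AE32.desc P c) := by
      intro x hx
      have hxv : x ≠ v := fun e => hvZ (e ▸ hx)
      rw [hdesc, mem_insert, mem_biUnion]
      constructor
      · rintro (e | ⟨c, e1, e2⟩)
        · exact absurd e hxv
        · exact ⟨c, mem_toList.2 e1, e2⟩
      · rintro ⟨c, e1, e2⟩
        exact Or.inr ⟨c, mem_toList.1 e1, e2⟩
    refine ⟨D, by rw [code_eq hE v, h1], ?_, ?_, ?_⟩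
    · rw [h2, hf, Finset.sum_map_toList]
      have h5 : Z.filter (fun w => w ∈ AE32.desc P v) =
          (chl P v).biUnion (fun c => Z.filter (fun w => w ∈ AE32.desc P c)) := by
        ext x
        rw [mem_filter, mem_biUnion]
        constructor
        · rintro ⟨e1, e2⟩
          obtain ⟨c, e3, e4⟩ := (hcase x e1).1 e2
          exact ⟨c, mem_toList.1 e3, mem_filter.2 ⟨e1, e4⟩⟩
        · rintro ⟨c, e3, e4⟩
          rw [mem_filter] at e4
          exact ⟨e4.1, (hcase x e4.1).2 ⟨c, mem_toList.2 e3, e4.2⟩⟩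
      rw [h5, sum_biUnion]
      intro c hc d hd hcd
      have h6 := AE32.desc_disjoint hE hin (mem_chl.1 hc) (mem_chl.1 hd) hcd
      show Disjoint (Z.filter (fun w => w ∈ AE32.desc P c)) (Z.filter (fun w => w ∈ AE32.desc P d))
      rw [disjoint_left]
      intro x hx hx'
      rw [mem_filter] at hx hx'
      exact disjoint_left.1 h6 hx.2 hx'.2
    · intro h
      exact h3 (fun c hc hy => h ⟨hy.1, (hcase y hy.1).2 ⟨c, hc, hy.2⟩⟩)
    · rintro ⟨hy, hyv⟩
      obtain ⟨c, e1, e2⟩ := (hcase y hy).1 hyv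
      exact h4 ⟨c, e1, hy, e2⟩

/-- with an exceptional branch `y` -/
theorem exists_one {h : τ → ℕ} (hE : ∀ a b, P a b → h a < h b) (hin : ∀ a b c, P a c → P b c → a = b)
    {ε : ℝ} {m : ℕ} {v y : τ} {W : Finset τ} (hvy : ReflTransGen P v y) (hne : v ≠ y)
    (hW : ∀ w ∈ W, ReflTransGen P v w ∧ v ≠ w) (hWy : ∀ w ∈ W, ¬ ReflTransGen P w y ∧ ¬ ReflTransGen P y w)
    (hanti : ∀ w ∈ W, ∀ w' ∈ W, ReflTransGen P w w' → w = w')
    (hgood : ∀ w ∈ W, Good1 ε (code E P w) ∧ (AE32.desc P w).card ≤ m) :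
    ∃ D : Dk, D.un = code E P v ∧ One ε m (code E P y) D ∧
      D.psz = ∑ w ∈ W, (AE32.desc P w).card + (AE32.desc P y).card := by
  have hyW : y ∉ W := fun hy => (hWy y hy).1 ReflTransGen.refl
  obtain ⟨D, h1, h2, -, h4⟩ := exists_dk (E := E) hE hin (ε := ε) (m := m) (Z := insert y W) (y := y)
    (by
      intro w hw hwy
      rcases mem_insert.1 hw with rfl | hw
      · exact absurd rfl hwy
      · exact ⟨(hgood w hw).1, by rw [code_size hE hin _ w rfl]; exact (hgood w hw).2⟩)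
    (by
      intro w hw w' hw' hww
      rcases mem_insert.1 hw with e1 | h1
      · rcases mem_insert.1 hw' with e2 | h2
        · exact e1.trans e2.symm
        · exact absurd (e1 ▸ hww) (hWy w' h2).2
      · rcases mem_insert.1 hw' with e2 | h2
        · exact absurd (e2 ▸ hww) (hWy w h1).1
        · exact hanti w h1 w' h2 hww) _ v rfl
    (by
      rw [mem_insert]
      rintro (e | e)
      · exact hne e
      · exact (hW v e).2 rfl)
  refine ⟨D, h1, h4 ⟨mem_insert_self _ _, AE32.mem_desc.2 hvy⟩, ?_⟩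
  have h5 : (insert y W).filter (fun w => w ∈ AE32.desc P v) = insert y W := by
    refine filter_true_of_mem ?_
    intro w hw
    rw [AE32.mem_desc]
    rcases mem_insert.1 hw with rfl | hw
    · exact hvy
    · exact (hW w hw).1
  rw [h2, h5, sum_insert hyW, add_comm]

/-- without an exceptional branch -/
theorem exists_ok {h : τ → ℕ} (hE : ∀ a b, P a b → h a < h b) (hin : ∀ a b c, P a c → P b c → a = b)
    {ε : ℝ} {m : ℕ} {v : τ} {W : Finset τ} (hW : ∀ w ∈ W, ReflTransGen P v w ∧ v ≠ w)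
    (hanti : ∀ w ∈ W, ∀ w' ∈ W, ReflTransGen P w w' → w = w')
    (hgood : ∀ w ∈ W, Good1 ε (code E P w) ∧ (AE32.desc P w).card ≤ m) :
    ∃ D : Dk, D.un = code E P v ∧ D.Ok ε m ∧ D.psz = ∑ w ∈ W, (AE32.desc P w).card := by
  have hvW : v ∉ W := fun e => (hW v e).2 rfl
  obtain ⟨D, h1, h2, h3, -⟩ := exists_dk (E := E) hE hin (ε := ε) (m := m) (Z := W) (y := v)
    (fun w hw _ => ⟨(hgood w hw).1, by rw [code_size hE hin _ w rfl]; exact (hgood w hw).2⟩) hanti _ v rfl hvW
  refine ⟨D, h1, h3 (fun e => hvW e.1), ?_⟩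
  rw [h2, filter_true_of_mem (fun w hw => AE32.mem_desc.2 (hW w hw).1)]

/-- a branch whose root is joined to few of its vertices by directed paths is good -/
theorem good1_code {h : τ → ℕ} (hE : ∀ a b, P a b → h a < h b) (hin : ∀ a b c, P a c → P b c → a = b)
    (hPE : ∀ a b, P a b → E a b ∨ E b a) {ε : ℝ} {v : τ}
    (h1 : (((AE32.desc P v).filter (fun x => ReflTransGen E v x)).card : ℝ) ≤ ε * (AE32.desc P v).card)
    (h2 : (((AE32.desc P v).filter (fun x => ReflTransGen E x v)).card : ℝ) ≤ ε * (AE32.desc P v).card) :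
    Good1 ε (code E P v) := by
  have hsz : ((code E P v).size : ℝ) + 1 = (AE32.desc P v).card := by exact_mod_cast code_size hE hin _ v rfl
  rw [good1_iff, hsz]
  constructor
  · refine le_trans ?_ h1
    have h3 := rch_code (E := E) hE hin true _ v rfl
    rw [← dcl_eq_rch] at h3
    have h4 : dcl (code E P v) + 1 ≤ ((AE32.desc P v).filter (fun x => ReflTransGen E v x)).card := by
      rw [h3]
      refine card_le_card ?_
      intro x hx
      rw [AE32.mem_desc] at hx
      rw [mem_filter, AE32.mem_desc]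
      exact ⟨ReflTransGen.mono (fun a c h => h.1) _ _ hx, ReflTransGen.mono (fun a c h => of_decide_eq_true h.2) _ _ hx⟩
    exact_mod_cast h4
  · refine le_trans ?_ h2
    have h3 := rch_code (E := E) hE hin false _ v rfl
    rw [← blk_eq_rch] at h3
    have h4 : AEB.blk (code E P v) + 1 ≤ ((AE32.desc P v).filter (fun x => ReflTransGen E x v)).card := by
      rw [h3]
      refine card_le_card ?_
      intro x hx
      rw [AE32.mem_desc] at hx
      rw [mem_filter, AE32.mem_desc]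
      refine ⟨ReflTransGen.mono (fun a c h => h.1) _ _ hx, ?_⟩
      induction hx with
      | refl => exact ReflTransGen.refl
      | @tail a c _ h ih =>
        refine ReflTransGen.head ?_ ih
        rcases hPE a c h.1 with h4 | h4
        · exact absurd h4 (of_decide_eq_false h.2)
        · exact h4
    exact_mod_cast h4

end glue

/-! ### Trees with a root -/

section graph

variable {k : ℕ} {G : SimpleGraph (Fin (k + 1))} {r : Fin (k + 1)} {E : Fin (k + 1) → Fin (k + 1) → Prop}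

/-- a branch whose root is joined to few of its vertices by directed paths is good -/
theorem good1_of (hG : G.IsTree) (hEG : SimpleGraph.fromRel E = G) {ε : ℝ} {L : ℕ} (hL : 1 ≤ ε * L) {v : Fin (k + 1)}
    (h1 : L * {x | G.dist r v + G.dist v x = G.dist r x ∧ ReflTransGen E v x}.ncard ≤
      {x | G.dist r v + G.dist v x = G.dist r x}.ncard)
    (h2 : L * {x | G.dist r v + G.dist v x = G.dist r x ∧ ReflTransGen E x v}.ncard ≤
      {x | G.dist r v + G.dist v x = G.dist r x}.ncard) :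
    Good1 ε (code E (Par G r) v) := by
  have hPE : ∀ a c, Par G r a c → E a c ∨ E c a := by
    intro a c h
    have h1 := h.1
    rw [← hEG, SimpleGraph.fromRel_adj] at h1
    exact h1.2
  have hT : {x | G.dist r v + G.dist v x = G.dist r x}.ncard = (AE32.desc (Par G r) v).card := by
    rw [← Set.ncard_coe_finset]
    congr 1
    ext x
    rw [mem_coe, AE32.mem_desc]
    exact (reach_dist hG r v x).symm
  have hA : {x | G.dist r v + G.dist v x = G.dist r x ∧ ReflTransGen E v x}.ncard =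
      ((AE32.desc (Par G r) v).filter (fun x => ReflTransGen E v x)).card := by
    rw [← Set.ncard_coe_finset]
    congr 1
    ext x
    rw [mem_coe, mem_filter, AE32.mem_desc]
    exact and_congr_left' (reach_dist hG r v x).symm
  have hO : {x | G.dist r v + G.dist v x = G.dist r x ∧ ReflTransGen E x v}.ncard =
      ((AE32.desc (Par G r) v).filter (fun x => ReflTransGen E x v)).card := by
    rw [← Set.ncard_coe_finset]
    congr 1
    ext x
    rw [mem_coe, mem_filter, AE32.mem_desc]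
    exact and_congr_left' (reach_dist hG r v x).symm
  rw [hA, hT] at h1
  rw [hO, hT] at h2
  have key : ∀ a b : ℕ, L * a ≤ b → (a : ℝ) ≤ ε * b := by
    intro a b hab
    have h3 : (L : ℝ) * a ≤ b := by exact_mod_cast hab
    have h4 : (0 : ℝ) ≤ a := Nat.cast_nonneg _
    have h5 : (0 : ℝ) ≤ L := Nat.cast_nonneg _
    have h6 : 0 < ε := by
      by_contra hcon
      push Not at hcon
      nlinarith
    calc (a : ℝ) ≤ ε * L * a := by nlinarith
      _ = ε * (L * a) := by ring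
      _ ≤ ε * b := by nlinarith
  exact good1_code (h := fun v => G.dist r v) (fun _ _ h => h.lt) (fun _ _ _ h h' => h.unique hG h') hPE
    (key _ _ h1) (key _ _ h2)

/-- **the graph side of the theorem on many small pieces** -/
theorem exists_one_graph (hG : G.IsTree) (hEG : SimpleGraph.fromRel E = G) {ε : ℝ} {L : ℕ} (hL : 1 ≤ ε * L) {m : ℕ}
    {v y : Fin (k + 1)} (hvy : G.dist r v + G.dist v y = G.dist r y) (hne : v ≠ y) {W : Finset (Fin (k + 1))}
    (hW : ∀ w ∈ W, G.dist r v + G.dist v w = G.dist r w ∧ v ≠ w)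
    (hWy : ∀ w ∈ W, G.dist r w + G.dist w y ≠ G.dist r y ∧ G.dist r y + G.dist y w ≠ G.dist r w)
    (hanti : ∀ w ∈ W, ∀ w' ∈ W, G.dist r w + G.dist w w' = G.dist r w' → w = w')
    (hm : ∀ w ∈ W, {x | G.dist r w + G.dist w x = G.dist r x}.ncard ≤ m)
    (hA : ∀ w ∈ W, L * {x | G.dist r w + G.dist w x = G.dist r x ∧ ReflTransGen E w x}.ncard ≤
      {x | G.dist r w + G.dist w x = G.dist r x}.ncard)
    (hO : ∀ w ∈ W, L * {x | G.dist r w + G.dist w x = G.dist r x ∧ ReflTransGen E x w}.ncard ≤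
      {x | G.dist r w + G.dist w x = G.dist r x}.ncard) :
    ∃ D : Dk, D.un = code E (Par G r) v ∧ One ε m (code E (Par G r) y) D ∧
      D.psz = ∑ w ∈ W, {x | G.dist r w + G.dist w x = G.dist r x}.ncard +
        {x | G.dist r y + G.dist y x = G.dist r x}.ncard := by
  have hR : ∀ a b, ReflTransGen (Par G r) a b ↔ G.dist r a + G.dist a b = G.dist r b := fun a b => reach_dist hG r a b
  have hT : ∀ w, {x | G.dist r w + G.dist w x = G.dist r x}.ncard = (AE32.desc (Par G r) w).card := by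
    intro w
    rw [← Set.ncard_coe_finset]
    congr 1
    ext x
    rw [mem_coe, AE32.mem_desc]
    exact (hR w x).symm
  obtain ⟨D, h1, h2, h3⟩ := exists_one (E := E) (P := Par G r) (h := fun v => G.dist r v) (fun _ _ h => h.lt)
    (fun _ _ _ h h' => h.unique hG h') (ε := ε) (m := m) ((hR v y).2 hvy) hne
    (fun w hw => ⟨(hR v w).2 (hW w hw).1, (hW w hw).2⟩)
    (fun w hw => ⟨fun h => (hWy w hw).1 ((hR w y).1 h), fun h => (hWy w hw).2 ((hR y w).1 h)⟩)
    (fun w hw w' hw' h => hanti w hw w' hw' ((hR w w').1 h))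
    (fun w hw => ⟨good1_of hG hEG hL (hA w hw) (hO w hw), by rw [← hT]; exact hm w hw⟩)
  refine ⟨D, h1, h2, ?_⟩
  rw [h3, hT]
  congr 1
  exact sum_congr rfl (fun w _ => (hT w).symm)

/-- the same without an exceptional branch -/
theorem exists_ok_graph (hG : G.IsTree) (hEG : SimpleGraph.fromRel E = G) {ε : ℝ} {L : ℕ} (hL : 1 ≤ ε * L) {m : ℕ}
    {v : Fin (k + 1)} {W : Finset (Fin (k + 1))} (hW : ∀ w ∈ W, G.dist r v + G.dist v w = G.dist r w ∧ v ≠ w)
    (hanti : ∀ w ∈ W, ∀ w' ∈ W, G.dist r w + G.dist w w' = G.dist r w' → w = w')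
    (hm : ∀ w ∈ W, {x | G.dist r w + G.dist w x = G.dist r x}.ncard ≤ m)
    (hA : ∀ w ∈ W, L * {x | G.dist r w + G.dist w x = G.dist r x ∧ ReflTransGen E w x}.ncard ≤
      {x | G.dist r w + G.dist w x = G.dist r x}.ncard)
    (hO : ∀ w ∈ W, L * {x | G.dist r w + G.dist w x = G.dist r x ∧ ReflTransGen E x w}.ncard ≤
      {x | G.dist r w + G.dist w x = G.dist r x}.ncard) :
    ∃ D : Dk, D.un = code E (Par G r) v ∧ D.Ok ε m ∧
      D.psz = ∑ w ∈ W, {x | G.dist r w + G.dist w x = G.dist r x}.ncard := by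
  have hR : ∀ a b, ReflTransGen (Par G r) a b ↔ G.dist r a + G.dist a b = G.dist r b := fun a b => reach_dist hG r a b
  have hT : ∀ w, {x | G.dist r w + G.dist w x = G.dist r x}.ncard = (AE32.desc (Par G r) w).card := by
    intro w
    rw [← Set.ncard_coe_finset]
    congr 1
    ext x
    rw [mem_coe, AE32.mem_desc]
    exact (hR w x).symm
  obtain ⟨D, h1, h2, h3⟩ := exists_ok (E := E) (P := Par G r) (h := fun v => G.dist r v) (fun _ _ h => h.lt)
    (fun _ _ _ h h' => h.unique hG h') (ε := ε) (m := m)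
    (fun w hw => ⟨(hR v w).2 (hW w hw).1, (hW w hw).2⟩)
    (fun w hw w' hw' h => hanti w hw w' hw' ((hR w w').1 h))
    (fun w hw => ⟨good1_of hG hEG hL (hA w hw) (hO w hw), by rw [← hT]; exact hm w hw⟩)
  refine ⟨D, h1, h2, ?_⟩
  rw [h3]
  exact sum_congr rfl (fun w _ => (hT w).symm)

end graph

/-! ### Every code of the tree -/

section cod

variable {τ : Type*} [Fintype τ] {E P : τ → τ → Prop}

/-- the list version -/
theorem exists_dk_codL {ε : ℝ} {m : ℕ} {Z : Finset τ} {y : τ} (f : τ → ℕ) (v : τ)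
    (hgood : ∀ w ∈ Z, w ≠ y → ∀ c, AEJ.Cod E P w c → Good1 ε c ∧ c.size + 1 ≤ m)
    (hf : ∀ w ∈ Z, ∀ c, AEJ.Cod E P w c → f w = c.size + 1)
    (hanti : ∀ w ∈ Z, y ∈ Z → y ∈ AE32.desc P w → w = y) :
    ∀ (l : List τ) (F : Fd), AEJ.CodL E P v l F → l.Nodup →
      (∀ c ∈ l, ∀ d ∈ l, c ≠ d → Disjoint (AE32.desc P c) (AE32.desc P d)) →
      (∀ c ∈ l, c ∉ Z → ∀ F', AEJ.Cod E P c F' → ∃ D : Dk, D.un = F' ∧ D.psz = f c ∧
        (¬ (y ∈ Z ∧ y ∈ AE32.desc P c) → D.Ok ε m) ∧
          ((y ∈ Z ∧ y ∈ AE32.desc P c) → ∃ q, AEJ.Cod E P y q ∧ One ε m q D)) →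
      ∃ D : Dk, D.un = F ∧ D.psz = (l.map f).sum ∧ ((∀ c ∈ l, ¬ (y ∈ Z ∧ y ∈ AE32.desc P c)) → D.Ok ε m) ∧
        ((∃ c ∈ l, y ∈ Z ∧ y ∈ AE32.desc P c) → ∃ q, AEJ.Cod E P y q ∧ One ε m q D)
  | [], .nil, _, _, _, _ => ⟨.nil, rfl, rfl, fun _ => trivial, by simp⟩
  | [], .node _ _ _, h, _, _, _ => by simp [AEJ.CodL] at h
  | _ :: _, .nil, h, _, _, _ => by simp [AEJ.CodL] at h
  | c :: l, .node d F₁ F₂, h, hnd, hdis, ih => by
    rw [List.nodup_cons] at hnd
    obtain ⟨e1, e2, e3⟩ := h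
    obtain ⟨D', h1, h2, h3, h4⟩ := exists_dk_codL f v hgood hf hanti l F₂ e3 hnd.2
      (fun c hc d hd => hdis c (List.mem_cons_of_mem _ hc) d (List.mem_cons_of_mem _ hd))
      (fun c hc => ih c (List.mem_cons_of_mem _ hc))
    have hcl : ∀ d ∈ l, y ∈ AE32.desc P c → y ∉ AE32.desc P d := fun d hd h =>
      disjoint_left.1 (hdis c List.mem_cons_self d (List.mem_cons_of_mem _ hd) (fun e => hnd.1 (e ▸ hd))) h
    by_cases hc : c ∈ Z
    · refine ⟨.pc1 d F₁ D', ?_, ?_, ?_, ?_⟩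
      · simp only [Dk.un, h1]
      · simp only [Dk.psz, h2, List.map_cons, List.sum_cons, hf c hc F₁ e2]
        omega
      · intro h
        have hcy : c ≠ y := fun e => h c List.mem_cons_self ⟨e ▸ hc, e ▸ AE32.self_mem_desc c⟩
        exact ⟨(hgood c hc hcy F₁ e2).1, (hgood c hc hcy F₁ e2).2, h3 (fun d hd => h d (List.mem_cons_of_mem _ hd))⟩
      · rintro ⟨x, hx, hy, hyx⟩
        rcases List.mem_cons.1 hx with e | hx
        · subst e
          have e := hanti x hc hy hyx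
          subst e
          exact ⟨F₁, e2, Or.inl ⟨rfl, h3 (fun d' hd' h => hcl d' hd' hyx h.2)⟩⟩
        · have hcy : c ≠ y := fun e => hcl x hx (e ▸ AE32.self_mem_desc c) hyx
          obtain ⟨q, g1, g2⟩ := h4 ⟨x, hx, hy, hyx⟩
          exact ⟨q, g1, Or.inr ⟨(hgood c hc hcy F₁ e2).1, (hgood c hc hcy F₁ e2).2, g2⟩⟩
    · obtain ⟨Dc, g1, g2, g3, g4⟩ := ih c List.mem_cons_self hc F₁ e2
      refine ⟨.node d Dc D', ?_, ?_, ?_, ?_⟩
      · simp only [Dk.un, h1, g1]
      · simp only [Dk.psz, h2, g2, List.map_cons, List.sum_cons]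
      · intro h
        exact ⟨g3 (h c List.mem_cons_self), h3 (fun d hd => h d (List.mem_cons_of_mem _ hd))⟩
      · rintro ⟨x, hx, hy, hyx⟩
        rcases List.mem_cons.1 hx with e | hx
        · subst e
          obtain ⟨q, i1, i2⟩ := g4 ⟨hy, hyx⟩
          exact ⟨q, i1, Or.inl ⟨i2, h3 (fun d' hd' h => hcl d' hd' hyx h.2)⟩⟩
        · obtain ⟨q, i1, i2⟩ := h4 ⟨x, hx, hy, hyx⟩
          exact ⟨q, i1, Or.inr ⟨g3 (fun h => hcl x hx h.2 hyx), i2⟩⟩

/-- **an antichain gives a decomposition** -/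
theorem exists_dk_cod {h : τ → ℕ} (hE : ∀ a b, P a b → h a < h b) (hin : ∀ a b c, P a c → P b c → a = b)
    (hP : ∀ a c, P a c → E a c ∨ E c a) {ε : ℝ} {m : ℕ} {Z : Finset τ} {y : τ}
    (hgood : ∀ w ∈ Z, w ≠ y → ∀ c, AEJ.Cod E P w c → Good1 ε c ∧ c.size + 1 ≤ m)
    (hanti : ∀ w ∈ Z, ∀ w' ∈ Z, w' ∈ AE32.desc P w → w = w') (n : ℕ) :
    ∀ v c, (AE32.desc P v).card = n → v ∉ Z → AEJ.Cod E P v c → ∃ D : Dk, D.un = c ∧
      D.psz = ∑ w ∈ Z.filter (fun w => w ∈ AE32.desc P v), (AE32.desc P w).card ∧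
      (¬ (y ∈ Z ∧ y ∈ AE32.desc P v) → D.Ok ε m) ∧
        ((y ∈ Z ∧ y ∈ AE32.desc P v) → ∃ q, AEJ.Cod E P y q ∧ One ε m q D) := by
  obtain ⟨f, hf⟩ : ∃ f : τ → ℕ, f = fun c => ∑ w ∈ Z.filter (fun w => w ∈ AE32.desc P c), (AE32.desc P w).card := ⟨_, rfl⟩
  have hfZ : ∀ w ∈ Z, ∀ c, AEJ.Cod E P w c → f w = c.size + 1 := by
    intro w hw c hc
    have h1 : Z.filter (fun w' => w' ∈ AE32.desc P w) = {w} := by
      ext w'
      rw [mem_filter, mem_singleton]
      constructor
      · rintro ⟨h1, h2⟩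
        exact (hanti w hw w' h1 h2).symm
      · rintro rfl
        exact ⟨hw, AE32.self_mem_desc w'⟩
    rw [hf]
    simp only
    rw [h1, sum_singleton, AEJ.cod_size hE hin hP hc]
  induction n using Nat.strong_induction_on with
  | _ n ih =>
    intro v c hv hvZ hc
    obtain ⟨l, hl1, hl2, hl3⟩ := hc
    obtain ⟨D, h1, h2, h3, h4⟩ := exists_dk_codL (E := E) (P := P) (ε := ε) (m := m) (Z := Z) (y := y) f v hgood hfZ
      (fun w hw hy h => hanti w hw y hy h) l c hl3 hl1
      (fun c hc d hd hcd => AE32.desc_disjoint hE hin ((hl2 c).1 hc) ((hl2 d).1 hd) hcd)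
      (fun c hc hcZ F' hF' => by
        rw [hf]
        exact ih _ (by rw [← hv]; exact desc_card_lt hE ((hl2 c).1 hc)) c F' rfl hcZ hF')
    obtain ⟨hdesc, hnv⟩ := desc_eq hE v
    have hcase : ∀ x, x ∈ Z → (x ∈ AE32.desc P v ↔ ∃ c ∈ l, x ∈ AE32.desc P c) := by
      intro x hx
      have hxv : x ≠ v := fun e => hvZ (e ▸ hx)
      rw [hdesc, mem_insert, mem_biUnion]
      constructor
      · rintro (e | ⟨c, e1, e2⟩)
        · exact absurd e hxv
        · exact ⟨c, (hl2 c).2 (mem_chl.1 e1), e2⟩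
      · rintro ⟨c, e1, e2⟩
        exact Or.inr ⟨c, mem_chl.2 ((hl2 c).1 e1), e2⟩
    refine ⟨D, h1, ?_, ?_, ?_⟩
    · rw [h2, hf, ← List.sum_toFinset _ hl1]
      have h5 : Z.filter (fun w => w ∈ AE32.desc P v) =
          l.toFinset.biUnion (fun c => Z.filter (fun w => w ∈ AE32.desc P c)) := by
        ext x
        rw [mem_filter, mem_biUnion]
        constructor
        · rintro ⟨e1, e2⟩
          obtain ⟨c, e3, e4⟩ := (hcase x e1).1 e2
          exact ⟨c, List.mem_toFinset.2 e3, mem_filter.2 ⟨e1, e4⟩⟩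
        · rintro ⟨c, e3, e4⟩
          rw [mem_filter] at e4
          exact ⟨e4.1, (hcase x e4.1).2 ⟨c, List.mem_toFinset.1 e3, e4.2⟩⟩
      rw [h5, sum_biUnion]
      intro c hc d hd hcd
      have h6 := AE32.desc_disjoint hE hin ((hl2 c).1 (List.mem_toFinset.1 hc)) ((hl2 d).1 (List.mem_toFinset.1 hd)) hcd
      show Disjoint (Z.filter (fun w => w ∈ AE32.desc P c)) (Z.filter (fun w => w ∈ AE32.desc P d))
      rw [disjoint_left]
      intro x hx hx'
      rw [mem_filter] at hx hx'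
      exact disjoint_left.1 h6 hx.2 hx'.2
    · intro h
      exact h3 (fun c hc hy => h ⟨hy.1, (hcase y hy.1).2 ⟨c, hc, hy.2⟩⟩)
    · rintro ⟨hy, hyv⟩
      obtain ⟨c, e1, e2⟩ := (hcase y hy).1 hyv
      exact h4 ⟨c, e1, hy, e2⟩

/-- **the graph side of the theorem on many small pieces**, for every code: the pieces are the branches at `W` and the
exceptional piece is the branch at `y` -/
theorem exists_one_cod {h : τ → ℕ} (hE : ∀ a b, P a b → h a < h b) (hin : ∀ a b c, P a c → P b c → a = b)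
    (hP : ∀ a c, P a c → E a c ∨ E c a) {v : τ} {c : Fd} (hc : AEJ.Cod E P v c) {y : τ} (hy : y ∈ AE32.desc P v)
    (hne : y ≠ v) {W : Finset τ}
    (hW : ∀ w ∈ W, w ∈ AE32.desc P v ∧ w ≠ v ∧ y ∉ AE32.desc P w ∧ w ∉ AE32.desc P y)
    (hdis : ∀ w ∈ W, ∀ w' ∈ W, w ≠ w' → w' ∉ AE32.desc P w) {ε : ℝ} {m : ℕ}
    (hgood : ∀ w ∈ W, ∀ c', AEJ.Cod E P w c' → Good1 ε c' ∧ c'.size + 1 ≤ m) :
    ∃ (D : Dk) (q : Fd), D.un = c ∧ AEJ.Cod E P y q ∧ One ε m q D ∧
      D.psz = ∑ w ∈ W, (AE32.desc P w).card + (AE32.desc P y).card := by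
  have hyW : y ∉ W := fun h => (hW y h).2.2.1 (AE32.self_mem_desc y)
  obtain ⟨D, h1, h2, -, h4⟩ := exists_dk_cod (E := E) hE hin hP (ε := ε) (m := m) (Z := insert y W) (y := y)
    (by
      intro w hw hwy
      rcases mem_insert.1 hw with e | hw
      · exact absurd e hwy
      · exact hgood w hw)
    (by
      intro w hw w' hw' hww
      rcases mem_insert.1 hw with e1 | h1
      · rcases mem_insert.1 hw' with e2 | h2
        · exact e1.trans e2.symm
        · exact absurd (e1 ▸ hww) (hW w' h2).2.2.2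
      · rcases mem_insert.1 hw' with e2 | h2
        · exact absurd (e2 ▸ hww) (hW w h1).2.2.1
        · by_contra hne'
          exact hdis w h1 w' h2 hne' hww) _ v c rfl
    (by
      rw [mem_insert]
      rintro (e | e)
      · exact hne e.symm
      · exact (hW v e).2.1 rfl) hc
  obtain ⟨q, g1, g2⟩ := h4 ⟨mem_insert_self _ _, hy⟩
  refine ⟨D, q, h1, g1, g2, ?_⟩
  have h5 : (insert y W).filter (fun w => w ∈ AE32.desc P v) = insert y W := by
    refine filter_true_of_mem ?_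
    intro w hw
    rcases mem_insert.1 hw with e | hw
    · exact e ▸ hy
    · exact (hW w hw).1
  rw [h2, h5, sum_insert hyW, add_comm]

/-- the same without an exceptional branch -/
theorem exists_ok_cod {h : τ → ℕ} (hE : ∀ a b, P a b → h a < h b) (hin : ∀ a b c, P a c → P b c → a = b)
    (hP : ∀ a c, P a c → E a c ∨ E c a) {v : τ} {c : Fd} (hc : AEJ.Cod E P v c) {W : Finset τ}
    (hW : ∀ w ∈ W, w ∈ AE32.desc P v ∧ w ≠ v) (hdis : ∀ w ∈ W, ∀ w' ∈ W, w ≠ w' → w' ∉ AE32.desc P w) {ε : ℝ} {m : ℕ}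
    (hgood : ∀ w ∈ W, ∀ c', AEJ.Cod E P w c' → Good1 ε c' ∧ c'.size + 1 ≤ m) :
    ∃ D : Dk, D.un = c ∧ D.Ok ε m ∧ D.psz = ∑ w ∈ W, (AE32.desc P w).card := by
  have hvW : v ∉ W := fun e => (hW v e).2 rfl
  obtain ⟨D, h1, h2, h3, -⟩ := exists_dk_cod (E := E) hE hin hP (ε := ε) (m := m) (Z := W) (y := v)
    (fun w hw _ => hgood w hw) (fun w hw w' hw' hww => by
      by_contra hne
      exact hdis w hw w' hw' hne hww) _ v c rfl hvW hc
  refine ⟨D, h1, h3 (fun e => hvW e.1), ?_⟩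
  rw [h2, filter_true_of_mem (fun w hw => (hW w hw).1)]

/-- the closures of the root of a branch, for every code -/
theorem closures_cod {h : τ → ℕ} (hE : ∀ a b, P a b → h a < h b) (hin : ∀ a b c, P a c → P b c → a = b)
    (hP : ∀ a c, P a c → E a c ∨ E c a) {v : τ} {c : Fd} (hc : AEJ.Cod E P v c) :
    dcl c + 1 ≤ ((AE32.desc P v).filter (fun x => ReflTransGen E v x)).card ∧
      AEB.blk c + 1 ≤ ((AE32.desc P v).filter (fun x => ReflTransGen E x v)).card := by
  constructor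
  · rw [dcl_eq_rch, AEJ.rch_cod hE hin true _ v c rfl hc]
    refine card_le_card ?_
    intro x hx
    rw [AE32.mem_desc] at hx
    rw [mem_filter, AE32.mem_desc]
    exact ⟨ReflTransGen.mono (fun a c h => h.1) _ _ hx, ReflTransGen.mono (fun a c h => of_decide_eq_true h.2) _ _ hx⟩
  · rw [blk_eq_rch, AEJ.rch_cod hE hin false _ v c rfl hc]
    refine card_le_card ?_
    intro x hx
    rw [AE32.mem_desc] at hx
    rw [mem_filter, AE32.mem_desc]
    refine ⟨ReflTransGen.mono (fun a c h => h.1) _ _ hx, ?_⟩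
    induction hx with
    | refl => exact ReflTransGen.refl
    | @tail a c _ h ih =>
      refine ReflTransGen.head ?_ ih
      rcases hP a c h.1 with h4 | h4
      · exact absurd h4 (of_decide_eq_false h.2)
      · exact h4

/-- a branch whose root is joined to few of its vertices by directed paths is good -/
theorem good_cod {h : τ → ℕ} (hE : ∀ a b, P a b → h a < h b) (hin : ∀ a b c, P a c → P b c → a = b)
    (hP : ∀ a c, P a c → E a c ∨ E c a) {v : τ} {c : Fd} (hc : AEJ.Cod E P v c) {ε : ℝ} {K : ℕ} (hK : 1 ≤ ε * K)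
    (h1 : K * ((AE32.desc P v).filter (fun x => ReflTransGen E v x ∨ ReflTransGen E x v)).card ≤ (AE32.desc P v).card) :
    Good1 ε c := by
  have hsz : ((c.size : ℝ)) + 1 = (AE32.desc P v).card := by exact_mod_cast AEJ.cod_size hE hin hP hc
  obtain ⟨h2, h3⟩ := closures_cod hE hin hP hc
  have hε : 0 < ε := by
    by_contra hcon
    push Not at hcon
    have h5 : (0 : ℝ) ≤ K := Nat.cast_nonneg _
    nlinarith
  have key : ∀ a : ℕ, a ≤ ((AE32.desc P v).filter (fun x => ReflTransGen E v x ∨ ReflTransGen E x v)).card →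
      (a : ℝ) ≤ ε * (AE32.desc P v).card := by
    intro a ha
    have h4 : K * a ≤ (AE32.desc P v).card := (Nat.mul_le_mul_left K ha).trans h1
    have h5 : (K : ℝ) * a ≤ (AE32.desc P v).card := by exact_mod_cast h4
    have h6 : (0 : ℝ) ≤ a := Nat.cast_nonneg _
    calc (a : ℝ) ≤ ε * K * a := by nlinarith
      _ = ε * (K * a) := by ring
      _ ≤ ε * (AE32.desc P v).card := by nlinarith
  rw [good1_iff, hsz]
  constructor
  · have h4 := key (dcl c + 1) (h2.trans (card_le_card (fun x hx => by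
      rw [mem_filter] at hx ⊢
      exact ⟨hx.1, Or.inl hx.2⟩)))
    push_cast at h4
    exact h4
  · have h4 := key (AEB.blk c + 1) (h3.trans (card_le_card (fun x hx => by
      rw [mem_filter] at hx ⊢
      exact ⟨hx.1, Or.inr hx.2⟩)))
    push_cast at h4
    exact h4

end cod

end AEN
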