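import Pool.Agent.AEN.ClosN
import Pool.Agent.AEN.End
import Pool.Agent.AEJ.Jump0

/-!
# The jumps with explicit constants
-/

set_option autoImplicit false

namespace AEN

open Finset AE15 AED AELT AEK AEJ AEW AEY
open scoped Classical

theorem jump_ex (b : ℕ) (hb : 1 ≤ b) {θ : ℝ} (hθ : 0 < θ) (hθ1 : θ ≤ 1) :
    JumpTo0 b θ (θ / 1024) (θ / 64) (θ / 1000) := by
  intro κ ε β hκ hε hβ
  obtain ⟨κ₀, hκ₀, H⟩ := jump0_mu b hb hθ hθ1 κ ε β hκ hε hβ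
  refine ⟨min κ₀ (1 / 2), lt_min hκ₀ (by norm_num), ?_⟩
  intro θ₁ hθ₁
  obtain ⟨C₀, hC₀⟩ := H θ₁ hθ₁
  refine ⟨C₀, ?_⟩
  intro C hC c q d₀ m hl hD hp hsz hsz' hwin hco
  have h0 : (0 : ℝ) ≤ c.size := Nat.cast_nonneg _
  have h1 : (q.2.size : ℝ) + 1 ≤ κ₀ * (c.size + 1) :=
    hsz'.trans (mul_le_mul_of_nonneg_right (min_le_left _ _) (by positivity))
  have h2 : (q.2.size : ℝ) + 1 ≤ 1 / 2 * (c.size + 1) :=
    hsz'.trans (mul_le_mul_of_nonneg_right (min_le_right _ _) (by positivity))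
  have h3 : q.2.size < c.size := by
    have : (q.2.size : ℝ) < c.size := by
      have h5 : (0 : ℝ) ≤ q.2.size := Nat.cast_nonneg _
      linarith
    exact_mod_cast this
  obtain ⟨M, h4⟩ := ptT_mu0 hp h3
  have h5 : Coarse κ ε β C (M.plug q) := hC₀ C hC M q (by rw [h4.len]; exact hl) (h4.deg b hD)
    (by rw [h4.size]; exact hsz) (by rw [h4.size]; exact h1) hwin hco
  exact @Coarse.eqt κ ε β C c (M.plug q) h5 h4

theorem many_ex (b : ℕ) (hb : 1 ≤ b) {θ : ℝ} (hθ : 0 < θ) (hθ1 : θ ≤ 1) :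
    ManyTo b θ (θ / 1024) (θ / 64) (θ / 1000) := by
  intro th1 k e be hth hth1 hk he hbe
  exact jump_many' b hb hθ hθ1 (by linarith) le_rfl (by linarith) hth hth1 hk he hbe

/-- the end: many good pieces of bounded size -/
def EndP (θ ε : ℝ) (m : ℕ) (c : Fd) : Prop := ∃ D : Dk, D.un = c ∧ D.Ok ε m ∧ θ * (c.size + 1) ≤ D.psz

theorem endP_to (b : ℕ) (hb : 1 ≤ b) {θ : ℝ} (hθ : 0 < θ) (hθ1 : θ ≤ 1) : EndTo b (EndP θ) := by
  intro k e be th hk he hbe hth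
  obtain ⟨t, ht⟩ : ∃ t : ℝ, t = min th 1 := ⟨_, rfl⟩
  have ht0 : 0 < t := by rw [ht]; exact lt_min hth one_pos
  have ht1 : t ≤ 1 := by rw [ht]; exact min_le_right _ _
  have ht2 : t ≤ th := by rw [ht]; exact min_le_left _ _
  obtain ⟨ε₁, hε₁, h⟩ := end_many b hb (θ₁ := θ * t) (by positivity) (by nlinarith) hk he hbe
  refine ⟨ε₁, hε₁, fun m => ?_⟩
  obtain ⟨C0, hC0⟩ := h m
  refine ⟨C0, ?_⟩
  intro C hC ε hε c d0 a j hl hD hP hlt hE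
  obtain ⟨D, h1, h2, h3⟩ := hE
  obtain ⟨D', g1, g2, g3⟩ := plug_ok hP D h1 h2
  simp only at g1
  subst g1
  refine hC0 C hC D' hl hD (ok_mono hε D' g2) ?_
  rw [g3]
  refine le_trans ?_ h3
  have h4 : t * ((D'.un.size : ℝ) + 1) ≤ th * (D'.un.size + 1) := mul_le_mul_of_nonneg_right ht2 (by positivity)
  have h5 : θ * (t * ((D'.un.size : ℝ) + 1)) ≤ θ * (a.2.size + 1) := mul_le_mul_of_nonneg_left (by linarith) hθ.le
  linarith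

theorem endP_window {θ : ℝ} (ε : ℝ) (m : ℕ) (c : Fd) (hε : ε ≤ 1 / 2) (h : EndP θ ε m c) :
    θ / 2 * (c.size + 1) + dcl c + AEB.blk c ≤ c.size + 1 := by
  obtain ⟨D, rfl, h2, h3⟩ := h
  have h4 := (ok_window (ε := 1 / 2) (by norm_num) (by norm_num) D (ok_mono hε D h2)).2
  rw [← dcl_eq_rch, ← blk_eq_rch] at h4
  linarith

/-- **all options except rigid ends are unconditional** -/
theorem scales_full (b : ℕ) (hb : 1 ≤ b) {θ : ℝ} (hθ : 0 < θ) (hθ1 : θ ≤ 1) {Rg : Bool × Fd → ℕ → Prop}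
    (hR : RigTo (b + 2) Rg) (hw : RigW Rg) : ∃ ε₀ μ₀ : ℝ, 0 < ε₀ ∧ 0 < μ₀ ∧ ∀ M : ℕ, ∃ C : ℕ,
      ∀ {V : Type} {R : V → V → Prop}, AE32.Tour R → ∀ {ε μ : ℝ}, ε ≤ ε₀ → μ ≤ μ₀ → ∀ c : Fd, c.len ≤ b → c.Deg b →
        BlN θ ε μ M Rg (EndP θ ε M) c → ∀ X : Finset V, c.size + 1 + C ≤ X.card → In R c (fun _ => True) X :=
  scalesN hb hθ hθ1 (by positivity) (by positivity) (by positivity) (jump_ex (b + 1) (by omega) hθ hθ1)
    (many_ex (b + 1) (by omega) hθ hθ1) hR hw (endP_to (b + 1) (by omega) hθ hθ1) endP_window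

/-- the coarse state with arbitrary constants, or a rigid branch at the root of a branch of comparable size -/
theorem targ_full (b : ℕ) (hb : 1 ≤ b) {θ : ℝ} (hθ : 0 < θ) (hθ1 : θ ≤ 1) {Rg : Bool × Fd → ℕ → Prop}
    (hR : RigTo b Rg) (hw : RigW Rg) {k e be cap : ℝ} (hk : 0 < k) (he : 0 < e) (hbe : 0 < be) (hcap : 0 < cap) :
    ∃ κ ε₀ μ₀ : ℝ, 0 < κ ∧ κ ≤ cap ∧ κ ≤ 1 / 2 ∧ 0 < ε₀ ∧ 0 < μ₀ ∧ ∀ M : ℕ, ∃ C0 : ℝ, ∀ C : ℝ, C0 ≤ C →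
      ∀ {ε μ : ℝ}, ε ≤ ε₀ → μ ≤ μ₀ → ∀ {Rg' : Bool × Fd → ℕ → Prop}, (∀ p s, Rg' p s → Rg p s) →
        ∀ (c : Fd) (d0 : Bool) (a : Bool × Fd) (m : ℕ), c.len ≤ b → c.Deg b → AESK.PtT 0 (d0, c) a m →
          BlN θ ε μ M Rg' (EndP θ ε M) a.2 → κ * (c.size + 1) < a.2.size + 1 → (M : ℝ) ≤ κ * (c.size + 1) →
            Coarse k e be C c ∨ RigIn θ κ Rg' d0 c :=
  targN' hb hθ hθ1 (by positivity) (by positivity) (by positivity) (jump_ex b hb hθ hθ1) (many_ex b hb hθ hθ1) hR hw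
    (endP_to b hb hθ hθ1) hk he hbe hcap

/-- no rigid branches -/
theorem rigTo_false (b : ℕ) : RigTo b (fun _ _ => False) := fun _ _ _ _ _ _ _ _ =>
  ⟨0, fun _ _ _ _ _ _ _ _ h => h.elim⟩

theorem rigW_false : RigW (fun _ _ => False) := fun _ _ h => h.elim

end AEN
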