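import Pool.Agent.AEN.AltDefs
import Pool.Agent.AEY.CodeY

/-!
# One line inside a branch, with one global code
-/

set_option autoImplicit false

namespace AEN

open Finset Relation AE15 AED AEB AET AELT AEJ AEY LTT AEK
open scoped Classical

section line

variable {τ : Type*} [Fintype τ] {E P : τ → τ → Prop}

/-- one code for every branch, the main child `hm v` first -/
def GCod (E P : τ → τ → Prop) (hm : τ → τ) (cd : τ → Fd) : Prop :=
  ∀ v, (∃ l, (hm v :: l).Nodup ∧ (∀ w, w ∈ hm v :: l ↔ P v w) ∧ cd v = mkY E v cd (hm v :: l)) ∨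
    ((∀ w, ¬ P v w) ∧ cd v = .nil)

private theorem desc_lt {h : τ → ℕ} (hE : ∀ a b, P a b → h a < h b) {v w : τ} (hvw : P v w) :
    (AE32.desc P w).card < (AE32.desc P v).card := by
  refine card_lt_card ⟨AE32.desc_subset hvw, fun hcon => ?_⟩
  exact AE32.notMem_desc hE hvw (hcon (AE32.self_mem_desc v))

theorem GCod.cod {h : τ → ℕ} (hE : ∀ a b, P a b → h a < h b) {hm : τ → τ} {cd : τ → Fd} (hc : GCod E P hm cd)
    (v : τ) : Cod E P v (cd v) := by
  induction hn : (AE32.desc P v).card using Nat.strong_induction_on generalizing v with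
  | _ n ih =>
    rcases hc v with ⟨l, h1, h2, h3⟩ | ⟨h1, h2⟩
    · rw [h3]
      refine ⟨_, h1, h2, codL_mkY v cd _ fun w hw => ?_⟩
      exact ih _ (hn ▸ desc_lt hE ((h2 w).1 hw)) w rfl
    · rw [h2]
      exact ⟨[], List.nodup_nil, fun u => by simp [h1], trivial⟩

/-- a directed walk with `j` arcs starts at `v`, goes towards the root and ends in the branch at `a` -/
def WkA (E P : τ → τ → Prop) (a : τ) (j : ℕ) (v : τ) : Prop :=
  ∃ f : ℕ → τ, f 0 = v ∧ f j ∈ AE32.desc P a ∧ ∀ i < j, E (f i) (f (i + 1)) ∧ P (f (i + 1)) (f i)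

theorem wkA_zero {a v : τ} (hv : v ∈ AE32.desc P a) : WkA E P a 0 v := ⟨fun _ => v, rfl, hv, fun i hi => by omega⟩

theorem wkA_succ {a : τ} {j : ℕ} {v w : τ} (h : WkA E P a j v) (hw : E w v) (hP : P v w) : WkA E P a (j + 1) w := by
  obtain ⟨f, h1, h2, h3⟩ := h
  refine ⟨fun i => match i with
    | 0 => w
    | i + 1 => f i, rfl, h2, ?_⟩
  intro i hi
  cases i with
  | zero =>
    show E w (f 0) ∧ P (f 0) w
    rw [h1]
    exact ⟨hw, hP⟩
  | succ i => exact h3 i (by omega)

/-- `v` is not behind a light arc of the branch at `a` -/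
def NLA (E P : τ → τ → Prop) (K : ℕ) (hm : τ → τ) (a v : τ) : Prop :=
  ∀ u w, u ∈ AE32.desc P a → P u w → E u w → w ≠ hm u → K * (inY E P w).card ≤ (AE32.desc P u).card →
    v ∉ AE32.desc P w

private theorem walk_desc {f : ℕ → τ} {j : ℕ} (h : ∀ i < j, E (f i) (f (i + 1)) ∧ P (f (i + 1)) (f i)) {i : ℕ} (hi : i ≤ j) :
    f i ∈ AE32.desc P (f j) := by
  obtain ⟨k, rfl⟩ := Nat.exists_eq_add_of_le hi
  clear hi
  induction k with
  | zero => exact AE32.self_mem_desc _
  | succ k ih =>
    have h1 := ih fun i hi => h i (by omega)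
    have h2 := (h (i + k) (by omega)).2
    exact AE32.desc_subset h2 h1

/-- the walks which start outside of `D` and leave no light arc have at most `L` arcs -/
def RunA (E P : τ → τ → Prop) (L K : ℕ) (hm : τ → τ) (a : τ) (D : τ → Prop) : Prop :=
  ∀ f : ℕ → τ, (∀ i ≤ L, E (f i) (f (i + 1)) ∧ P (f (i + 1)) (f i)) → f (L + 1) ∈ AE32.desc P a → ¬ D (f 0) →
    ¬ NLA E P K hm a (f 0)

private theorem desc_sub {v w : τ} (h : w ∈ AE32.desc P v) : AE32.desc P w ⊆ AE32.desc P v := by
  intro x hx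
  rw [AE32.mem_desc] at h hx ⊢
  exact h.trans hx

theorem wkA_le {L K : ℕ} {hm : τ → τ} {a : τ} {D : τ → Prop} (h7 : RunA E P L K hm a D) {j : ℕ} {v : τ}
    (h : WkA E P a j v) (hv : NLA E P K hm a v) (hD : ¬ D v) : j ≤ L := by
  obtain ⟨f, h1, h2, h3⟩ := h
  by_contra hj
  push Not at hj
  refine h7 f (fun i hi => h3 i (by omega)) ?_ (h1 ▸ hD) (h1 ▸ hv)
  exact desc_sub h2 (walk_desc h3 (by omega))

/-- the part of the line which does not contain the exit -/
theorem lineL {h : τ → ℕ} (hE : ∀ a b, P a b → h a < h b) (hin : ∀ a b c, P a c → P b c → a = b)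
    (hP : ∀ a c, P a c → E a c ∨ E c a) (hanti : ∀ a c, E a c → ¬ E c a) {L K : ℕ} {hm : τ → τ}
    (hmain : ∀ u w, P u w → P u (hm u) ∧ (AE32.desc P w).card ≤ (AE32.desc P (hm u)).card) {cd : τ → Fd}
    (hc : GCod E P hm cd) {a : τ} {D : τ → Prop} (h7 : RunA E P L K hm a D) (n : ℕ) :
    ∀ v, (AE32.desc P v).card = n → v ∈ AE32.desc P a → (∀ x ∈ AE32.desc P v, ¬ D x) → ∀ j, WkA E P a j v →
      NLA E P K hm a v → InL L K true ((cd v).size + 1) j (cd v) := by
  induction n using Nat.strong_induction_on with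
  | _ n ih =>
    intro v hv hva hD j hw hNL
    rcases hc v with ⟨l, h1, h2, h3⟩ | ⟨h1, h2⟩
    swap
    · rw [h2]; trivial
    have hmv : P v (hm v) := (h2 _).1 List.mem_cons_self
    have hsize : ∀ u, (cd u).size + 1 = (AE32.desc P u).card := fun u => cod_size hE hin hP (hc.cod hE u)
    have hNLc : ∀ c, P v c → (E v c → c ≠ hm v → ¬ K * (inY E P c).card ≤ (AE32.desc P v).card) →
        NLA E P K hm a c := by
      intro c hcv hcl u w hua huw hE' hwm hKw hcw
      rcases (AE32.mem_desc.1 hcw).cases_tail with h8 | ⟨e, h8, h9⟩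
      · subst h8
        obtain rfl := hin _ _ _ huw hcv
        exact hcl hE' hwm hKw
      · obtain rfl := hin _ _ _ h9 hcv
        exact hNL u w hua huw hE' hwm hKw (AE32.mem_desc.2 h8)
    have hany : ∀ c, P v c → (E v c → (c = hm v → InL L K true ((cd c).size + 1) 0 (cd c)) ∧
        (K * (blk (cd c) + 1) ≤ (cd v).size + 1 ∨ InL L K true ((cd c).size + 1) 0 (cd c))) ∧
        (¬ E v c → j + 1 ≤ L ∧ InL L K true ((cd c).size + 1) (j + 1) (cd c)) := by
      intro c hcv
      have hca : c ∈ AE32.desc P a := desc_sub hva (AE32.desc_subset hcv (AE32.self_mem_desc c))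
      have hDc : ∀ x ∈ AE32.desc P c, ¬ D x := fun x hx => hD x (AE32.desc_subset hcv hx)
      have h4 := ih _ (hv ▸ desc_lt hE hcv) c rfl hca hDc
      refine ⟨fun he => ⟨fun hcm => ?_, ?_⟩, fun he => ?_⟩
      · exact h4 0 (wkA_zero hca) (hNLc c hcv fun _ h => absurd hcm h)
      · by_cases hlight : K * (inY E P c).card ≤ (AE32.desc P v).card
        · left
          rw [blk_inY hE hin hP hanti (hc.cod hE c), hsize]
          exact hlight
        · right
          exact h4 0 (wkA_zero hca) (hNLc c hcv fun _ _ => hlight)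
      · have h0 : E c v := (hP _ _ hcv).resolve_left he
        have h5 : WkA E P a (j + 1) c := wkA_succ hw h0 hcv
        have h6 := hNLc c hcv fun h => absurd h he
        exact ⟨wkA_le h7 h5 h6 (hDc c (AE32.self_mem_desc c)), h4 (j + 1) h5 h6⟩
    have hsz : ∀ c ∈ l, (cd c).size ≤ (cd (hm v)).size := by
      intro c hcl
      have h4 := (hmain v c ((h2 c).1 (List.mem_cons_of_mem _ hcl))).2
      have h5 := hsize c
      have h6 := hsize (hm v)
      omega
    have hS : (mkY E v cd (hm v :: l)).size + 1 = (cd v).size + 1 := by rw [← h3]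
    rw [h3]
    refine mkY_inL_head v cd (hm v) l ⟨fun he => ((hany _ hmv).1 he).1 rfl, (hany _ hmv).2⟩ hsz ?_
    intro c hcl
    have hcv := (h2 c).1 (List.mem_cons_of_mem _ hcl)
    rw [hS]
    exact ⟨fun he => ((hany c hcv).1 he).2, (hany c hcv).2⟩

/-- the line with its exit at `v₀` -/
theorem lineX {h : τ → ℕ} (hE : ∀ a b, P a b → h a < h b) (hin : ∀ a b c, P a c → P b c → a = b)
    (hP : ∀ a c, P a c → E a c ∨ E c a) (hanti : ∀ a c, E a c → ¬ E c a) {L K : ℕ} {Q : Fd → Prop} {hm : τ → τ}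
    (hmain : ∀ u w, P u w → P u (hm u) ∧ (AE32.desc P w).card ≤ (AE32.desc P (hm u)).card) {cd : τ → Fd}
    (hc : GCod E P hm cd) {a v₀ : τ} (h7 : RunA E P L K hm a (fun x => x ∈ AE32.desc P v₀))
    (hex : ∀ u, P u v₀ → E u v₀ ∧ K * (inY E P v₀).card ≤ (AE32.desc P u).card) (hQ : Q (cd v₀))
    (hline : ∀ u ∈ AE32.desc P a, v₀ ∈ AE32.desc P u → u ≠ v₀ → v₀ ∈ AE32.desc P (hm u)) (n : ℕ) :
    ∀ v, (AE32.desc P v).card = n → v ∈ AE32.desc P a → v ∉ AE32.desc P v₀ → v₀ ∈ AE32.desc P v → ∀ j,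
      WkA E P a j v → NLA E P K hm a v → InX L K Q ((cd v).size + 1) j (cd v) := by
  induction n using Nat.strong_induction_on with
  | _ n ih =>
    intro v hv hva hv₀ hvi j hw hNL
    rcases hc v with ⟨l, h1, h2, h3⟩ | ⟨h1, h2⟩
    swap
    · rw [h2]; trivial
    have hmv : P v (hm v) := (h2 _).1 List.mem_cons_self
    have hsize : ∀ u, (cd u).size + 1 = (AE32.desc P u).card := fun u => cod_size hE hin hP (hc.cod hE u)
    have hNLc : ∀ c, P v c → (E v c → c ≠ hm v → ¬ K * (inY E P c).card ≤ (AE32.desc P v).card) →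
        NLA E P K hm a c := by
      intro c hcv hcl u w hua huw hE' hwm hKw hcw
      rcases (AE32.mem_desc.1 hcw).cases_tail with h8 | ⟨e, h8, h9⟩
      · subst h8
        obtain rfl := hin _ _ _ huw hcv
        exact hcl hE' hwm hKw
      · obtain rfl := hin _ _ _ h9 hcv
        exact hNL u w hua huw hE' hwm hKw (AE32.mem_desc.2 h8)
    have hvne : v ≠ v₀ := by
      rintro rfl
      exact hv₀ (AE32.self_mem_desc v)
    have hmi := hline v hva hvi hvne
    have hdn : ∀ c, P v c → c ≠ v₀ → c ∉ AE32.desc P v₀ := by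
      intro c hcv hne hcw
      rcases (AE32.mem_desc.1 hcw).cases_tail with h8 | ⟨e, h8, h9⟩
      · exact hne h8
      · obtain rfl := hin _ _ _ h9 hcv
        exact hv₀ (AE32.mem_desc.2 h8)
    -- the side trees
    have hside : ∀ c, P v c → c ≠ hm v → (E v c → 
        (K * (blk (cd c) + 1) ≤ (cd v).size + 1 ∨ InL L K true ((cd c).size + 1) 0 (cd c))) ∧
        (¬ E v c → j + 1 ≤ L ∧ InL L K true ((cd c).size + 1) (j + 1) (cd c)) := by
      intro c hcv hcm
      have hca : c ∈ AE32.desc P a := desc_sub hva (AE32.desc_subset hcv (AE32.self_mem_desc c))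
      have hcn : v₀ ∉ AE32.desc P c := fun h => disjoint_left.1 (AE32.desc_disjoint hE hin hcv hmv hcm) h hmi
      have hDc : ∀ x ∈ AE32.desc P c, ¬ x ∈ AE32.desc P v₀ := by
        intro x hx hx0
        -- `x` is behind `c` and behind `v₀`
        have h4 := AE32.mem_desc.1 hx
        have h5 := AE32.mem_desc.1 hx0
        have h6 : ∀ y, ReflTransGen P v₀ y → ReflTransGen P c y → (ReflTransGen P v₀ c ∨ ReflTransGen P c v₀) := by
          intro y hy
          induction hy with
          | refl => exact fun h => Or.inr h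
          | @tail y z h7 h8 ih7 =>
            intro h9
            rcases h9.cases_tail with h10 | ⟨e, h10, h11⟩
            · subst h10
              exact Or.inl (h7.tail h8)
            · obtain rfl := hin _ _ _ h11 h8
              exact ih7 h10
        rcases h6 x h5 h4 with h7 | h7
        · by_cases hcv₀ : c = v₀
          · subst hcv₀
            exact hcn (AE32.self_mem_desc c)
          · exact hdn c hcv hcv₀ (AE32.mem_desc.2 h7)
        · exact hcn (AE32.mem_desc.2 h7)
      have h4 := lineL hE hin hP hanti hmain hc h7 _ c rfl hca hDc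
      refine ⟨fun he => ?_, fun he => ?_⟩
      · by_cases hlight : K * (inY E P c).card ≤ (AE32.desc P v).card
        · left
          rw [blk_inY hE hin hP hanti (hc.cod hE c), hsize]
          exact hlight
        · right
          exact h4 0 (wkA_zero hca) (hNLc c hcv fun _ _ => hlight)
      · have h0 : E c v := (hP _ _ hcv).resolve_left he
        have h5 : WkA E P a (j + 1) c := wkA_succ hw h0 hcv
        have h6 := hNLc c hcv fun h => absurd h he
        exact ⟨wkA_le h7 h5 h6 (hDc c (AE32.self_mem_desc c)), h4 (j + 1) h5 h6⟩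
    have hsz : ∀ c ∈ l, (cd c).size ≤ (cd (hm v)).size := by
      intro c hcl
      have h4 := (hmain v c ((h2 c).1 (List.mem_cons_of_mem _ hcl))).2
      have h5 := hsize c
      have h6 := hsize (hm v)
      omega
    have hS : (mkY E v cd (hm v :: l)).size + 1 = (cd v).size + 1 := by rw [← h3]
    have hnd := (List.nodup_cons.1 h1).1
    rw [h3]
    refine mkY_inX_head v cd (hm v) l ?_ hsz ?_
    · have hma : hm v ∈ AE32.desc P a := desc_sub hva (AE32.desc_subset hmv (AE32.self_mem_desc _))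
      by_cases hmv₀ : hm v = v₀
      · have h5 := hex v (hmv₀ ▸ hmv)
        refine ⟨fun _ => Or.inl ⟨hmv₀ ▸ hQ, ?_⟩, fun he => absurd (by rw [hmv₀]; exact h5.1) he⟩
        rw [hS, blk_inY hE hin hP hanti (hc.cod hE (hm v)), hsize, hmv₀]
        exact h5.2
      · have hc0 := hdn _ hmv hmv₀
        have h4 := ih _ (hv ▸ desc_lt hE hmv) (hm v) rfl hma hc0 hmi
        refine ⟨fun he => Or.inr ?_, fun he => ?_⟩
        · exact h4 0 (wkA_zero hma) (hNLc _ hmv fun _ h => absurd rfl h)
        · have h0 : E (hm v) v := (hP _ _ hmv).resolve_left he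
          have h5 : WkA E P a (j + 1) (hm v) := wkA_succ hw h0 hmv
          have h6 := hNLc _ hmv fun h => absurd h he
          exact ⟨wkA_le h7 h5 h6 hc0, h4 (j + 1) h5 h6⟩
    · intro c hcl
      have hcv := (h2 c).1 (List.mem_cons_of_mem _ hcl)
      rw [hS]
      refine hside c hcv ?_
      rintro rfl
      exact hnd hcl

/-! ### the conditions on a line, and its codes -/

theorem notMem_desc_of {h : τ → ℕ} (hE : ∀ a b, P a b → h a < h b) {a v : τ} (hv : v ∈ AE32.desc P a) (hne : a ≠ v) :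
    a ∉ AE32.desc P v := by
  have key : ∀ {x y : τ}, y ∈ AE32.desc P x → x = y ∨ h x < h y := by
    intro x y hy
    rw [AE32.mem_desc] at hy
    induction hy with
    | refl => exact Or.inl rfl
    | tail _ h2 ih =>
      rcases ih with rfl | ih
      · exact Or.inr (hE _ _ h2)
      · exact Or.inr (ih.trans (hE _ _ h2))
  intro hav
  rcases key hv with h1 | h1
  · exact hne h1
  · rcases key hav with h2 | h2
    · exact hne h2.symm
    · omega

theorem nla_self {h : τ → ℕ} (hE : ∀ a b, P a b → h a < h b) {K : ℕ} {hm : τ → τ} (a : τ) : NLA E P K hm a a := by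
  intro u w hua huw _ _ _ haw
  have hwa : w ∈ AE32.desc P a := desc_sub hua (AE32.desc_subset huw (AE32.self_mem_desc w))
  by_cases hne : a = w
  · subst hne
    exact notMem_desc_of hE (AE32.desc_subset huw (AE32.self_mem_desc a)) (by rintro rfl; exact absurd (hE _ _ huw) (by simp)) hua
  · exact notMem_desc_of hE hwa hne haw

/-- longer walks -/
theorem RunA.mono {L L' K : ℕ} {hm : τ → τ} {a : τ} {D : τ → Prop} (h : RunA E P L K hm a D) (hL : L ≤ L') :
    RunA E P L' K hm a D := by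
  intro f h1 h2 h3
  refine h f (fun i hi => h1 i (by omega)) (desc_sub h2 ?_) h3
  exact walk_desc (j := L' + 1) (fun i hi => h1 i (by omega)) (by omega)

/-- a small exit branch only makes the walks longer -/
theorem RunA.small {h : τ → ℕ} (hE : ∀ a b, P a b → h a < h b) {L m K : ℕ} {hm : τ → τ} {a v₀ : τ}
    (hr : RunA E P L K hm a (fun x => x ∈ AE32.desc P v₀)) (hm' : (AE32.desc P v₀).card ≤ m) :
    RunA E P (L + m) K hm a (fun _ => False) := by
  intro f h1 h2 _ hNL
  -- some vertex among the first `m + 1` is outside of the branch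
  have hinj : ∀ i ≤ L + m + 1, ∀ j ≤ L + m + 1, i < j → h (f j) < h (f i) := by
    intro i hi j hj hij
    obtain ⟨k, rfl⟩ := Nat.exists_eq_add_of_lt hij
    clear hij
    induction k with
    | zero => exact hE _ _ (h1 i (by omega)).2
    | succ k ih =>
      have h3 := ih (by omega)
      have h4 := hE _ _ (h1 (i + k + 1) (by omega)).2
      have h5 : i + (k + 1) + 1 = i + k + 1 + 1 := by omega
      rw [h5]
      omega
  have hex : ∃ i ≤ m, f i ∉ AE32.desc P v₀ := by
    by_contra hcon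
    push Not at hcon
    have h3 : (range (m + 1)).image f ⊆ AE32.desc P v₀ := by
      intro v hv
      obtain ⟨i, hi, rfl⟩ := mem_image.1 hv
      exact hcon i (by have := mem_range.1 hi; omega)
    have h4 : ((range (m + 1)).image f).card = m + 1 := by
      rw [card_image_of_injOn, card_range]
      intro i hi j hj hij
      have hi' := mem_range.1 (mem_coe.1 hi)
      have hj' := mem_range.1 (mem_coe.1 hj)
      rcases lt_trichotomy i j with h5 | h5 | h5
      · have := hinj i (by omega) j (by omega) h5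
        rw [hij] at this
        omega
      · exact h5
      · have := hinj j (by omega) i (by omega) h5
        rw [hij] at this
        omega
    have := card_le_card h3
    omega
  obtain ⟨i, hi, hfi⟩ := hex
  have hwalk : ∀ k < L + m + 1, E (f k) (f (k + 1)) ∧ P (f (k + 1)) (f k) := fun k hk => h1 k (by omega)
  refine hr (fun k => f (i + k)) (fun k hk => ?_) ?_ hfi ?_
  · have := h1 (i + k) (by omega)
    rwa [Nat.add_assoc] at this
  · exact desc_sub h2 (walk_desc hwalk (by omega))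
  · intro u w hua huw hE' hwm hKw hfw
    refine hNL u w hua huw hE' hwm hKw (desc_sub hfw ?_)
    exact walk_desc (j := i + 0) (fun k hk => hwalk k (by omega)) (by omega)

variable {h : τ → ℕ}

/-- **the code of a line with an exit** -/
theorem line_fxA (hE : ∀ a b, P a b → h a < h b) (hin : ∀ a b c, P a c → P b c → a = b)
    (hP : ∀ a c, P a c → E a c ∨ E c a) (hanti : ∀ a c, E a c → ¬ E c a) {b L K : ℕ} {Q : Fd → Prop} {hm : τ → τ}
    (hmain : ∀ u w, P u w → P u (hm u) ∧ (AE32.desc P w).card ≤ (AE32.desc P (hm u)).card) {cd : τ → Fd}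
    (hc : GCod E P hm cd) (hlen : ∀ v, (cd v).len ≤ b) (hdeg : ∀ v, (cd v).Deg b) {a v₀ : τ}
    (hav : v₀ ∈ AE32.desc P a) (hne : a ≠ v₀) (h7 : RunA E P L K hm a (fun x => x ∈ AE32.desc P v₀))
    (hex : ∀ u, P u v₀ → E u v₀ ∧ K * (inY E P v₀).card ≤ (AE32.desc P u).card) (hQ : Q (cd v₀))
    (hline : ∀ u ∈ AE32.desc P a, v₀ ∈ AE32.desc P u → u ≠ v₀ → v₀ ∈ AE32.desc P (hm u)) : FX b L K Q 0 (cd a) :=
  ⟨hlen a, hdeg a, lineX hE hin hP hanti hmain hc h7 hex hQ hline _ a rfl (AE32.self_mem_desc a)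
    (notMem_desc_of hE hav hne) hav 0 (wkA_zero (AE32.self_mem_desc a)) (nla_self hE a)⟩

/-- **the code of a line without exit** -/
theorem line_fol (hE : ∀ a b, P a b → h a < h b) (hin : ∀ a b c, P a c → P b c → a = b)
    (hP : ∀ a c, P a c → E a c ∨ E c a) (hanti : ∀ a c, E a c → ¬ E c a) {b L K : ℕ} {hm : τ → τ}
    (hmain : ∀ u w, P u w → P u (hm u) ∧ (AE32.desc P w).card ≤ (AE32.desc P (hm u)).card) {cd : τ → Fd}
    (hc : GCod E P hm cd) (hlen : ∀ v, (cd v).len ≤ b) (hdeg : ∀ v, (cd v).Deg b) {a : τ}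
    (h7 : RunA E P L K hm a (fun _ => False)) : FOL b L K 0 (cd a) :=
  ⟨hlen a, hdeg a, lineL hE hin hP hanti hmain hc h7 _ a rfl (AE32.self_mem_desc a) (fun _ _ h => h) 0
    (wkA_zero (AE32.self_mem_desc a)) (nla_self hE a)⟩

/-! ### all arcs reversed -/

theorem mrr_mkYA {cd : τ → Fd} {v : τ} (hP : ∀ a c, P a c → E a c ∨ E c a) (hanti : ∀ a c, E a c → ¬ E c a) :
    ∀ l : List τ, (∀ w ∈ l, P v w) → mrr (mkY E v cd l) = mkY (fun a b => E b a) v (fun w => mrr (cd w)) l
  | [], _ => rfl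
  | w :: l, h => by
    have h1 := mrr_mkYA (cd := cd) hP hanti l fun u hu => h u (List.mem_cons_of_mem _ hu)
    have h2 : (!decide (E v w)) = decide (E w v) := by
      rcases hP _ _ (h w List.mem_cons_self) with h3 | h3
      · simp [h3, hanti _ _ h3]
      · simp [h3, hanti _ _ h3]
    simp only [mkY, mrr, h1, h2]

theorem GCod.mr (hP : ∀ a c, P a c → E a c ∨ E c a) (hanti : ∀ a c, E a c → ¬ E c a) {hm : τ → τ} {cd : τ → Fd}
    (hc : GCod E P hm cd) : GCod (fun a b => E b a) P hm (fun v => mrr (cd v)) := by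
  intro v
  rcases hc v with ⟨l, h1, h2, h3⟩ | ⟨h1, h2⟩
  · refine Or.inl ⟨l, h1, h2, ?_⟩
    show mrr (cd v) = _
    rw [h3]
    exact mrr_mkYA hP hanti _ fun w hw => (h2 w).1 hw
  · refine Or.inr ⟨h1, ?_⟩
    show mrr (cd v) = _
    rw [h2]
    rfl

/-! ### rigid branches -/

/-- `(a, v₀)` is a line: the path follows the main children, and long runs start behind light arcs or in the branch at
`v₀` -/
def LnA (E P : τ → τ → Prop) (L K : ℕ) (hm : τ → τ) (a v₀ : τ) : Prop :=
  v₀ ∈ AE32.desc P a ∧ RunA E P L K hm a (fun x => x ∈ AE32.desc P v₀) ∧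
    ∀ u ∈ AE32.desc P a, v₀ ∈ AE32.desc P u → u ≠ v₀ → v₀ ∈ AE32.desc P (hm u)

/-- the exit at `v₀` -/
def ExA (E P : τ → τ → Prop) (K : ℕ) (a v₀ : τ) : Prop :=
  a ≠ v₀ ∧ ∀ u, P u v₀ → E u v₀ ∧ K * (inY E P v₀).card ≤ (AE32.desc P u).card

variable (hE : ∀ a b, P a b → h a < h b) (hin : ∀ a b c, P a c → P b c → a = b)
    (hP : ∀ a c, P a c → E a c ∨ E c a) (hanti : ∀ a c, E a c → ¬ E c a) {b L K A' : ℕ} {W : Fd → Prop} {hm : τ → τ}
    (hmain : ∀ u w, P u w → P u (hm u) ∧ (AE32.desc P w).card ≤ (AE32.desc P (hm u)).card) {cd : τ → Fd}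
    (hc : GCod E P hm cd) (hlen : ∀ v, (cd v).len ≤ b) (hdeg : ∀ v, (cd v).Deg b)

include hE hin hP hanti hmain hc hlen hdeg

/-- **A line with an exit gives a forest of the class.** -/
theorem fx_of_line {a v₀ : τ} {Q : Fd → Prop} (hl : LnA E P L K hm a v₀) (hx : ExA E P K a v₀) (hQ : Q (cd v₀)) :
    FX b L K Q 0 (cd a) :=
  line_fxA hE hin hP hanti hmain hc hlen hdeg hl.1 hx.1 hl.2.1 hx.2 hQ hl.2.2

/-- **A line with an exit, all arcs reversed.** -/
theorem fx_of_line_mr {a v₀ : τ} {Q : Fd → Prop} (hl : LnA (fun a b => E b a) P L K hm a v₀)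
    (hx : ExA (fun a b => E b a) P K a v₀) (hQ : Q (mrr (cd v₀))) : FX b L K Q 0 (mrr (cd a)) :=
  line_fxA (cd := fun v => mrr (cd v)) hE hin (fun a c h => (hP a c h).symm) (fun a c h h' => hanti _ _ h h') hmain
    (hc.mr hP hanti) (fun v => by rw [mrr_len]; exact hlen v) (fun v => mrr_deg (hdeg v)) hl.1 hx.1 hl.2.1 hx.2 hQ hl.2.2

/-- **A line whose exit branch is small.** -/
theorem fx_of_small {a v₀ : τ} {m : ℕ} {Q : Fd → Prop} (hl : LnA E P L K hm a v₀) (hv : (AE32.desc P v₀).card ≤ m) :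
    FX b (L + m) K Q 0 (cd a) :=
  FX.of_fol (line_fol hE hin hP hanti hmain hc hlen hdeg (hl.2.1.small hE hv))

/-- **A line whose exit branch is small, all arcs reversed.** -/
theorem fx_of_small_mr {a v₀ : τ} {m : ℕ} {Q : Fd → Prop} (hl : LnA (fun a b => E b a) P L K hm a v₀)
    (hv : (AE32.desc P v₀).card ≤ m) : FX b (L + m) K Q 0 (mrr (cd a)) :=
  FX.of_fol (line_fol (cd := fun v => mrr (cd v)) hE hin (fun a c h => (hP a c h).symm)
    (fun a c h h' => hanti _ _ h h') hmain (hc.mr hP hanti) (fun v => by rw [mrr_len]; exact hlen v)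
    (fun v => mrr_deg (hdeg v)) (hl.2.1.small hE hv))

end line

end AEN
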