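import Pool.Agent.AEN.AltM
import Pool.Agent.AEN.FinalA

/-!
# The main theorem on codes, in the form used by the assembly
-/

set_option autoImplicit false

namespace AEN

open Finset AE15 AED AELT AEK AEJ AEB AEG AEF AET AEW AEY
open scoped Classical

theorem mainSt_of (hR : ∀ b l : ℕ, 1 ≤ b → RigSt b (ab b l)) : MainSt := by
  intro b l hb
  obtain ⟨A', h⟩ := alt_main hR b l hb
  refine ⟨A', fun θ hθ hθ1 => ?_⟩
  obtain ⟨ε₀, μ₀, K₁, h1, h2, h⟩ := h θ hθ hθ1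
  refine ⟨ε₀, μ₀, K₁, h1, h2, fun M => ?_⟩
  obtain ⟨C, h⟩ := h K₁ le_rfl M
  refine ⟨C, ?_⟩
  intro V R hT ε μ hε hμ n
  exact ⟨fun c hl hD hB => h hT hε hμ n c (Or.inl ⟨hl, hD, hB⟩), fun F hF => h hT hε hμ n F (Or.inr (Or.inl hF)),
    fun F hF => h hT hε hμ n F (Or.inr (Or.inr hF))⟩

end AEN
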