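import Pool.Agent.AEN.RigC
import Pool.Agent.AEN.Inst
import Pool.Agent.AER.RigM

/-!
# The theorem on rigid ends
-/

set_option autoImplicit false

namespace AEN

open Finset AE15 AED AELT AEK AEJ AEB AEG AEF AET AEW AEY
open scoped Classical

/-- **the theorem on rigid ends**, from the marked version -/
theorem rigSt (b m₀ : ℕ) (hb : 1 ≤ b) : RigSt b m₀ := by
  obtain ⟨g, hg⟩ := AER.rigM b m₀ hb
  refine ⟨g, ?_⟩
  intro θ κ ε β hθ hκ hε hβ p hp hpu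
  obtain ⟨D₁, h⟩ := hg hθ hκ hε hβ p hp hpu
  refine ⟨D₁, ?_⟩
  intro D hD ω c η η₁ κ₀ κ₁ κ' γ₀ τ s' σ₂ μ P
  obtain ⟨γB, C₀, hγB, h⟩ := h D hD P
  refine ⟨γB, C₀, hγB, ?_⟩
  intro C hC c d0 F m hl hDg hpt hsz hθc hF
  obtain ⟨M, h4⟩ := ptT_mu0 hpt hsz
  have h5 : Coarse κ ε β C (M.plug (false, F)) := by
    refine h C hC F M (by rw [h4.len]; exact hl) (h4.deg b hDg) (by rw [h4.size]; exact hθc) ?_
    obtain ⟨W, w1, w2, w3⟩ := hF.w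
    refine ⟨fun _ => hF.ee, fun _ => hF.b0, fun c _ => hF.b1 c, hF.b2, fun c _ h6 => AER.HB.of_ee (hF.ee1 c h6),
      fun c c' h6 h7 => AER.HB.of_ee (hF.ee2 c c' h6 h7), fun c c' c'' h6 h7 h8 => AER.HB.of_ee (hF.ee3 c c' c'' h6 h7 h8),
      fun hNN => ⟨W, fun D hD => Or.inr (w1 D hD), w2, fun c hc => w3 c hNN hc⟩⟩
  exact @Coarse.eqt κ ε β C c (M.plug (false, F)) h5 h4

end AEN
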