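import Pool.Agent.AEN.MainA
import Pool.Agent.AEN.RigE

/-!
# The main theorem on codes, unconditional
-/

set_option autoImplicit false

namespace AEN

theorem mainSt : MainSt := mainSt_of fun b _ hb => rigSt b _ hb

end AEN
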