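import Pool.Agent.AEY.MainY
import Pool.Agent.AEN.Inst

/-!
# Main lines whose exit tree has a chain of branches with all options
-/

set_option autoImplicit false

namespace AEN

open Finset AE15 AED AEB AEG AET AELT AEF AEY
open scoped Classical

/-- **the exact statement for main lines with exits**, for a fixed `C` and forests with at most `n` vertices; the constants
of the coarse state of the exits come first -/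
theorem ee_allY' (p : NP) (hp : p.OK) (hab : ab p.b p.l ≤ p.a) (hB2 : (2 * p.b) ^ p.A0 ≤ p.B) {D₀ : ℕ} (hD₀ : p.A ≤ D₀)
    {ω c η η₁ κ₀ κ₁ κ γ₀ τ s σ₂ μ₂ : ℝ} (P : KB D₀ ω c η η₁ κ₀ κ₁ κ γ₀ τ s σ₂ μ₂) {γ ε₀ μ₀ : ℝ} {m₁ : ℕ} (hγ : 0 < γ)
    (hε₀ : 0 < ε₀) (hμ₀ : 0 < μ₀) (hL : LightH p.b κ η γ ε₀ μ₀ m₁) {θ : ℝ} (hθ : 0 < θ) (hθ1 : θ ≤ 1)
    (hηθ : 16 * η * p.A ≤ θ) : ∃ (ke ee be : ℝ) (K₁ : ℕ), 0 < ke ∧ 0 < ee ∧ 0 < be ∧ ∀ K : ℕ, K₁ ≤ K → ∃ n₀ : ℕ,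
    ∀ {W₀ : Fd → Prop} {V : Type} {R : V → V → Prop}, AE32.Tour R → ∀ C : ℝ, (n₀ : ℝ) ≤ C →
    (∀ c : Fd, W₀ c → (dcl c : ℝ) + blk c ≤ (1 - θ) * (c.size + 1 + C)) → ∀ n : ℕ,
      (∀ c : Fd, c.size < n → c.len ≤ p.b → c.Deg p.b → W₀ c → AEJ.Coarse ke ee be C c) →
      ∀ F : Fd, F.size ≤ n → FX p.b p.l K W₀ 0 F → EE R κ η s p 1 C F := by
  obtain ⟨ke, ee, be, K₁, h1, h2, h3, h⟩ := stepY' p hp hab hB2 hD₀ P hγ hε₀ hμ₀ hL hθ hθ1 hηθ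
  refine ⟨ke, ee, be, K₁, h1, h2, h3, ?_⟩
  intro K hK
  obtain ⟨n₀, h⟩ := h K hK
  refine ⟨n₀, ?_⟩
  intro W₀ V R hT C hC hwin n hco F
  have hn0 : (0 : ℝ) ≤ n₀ := Nat.cast_nonneg _
  induction hs : F.size using Nat.strong_induction_on generalizing F with
  | _ m ih =>
    intro hm hF X N hn hcl
    refine h hT C (hn0.trans hC) hwin F hF (fun c hc => hco c (by omega)) (fun F' hF' hlt =>
      ih F'.size (hs ▸ hlt) F' rfl (by omega) hF') X N hn ?_ hcl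
    have h1 : (0 : ℝ) ≤ F.size := Nat.cast_nonneg _
    have h4 : (n₀ : ℝ) ≤ X.card := by linarith
    exact_mod_cast h4

/-- **trees of the class, as forests**, for a fixed `C` and forests with at most `n` vertices -/
theorem main_fx' (b l : ℕ) (hb : 1 ≤ b) {θ : ℝ} (hθ : 0 < θ) (hθ1 : θ ≤ 1) : ∃ (ke ee be : ℝ) (K₁ : ℕ),
    0 < ke ∧ 0 < ee ∧ 0 < be ∧ ∀ K : ℕ, K₁ ≤ K → ∃ n₀ : ℕ,
    ∀ {W₀ : Fd → Prop} {V : Type} {R : V → V → Prop}, AE32.Tour R → ∀ C : ℝ, (n₀ : ℝ) ≤ C →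
    (∀ c : Fd, W₀ c → (dcl c : ℝ) + blk c ≤ (1 - θ) * (c.size + 1 + C)) → ∀ n : ℕ,
      (∀ c : Fd, c.size < n → c.len ≤ b → c.Deg b → W₀ c → AEJ.Coarse ke ee be C c) →
      ∀ F : Fd, F.size ≤ n → FX b l K W₀ 0 F → ∀ X : Finset V, (F.size : ℝ) + 1 + C ≤ X.card →
        In R F (fun _ => True) X := by
  obtain ⟨p, hp, hpb, hpl, hab, hB2⟩ := exists_npL b l hb
  subst hpb hpl
  have hA1 : 1 ≤ p.A := Nat.one_le_pow _ _ (by omega)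
  have hc1 : 1 ≤ ⌈1 / θ⌉₊ := Nat.one_le_ceil_iff.2 (by positivity)
  obtain ⟨D₀, hD₀⟩ : ∃ D₀ : ℕ, D₀ = p.A * ⌈1 / θ⌉₊ := ⟨_, rfl⟩
  have hDA : p.A ≤ D₀ := by rw [hD₀]; exact Nat.le_mul_of_pos_right _ hc1
  have hD64 : 64 ≤ D₀ := hp.D₀.trans hDA
  obtain ⟨ω, c, η, η₁, κ₀, κ₁, κ, γ₀, τ, s, σ₂, μ, P⟩ := exists_KB hD64
  obtain ⟨hω0, hω1, hc0, hc1', hη0, hη1, hη₁0, hη₁1, hκ₀0, hκ₁0, hκ₁1, hκ0, hκ1, hs0, hγ₀0, hτ0, hσ₂0, -, hκ₁η, hκs⟩ :=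
    P.num
  have hcη : c * η ≤ 1 * η := mul_le_mul_of_nonneg_right (by linarith) hη0.le
  obtain ⟨γ, ε₀, μ₀, m₁, hγ, hε₀, hμ₀, hL⟩ := itX_one p.b hb (κ := κ) (η := η) hκ0 (by linarith) hη0 (by linarith)
  have hηθ : 16 * η * p.A ≤ θ := by
    have hD0 : (0 : ℝ) < D₀ := by exact_mod_cast (by omega : 0 < D₀)
    have h1 : (p.A : ℝ) ≤ θ * D₀ := by
      have h2 : 1 / θ ≤ ⌈1 / θ⌉₊ := Nat.le_ceil _
      rw [div_le_iff₀ hθ] at h2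
      rw [hD₀]
      push_cast
      have h3 : (p.A : ℝ) * 1 ≤ p.A * (⌈1 / θ⌉₊ * θ) := mul_le_mul_of_nonneg_left h2 (Nat.cast_nonneg _)
      linarith
    have h2 : η = 1 / (112 * D₀) := by
      rw [P.hη, P.hω]
      field_simp
      norm_num
    rw [h2]
    have h3 : 16 * (1 / (112 * (D₀ : ℝ))) * p.A = p.A / (7 * D₀) := by
      field_simp
      norm_num
    rw [h3, div_le_iff₀ (by positivity)]
    have h4 : 0 ≤ θ * D₀ := by positivity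
    linarith
  obtain ⟨ke, ee, be, K₁, h1, h2, h3, h⟩ := ee_allY' p hp hab hB2 hDA P hγ hε₀ hμ₀ hL hθ hθ1 hηθ
  refine ⟨ke, ee, be, K₁, h1, h2, h3, ?_⟩
  intro K hK
  obtain ⟨n₀, h⟩ := h K hK
  refine ⟨n₀ + ⌈1 / κ₀⌉₊, ?_⟩
  intro W₀ V R hT C hC hwin n hco F hFn hF X hn
  have hC1 : (n₀ : ℝ) ≤ C ∧ 1 / κ₀ ≤ C := by
    have g1 : 1 / κ₀ ≤ (⌈1 / κ₀⌉₊ : ℝ) := Nat.le_ceil _
    have g2 : (0 : ℝ) ≤ n₀ := Nat.cast_nonneg _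
    have g3 : (0 : ℝ) ≤ 1 / κ₀ := by positivity
    push_cast at hC
    exact ⟨by linarith, by linarith⟩
  refine h hT C hC1.1 hwin n hco F hFn hF X _ (by linarith) (cl_true P hT p F X ?_ _ fun _ => trivial)
  have g1 : (0 : ℝ) ≤ F.size := Nat.cast_nonneg _
  have g2 : 1 / κ₀ ≤ X.card := by linarith [hC1.2]
  rw [div_le_iff₀ hκ₀0] at g2
  linarith

/-- the exit trees: linear window of the root; a rigid branch at the root, or a chain of branches which ends with a small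
branch, with many good pieces of bounded size, or with a rigid branch which is small against the exit tree -/
def Ex (θ ε μ : ℝ) (M K' : ℕ) (Rg : Bool × Fd → ℕ → Prop) (c : Fd) : Prop :=
  θ * (c.size + 1) + dcl c + blk c ≤ c.size + 1 ∧ ((∃ p s, p ∈ c.trees ∧ Rg p s ∧ θ * (c.size + 1) ≤ (s : ℝ) + 1) ∨
    ∃ Z : ℕ, K' * Z ≤ c.size + 1 ∧ BlN θ ε μ M (fun p s => Rg p s ∧ s + 1 ≤ Z) (EndP θ ε M) c)

/-- **the exit trees are coarse** -/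
theorem coarse_ex (b : ℕ) (hb : 1 ≤ b) {θ : ℝ} (hθ : 0 < θ) (hθ1 : θ ≤ 1) {Rg : Bool × Fd → ℕ → Prop}
    (hR : RigTo b Rg) (hw : RigW Rg) {k e be : ℝ} (hk : 0 < k) (he : 0 < e) (hbe : 0 < be) :
    ∃ (ε₀ μ₀ : ℝ) (K' : ℕ), 0 < ε₀ ∧ 0 < μ₀ ∧ ∀ M : ℕ, ∃ C0 : ℝ, ∀ C : ℝ, C0 ≤ C →
      ∀ {ε μ : ℝ}, ε ≤ ε₀ → μ ≤ μ₀ → ∀ c : Fd, c.len ≤ b → c.Deg b → Ex θ ε μ M K' Rg c → AEJ.Coarse k e be C c := by
  obtain ⟨κ, ε₀, μ₀, hκ, -, hκ2, hε₀, hμ₀, h⟩ := targ_full b hb hθ hθ1 hR hw hk he hbe one_pos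
  obtain ⟨K', hK'⟩ : ∃ K' : ℕ, K' = ⌈1 / (θ * κ)⌉₊ := ⟨_, rfl⟩
  refine ⟨ε₀, μ₀, K', hε₀, hμ₀, ?_⟩
  intro M
  obtain ⟨C₁, hC₁⟩ := h M
  obtain ⟨C₂, hC₂⟩ := AEJ.coarse_small hb (M := M / κ) hbe
  obtain ⟨C₃, hC₃⟩ := hR k e be θ hk he hbe hθ
  refine ⟨max C₁ (max C₂ C₃), ?_⟩
  intro C hC ε μ hε hμ c hl hD hc V R
  have hC1 : C₁ ≤ C := (le_max_left _ _).trans hC
  have hC2 : C₂ ≤ C := (le_max_left _ _).trans ((le_max_right _ _).trans hC)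
  have hC3 : C₃ ≤ C := (le_max_right _ _).trans ((le_max_right _ _).trans hC)
  obtain ⟨-, ⟨p, s, h1, h2, h3⟩ | ⟨Z, hZ, hB⟩⟩ := hc
  · exact hC₃ C hC3 c p s hl hD h1 h2 h3
  · by_cases hsm : (c.size + 1 : ℝ) ≤ M / κ
    · exact hC₂ C hC2 k e c hl hD hsm
    push Not at hsm
    rw [div_lt_iff₀ hκ] at hsm
    have hc1 : (0 : ℝ) < c.size + 1 := by positivity
    rcases hC₁ C hC1 hε hμ (fun p s h => h.1) c true (true, c) 0 hl hD AESK.PtT.refl hB (by simp only; nlinarith)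
      (by linarith) with key | ⟨a', m', f1, f2, p, s, f3, f4, f5⟩
    · exact key
    · exfalso
      have g1 : (s : ℝ) + 1 ≤ Z := by exact_mod_cast f4.2
      have g2 : (K' : ℝ) * Z ≤ c.size + 1 := by exact_mod_cast hZ
      have g3 : 1 / (θ * κ) ≤ K' := by rw [hK']; exact Nat.le_ceil _
      have g4 : 0 < θ * κ := by positivity
      rw [div_le_iff₀ g4] at g3
      have g5 : θ * (κ * (c.size + 1)) < θ * (a'.2.size + 1) := mul_lt_mul_of_pos_left f2 hθ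
      have g6 : θ * κ * (c.size + 1) < Z := by
        have : θ * κ * ((c.size : ℝ) + 1) = θ * (κ * (c.size + 1)) := by ring
        linarith
      have g7 : (0 : ℝ) ≤ Z := Nat.cast_nonneg _
      have g8 : (K' : ℝ) * (θ * κ) * (c.size + 1) < c.size + 1 := by
        have h1 : (K' : ℝ) * (θ * κ * (c.size + 1)) ≤ K' * Z := mul_le_mul_of_nonneg_left g6.le (Nat.cast_nonneg _)
        rcases Nat.eq_zero_or_pos K' with h0 | h0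
        · rw [h0] at g3
          simp only [Nat.cast_zero, zero_mul] at g3
          linarith
        · have h2 : (K' : ℝ) * (θ * κ * (c.size + 1)) < K' * Z := mul_lt_mul_of_pos_left g6 (by exact_mod_cast h0)
          linarith
      nlinarith

/-- **Main lines with exits**: all options -/
theorem main_fxN (b l : ℕ) (hb : 1 ≤ b) {θ : ℝ} (hθ : 0 < θ) (hθ1 : θ ≤ 1) {Rg : Bool × Fd → ℕ → Prop}
    (hR : RigTo b Rg) (hw : RigW Rg) : ∃ (ε₀ μ₀ : ℝ) (K K' : ℕ), 0 < ε₀ ∧ 0 < μ₀ ∧ ∀ M : ℕ, ∃ C : ℕ,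
      ∀ {V : Type} {R : V → V → Prop}, AE32.Tour R → ∀ {ε μ : ℝ}, ε ≤ ε₀ → μ ≤ μ₀ → ∀ F : Fd,
        FX b l K (Ex θ ε μ M K' Rg) 0 F → ∀ X : Finset V, F.size + 1 + C ≤ X.card → In R F (fun _ => True) X := by
  obtain ⟨ke, ee, be, K, h1, h2, h3, h⟩ := main_fx' b l hb hθ hθ1
  obtain ⟨n₀, h⟩ := h K le_rfl
  obtain ⟨ε₀, μ₀, K', h4, h5, h6⟩ := coarse_ex b hb hθ hθ1 hR hw h1 h2 h3
  refine ⟨ε₀, μ₀, K, K', h4, h5, ?_⟩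
  intro M
  obtain ⟨C₁, hC₁⟩ := h6 M
  refine ⟨n₀ + ⌈C₁⌉₊, ?_⟩
  intro V R hT ε μ hε hμ F hF X hX
  have g1 : C₁ ≤ ((n₀ + ⌈C₁⌉₊ : ℕ) : ℝ) := by
    have : C₁ ≤ ⌈C₁⌉₊ := Nat.le_ceil _
    push_cast
    have : (0 : ℝ) ≤ n₀ := Nat.cast_nonneg _
    linarith
  refine h (W₀ := Ex θ ε μ M K' Rg) hT ((n₀ + ⌈C₁⌉₊ : ℕ) : ℝ) ?_
    (fun c hc => win_of hθ1 (Nat.cast_nonneg _) hc.1) F.size
    (fun c _ hl hD hc => hC₁ _ g1 hε hμ c hl hD hc) F le_rfl hF X ?_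
  · exact_mod_cast Nat.le_add_right _ _
  · exact_mod_cast hX

end AEN
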