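import Pool.Agent.AEW.Abs
import Pool.Agent.AEW.Core
import Pool.Agent.AEW.Pool
import Pool.Agent.AEK.LT1
import Pool.Agent.AEJ.Closure

/-!
# From a tree with many small good pieces to one branch

If a positive proportion of a tree lies in small good pieces, then the tree is in the coarse state as soon as one branch
which is larger than these pieces is in the coarse state.
-/

set_option autoImplicit false

namespace AEN

open Finset AE15 AED AELT AEW
open scoped Classical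

/-- exactly one piece is the branch `q`, the other pieces are good and have at most `m` vertices -/
def One (ε : ℝ) (m : ℕ) (q : Fd) : Dk → Prop
  | .nil => False
  | .node _ c s => (One ε m q c ∧ s.Ok ε m) ∨ (c.Ok ε m ∧ One ε m q s)
  | .pc1 _ q' s => (q' = q ∧ s.Ok ε m) ∨ (Good1 ε q' ∧ q'.size + 1 ≤ m ∧ One ε m q s)
  | .pc2 _ M _ c s => Good2 ε M ∧ M.un.size + 1 ≤ m ∧ ((One ε m q c ∧ s.Ok ε m) ∨ (c.Ok ε m ∧ One ε m q s))

section

variable {V : Type} {R : V → V → Prop}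

theorem one_split {ε : ℝ} {m : ℕ} {q : Fd} {D : Dk} (hD : One ε m q D) {x : V} {A : Finset V} {ps : List (Pd V)}
    (h : EmbD R D x A ps) : ∃ (ps1 ps2 : List (Pd V)) (w : V) (d : Bool), ps = ps1 ++ Pd.one w d q :: ps2 ∧
      ∀ p ∈ ps1 ++ ps2, p.Ok ε m := by
  induction D generalizing x A ps with
  | nil => exact hD.elim
  | node d c s ihc ihs =>
    obtain ⟨x1, A1, A2, ps1, ps2, -, -, -, -, -, rfl, h6, h7⟩ := h
    rcases hD with ⟨g1, g2⟩ | ⟨g1, g2⟩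
    · obtain ⟨a1, a2, w, e, h8, h9⟩ := ihc g1 h6
      refine ⟨a1, a2 ++ ps2, w, e, by rw [h8]; simp, ?_⟩
      intro p hp
      rw [← List.append_assoc, List.mem_append] at hp
      rcases hp with hp | hp
      · exact h9 p hp
      · exact h7.ok g2 p hp
    · obtain ⟨a1, a2, w, e, h8, h9⟩ := ihs g2 h7
      refine ⟨ps1 ++ a1, a2, w, e, by rw [h8]; simp, ?_⟩
      intro p hp
      rw [List.append_assoc, List.mem_append] at hp
      rcases hp with hp | hp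
      · exact h6.ok g1 p hp
      · exact h9 p hp
  | pc1 d q' s ihs =>
    obtain ⟨ps2, rfl, h2⟩ := h
    rcases hD with ⟨rfl, g2⟩ | ⟨g1, g2, g3⟩
    · exact ⟨[], ps2, x, d, rfl, fun p hp => h2.ok g2 p (by simpa using hp)⟩
    · obtain ⟨a1, a2, w, e, h8, h9⟩ := ihs g3 h2
      refine ⟨.one x d q' :: a1, a2, w, e, by rw [h8]; rfl, ?_⟩
      intro p hp
      rw [List.cons_append, List.mem_cons] at hp
      rcases hp with rfl | hp
      · exact ⟨g1, g2⟩
      · exact h9 p hp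
  | pc2 d M d' c s ihc ihs =>
    obtain ⟨w', A1, A2, ps1, ps2, -, -, -, -, rfl, h6, h7⟩ := h
    obtain ⟨g1, g2, g3⟩ := hD
    rcases g3 with ⟨g3, g4⟩ | ⟨g3, g4⟩
    · obtain ⟨a1, a2, w, e, h8, h9⟩ := ihc g3 h6
      refine ⟨.two x d M d' w' :: a1, a2 ++ ps2, w, e, by rw [h8]; simp, ?_⟩
      intro p hp
      rw [List.cons_append, List.mem_cons, ← List.append_assoc, List.mem_append] at hp
      rcases hp with rfl | hp | hp
      · exact ⟨g1, g2⟩
      · exact h9 p hp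
      · exact h7.ok g4 p hp
    · obtain ⟨a1, a2, w, e, h8, h9⟩ := ihs g4 h7
      refine ⟨.two x d M d' w' :: (ps1 ++ a1), a2, w, e, by rw [h8]; simp, ?_⟩
      intro p hp
      rw [List.cons_append, List.mem_cons, List.append_assoc, List.mem_append] at hp
      rcases hp with rfl | hp | hp
      · exact ⟨g1, g2⟩
      · exact h6.ok g3 p hp
      · exact h9 p hp

theorem pl_insert {ps1 ps2 : List (Pd V)} {Q : Finset V} {w u : V} {d : Bool} {q : Fd} {B : Finset V}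
    (h : Pl R (ps1 ++ ps2) Q) (h1 : Adj R d w u) (h2 : u ∉ B) (h3 : Emb R q u B) (hd : Disjoint (insert u B) Q) :
    Pl R (ps1 ++ Pd.one w d q :: ps2) (insert u B ∪ Q) := by
  induction ps1 generalizing Q with
  | nil => exact ⟨u, B, Q, h1, h2, h3, hd, rfl, h⟩
  | cons p ps ih =>
    cases p with
    | one w' e q' =>
      obtain ⟨u', B', Q', a1, a2, a3, a4, rfl, a5⟩ := h
      rw [disjoint_union_right] at hd
      refine ⟨u', B', insert u B ∪ Q', a1, a2, a3, ?_, ?_, ih a5 hd.2⟩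
      · rw [disjoint_union_right]
        exact ⟨hd.1.symm, a4⟩
      · ext t
        simp only [mem_union, mem_insert]
        tauto
    | two w' e M e' w'' =>
      obtain ⟨u', y', B', Q', a1, a2, a3, a3', a4, rfl, a5⟩ := h
      rw [disjoint_union_right] at hd
      refine ⟨u', y', B', insert u B ∪ Q', a1, a2, a3, a3', ?_, ?_, ih a5 hd.2⟩
      · rw [disjoint_union_right]
        exact ⟨hd.1.symm, a4⟩
      · ext t
        simp only [mem_union, mem_insert]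
        tauto

theorem pl_card {ps : List (Pd V)} : ∀ {Q : Finset V}, Pl R ps Q → Q.card = (ps.map Pd.sz).sum := by
  induction ps with
  | nil =>
    intro Q h
    have h' : Q = ∅ := h
    subst h'
    rfl
  | cons p ps ih =>
    intro Q h
    cases p with
    | one w' e q' =>
      obtain ⟨u', B', Q', -, a2, a3, a4, rfl, a5⟩ := h
      rw [card_union_of_disjoint a4, card_insert_of_notMem a2, a3.card, ih a5]
      rfl
    | two w' e M e' w'' =>
      obtain ⟨u', y', B', Q', -, a2, a3, -, a4, rfl, a5⟩ := h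
      rw [card_union_of_disjoint a4, card_insert_of_notMem a2, a3.card, ih a5]
      rfl

/-- closures become larger in larger sets -/
theorem wide_up {κ κ' a a' : ℝ} {Y U : Finset V} (hYU : Y ⊆ U) (hκ : κ' * U.card ≤ κ * Y.card) (ha : a' ≤ a) {z : V}
    (h : Wide R κ a Y z) : Wide R κ' a' U z := by
  intro Q hQ hz hc
  refine ha.trans ((h (Q ∩ Y) inter_subset_right ?_ ?_).trans ?_)
  · intro v hv
    rw [mem_nO] at hv
    exact mem_inter.2 ⟨hz (mem_nO.2 ⟨hYU hv.1, hv.2⟩), hv.1⟩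
  · intro v hv hvQ
    have h1 := hc v (hYU hv) (fun hm => hvQ (mem_inter.2 ⟨hm, hv⟩))
    have h2 : ((nI R (Q ∩ Y) v).card : ℝ) ≤ (nI R Q v).card := by
      exact_mod_cast card_le_card (filter_subset_filter _ inter_subset_left)
    linarith
  · exact_mod_cast card_le_card inter_subset_left

/-- closures in a subset with small complement -/
theorem wide_down {κ κ' a a' : ℝ} {Y X : Finset V} (hYX : Y ⊆ X)
    (hκ : κ' * Y.card + ((X \ Y).card : ℝ) ≤ κ * X.card) (ha : a' + ((X \ Y).card : ℝ) ≤ a) {z : V}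
    (h : Wide R κ a X z) : Wide R κ' a' Y z := by
  intro Q hQ hz hc
  have h1 := h (Q ∪ (X \ Y)) (union_subset (hQ.trans hYX) sdiff_subset) ?_ ?_
  · have h2 : (((Q ∪ (X \ Y)).card : ℕ) : ℝ) ≤ Q.card + (X \ Y).card := by exact_mod_cast card_union_le _ _
    linarith
  · intro v hv
    rw [mem_nO] at hv
    by_cases hvY : v ∈ Y
    · exact mem_union_left _ (hz (mem_nO.2 ⟨hvY, hv.2⟩))
    · exact mem_union_right _ (mem_sdiff.2 ⟨hv.1, hvY⟩)
  · intro v hv hvQ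
    rw [mem_union, not_or, mem_sdiff, not_and, not_not] at hvQ
    have h2 := hc v (hvQ.2 hv) hvQ.1
    have h3 : (nI R (Q ∪ (X \ Y)) v).card ≤ (nI R Q v).card + (X \ Y).card := by
      have h4 : nI R (Q ∪ (X \ Y)) v ⊆ nI R Q v ∪ (X \ Y) := by
        intro t ht
        rw [mem_nI, mem_union] at ht
        rw [mem_union, mem_nI]
        tauto
      exact (card_le_card h4).trans (card_union_le _ _)
    have h4 : ((nI R (Q ∪ (X \ Y)) v).card : ℝ) ≤ (nI R Q v).card + (X \ Y).card := by exact_mod_cast h3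
    linarith only [hκ, h2, h4]

theorem mem_adm {κ ε : ℝ} {c : Fd} {X : Finset V} {N : V → Prop} {z : V} : z ∈ AEJ.Adm R κ ε c X N ↔ z ∈ X ∧ N z ∧
    Wide R κ ((dcl c + 1 : ℝ) + ε * X.card) X z ∧ Wide (fun a b => R b a) κ ((AEB.blk c + 1 : ℝ) + ε * X.card) X z := by
  unfold AEJ.Adm
  exact mem_filter

/-- a set most of which are possible hosts has many admissible vertices for a tree with a window -/
theorem adm_big (hT : AE32.Tour R) {θ : ℝ} (hθ : 0 < θ) (hθ1 : θ ≤ 1) (q : Fd) {P U : Finset V} {N : V → Prop}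
    (hPU : P ⊆ U) (hN : ∀ v ∈ P, N v) (hP : (1 - θ / 16) * U.card ≤ (P.card : ℝ))
    (hq : θ * (q.size + 1) + dcl q + AEB.blk q ≤ q.size + 1) (hqU : (q.size + 1 : ℝ) ≤ U.card)
    (hU : 32 ≤ θ * U.card) {k' e' be' : ℝ} (hk : k' ≤ θ / 512) (he : e' ≤ θ / 64) (hbe : be' ≤ θ / 2) :
    be' * U.card ≤ ((AEJ.Adm R k' e' q U N).card : ℝ) := by
  obtain ⟨n, hn⟩ : ∃ n : ℝ, n = (U.card : ℝ) := ⟨_, rfl⟩
  obtain ⟨p, hp⟩ : ∃ p : ℝ, p = (P.card : ℝ) := ⟨_, rfl⟩
  have hPn : p ≤ n := by rw [hp, hn]; exact_mod_cast card_le_card hPU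
  have h1 := AEJ.adm_mid hT (e := θ / 32) (by positivity) q P (N := fun _ => True) (fun _ => trivial)
  have hθn : θ * n ≤ 1 * n := mul_le_mul_of_nonneg_right hθ1 (by rw [hn]; exact Nat.cast_nonneg _)
  have hn0 : (0 : ℝ) ≤ n := by rw [hn]; exact Nat.cast_nonneg _
  rw [← hn] at hP hqU hU
  rw [← hp] at hP
  have hpn : n / 2 ≤ p := by linarith only [hU, hP, hθn]
  have hsub : AEJ.Adm R (θ / 32 / 8) (θ / 32) q P (fun _ => True) ⊆ AEJ.Adm R k' e' q U N := by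
    intro z hz
    obtain ⟨z1, -, z2, z3⟩ := mem_adm.1 hz
    rw [← hp] at z2 z3
    have c1 : k' * n ≤ θ / 32 / 8 * p := by
      have : k' * n ≤ θ / 512 * n := mul_le_mul_of_nonneg_right hk hn0
      have : θ * (n / 2) ≤ θ * p := mul_le_mul_of_nonneg_left hpn hθ.le
      linarith
    have c2 : e' * n ≤ θ / 32 * p := by
      have : e' * n ≤ θ / 64 * n := mul_le_mul_of_nonneg_right he hn0
      have : θ * (n / 2) ≤ θ * p := mul_le_mul_of_nonneg_left hpn hθ.le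
      linarith
    refine mem_adm.2 ⟨hPU z1, hN z z1, ?_, ?_⟩
    · exact wide_up hPU (by rw [← hn, ← hp]; exact c1) (by rw [← hn]; linarith only [c2]) z2
    · exact wide_up hPU (by rw [← hn, ← hp]; exact c1) (by rw [← hn]; linarith only [c2]) z3
  have h2 : ((AEJ.Adm R (θ / 32 / 8) (θ / 32) q P (fun _ => True)).card : ℝ) ≤
      ((AEJ.Adm R k' e' q U N).card : ℝ) := by exact_mod_cast card_le_card hsub
  rw [← hp] at h1
  rw [← hn]
  have h3 : be' * n ≤ θ / 2 * n := mul_le_mul_of_nonneg_right hbe hn0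
  have h4 : θ * p ≤ θ * n := mul_le_mul_of_nonneg_left hPn hθ.le
  have h5 : (1 - θ) * ((q.size : ℝ) + 1) ≤ (1 - θ) * n := mul_le_mul_of_nonneg_left hqU (by linarith only [hθ1])
  linarith only [hq, hU, hP, h1, h2, h3, h4, h5]

theorem core_dcl (D : Dk) : dcl D.core ≤ dcl D.un ∧ AEB.blk D.core ≤ AEB.blk D.un := by
  induction D with
  | nil => exact ⟨le_rfl, le_rfl⟩
  | node d c s ihc ihs =>
    cases d
    · refine ⟨?_, ?_⟩
      · simp only [Dk.core, Dk.un, dcl, Bool.false_eq_true, if_false]; omega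
      · simp only [Dk.core, Dk.un, AEB.blk, Bool.false_eq_true, if_false]; omega
    · refine ⟨?_, ?_⟩
      · simp only [Dk.core, Dk.un, dcl, if_true]; omega
      · simp only [Dk.core, Dk.un, AEB.blk, if_true]; omega
  | pc1 d q s ihs =>
    refine ⟨ihs.1.trans ?_, ihs.2.trans ?_⟩
    · simp only [Dk.un, dcl]; omega
    · simp only [Dk.un, AEB.blk]; omega
  | pc2 d M d' c s _ ihs =>
    refine ⟨ihs.1.trans ?_, ihs.2.trans ?_⟩
    · simp only [Dk.un, dcl]; omega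
    · simp only [Dk.un, AEB.blk]; omega

end

/-- the pool and the embedding of the core -/
theorem core_root (b : ℕ) (hb : 1 ≤ b) {θ₁ k e be g : ℝ} (hθ₁ : 0 < θ₁) (hθ₁1 : θ₁ ≤ 1) (hg0 : 0 < g) (hgk : 64 * g ≤ k)
    (hge : 64 * g ≤ e) (hgb : 64 * g ≤ be) (hgt : 64 * g ≤ θ₁) : ∃ n₀ : ℕ,
    ∀ {V : Type} {R : V → V → Prop}, AE32.Tour R → ∀ (X : Finset V) (N : V → Prop), n₀ ≤ X.card → ∀ D : Dk,
      D.un.len ≤ b → D.un.Deg b → θ₁ * (D.un.size + 1) ≤ D.psz → (D.un.size + 1 : ℝ) ≤ X.card →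
      be * X.card ≤ ((AEJ.Adm R k e D.un X N).card : ℝ) →
      ∃ (S : Finset V) (z : V) (A : Finset V) (ps : List (Pd V)), S ⊆ X ∧ z ∈ X ∧ A ⊆ X ∧ z ∉ A ∧
        Disjoint S (insert z A) ∧ N z ∧ EmbD R D z A ps ∧
        ∀ y ∈ insert z A, ∀ d, g ^ 2 / 32 * X.card ≤ ((nb R d S y).card : ℝ) := by
  have hk : 0 < k := by linarith
  have hg1 : 64 * g ≤ 1 := hgt.trans hθ₁1
  obtain ⟨np, hnp⟩ := pool (η := g / 2) (by positivity) (by linarith only [hθ₁1, hg0, hgt])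
  obtain ⟨Cβ, hCβ, hU⟩ := AEK.un_one b hb (show (0 : ℝ) < θ₁ / 8 by positivity)
  obtain ⟨n₁, hn₁⟩ := AEK.lt1 b hb (κ := k / 2) (ε := g) (by positivity) hg0
  obtain ⟨n₃, hn₃⟩ := exists_nat_ge (4 * Cβ / θ₁ + 2 / g)
  refine ⟨np + 2 * n₁ + n₃, ?_⟩
  intro V R hT X N hnX D hl hD hpsz huX hA
  obtain ⟨n, hn⟩ : ∃ n : ℝ, n = (X.card : ℝ) := ⟨_, rfl⟩
  obtain ⟨u, hu⟩ : ∃ u : ℝ, u = (D.un.size : ℝ) + 1 := ⟨_, rfl⟩
  have hu1 : 1 ≤ u := by rw [hu]; linarith [(Nat.cast_nonneg D.un.size : (0 : ℝ) ≤ _)]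
  rw [← hu, ← hn] at huX
  rw [← hn] at hA
  rw [← hu] at hpsz
  have hn0 : 0 ≤ n := by linarith only [hθ₁1, hg0, hgt, huX, hu]
  have hnX' : ((np + 2 * n₁ + n₃ : ℕ) : ℝ) ≤ n := by rw [hn]; exact_mod_cast hnX
  push_cast at hnX'
  have hnp0 : (0 : ℝ) ≤ np := Nat.cast_nonneg _
  have hn10 : (0 : ℝ) ≤ n₁ := Nat.cast_nonneg _
  have hn30 : (0 : ℝ) ≤ n₃ := Nat.cast_nonneg _
  have hCg : 2 / g ≤ n := by
    have h1 : 0 ≤ 4 * Cβ / θ₁ := by positivity
    linarith only [hn₃, hnX', h1]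
  have hCβ' : 4 * Cβ / θ₁ ≤ n := by
    have h1 : 0 ≤ 2 / g := by positivity
    linarith only [hn₃, hnX', h1]
  rw [div_le_iff₀ hθ₁] at hCβ'
  rw [div_le_iff₀ hg0] at hCg
  -- the pool
  obtain ⟨s, hs⟩ : ∃ s : ℕ, s = ⌊g * n⌋₊ := ⟨_, rfl⟩
  have hs1 : (s : ℝ) ≤ g * n := by rw [hs]; exact Nat.floor_le (by (clear * - hg0 hn0; positivity))
  have hs2 : g * n < s + 1 := by rw [hs]; exact Nat.lt_floor_add_one _
  have hgn1 : 64 * (g * n) ≤ n := by
    have := mul_le_mul_of_nonneg_right hg1 hn0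
    linarith only [this]
  obtain ⟨S, Y, hSX, hYX, hSY, hSs, hsS, hY, hdeg⟩ := hnp hT X s (by omega) (by rw [← hn]; linarith only [hCg, hs2]) (by
    have h1 : ((2 * s : ℕ) : ℝ) ≤ X.card := by
      rw [← hn]
      push_cast
      linarith only [hθ₁1, hg0, hgt, hCg, hs1, hgn1]
    exact_mod_cast h1)
  rw [← hn] at hY
  have hYn : (Y.card : ℝ) ≤ n := by rw [hn]; exact_mod_cast card_le_card hYX
  have hY4 : n - 4 * (g * n) ≤ Y.card := by linarith only [hs1, hY]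
  have hdiff : ((X \ Y).card : ℝ) = n - Y.card := by
    rw [card_sdiff_of_subset hYX, Nat.cast_sub (card_le_card hYX), ← hn]
  have hdeg' : ∀ y ∈ Y, ∀ d, g ^ 2 / 32 * n ≤ ((nb R d S y).card : ℝ) := by
    intro y hy d
    refine le_trans ?_ (hdeg y hy d)
    have h1 : g * n / 4 ≤ S.card := by linarith only [hCg, hs2, hsS]
    have h2 : g / 2 / 4 * (g * n / 4) ≤ g / 2 / 4 * S.card := mul_le_mul_of_nonneg_left h1 (by positivity)
    refine le_trans (le_of_eq ?_) h2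
    ring
  -- the core
  have hun : u = D.csz + D.psz + 1 := by rw [hu, Dk.size_un]; push_cast; ring
  have hcoreN : (D.core.size : ℝ) ≤ D.csz := by exact_mod_cast D.core_le
  have hcs : (D.csz : ℝ) + 1 ≤ (1 - θ₁) * n := by
    have h1 : (1 - θ₁) * u ≤ (1 - θ₁) * n := mul_le_mul_of_nonneg_left huX (by linarith only [hθ₁1])
    linarith only [hpsz, hun, h1]
  have hgn' : 64 * (g * n) ≤ θ₁ * n := by
    have := mul_le_mul_of_nonneg_right hgt hn0
    linarith only [this]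
  have hgg : 64 * (g * (g * n)) ≤ g * n := by
    have := mul_le_mul_of_nonneg_left hgn1 hg0.le
    linarith only [this]
  have hcore1 : ((D.core.size : ℕ) : ℝ) + 1 ≤ (1 - g) * Y.card := by
    have h1 : (1 - g) * (n - 4 * (g * n)) ≤ (1 - g) * Y.card := mul_le_mul_of_nonneg_left hY4 (by linarith only [hθ₁1, hg0, hgt])
    have h2 : (1 - g) * (n - 4 * (g * n)) = n - 5 * (g * n) + 4 * (g * (g * n)) := by ring
    have h3 : 0 ≤ g * (g * n) := by positivity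
    linarith only [hθ₁1, hg0, hgt, hCg, hcoreN, hcs, hgn', h1, h3]
  have c3 : g * Y.card ≤ g * n := mul_le_mul_of_nonneg_left hYn hg0.le
  have hAY : g * Y.card ≤ (((Y.filter (fun z => N z ∧ Wide R (k / 2) ((dcl D.core + 1) + g * Y.card) Y z ∧
      Wide (fun a b => R b a) (k / 2) ((AEB.blk D.core + 1) + g * Y.card) Y z)).card : ℕ) : ℝ) := by
    have h1 : AEJ.Adm R k e D.un X N \ (X \ Y) ⊆ Y.filter (fun z => N z ∧
        Wide R (k / 2) ((dcl D.core + 1) + g * Y.card) Y z ∧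
        Wide (fun a b => R b a) (k / 2) ((AEB.blk D.core + 1) + g * Y.card) Y z) := by
      intro z hz
      rw [mem_sdiff] at hz
      obtain ⟨z1, z2, z3, z4⟩ := mem_filter.1 hz.1
      have hzY : z ∈ Y := by
        by_contra hc
        exact hz.2 (mem_sdiff.2 ⟨z1, hc⟩)
      have c1 : (dcl D.core : ℝ) ≤ dcl D.un := by exact_mod_cast (core_dcl D).1
      have c2 : (AEB.blk D.core : ℝ) ≤ AEB.blk D.un := by exact_mod_cast (core_dcl D).2
      rw [← hn] at z3 z4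
      have c4 : 64 * g * n ≤ e * n := mul_le_mul_of_nonneg_right hge hn0
      have c5 : 64 * g * n ≤ k * n := mul_le_mul_of_nonneg_right hgk hn0
      have c6 : k / 2 * Y.card ≤ k / 2 * n := mul_le_mul_of_nonneg_left hYn (by positivity)
      exact mem_filter.2 ⟨hzY, z2, wide_down hYX (by rw [hdiff, ← hn]; linarith only [hθ₁1, hg0, hgt, hCg, hs1, hY, c5, c6]) (by rw [hdiff]; linarith only [hθ₁1, hg0, hgt, hCg, hs1, hY, c3, c1, c4]) z3,
        wide_down hYX (by rw [hdiff, ← hn]; linarith only [hθ₁1, hg0, hgt, hCg, hs1, hY, c5, c6]) (by rw [hdiff]; linarith only [hθ₁1, hg0, hgt, hCg, hs1, hY, c3, c2, c4]) z4⟩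
    have h2 : ((AEJ.Adm R k e D.un X N).card : ℝ) ≤ ((AEJ.Adm R k e D.un X N \ (X \ Y)).card : ℝ) + (X \ Y).card := by
      have := card_le_card_sdiff_add_card (s := AEJ.Adm R k e D.un X N) (t := X \ Y)
      exact_mod_cast this
    have h3 : ((AEJ.Adm R k e D.un X N \ (X \ Y)).card : ℝ) ≤ (((Y.filter (fun z => N z ∧
        Wide R (k / 2) ((dcl D.core + 1) + g * Y.card) Y z ∧
        Wide (fun a b => R b a) (k / 2) ((AEB.blk D.core + 1) + g * Y.card) Y z)).card : ℕ) : ℝ) := by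
      exact_mod_cast card_le_card h1
    refine le_trans ?_ h3
    have c4 : 64 * g * n ≤ be * n := mul_le_mul_of_nonneg_right hgb hn0
    linarith only [hθ₁1, hg0, hgt, hA, hCg, hs1, hY, hdiff, c3, h2, c4]
  obtain ⟨z, hzY, A₀, hA₀, hzA, hNz, hemb⟩ := hn₁ hT Y N (by
    have h1 : ((n₁ : ℕ) : ℝ) ≤ Y.card := by linarith only [hθ₁1, hg0, hgt, hnX', hCg, hs1, hY, hcs, hgn']
    exact_mod_cast h1) D.core (D.core_len.trans hl) (D.core_deg hD) hcore1 hAY
  have hkB : ((insert z A₀).card : ℝ) = D.core.size + 1 := by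
    rw [card_insert_of_notMem hzA, hemb.card]; push_cast; ring
  have hsB : insert z A₀ ⊆ Y := insert_subset hzY hA₀
  have hk1 : (((Y \ insert z A₀).card : ℕ) : ℝ) = Y.card - (D.core.size + 1) := by
    rw [card_sdiff_of_subset hsB, Nat.cast_sub (card_le_card hsB), hkB]
  obtain ⟨A₁, c1, ps, c2, -⟩ := core_ext (β := θ₁ / 8) (by positivity) (hU hT) D hD (T := D.un.size + 1) le_rfl z A₀
    (Y \ insert z A₀) hemb (disjoint_sdiff.mono_left (subset_insert _ _)) (by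
      rw [hk1, ← hu]
      have h1 : θ₁ / 8 * u ≤ θ₁ / 8 * n := mul_le_mul_of_nonneg_left huX (by positivity)
      linarith only [hθ₁1, hg0, hgt, hpsz, huX, hCg, hCβ', hs1, hY, hun, hcs, hgn']) (by (clear * - hθ₁ hCβ; positivity))
  have hd1 : Disjoint (insert z A₀) A₁ := disjoint_sdiff.mono_right c1
  rw [disjoint_insert_left] at hd1
  have hAY : A₀ ∪ A₁ ⊆ Y := union_subset hA₀ (c1.trans sdiff_subset)
  refine ⟨S, z, A₀ ∪ A₁, ps, hSX, hYX hzY, hAY.trans hYX, ?_, ?_, hNz, c2, ?_⟩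
  · rw [mem_union]
    rintro (hm | hm)
    · exact hzA hm
    · exact hd1.1 hm
  · exact hSY.mono_right (insert_subset hzY hAY)
  · intro y hy d
    rw [← hn]
    exact hdeg' y ((insert_subset hzY hAY) hy) d

/-- the pool and the embedding of the core, without a condition on the root -/
theorem core_free (b : ℕ) (hb : 1 ≤ b) {θ₁ g : ℝ} (hθ₁ : 0 < θ₁) (hθ₁1 : θ₁ ≤ 1) (hg0 : 0 < g)
    (hgt : 64 * g ≤ θ₁) : ∃ n₀ : ℕ,
    ∀ {V : Type} {R : V → V → Prop}, AE32.Tour R → ∀ (X : Finset V), n₀ ≤ X.card → ∀ D : Dk,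
      D.un.len ≤ b → D.un.Deg b → θ₁ * (D.un.size + 1) ≤ D.psz → (D.un.size + 1 : ℝ) ≤ X.card →
      ∃ (S : Finset V) (z : V) (A : Finset V) (ps : List (Pd V)), S ⊆ X ∧ z ∈ X ∧ A ⊆ X ∧ z ∉ A ∧
        Disjoint S (insert z A) ∧ EmbD R D z A ps ∧
        ∀ y ∈ insert z A, ∀ d, g ^ 2 / 32 * X.card ≤ ((nb R d S y).card : ℝ) := by
  have hg1 : 64 * g ≤ 1 := hgt.trans hθ₁1
  obtain ⟨np, hnp⟩ := pool (η := g / 2) (by positivity) (by linarith only [hθ₁1, hg0, hgt])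
  obtain ⟨Cβ, hCβ, hU⟩ := AEK.un_one b hb (show (0 : ℝ) < θ₁ / 8 by positivity)
  obtain ⟨n₃, hn₃⟩ := exists_nat_ge (4 * Cβ / θ₁ + 2 / g)
  refine ⟨np + n₃, ?_⟩
  intro V R hT X hnX D hl hD hpsz huX
  obtain ⟨n, hn⟩ : ∃ n : ℝ, n = (X.card : ℝ) := ⟨_, rfl⟩
  obtain ⟨u, hu⟩ : ∃ u : ℝ, u = (D.un.size : ℝ) + 1 := ⟨_, rfl⟩
  have hu1 : 1 ≤ u := by rw [hu]; linarith only [(Nat.cast_nonneg D.un.size : (0 : ℝ) ≤ _)]
  rw [← hu, ← hn] at huX
  rw [← hu] at hpsz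
  have hn0 : 0 ≤ n := by linarith
  have hnX' : ((np + n₃ : ℕ) : ℝ) ≤ n := by rw [hn]; exact_mod_cast hnX
  push_cast at hnX'
  have hnp0 : (0 : ℝ) ≤ np := Nat.cast_nonneg _
  have hn30 : (0 : ℝ) ≤ n₃ := Nat.cast_nonneg _
  have hCg : 2 / g ≤ n := by
    have h1 : 0 ≤ 4 * Cβ / θ₁ := by positivity
    linarith only [hn₃, hnX', h1]
  have hCβ' : 4 * Cβ / θ₁ ≤ n := by
    have h1 : 0 ≤ 2 / g := by positivity
    linarith only [hn₃, hnX', h1]
  rw [div_le_iff₀ hθ₁] at hCβ'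
  rw [div_le_iff₀ hg0] at hCg
  obtain ⟨s, hs⟩ : ∃ s : ℕ, s = ⌊g * n⌋₊ := ⟨_, rfl⟩
  have hs1 : (s : ℝ) ≤ g * n := by rw [hs]; exact Nat.floor_le (by positivity)
  have hs2 : g * n < s + 1 := by rw [hs]; exact Nat.lt_floor_add_one _
  have hgn1 : 64 * (g * n) ≤ n := by
    have := mul_le_mul_of_nonneg_right hg1 hn0
    linarith only [this]
  obtain ⟨S, Y, hSX, hYX, hSY, hSs, hsS, hY, hdeg⟩ := hnp hT X s (by omega) (by rw [← hn]; linarith only [hCg, hs2]) (by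
    have h1 : ((2 * s : ℕ) : ℝ) ≤ X.card := by
      rw [← hn]
      push_cast
      linarith only [hθ₁1, hg0, hgt, hCg, hs1, hgn1]
    exact_mod_cast h1)
  rw [← hn] at hY
  have hdeg' : ∀ y ∈ Y, ∀ d, g ^ 2 / 32 * n ≤ ((nb R d S y).card : ℝ) := by
    intro y hy d
    refine le_trans ?_ (hdeg y hy d)
    have h1 : g * n / 4 ≤ S.card := by linarith only [hCg, hs2, hsS]
    have h2 : g / 2 / 4 * (g * n / 4) ≤ g / 2 / 4 * S.card := mul_le_mul_of_nonneg_left h1 (by positivity)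
    refine le_trans (le_of_eq ?_) h2
    ring
  have hun : u = D.csz + D.psz + 1 := by rw [hu, Dk.size_un]; push_cast; ring
  have hgn' : 64 * (g * n) ≤ θ₁ * n := by
    have := mul_le_mul_of_nonneg_right hgt hn0
    linarith only [this]
  have hcs : (D.csz : ℝ) + 1 ≤ (1 - θ₁) * n := by
    have h1 : (1 - θ₁) * u ≤ (1 - θ₁) * n := mul_le_mul_of_nonneg_left huX (by linarith only [hθ₁1])
    linarith only [hpsz, hun, h1]
  obtain ⟨z, hzY, A, hA, ps, hzA, hemb⟩ := core_emb (β := θ₁ / 8) (by positivity) hCβ (hU hT) D hl hD (Y := Y) (by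
    rw [← hu]
    have h1 : θ₁ / 8 * u ≤ θ₁ / 8 * n := mul_le_mul_of_nonneg_left huX (by positivity)
    linarith only [hθ₁1, hg0, hgt, hpsz, huX, hCg, hCβ', hs1, hY, hun, hgn', hcs])
  refine ⟨S, z, A, ps, hSX, hYX hzY, hA.trans hYX, hzA, hSY.mono_right (insert_subset hzY hA), hemb, ?_⟩
  intro y hy d
  rw [← hn]
  exact hdeg' y ((insert_subset hzY hA) hy) d

/-- all but one of the pieces are absorbed, the remaining branch takes everything which is left -/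
theorem last_piece {θ g k' e' be' C : ℝ} (hθ : 0 < θ) (hθ1 : θ ≤ 1) (hk' : k' ≤ θ / 512) (he' : e' ≤ θ / 64)
    (hbe' : be' ≤ θ / 2) (hg0 : 0 < g) (hgsq : g ^ 2 ≤ 1) (hCg2 : 256 ≤ C * g ^ 2) (hCθ : 64 ≤ C * θ) (hC0 : 0 < C)
    {V : Type} {R : V → V → Prop} (hT : AE32.Tour R) {X : Finset V} {D : Dk} {q : Fd} {m : ℕ}
    (hone : One (g ^ 2 / 4096) m q D) (hm : (m : ℝ) ≤ θ / 2 ^ 16 * (q.size + 1))
    (hq : (q.size + 1 : ℝ) ≤ g ^ 2 / 256 * (D.un.size + 1)) (hbig : C ≤ g ^ 2 / 256 * (D.un.size + 1))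
    (hwin : θ * (q.size + 1) + dcl q + AEB.blk q ≤ q.size + 1) (hco : AEJ.Coarse k' e' be' C q)
    (hX : (D.un.size + 1 : ℝ) + C ≤ X.card) {S : Finset V} {z : V} {A : Finset V} {ps : List (Pd V)} (hSX : S ⊆ X)
    (hzX : z ∈ X) (hAX : A ⊆ X) (hzA : z ∉ A) (hSA : Disjoint S (insert z A)) (hemb : EmbD R D z A ps)
    (hdeg : ∀ y ∈ insert z A, ∀ d, g ^ 2 / 32 * X.card ≤ ((nb R d S y).card : ℝ)) :
    ∃ A' ⊆ X, z ∉ A' ∧ Emb R D.un z A' := by
  obtain ⟨n, hn⟩ : ∃ n : ℝ, n = (X.card : ℝ) := ⟨_, rfl⟩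
  obtain ⟨u, hu⟩ : ∃ u : ℝ, u = (D.un.size : ℝ) + 1 := ⟨_, rfl⟩
  have hu1 : 1 ≤ u := by rw [hu]; linarith only [(Nat.cast_nonneg D.un.size : (0 : ℝ) ≤ _)]
  have hnC : C ≤ n := by
    rw [hn]; rw [← hu] at hX; linarith only [hX, hu]
  have hn0 : 0 ≤ n := hC0.le.trans hnC
  have huX : u ≤ n := by
    rw [← hu, ← hn] at hX; linarith only [hC0, hX]
  obtain ⟨κ₁, hκ₁⟩ : ∃ κ₁ : ℝ, κ₁ = g ^ 2 / 256 := ⟨_, rfl⟩
  have hκ₁0 : 0 < κ₁ := by rw [hκ₁]; positivity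
  rw [← hκ₁, ← hu] at hbig
  rw [← hκ₁] at hq
  rw [← hn] at hdeg
  have hg2n : 256 ≤ g ^ 2 * n := by
    have : C * g ^ 2 ≤ n * g ^ 2 := mul_le_mul_of_nonneg_right hnC (by positivity)
    linarith only [hCg2, this]
  -- the last piece
  obtain ⟨ps1, ps2, w, d, hps, hok⟩ := one_split hone hemb
  have hw : w ∈ insert z A := by
    have h1 := hemb.hosts (Pd.one w d q) (by rw [hps]; simp)
    exact h1 (by simp [Pd.hosts])
  have hsum : D.psz = ((ps1 ++ ps2).map Pd.sz).sum + (q.size + 1) := by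
    rw [← hemb.sum, hps]
    simp only [List.map_append, List.map_cons, List.sum_append, List.sum_cons, Pd.sz]
    omega
  obtain ⟨sg, hsg⟩ : ∃ sg : ℕ, sg = ((ps1 ++ ps2).map Pd.sz).sum := ⟨_, rfl⟩
  rw [← hsg] at hsum
  have hAc := hemb.card
  have hUc : (X \ insert z A).card + (D.csz + 1) = X.card := by
    have h1 : insert z A ⊆ X := insert_subset hzX hAX
    have h2 : (insert z A).card = D.csz + 1 := by rw [card_insert_of_notMem hzA, hAc]
    rw [← h2]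
    exact card_sdiff_add_card_eq_card h1
  have hsize := D.size_un
  -- sizes
  obtain ⟨t₀, ht₀⟩ : ∃ t₀ : ℕ, t₀ = q.size + ⌈1 + C⌉₊ := ⟨_, rfl⟩
  have ht₀1 : (q.size : ℝ) + 1 + C ≤ t₀ := by
    rw [ht₀]; push_cast; linarith only [Nat.le_ceil (1 + C)]
  have ht₀2 : (t₀ : ℝ) ≤ q.size + 1 + C + 1 := by
    rw [ht₀]; push_cast; linarith only [hC0, Nat.ceil_lt_add_one (show 0 ≤ 1 + C by linarith)]
  have hXt : D.un.size + ⌈1 + C⌉₊ ≤ X.card := by
    have h1 : 1 + C ≤ ((X.card - D.un.size : ℕ) : ℝ) := by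
      rw [Nat.cast_sub (by
        have : ((D.un.size : ℕ) : ℝ) ≤ X.card := by rw [← hn]; linarith only [hC0, hX, hn]
        exact_mod_cast this)]
      linarith only [hX]
    have h2 := Nat.ceil_le.2 h1
    have h3 : D.un.size ≤ X.card := by
      have : ((D.un.size : ℕ) : ℝ) ≤ X.card := by rw [← hn]; linarith only [hC0, hX, hn]
      exact_mod_cast this
    omega
  have hq0 : (0 : ℝ) ≤ q.size := Nat.cast_nonneg _
  have hθt : 64 ≤ θ * t₀ := by
    have : θ * C ≤ θ * t₀ := mul_le_mul_of_nonneg_left (by linarith only [ht₀1]) hθ.le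
    linarith only [hCθ, this]
  obtain ⟨r, hr⟩ : ∃ r : ℕ, r = ⌈(1 - θ / 16) * t₀⌉₊ := ⟨_, rfl⟩
  have hr1 : (1 - θ / 16) * t₀ ≤ r := by rw [hr]; exact Nat.le_ceil _
  have hr2 : (r : ℝ) < (1 - θ / 16) * t₀ + 1 := by
    rw [hr]; exact Nat.ceil_lt_add_one (mul_nonneg (by linarith only [hθ1]) (Nat.cast_nonneg _))
  have hrt : r ≤ t₀ := by
    have : (r : ℝ) ≤ t₀ := by linarith only [hθt, hr2]
    exact_mod_cast this
  have htn : (t₀ : ℝ) ≤ g ^ 2 / 64 * n := by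
    rw [← hu] at hq
    have h1 : κ₁ * u ≤ κ₁ * n := mul_le_mul_of_nonneg_left huX hκ₁0.le
    have h2 : κ₁ * n = g ^ 2 * n / 256 := by rw [hκ₁]; ring
    have h3 : g ^ 2 / 64 * n = g ^ 2 * n / 64 := by ring
    rw [h3]
    linarith only [hgsq, hq, hbig, hκ₁, hκ₁0, ht₀2, h1, h2]
  obtain ⟨P, hPS, hPc⟩ := exists_subset_card_eq (s := nb R d S w) (n := r) (by
    have h1 := hdeg w hw d
    have h2 : ((r : ℕ) : ℝ) ≤ ((nb R d S w).card : ℝ) := by
      have h3 : (r : ℝ) ≤ t₀ := by exact_mod_cast hrt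
      have h4 : 0 ≤ g ^ 2 * n := by positivity
      have h5 : g ^ 2 / 64 * n = g ^ 2 * n / 64 := by ring
      have h6 : g ^ 2 / 32 * n = g ^ 2 * n / 32 := by ring
      rw [h5] at htn
      rw [h6] at h1
      linarith only [hg2n, hθt, hr2, htn, h1]
    exact_mod_cast h2)
  have hPS' : P ⊆ S := hPS.trans (filter_subset _ _)
  have hPN : ∀ v ∈ P, Adj R d w v := fun v hv => (mem_filter.1 (hPS hv)).2
  have hPU : P ⊆ X \ insert z A := by
    intro v hv
    rw [mem_sdiff]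
    exact ⟨hSX (hPS' hv), fun hm => disjoint_left.1 hSA (hPS' hv) hm⟩
  have hSU : S ⊆ X \ insert z A := by
    intro v hv
    rw [mem_sdiff]
    exact ⟨hSX hv, fun hm => disjoint_left.1 hSA hv hm⟩
  have hU1c : ((X \ insert z A) \ P).card + r = (X \ insert z A).card := by
    rw [← hPc]
    exact card_sdiff_add_card_eq_card hPU
  -- absorption
  obtain ⟨Q, hQU, hPl⟩ := absorb_list hT (ε := g ^ 2 / 4096) (by positivity) (by linarith only [hgsq]) (m := m) (C := t₀ - r) (by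
      have h1 : ((1024 * m : ℕ) : ℝ) ≤ ((t₀ - r : ℕ) : ℝ) := by
        rw [Nat.cast_sub hrt]
        push_cast
        have h2 : θ / 2 ^ 16 * ((q.size : ℝ) + 1) ≤ θ / 2 ^ 16 * t₀ :=
          mul_le_mul_of_nonneg_left (by linarith only [hC0, ht₀1]) (by positivity)
        have h3 : θ / 2 ^ 16 * (t₀ : ℝ) = θ * t₀ / 2 ^ 16 := by ring
        have h4 : (1 - θ / 16) * (t₀ : ℝ) = t₀ - θ * t₀ / 16 := by ring
        rw [h3] at h2
        rw [h4] at hr2
        norm_num at h2 ⊢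
        norm_num at hm
        linarith only [hgsq, hκ₁, hκ₁0, hθt, hr2, h2, hm]
      exact_mod_cast h1)
    (ps1 ++ ps2) hok (U := (X \ insert z A) \ P) (S := S \ P) (sdiff_subset_sdiff hSU le_rfl) (by
      rw [← hsg]
      omega) (by
      intro p hp w' hw' d'
      rw [← hsg]
      have h1 : w' ∈ insert z A := by
        refine hemb.hosts p ?_ hw'
        rw [hps]
        rw [List.mem_append] at hp ⊢
        rcases hp with hp | hp
        · exact Or.inl hp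
        · exact Or.inr (List.mem_cons_of_mem _ hp)
      have h2 := hdeg w' h1 d'
      have h3 : ((nb R d' S w').card : ℝ) ≤ ((nb R d' (S \ P) w').card : ℝ) + r := by
        have h4 : nb R d' S w' ⊆ nb R d' (S \ P) w' ∪ P := by
          intro v hv
          obtain ⟨hv1, hv2⟩ := mem_filter.1 hv
          rw [mem_union]
          by_cases hvP : v ∈ P
          · exact Or.inr hvP
          · exact Or.inl (mem_filter.2 ⟨mem_sdiff.2 ⟨hv1, hvP⟩, hv2⟩)
        have h5 := (card_le_card h4).trans (card_union_le _ _)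
        rw [hPc] at h5
        exact_mod_cast h5
      have h6 : ((sg : ℕ) : ℝ) ≤ n := by
        have : (sg : ℝ) + (q.size + 1) = D.psz := by exact_mod_cast hsum.symm
        have h7 : (D.psz : ℝ) ≤ D.un.size := by
          have : D.psz ≤ D.un.size := by omega
          exact_mod_cast this
        linarith only [hC0, hX, hn, this, h7]
      have h8 : 64 * (g ^ 2 / 4096) * ((sg : ℕ) : ℝ) ≤ 64 * (g ^ 2 / 4096) * n :=
        mul_le_mul_of_nonneg_left h6 (by positivity)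
      have h9 : (r : ℝ) ≤ t₀ := by exact_mod_cast hrt
      have e1 : 64 * (g ^ 2 / 4096) * n = g ^ 2 * n / 64 := by ring
      have e2 : g ^ 2 / 64 * n = g ^ 2 * n / 64 := by ring
      have e3 : g ^ 2 / 32 * n = g ^ 2 * n / 32 := by ring
      rw [e1] at h8
      rw [e2] at htn
      rw [e3] at h2
      linarith only [hθt, hr2, htn, h2, h3, h8])
  have hQc := pl_card hPl
  rw [← hsg] at hQc
  have hPQ : Disjoint P Q := (disjoint_sdiff.mono_right hQU)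
  have hQU' : Q ⊆ X \ insert z A := hQU.trans sdiff_subset
  have hU2c : ((X \ insert z A) \ Q).card + sg = (X \ insert z A).card := by
    rw [← hQc]
    exact card_sdiff_add_card_eq_card hQU'
  have hPU2 : P ⊆ (X \ insert z A) \ Q := by
    intro v hv
    rw [mem_sdiff]
    exact ⟨hPU hv, fun hm => disjoint_left.1 hPQ hv hm⟩
  obtain ⟨U', hPU', hU'U, hU'c⟩ := exists_subsuperset_card_eq (n := t₀) hPU2 (by rw [hPc]; exact hrt) (by omega)
  have hU'R : (U'.card : ℝ) = t₀ := by rw [hU'c]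
  obtain ⟨y, hyU, B, hBU, hyB, hyN, hyE⟩ := hco hT U' (Adj R d w) (by rw [hU'R]; exact ht₀1)
    (adm_big hT hθ hθ1 q hPU' hPN (by rw [hU'R, hPc]; exact hr1) hwin (by rw [hU'R]; linarith only [hC0, ht₀1])
      (by rw [hU'R]; linarith only [hθt]) hk' he' hbe')
  have hyB' : insert y B ⊆ U' := insert_subset hyU hBU
  have hd1 : Disjoint (insert y B) Q := by
    refine disjoint_left.2 fun v hv hm => ?_
    have := hU'U (hyB' hv)
    rw [mem_sdiff] at this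
    exact this.2 hm
  have hd2 : Disjoint (insert y B ∪ Q) (insert z A) := by
    refine disjoint_left.2 fun v hv hm => ?_
    rw [mem_union] at hv
    rcases hv with hv | hv
    · have := hU'U (hyB' hv)
      rw [mem_sdiff, mem_sdiff] at this
      exact this.1.2 hm
    · have := hQU' hv
      rw [mem_sdiff] at this
      exact this.2 hm
  have hfin := hemb.done hzA (Q := insert y B ∪ Q) (by
    rw [hps]
    exact pl_insert hPl hyN hyB hyE hd1) hd2
  refine ⟨A ∪ (insert y B ∪ Q), ?_, ?_, hfin⟩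
  · refine union_subset hAX (union_subset ?_ (hQU'.trans sdiff_subset))
    exact hyB'.trans (hU'U.trans (sdiff_subset.trans sdiff_subset))
  · rw [mem_union]
    rintro (hm | hm)
    · exact hzA hm
    · exact disjoint_left.1 hd2 hm (mem_insert_self _ _)


/-- **many small pieces**: all but one of the pieces are absorbed, the remaining branch takes everything which is left -/
theorem jump_many (b : ℕ) (hb : 1 ≤ b) {θ k' e' be' : ℝ} (hθ : 0 < θ) (hθ1 : θ ≤ 1) (hk' : k' ≤ θ / 512)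
    (he' : e' ≤ θ / 64) (hbe' : be' ≤ θ / 2) {θ₁ k e be : ℝ} (hθ₁ : 0 < θ₁) (hθ₁1 : θ₁ ≤ 1) (hk : 0 < k) (he : 0 < e)
    (hbe : 0 < be) : ∃ ε μ κ₀ : ℝ, 0 < ε ∧ 0 < μ ∧ 0 < κ₀ ∧ ∃ C0 : ℝ, ∀ C : ℝ, C0 ≤ C → ∀ (D : Dk) (q : Fd) (m : ℕ),
      D.un.len ≤ b → D.un.Deg b → One ε m q D → θ₁ * (D.un.size + 1) ≤ D.psz → (m : ℝ) ≤ μ * (q.size + 1) →
      (q.size + 1 : ℝ) ≤ κ₀ * (D.un.size + 1) → θ * (q.size + 1) + dcl q + AEB.blk q ≤ q.size + 1 →
      AEJ.Coarse k' e' be' C q → AEJ.Coarse k e be C D.un := by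
  obtain ⟨g, hg⟩ : ∃ g : ℝ, g = min (min k e) (min be θ₁) / 64 := ⟨_, rfl⟩
  have hg0 : 0 < g := by rw [hg]; positivity
  have hgk : 64 * g ≤ k := by
    rw [hg]; linarith only [min_le_left k e, min_le_left (min k e) (min be θ₁)]
  have hge : 64 * g ≤ e := by
    rw [hg]; linarith only [min_le_right k e, min_le_left (min k e) (min be θ₁)]
  have hgb : 64 * g ≤ be := by
    rw [hg]; linarith only [min_le_left be θ₁, min_le_right (min k e) (min be θ₁)]
  have hgt : 64 * g ≤ θ₁ := by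
    rw [hg]; linarith only [min_le_right be θ₁, min_le_right (min k e) (min be θ₁)]
  have hg1 : g ≤ 1 := by linarith only [hθ₁1, hg0, hgt]
  have hgsq : g ^ 2 ≤ 1 := by
    have : g ^ 2 ≤ 1 ^ 2 := by gcongr
    simpa using this
  obtain ⟨n₀, hn₀⟩ := core_root b hb hθ₁ hθ₁1 hg0 hgk hge hgb hgt
  obtain ⟨κ₁, hκ₁⟩ : ∃ κ₁ : ℝ, κ₁ = g ^ 2 / 256 := ⟨_, rfl⟩
  have hκ₁0 : 0 < κ₁ := by rw [hκ₁]; positivity
  have hκ₁1 : κ₁ ≤ 1 := by rw [hκ₁]; linarith only [hgsq]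
  obtain ⟨ε₂, hε₂⟩ : ∃ ε₂ : ℝ, ε₂ = min (min e be) (κ₁ / 2) := ⟨_, rfl⟩
  have hε₂0 : 0 < ε₂ := by rw [hε₂]; positivity
  obtain ⟨n₂, hn₂⟩ := AEK.lt1 b hb (κ := k) (ε := ε₂) hk hε₂0
  refine ⟨g ^ 2 / 4096, θ / 2 ^ 16, κ₁, by positivity, by positivity, hκ₁0,
    (n₀ + n₂ : ℕ) + 256 / g ^ 2 + 64 / θ, ?_⟩
  intro C hC D q m hl hD hone hpsz hm hq hwin hco V R hT X N hX hA
  have t1 : (0 : ℝ) ≤ ((n₀ + n₂ : ℕ) : ℝ) := Nat.cast_nonneg _
  have t2 : 0 < 256 / g ^ 2 := by positivity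
  have t3 : 0 < 64 / θ := by positivity
  have hCn : ((n₀ + n₂ : ℕ) : ℝ) ≤ C := by linarith only [hC, t2, t3]
  have hCg2 : 256 / g ^ 2 ≤ C := by linarith only [hC, t3]
  have hCθ : 64 / θ ≤ C := by linarith only [hC, t2]
  have hC0 : 0 < C := by linarith only [hC, t2, t3]
  rw [div_le_iff₀ (by positivity)] at hCg2
  rw [div_le_iff₀ hθ] at hCθ
  obtain ⟨n, hn⟩ : ∃ n : ℝ, n = (X.card : ℝ) := ⟨_, rfl⟩
  obtain ⟨u, hu⟩ : ∃ u : ℝ, u = (D.un.size : ℝ) + 1 := ⟨_, rfl⟩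
  have hu1 : 1 ≤ u := by rw [hu]; linarith only [(Nat.cast_nonneg D.un.size : (0 : ℝ) ≤ _)]
  have hnC : C ≤ n := by
    rw [hn]; rw [← hu] at hX; linarith only [hX, hu]
  have hn0 : 0 ≤ n := hC0.le.trans hnC
  have hnX : ((n₀ + n₂ : ℕ) : ℝ) ≤ X.card := by rw [← hn]; linarith only [hC, hX, t2, t3, hn]
  have hnX' : n₀ + n₂ ≤ X.card := by exact_mod_cast hnX
  have huX : u ≤ n := by
    rw [← hu, ← hn] at hX; linarith only [hC, t2, t3, hX]
  rcases lt_or_ge (κ₁ * u) C with hbig | hbig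
  · -- the set is much larger than the tree
    rw [← hn] at hA
    refine hn₂ hT X N (by omega) D.un hl hD ?_ ?_
    · rw [← hu, ← hn]
      rw [← hu, ← hn] at hX
      have h1 : (1 + κ₁) * u ≤ n := by linarith only [hX, hbig]
      have h2 : ε₂ ≤ κ₁ / 2 := by rw [hε₂]; exact min_le_right _ _
      have h3 : (1 - κ₁ / 2) * n ≤ (1 - ε₂) * n := mul_le_mul_of_nonneg_right (by linarith only [h2]) hn0
      have h4 : (1 - κ₁ / 2) * ((1 + κ₁) * u) ≤ (1 - κ₁ / 2) * n := mul_le_mul_of_nonneg_left h1 (by linarith only [hθ₁1, hg0, hgt, hgsq, hκ₁])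
      have h5 : (1 - κ₁ / 2) * ((1 + κ₁) * u) = u + κ₁ * u * (1 - κ₁) / 2 := by ring
      have h6 : 0 ≤ κ₁ * u * (1 - κ₁) / 2 := by
        have : 0 ≤ 1 - κ₁ := by linarith only [hθ₁1, hg0, hgt, hgsq, hκ₁]
        (clear * - hκ₁0 hu1 hκ₁1; positivity)
      linarith only [h3, h4, h6]
    · have h2 : ε₂ ≤ be := by rw [hε₂]; exact (min_le_left _ _).trans (min_le_right _ _)
      have h3 : ε₂ ≤ e := by rw [hε₂]; exact (min_le_left _ _).trans (min_le_left _ _)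
      rw [← hn]
      refine (mul_le_mul_of_nonneg_right h2 hn0).trans (hA.trans ?_)
      have h5 : ε₂ * n ≤ e * n := mul_le_mul_of_nonneg_right h3 hn0
      have h4 : AEJ.Adm R k e D.un X N ⊆ X.filter (fun z => N z ∧ Wide R k ((dcl D.un + 1) + ε₂ * n) X z ∧
          Wide (fun a b => R b a) k ((AEB.blk D.un + 1) + ε₂ * n) X z) := by
        intro z hz
        obtain ⟨z1, z2, z3, z4⟩ := mem_adm.1 hz
        rw [← hn] at z3 z4
        exact mem_filter.2 ⟨z1, z2, AEK.wide_mono (by linarith only [h5]) z3, AEK.wide_mono (by linarith only [h5]) z4⟩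
      exact_mod_cast card_le_card h4
  obtain ⟨S, z, A, ps, hSX, hzX, hAX, hzA, hSA, hNz, hemb, hdeg⟩ := hn₀ hT X N (by omega) D hl hD hpsz
    (by rw [← hu, ← hn]; exact huX) hA
  obtain ⟨A', hA', hzA', hE⟩ := last_piece hθ hθ1 hk' he' hbe' hg0 hgsq hCg2 hCθ hC0 hT hone hm (by rw [← hκ₁]; exact hq)
    (by rw [← hκ₁, ← hu]; exact hbig) hwin hco hX hSX hzX hAX hzA hSA hemb hdeg
  exact ⟨z, hzX, A', hA', hzA', hNz, hE⟩

/-- **many small pieces**, without a condition on the root -/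
theorem jump_many_top (b : ℕ) (hb : 1 ≤ b) {θ k' e' be' : ℝ} (hθ : 0 < θ) (hθ1 : θ ≤ 1) (hk' : k' ≤ θ / 512)
    (he' : e' ≤ θ / 64) (hbe' : be' ≤ θ / 2) {θ₁ : ℝ} (hθ₁ : 0 < θ₁) (hθ₁1 : θ₁ ≤ 1) :
    ∃ ε μ κ₀ : ℝ, 0 < ε ∧ 0 < μ ∧ 0 < κ₀ ∧ ∃ C0 : ℝ, ∀ C : ℝ, C0 ≤ C → ∀ (D : Dk) (q : Fd) (m : ℕ),
      D.un.len ≤ b → D.un.Deg b → One ε m q D → θ₁ * (D.un.size + 1) ≤ D.psz → (m : ℝ) ≤ μ * (q.size + 1) →
      (q.size + 1 : ℝ) ≤ κ₀ * (D.un.size + 1) → θ * (q.size + 1) + dcl q + AEB.blk q ≤ q.size + 1 →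
      AEJ.Coarse k' e' be' C q → ∀ {V : Type} {R : V → V → Prop}, AE32.Tour R → ∀ X : Finset V,
        (D.un.size + 1 : ℝ) + C ≤ X.card → In R D.un (fun _ => True) X := by
  obtain ⟨g, hg⟩ : ∃ g : ℝ, g = θ₁ / 64 := ⟨_, rfl⟩
  have hg0 : 0 < g := by rw [hg]; positivity
  have hgt : 64 * g ≤ θ₁ := by rw [hg]; linarith
  have hg1 : g ≤ 1 := by linarith only [hθ₁1, hg]
  have hgsq : g ^ 2 ≤ 1 := by
    have : g ^ 2 ≤ 1 ^ 2 := by gcongr
    simpa using this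
  obtain ⟨n₀, hn₀⟩ := core_free b hb hθ₁ hθ₁1 hg0 hgt
  obtain ⟨κ₁, hκ₁⟩ : ∃ κ₁ : ℝ, κ₁ = g ^ 2 / 256 := ⟨_, rfl⟩
  have hκ₁0 : 0 < κ₁ := by rw [hκ₁]; positivity
  obtain ⟨C₂, hC₂, hU₂⟩ := AEK.un_one b hb (β := κ₁ / 2) (by positivity)
  refine ⟨g ^ 2 / 4096, θ / 2 ^ 16, κ₁, by positivity, by positivity, hκ₁0,
    n₀ + 2 * C₂ + 256 / g ^ 2 + 64 / θ, ?_⟩
  intro C hC D q m hl hD hone hpsz hm hq hwin hco V R hT X hX
  have t1 : (0 : ℝ) ≤ (n₀ : ℝ) := Nat.cast_nonneg _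
  have t2 : 0 < 256 / g ^ 2 := by positivity
  have t3 : 0 < 64 / θ := by positivity
  have hCn : (n₀ : ℝ) ≤ C := by linarith only [hC₂, hC, t2, t3]
  have hCg2 : 256 / g ^ 2 ≤ C := by linarith only [hC₂, hC, t3]
  have hCθ : 64 / θ ≤ C := by linarith only [hC₂, hC, t2]
  have hC0 : 0 < C := by linarith only [hC₂, hC, t2, t3]
  rw [div_le_iff₀ (by positivity)] at hCg2
  rw [div_le_iff₀ hθ] at hCθ
  have hun0 : (0 : ℝ) ≤ D.un.size := Nat.cast_nonneg _
  have hnX : (n₀ : ℝ) ≤ X.card := by linarith only [hC₂, hC, hX, t2, t3]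
  rcases lt_or_ge (κ₁ * (D.un.size + 1)) C with hbig | hbig
  · refine hU₂ hT D.un hl hD X ?_
    have h1 : (1 + κ₁ / 2) * ((D.un.size : ℝ) + 1) = (D.un.size + 1) + κ₁ * (D.un.size + 1) / 2 := by ring
    rw [h1]
    linarith only [hC, hX, t2, t3, hbig]
  obtain ⟨S, z, A, ps, hSX, hzX, hAX, hzA, hSA, hemb, hdeg⟩ := hn₀ hT X (by exact_mod_cast hnX) D hl hD hpsz (by linarith only [hC₂, hC, hX, t2, t3])
  obtain ⟨A', hA', hzA', hE⟩ := last_piece hθ hθ1 hk' he' hbe' hg0 hgsq hCg2 hCθ hC0 hT hone hm (by rw [← hκ₁]; exact hq)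
    (by rw [← hκ₁]; exact hbig) hwin hco hX hSX hzX hAX hzA hSA hemb hdeg
  exact ⟨z, hzX, A', hA', hzA', trivial, hE⟩

end AEN
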