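import Pool.Agent.AEN.Plug
import Pool.Agent.AELT.Main0

/-!
# Trees with many good pieces: the path to the special piece, and the window of the root
-/

set_option autoImplicit false

namespace AEN

open Finset AE15 AED AELT AEW LTT
open scoped Classical

variable {ε : ℝ} {m : ℕ}

/-! ### the path to the special piece -/

theorem plug_path (p : Bool × Fd) (M : Cx) : ∃ r ∈ (M.plug p).trees, ∃ j, AESK.PtT 0 r p j := by
  induction M with
  | here s => exact ⟨p, by simp [Cx.plug, Fd.trees], 0, AESK.PtT.refl⟩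
  | dn d t s ih =>
    obtain ⟨r, h1, j, h2⟩ := ih
    have h3 : AESK.PtT 0 (d, t.plug p) r _ := AESK.PtT.step (d, t.plug p) r 0 AESK.PtT.refl h1 (Nat.zero_le _)
    exact ⟨(d, t.plug p), by simp [Cx.plug, Fd.trees], _, h3.trans h2⟩
  | nx d c t ih =>
    obtain ⟨r, h1, j, h2⟩ := ih
    exact ⟨r, by simp only [Cx.plug, Fd.trees]; exact List.mem_cons_of_mem _ h1, j, h2⟩

theorem one_path {q : Fd} (D : Dk) : One ε m q D → ∃ r ∈ D.un.trees, ∃ d j, AESK.PtT 0 r (d, q) j := by
  induction D with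
  | nil => intro h; exact h.elim
  | node d c s ihc ihs =>
    rintro (⟨h1, -⟩ | ⟨-, h2⟩)
    · obtain ⟨r, g1, d', j, g2⟩ := ihc h1
      have h3 : AESK.PtT 0 (d, c.un) r _ := AESK.PtT.step (d, c.un) r 0 AESK.PtT.refl g1 (Nat.zero_le _)
      exact ⟨(d, c.un), by simp [Dk.un, Fd.trees], d', _, h3.trans g2⟩
    · obtain ⟨r, g1, d', j, g2⟩ := ihs h2
      exact ⟨r, by simp only [Dk.un, Fd.trees]; exact List.mem_cons_of_mem _ g1, d', j, g2⟩
  | pc1 d q' s ihs =>
    rintro (⟨rfl, -⟩ | ⟨-, -, h3⟩)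
    · exact ⟨(d, q'), by simp [Dk.un, Fd.trees], d, 0, AESK.PtT.refl⟩
    · obtain ⟨r, g1, d', j, g2⟩ := ihs h3
      exact ⟨r, by simp only [Dk.un, Fd.trees]; exact List.mem_cons_of_mem _ g1, d', j, g2⟩
  | pc2 d M d' c s ihc ihs =>
    rintro ⟨-, -, ⟨h3, -⟩ | ⟨-, h4⟩⟩
    · obtain ⟨r, g1, d'', j, g2⟩ := ihc h3
      have h5 : AESK.PtT 0 (d', c.un) r _ := AESK.PtT.step (d', c.un) r 0 AESK.PtT.refl g1 (Nat.zero_le _)
      obtain ⟨r', f1, j', f2⟩ := plug_path (d', c.un) M
      have h6 : AESK.PtT 0 (d, M.plug (d', c.un)) r' _ :=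
        AESK.PtT.step (d, M.plug (d', c.un)) r' 0 AESK.PtT.refl f1 (Nat.zero_le _)
      exact ⟨(d, M.plug (d', c.un)), by simp [Dk.un, Fd.trees], d'', _, (h6.trans f2).trans (h5.trans g2)⟩
    · obtain ⟨r, g1, d'', j, g2⟩ := ihs h4
      exact ⟨r, by simp only [Dk.un, Fd.trees]; exact List.mem_cons_of_mem _ g1, d'', j, g2⟩

/-- the path to the special piece, from any arc to the root -/
theorem one_ptT {q : Fd} {D : Dk} (h : One ε m q D) (d₀ : Bool) : ∃ d j, AESK.PtT 0 (d₀, D.un) (d, q) j := by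
  obtain ⟨r, g1, d, j, g2⟩ := one_path D h
  have h3 : AESK.PtT 0 (d₀, D.un) r _ := AESK.PtT.step (d₀, D.un) r 0 AESK.PtT.refl g1 (Nat.zero_le _)
  exact ⟨d, _, h3.trans g2⟩

theorem one_lt {q : Fd} {D : Dk} (h : One ε m q D) : q.size < D.un.size := by
  have h1 := one_psz D h
  have h2 := D.size_un
  omega

/-! ### monotonicity -/

theorem good1_mono {ε' : ℝ} (h : ε ≤ ε') {q : Fd} (hq : Good1 ε q) : Good1 ε' q := fun σ =>
  (hq σ).trans (mul_le_mul_of_nonneg_right h (by positivity))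

theorem good2_mono {ε' : ℝ} (h : ε ≤ ε') {M : Cx} (hM : Good2 ε M) : Good2 ε' M := by
  intro σ₁ σ₂
  obtain ⟨U, C, B, h1, h2, h3, h4⟩ := hM σ₁ σ₂
  exact ⟨U, C, B, h1, h2.trans (mul_le_mul_of_nonneg_right h (by positivity)),
    h3.trans (mul_le_mul_of_nonneg_right h (by positivity)), h4⟩

theorem ok_mono {ε' : ℝ} (h : ε ≤ ε') (D : Dk) : D.Ok ε m → D.Ok ε' m := by
  induction D with
  | nil => intro h; exact h
  | node d c s ihc ihs => exact fun h => ⟨ihc h.1, ihs h.2⟩
  | pc1 d q s ihs => exact fun h' => ⟨good1_mono h h'.1, h'.2.1, ihs h'.2.2⟩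
  | pc2 d M d' c s ihc ihs => exact fun h' => ⟨good2_mono h h'.1, h'.2.1, ihc h'.2.2.1, ihs h'.2.2.2⟩

theorem one_mono {ε' : ℝ} (h : ε ≤ ε') {q : Fd} (D : Dk) : One ε m q D → One ε' m q D := by
  induction D with
  | nil => intro h; exact h
  | node d c s ihc ihs =>
    rintro (⟨h1, h2⟩ | ⟨h1, h2⟩)
    · exact Or.inl ⟨ihc h1, ok_mono h _ h2⟩
    · exact Or.inr ⟨ok_mono h _ h1, ihs h2⟩
  | pc1 d q' s ihs =>
    rintro (⟨h1, h2⟩ | ⟨h1, h2, h3⟩)
    · exact Or.inl ⟨h1, ok_mono h _ h2⟩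
    · exact Or.inr ⟨good1_mono h h1, h2, ihs h3⟩
  | pc2 d M d' c s ihc ihs =>
    rintro ⟨h1, h2, ⟨h3, h4⟩ | ⟨h3, h4⟩⟩
    · exact ⟨good2_mono h h1, h2, Or.inl ⟨ihc h3, ok_mono h _ h4⟩⟩
    · exact ⟨good2_mono h h1, h2, Or.inr ⟨ok_mono h _ h3, ihs h4⟩⟩

/-! ### the window of the root -/

theorem clo_size (σ : Bool) (F : Fd) : (clo (!σ) F).size = rch σ F := by
  induction F with
  | nil => rfl
  | node d c s ihc ihs =>
    simp only [clo, rch]
    cases d <;> cases σ <;> simp_all [Fd.size] <;> omega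

theorem rch_plug_le (σ : Bool) (X : Fd) (U : Cx) : rch σ (U.plug (!σ, X)) ≤ (U.clo (!σ)).un.size := by
  induction U with
  | here s =>
    simp only [Cx.plug, Cx.clo, Cx.un, rch, clo_size]
    cases σ <;> simp
  | dn d t s ih =>
    simp only [Cx.plug, Cx.clo, Cx.un, rch, Fd.size, clo_size]
    split_ifs <;> omega
  | nx d c t ih =>
    simp only [Cx.plug, Cx.clo, rch]
    by_cases hd : d = !σ
    · subst hd
      simp only [if_true]
      cases σ <;> simpa using ih
    · have hd' : d = σ := by cases d <;> cases σ <;> simp_all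
      subst hd'
      rw [if_neg hd]
      simp only [if_true, Cx.un, Fd.size, clo_size]
      omega

theorem rch_good1 {q : Fd} (h : Good1 ε q) (σ : Bool) : (rch σ q : ℝ) + 1 ≤ ε * (q.size + 1) := by
  have h1 := h (!σ)
  rw [clo_size] at h1
  exact h1

theorem rch_good2 {M : Cx} (h : Good2 ε M) (σ : Bool) (p : Bool × Fd) :
    (rch σ (M.plug p) : ℝ) + 1 ≤ ε * (M.un.size + 1) := by
  obtain ⟨U, C, B, h1, h2, -⟩ := h (!σ) true
  have h3 : rch σ (M.plug p) ≤ (U.clo (!σ)).un.size := by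
    rw [h1, Cx.plug_cmp]
    exact rch_plug_le σ _ U
  have h4 : (rch σ (M.plug p) : ℝ) ≤ (U.clo (!σ)).un.size := by exact_mod_cast h3
  linarith only [h2, h4]

theorem rch_le (σ : Bool) (F : Fd) : rch σ F ≤ F.size := by
  induction F with
  | nil => exact le_refl 0
  | node d c s ihc ihs =>
    simp only [rch, Fd.size]
    split_ifs <;> omega

theorem joint_node (d : Bool) (c s : Fd) : rch true (.node d c s) + rch false (.node d c s) =
    rch d c + 1 + (rch true s + rch false s) := by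
  cases d <;> simp [rch] <;> omega

theorem joint_le (F : Fd) : rch true F + rch false F ≤ F.size := by
  induction F with
  | nil => exact le_refl 0
  | node d c s _ ihs =>
    rw [joint_node]
    have := rch_le d c
    simp only [Fd.size]
    omega

/-- the good pieces are not joined to the root -/
theorem ok_window (hε0 : 0 ≤ ε) (hε1 : ε ≤ 1) (D : Dk) : D.Ok ε m →
    (∀ σ, (rch σ D.un : ℝ) + (1 - ε) * D.psz ≤ D.un.size) ∧
      (rch true D.un + rch false D.un : ℝ) + (1 - ε) * D.psz ≤ D.un.size := by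
  induction D with
  | nil => intro _; simp [Dk.un, Dk.psz, rch, Fd.size]
  | node d c s ihc ihs =>
    intro h
    obtain ⟨c1, c2⟩ := ihc h.1
    obtain ⟨s1, s2⟩ := ihs h.2
    have hj := joint_node d c.un s.un
    have hj' : (rch true (.node d c.un s.un) + rch false (.node d c.un s.un) : ℝ) =
      rch d c.un + 1 + (rch true s.un + rch false s.un) := by exact_mod_cast hj
    have hc0 : (0 : ℝ) ≤ rch true c.un := Nat.cast_nonneg _
    refine ⟨fun σ => ?_, ?_⟩
    · have e1 := c1 σ
      have e2 := s1 σ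
      simp only [Dk.un, Dk.psz, rch, Fd.size]
      split_ifs <;> push_cast <;> linarith [(Nat.cast_nonneg (rch σ c.un) : (0 : ℝ) ≤ _)]
    · have e1 := c1 d
      simp only [Dk.un, Dk.psz, Fd.size]
      push_cast
      linarith only [s2, hj', e1]
  | pc1 d q s ihs =>
    intro h
    obtain ⟨s1, s2⟩ := ihs h.2.2
    have hj := joint_node d q s.un
    have hj' : (rch true (.node d q s.un) + rch false (.node d q s.un) : ℝ) =
      rch d q + 1 + (rch true s.un + rch false s.un) := by exact_mod_cast hj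
    refine ⟨fun σ => ?_, ?_⟩
    · have e1 := rch_good1 h.1 σ
      have e2 := s1 σ
      simp only [Dk.un, Dk.psz, rch, Fd.size]
      split_ifs <;> push_cast <;> linarith only [e1, e2, (Nat.cast_nonneg (rch σ q) : (0 : ℝ) ≤ _)]
    · have e1 := rch_good1 h.1 d
      simp only [Dk.un, Dk.psz, Fd.size]
      push_cast
      linarith
  | pc2 d M d' c s ihc ihs =>
    intro h
    obtain ⟨s1, s2⟩ := ihs h.2.2.2
    have hsz := M.size_plug (d', c.un)
    have hsz' : ((M.plug (d', c.un)).size : ℝ) = M.un.size + (c.un.size + 1) := by exact_mod_cast hsz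
    have hcp : (c.psz : ℝ) ≤ c.un.size := by
      have := c.size_un
      exact_mod_cast (by omega : c.psz ≤ c.un.size)
    have hcp0 : (0 : ℝ) ≤ c.psz := Nat.cast_nonneg _
    have hcc : (1 - ε) * (c.psz : ℝ) ≤ c.un.size := by nlinarith only [hcp, hε0]
    have hj := joint_node d (M.plug (d', c.un)) s.un
    have hj' : (rch true (.node d (M.plug (d', c.un)) s.un) + rch false (.node d (M.plug (d', c.un)) s.un) : ℝ) =
      rch d (M.plug (d', c.un)) + 1 + (rch true s.un + rch false s.un) := by exact_mod_cast hj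
    refine ⟨fun σ => ?_, ?_⟩
    · have e1 := rch_good2 h.1 σ (d', c.un)
      have e2 := s1 σ
      simp only [Dk.un, Dk.psz, rch, Fd.size]
      split_ifs <;> push_cast <;> rw [hsz'] <;> linarith only [hcc, e1, e2, (Nat.cast_nonneg (rch σ (M.plug (d', c.un))) : (0 : ℝ) ≤ _)]
    · have e1 := rch_good2 h.1 d (d', c.un)
      simp only [Dk.un, Dk.psz, Fd.size]
      push_cast
      rw [hsz']
      linarith only [s2, hcc, hj', e1]

/-- the good pieces are not joined to the root -/
theorem one_window_aux (hε0 : 0 ≤ ε) (hε1 : ε ≤ 1) {q₀ : Fd} (D : Dk) : One ε m q₀ D →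
    (∀ σ, (rch σ D.un : ℝ) + (1 - ε) * (D.psz - (q₀.size + 1)) ≤ D.un.size) ∧
      (rch true D.un + rch false D.un : ℝ) + (1 - ε) * (D.psz - (q₀.size + 1)) ≤ D.un.size := by
  induction D with
  | nil => intro h; exact h.elim
  | node d c s ihc ihs =>
    have hj := joint_node d c.un s.un
    have hj' : (rch true (.node d c.un s.un) + rch false (.node d c.un s.un) : ℝ) =
      rch d c.un + 1 + (rch true s.un + rch false s.un) := by exact_mod_cast hj
    rintro (⟨h1, h2⟩ | ⟨h1, h2⟩)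
    · obtain ⟨c1, c2⟩ := ihc h1
      obtain ⟨s1, s2⟩ := ok_window hε0 hε1 s h2
      refine ⟨fun σ => ?_, ?_⟩
      · have e1 := c1 σ
        have e2 := s1 σ
        simp only [Dk.un, Dk.psz, rch, Fd.size]
        split_ifs <;> push_cast <;> linarith [(Nat.cast_nonneg (rch σ c.un) : (0 : ℝ) ≤ _)]
      · have e1 := c1 d
        simp only [Dk.un, Dk.psz, Fd.size]
        push_cast
        linarith
    · obtain ⟨c1, c2⟩ := ok_window hε0 hε1 c h1
      obtain ⟨s1, s2⟩ := ihs h2
      refine ⟨fun σ => ?_, ?_⟩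
      · have e1 := c1 σ
        have e2 := s1 σ
        simp only [Dk.un, Dk.psz, rch, Fd.size]
        split_ifs <;> push_cast <;> linarith [(Nat.cast_nonneg (rch σ c.un) : (0 : ℝ) ≤ _)]
      · have e1 := c1 d
        simp only [Dk.un, Dk.psz, Fd.size]
        push_cast
        linarith only [hj', s2, e1]
  | pc1 d q s ihs =>
    have hj := joint_node d q s.un
    have hj' : (rch true (.node d q s.un) + rch false (.node d q s.un) : ℝ) =
      rch d q + 1 + (rch true s.un + rch false s.un) := by exact_mod_cast hj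
    rintro (⟨rfl, h2⟩ | ⟨h1, -, h3⟩)
    · obtain ⟨s1, s2⟩ := ok_window hε0 hε1 s h2
      refine ⟨fun σ => ?_, ?_⟩
      · have e1 : (rch σ q : ℝ) ≤ q.size := by exact_mod_cast rch_le σ q
        have e2 := s1 σ
        simp only [Dk.un, Dk.psz, rch, Fd.size]
        split_ifs <;> push_cast <;> linarith [(Nat.cast_nonneg q.size : (0 : ℝ) ≤ _)]
      · have e1 : (rch d q : ℝ) ≤ q.size := by exact_mod_cast rch_le d q
        simp only [Dk.un, Dk.psz, Fd.size]
        push_cast
        linarith only [hj', s2, e1]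
    · obtain ⟨s1, s2⟩ := ihs h3
      refine ⟨fun σ => ?_, ?_⟩
      · have e1 := rch_good1 h1 σ
        have e2 := s1 σ
        simp only [Dk.un, Dk.psz, rch, Fd.size]
        split_ifs <;> push_cast <;> linarith only [e1, e2, (Nat.cast_nonneg (rch σ q) : (0 : ℝ) ≤ _)]
      · have e1 := rch_good1 h1 d
        simp only [Dk.un, Dk.psz, Fd.size]
        push_cast
        linarith only [hj', s2, e1]
  | pc2 d M d' c s ihc ihs =>
    have hsz := M.size_plug (d', c.un)
    have hsz' : ((M.plug (d', c.un)).size : ℝ) = M.un.size + (c.un.size + 1) := by exact_mod_cast hsz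
    have hcp : (c.psz : ℝ) ≤ c.un.size := by
      have := c.size_un
      exact_mod_cast (by omega : c.psz ≤ c.un.size)
    have hcp0 : (0 : ℝ) ≤ c.psz := Nat.cast_nonneg _
    have hcc : (1 - ε) * (c.psz : ℝ) ≤ c.un.size := by nlinarith only [hcp, hε0]
    have hj := joint_node d (M.plug (d', c.un)) s.un
    have hj' : (rch true (.node d (M.plug (d', c.un)) s.un) + rch false (.node d (M.plug (d', c.un)) s.un) : ℝ) =
      rch d (M.plug (d', c.un)) + 1 + (rch true s.un + rch false s.un) := by exact_mod_cast hj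
    rintro ⟨g1, -, ⟨h1, h2⟩ | ⟨h1, h2⟩⟩
    · obtain ⟨s1, s2⟩ := ok_window hε0 hε1 s h2
      have hq0 : (0 : ℝ) ≤ (1 - ε) * (q₀.size + 1) := by
        have : (0 : ℝ) ≤ 1 - ε := by linarith
        (clear * - hε1; positivity)
      refine ⟨fun σ => ?_, ?_⟩
      · have e1 := rch_good2 g1 σ (d', c.un)
        have e2 := s1 σ
        simp only [Dk.un, Dk.psz, rch, Fd.size]
        split_ifs <;> push_cast <;> rw [hsz'] <;> linarith only [hcc, hq0, e1, e2, (Nat.cast_nonneg (rch σ (M.plug (d', c.un))) : (0 : ℝ) ≤ _)]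
      · have e1 := rch_good2 g1 d (d', c.un)
        simp only [Dk.un, Dk.psz, Fd.size]
        push_cast
        rw [hsz']
        linarith only [hcc, hj', s2, hq0, e1]
    · obtain ⟨s1, s2⟩ := ihs h2
      refine ⟨fun σ => ?_, ?_⟩
      · have e1 := rch_good2 g1 σ (d', c.un)
        have e2 := s1 σ
        simp only [Dk.un, Dk.psz, rch, Fd.size]
        split_ifs <;> push_cast <;> rw [hsz'] <;> linarith only [hcc, e1, e2, (Nat.cast_nonneg (rch σ (M.plug (d', c.un))) : (0 : ℝ) ≤ _)]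
      · have e1 := rch_good2 g1 d (d', c.un)
        simp only [Dk.un, Dk.psz, Fd.size]
        push_cast
        rw [hsz']
        linarith only [hcc, hj', s2, e1]

/-- the window of the root of a tree with many good pieces -/
theorem one_window (hε0 : 0 ≤ ε) (hε1 : ε ≤ 1) {q : Fd} {D : Dk} (h : One ε m q D) :
    (dcl D.un : ℝ) + AEB.blk D.un + (1 - ε) * (D.psz - (q.size + 1)) ≤ D.un.size := by
  rw [dcl_eq_rch, blk_eq_rch]
  exact (one_window_aux hε0 hε1 D h).2

end AEN
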