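import Pool.Agent.AEN.Many
import Pool.Agent.AEW.Decomp
import Pool.Agent.AESK.Turns

/-!
# Decompositions of a tree from decompositions of its branches
-/

set_option autoImplicit false

namespace AEN

open Finset AE15 AED AELT AEW
open scoped Classical

variable {ε : ℝ} {m k : ℕ}

theorem ofF_ok (F : Fd) : (ofF F).Ok ε m := by
  induction F with
  | nil => trivial
  | node d c s ihc ihs => exact ⟨ihc, ihs⟩

theorem ofF_psz (F : Fd) : (ofF F).psz = 0 := by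
  induction F with
  | nil => rfl
  | node d c s ihc ihs => simp only [ofF, Dk.psz, ihc, ihs]

/-- a decomposition of a child is extended to the tree -/
theorem in_trees {r : Bool × Fd} (F : Fd) : r ∈ F.trees → ∀ D : Dk, D.un = r.2 → ∃ D' : Dk, D'.un = F ∧
    (∀ q, One ε m q D → One ε m q D') ∧ D'.psz = D.psz := by
  induction F with
  | nil => intro h; simp [Fd.trees] at h
  | node d c s _ ihs =>
    intro h D hD
    rw [Fd.trees, List.mem_cons] at h
    rcases h with rfl | h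
    · exact ⟨.node d D (ofF s), by simp only [Dk.un, ofF_un, hD], fun q hq => Or.inl ⟨hq, ofF_ok s⟩,
        by simp only [Dk.psz, ofF_psz, add_zero]⟩
    · obtain ⟨D', h1, h2, h3⟩ := ihs h D hD
      exact ⟨.node d (ofF c) D', by simp only [Dk.un, ofF_un, h1], fun q hq => Or.inr ⟨ofF_ok c, h2 q hq⟩,
        by simp only [Dk.psz, ofF_psz, h3, zero_add]⟩

/-- a child is the only piece -/
theorem one_trees {r : Bool × Fd} (F : Fd) : r ∈ F.trees → ∃ D' : Dk, D'.un = F ∧ One ε m r.2 D' ∧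
    D'.psz = r.2.size + 1 := by
  induction F with
  | nil => intro h; simp [Fd.trees] at h
  | node d c s _ ihs =>
    intro h
    rw [Fd.trees, List.mem_cons] at h
    rcases h with rfl | h
    · exact ⟨.pc1 d c (ofF s), by simp only [Dk.un, ofF_un], Or.inl ⟨rfl, ofF_ok s⟩,
        by simp only [Dk.psz, ofF_psz, zero_add]⟩
    · obtain ⟨D', h1, h2, h3⟩ := ihs h
      exact ⟨.node d (ofF c) D', by simp only [Dk.un, ofF_un, h1], Or.inr ⟨ofF_ok c, h2⟩,
        by simp only [Dk.psz, ofF_psz, h3, zero_add]⟩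

/-- a decomposition of a branch is extended to the tree -/
theorem plug {p q : Bool × Fd} {j : ℕ} (h : AESK.PtT k p q j) : ∀ D : Dk, D.un = q.2 → ∃ D' : Dk, D'.un = p.2 ∧
    (∀ a, One ε m a D → One ε m a D') ∧ D'.psz = D.psz := by
  induction h with
  | refl => intro D hD; exact ⟨D, hD, fun _ h => h, rfl⟩
  | step q r j _ hr _ ih =>
    intro D hD
    obtain ⟨D1, h1, h2, h3⟩ := in_trees q.2 hr D hD
    obtain ⟨D2, h4, h5, h6⟩ := ih D1 h1
    exact ⟨D2, h4, fun a ha => h5 a (h2 a ha), h6.trans h3⟩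

/-- a branch is the only piece -/
theorem one_pt {p q : Bool × Fd} {j : ℕ} (h : AESK.PtT k p q j) (hlt : q.2.size < p.2.size) : ∃ D' : Dk, D'.un = p.2 ∧
    One ε m q.2 D' ∧ D'.psz = q.2.size + 1 := by
  cases h with
  | refl => exact absurd hlt (lt_irrefl _)
  | step q' _ j h hr _ =>
    obtain ⟨D1, h1, h2, h3⟩ := one_trees (ε := ε) (m := m) q'.2 hr
    obtain ⟨D2, h4, h5, h6⟩ := plug (ε := ε) (m := m) h D1 h1
    exact ⟨D2, h4, h5 _ h2, h6.trans h3⟩

/-- the exceptional piece is decomposed -/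
theorem replace {q a : Fd} {Dq : Dk} (hq : Dq.un = q) (hone : One ε m a Dq) (D : Dk) : One ε m q D → ∃ D' : Dk,
    D'.un = D.un ∧ One ε m a D' ∧ D'.psz + (q.size + 1) = D.psz + Dq.psz := by
  induction D with
  | nil => intro h; exact h.elim
  | node d c s ihc ihs =>
    rintro (⟨h1, h2⟩ | ⟨h1, h2⟩)
    · obtain ⟨D', h3, h4, h5⟩ := ihc h1
      exact ⟨.node d D' s, by simp only [Dk.un, h3], Or.inl ⟨h4, h2⟩, by simp only [Dk.psz]; omega⟩
    · obtain ⟨D', h3, h4, h5⟩ := ihs h2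
      exact ⟨.node d c D', by simp only [Dk.un, h3], Or.inr ⟨h1, h4⟩, by simp only [Dk.psz]; omega⟩
  | pc1 d q' s ihs =>
    rintro (⟨h1, h2⟩ | ⟨h1, h2, h3⟩)
    · exact ⟨.node d Dq s, by simp only [Dk.un, hq, h1], Or.inl ⟨hone, h2⟩, by simp only [Dk.psz, h1]; omega⟩
    · obtain ⟨D', h4, h5, h6⟩ := ihs h3
      exact ⟨.pc1 d q' D', by simp only [Dk.un, h4], Or.inr ⟨h1, h2, h5⟩, by simp only [Dk.psz]; omega⟩
  | pc2 d M d' c s ihc ihs =>
    rintro ⟨h1, h2, ⟨h3, h4⟩ | ⟨h3, h4⟩⟩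
    · obtain ⟨D', h5, h6, h7⟩ := ihc h3
      exact ⟨.pc2 d M d' D' s, by simp only [Dk.un, h5], ⟨h1, h2, Or.inl ⟨h6, h4⟩⟩, by simp only [Dk.psz]; omega⟩
    · obtain ⟨D', h5, h6, h7⟩ := ihs h4
      exact ⟨.pc2 d M d' c D', by simp only [Dk.un, h5], ⟨h1, h2, Or.inr ⟨h3, h6⟩⟩, by simp only [Dk.psz]; omega⟩

/-- the same with a branch of the exceptional piece -/
theorem replace_pt {q : Fd} {a : Bool × Fd} {d : Bool} {j : ℕ} (h : AESK.PtT k (d, q) a j) (hlt : a.2.size < q.size)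
    (D : Dk) (hD : One ε m q D) : ∃ D' : Dk, D'.un = D.un ∧ One ε m a.2 D' ∧
      D'.psz + (q.size + 1) = D.psz + (a.2.size + 1) := by
  obtain ⟨Dq, h1, h2, h3⟩ := one_pt (ε := ε) (m := m) h hlt
  obtain ⟨D', h4, h5, h6⟩ := replace h1 h2 D hD
  exact ⟨D', h4, h5, by rw [h3] at h6; exact h6⟩

theorem one_psz {q : Fd} (D : Dk) : One ε m q D → q.size + 1 ≤ D.psz := by
  induction D with
  | nil => intro h; exact h.elim
  | node d c s ihc ihs =>
    rintro (⟨h1, -⟩ | ⟨-, h2⟩)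
    · have := ihc h1; simp only [Dk.psz]; omega
    · have := ihs h2; simp only [Dk.psz]; omega
  | pc1 d q' s ihs =>
    rintro (⟨rfl, -⟩ | ⟨-, -, h3⟩)
    · simp only [Dk.psz]; omega
    · have := ihs h3; simp only [Dk.psz]; omega
  | pc2 d M d' c s ihc ihs =>
    rintro ⟨-, -, ⟨h3, -⟩ | ⟨-, h4⟩⟩
    · have := ihc h3; simp only [Dk.psz]; omega
    · have := ihs h4; simp only [Dk.psz]; omega

/-- **many small pieces**, with a branch of the exceptional piece -/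
theorem jump_many' (b : ℕ) (hb : 1 ≤ b) {θ k' e' be' : ℝ} (hθ : 0 < θ) (hθ1 : θ ≤ 1) (hk' : k' ≤ θ / 512)
    (he' : e' ≤ θ / 64) (hbe' : be' ≤ θ / 2) {θ₁ k e be : ℝ} (hθ₁ : 0 < θ₁) (hθ₁1 : θ₁ ≤ 1) (hk : 0 < k) (he : 0 < e)
    (hbe : 0 < be) : ∃ ε μ κ₀ : ℝ, 0 < ε ∧ 0 < μ ∧ 0 < κ₀ ∧ ∃ C0 : ℝ, ∀ C : ℝ, C0 ≤ C → ∀ (D : Dk) (q : Fd) (m : ℕ),
      D.un.len ≤ b → D.un.Deg b → One ε m q D → θ₁ * (D.un.size + 1) + (q.size + 1) ≤ D.psz →
      ∀ (d : Bool) (a : Bool × Fd) (j : ℕ), AESK.PtT 0 (d, q) a j → (m : ℝ) ≤ μ * (a.2.size + 1) →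
      (a.2.size + 1 : ℝ) ≤ κ₀ * (D.un.size + 1) → θ * (a.2.size + 1) + dcl a.2 + AEB.blk a.2 ≤ a.2.size + 1 →
      AEJ.Coarse k' e' be' C a.2 → AEJ.Coarse k e be C D.un := by
  obtain ⟨ε, μ, κ₀, h1, h2, h3, C0, h⟩ := jump_many b hb hθ hθ1 hk' he' hbe' hθ₁ hθ₁1 hk he hbe
  refine ⟨ε, μ, κ₀, h1, h2, h3, C0, ?_⟩
  intro C hC D q m hl hD hone hpsz d a j hP hm ha hwin hco V R hT X N hX hA
  have hq0 : (0 : ℝ) ≤ q.size := Nat.cast_nonneg _
  have ha0 : (0 : ℝ) ≤ a.2.size := Nat.cast_nonneg _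
  rcases lt_or_ge a.2.size q.size with hlt | hlt
  · obtain ⟨D', h4, h5, h6⟩ := replace_pt hP hlt D hone
    rw [← h4] at hX hA ⊢
    refine h C hC D' a.2 m (by rw [h4]; exact hl) (by rw [h4]; exact hD) h5 ?_ hm (by rw [h4]; exact ha) hwin hco hT X N
      hX hA
    rw [h4]
    have h7 : (D'.psz : ℝ) + (q.size + 1) = D.psz + (a.2.size + 1) := by exact_mod_cast h6
    linarith
  · have heq : a.2 = q := by
      cases hP with
      | refl => rfl
      | step q' _ j' h' hr _ =>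
        exfalso
        have h8 := (AESK.sz_lt_of_mem hr).trans_le h'.sz_le
        unfold AESK.sz at h8
        simp only at h8
        omega
    rw [heq] at hm ha hwin hco
    exact h C hC D q m hl hD hone (by linarith) hm ha hwin hco hT X N hX hA

end AEN
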