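import Pool.Agent.AEN.AltDefs

/-!
# Lines from poor classes
-/

set_option autoImplicit false

namespace AEN

open Finset AE15 AED AEB AEG AET AELT AEF AEY
open scoped Classical

theorem kb_mono {D D' : ℕ} {ω c η η₁ κ₀ κ₁ κ γ₀ τ s σ₂ μ₂ ω' c' η' η₁' κ₀' κ₁' κ' γ₀' τ' s' σ₂' μ₂' : ℝ}
    (P : KB D ω c η η₁ κ₀ κ₁ κ γ₀ τ s σ₂ μ₂) (P' : KB D' ω' c' η' η₁' κ₀' κ₁' κ' γ₀' τ' s' σ₂' μ₂') (h : D ≤ D') :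
    κ' ≤ κ ∧ η' ≤ η := by
  obtain ⟨hω0, hω1, hc0, hc1, hη0, hη1, hη₁0, hη₁1, hκ₀0, hκ₁0, hκ₁1, hκ0, hκ1, hs0, hγ₀0, hτ0, hσ₂0, -, hκ₁η, hκs⟩ :=
    P.num
  obtain ⟨gω0, gω1, gc0, gc1, gη0, gη1, gη₁0, gη₁1, gκ₀0, gκ₁0, gκ₁1, gκ0, gκ1, gs0, gγ₀0, gτ0, gσ₂0, -, gκ₁η, gκs⟩ :=
    P'.num
  obtain ⟨hD, hω, hc, hη, hη₁, hκ₀, hκ₁, hκ, hγ₀, hτ, hs, hσ₂, hμ₂⟩ := P
  obtain ⟨hD', hω', hc', hη', hη₁', hκ₀', hκ₁', hκ', hγ₀', hτ', hs', hσ₂', hμ₂'⟩ := P'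
  have hD0 : (0 : ℝ) < D := by exact_mod_cast (by omega : 0 < D)
  have hDD : (D : ℝ) ≤ D' := by exact_mod_cast h
  have a1 : ω' ≤ ω := by
    rw [hω, hω']
    exact one_div_le_one_div_of_le (by positivity) (by linarith)
  have a2 : c' ≤ c := by rw [hc, hc']; linarith
  have a3 : η' ≤ η := by rw [hη, hη']; linarith
  have a4 : η₁' ≤ η₁ := by
    rw [hη₁, hη₁']
    have := mul_le_mul a2 a3 gη0.le hc0.le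
    linarith
  have a5 : κ₀' ≤ κ₀ := by rw [hκ₀, hκ₀']; linarith
  have a6 : κ₁' ≤ κ₁ := by
    rw [hκ₁, hκ₁']
    have := pow_le_pow_left₀ gκ₀0.le a5 2
    linarith
  have a7 : κ' ≤ κ := by
    rw [hκ, hκ']
    have := mul_le_mul a2 a6 gκ₁0.le hc0.le
    linarith
  exact ⟨a7, a3⟩

/-- **lines from poor classes** -/
theorem ee_poor (p : NP) (hp : p.OK) (hab : ab p.b p.l ≤ p.a) (hB2 : (2 * p.b) ^ p.A0 ≤ p.B) {D₀ : ℕ} (hD₀ : p.A ≤ D₀)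
    {ω c η η₁ κ₀ κ₁ κ γ₀ τ s σ₂ μ₂ : ℝ} (P : KB D₀ ω c η η₁ κ₀ κ₁ κ γ₀ τ s σ₂ μ₂) {D' : ℕ} (hD' : D₀ ≤ D')
    {ω' c' η' η₁' κ₀' κ₁' κ' γ₀' τ' s' σ₂' μ₂' : ℝ} (P' : KB D' ω' c' η' η₁' κ₀' κ₁' κ' γ₀' τ' s' σ₂' μ₂') :
    ∃ K₁ : ℕ, ∀ K : ℕ, K₁ ≤ K → ∃ n₀ : ℕ,
    ∀ {W₀ : Fd → Prop} {V : Type} {R : V → V → Prop}, AE32.Tour R → ∀ C : ℝ, (n₀ : ℝ) ≤ C → ∀ F : Fd,
      FX p.b p.l K (fun c => W₀ c ∧ p.A * (c.size + 1) < F.size + 1) 0 F →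
      (∀ F' : Fd, FX p.b p.l K W₀ 0 F' → F'.size < F.size → EE R κ η s p 1 C F') → EE R κ' η' s' p 1 C F := by
  obtain ⟨hω0, hω1, hc0, hc1, hη0, hη1, hη₁0, hη₁1, hκ₀0, hκ₁0, hκ₁1, hκ0, hκ1, hs0, hγ₀0, hτ0, hσ₂0, -, hκ₁η, hκs⟩ :=
    P.num
  obtain ⟨gω0, gω1, gc0, gc1, gη0, gη1, gη₁0, gη₁1, gκ₀0, gκ₁0, gκ₁1, gκ0, gκ1, gs0, gγ₀0, gτ0, gσ₂0, -, gκ₁η, gκs⟩ :=
    P'.num
  obtain ⟨m1, m2⟩ := kb_mono P P' hD'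
  have hcη : c * η ≤ 1 * η := mul_le_mul_of_nonneg_right (by linarith) hη0.le
  obtain ⟨γ, ε₀, μ₀, m₁, hγ, hε₀, hμ₀, hL⟩ := itX_one p.b hp.hb (κ := κ') (η := η) gκ0 (by linarith) hη0 (by linarith)
  obtain ⟨K₁, h⟩ := stepP p hp hab hB2 hD₀ P (κp := κ') (sp := s') gκ0 m1 gs0 hγ hε₀ hμ₀ hL
  refine ⟨K₁, fun K hK => ?_⟩
  obtain ⟨n₀, h⟩ := h K hK
  refine ⟨n₀, ?_⟩
  intro W₀ V R hT C hC F hF ih X N hn hcl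
  have hn0 : (0 : ℝ) ≤ n₀ := Nat.cast_nonneg _
  refine h hT C (hn0.trans hC) F hF ih X N hn ?_ (cl_mono (fun v hv => good_mono hv le_rfl m2) le_rfl hcl)
  have h1 : (0 : ℝ) ≤ F.size := Nat.cast_nonneg _
  have h4 : (n₀ : ℝ) ≤ X.card := by linarith
  exact_mod_cast h4

end AEN
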