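import Pool.Agent.AEN.Poor

/-!
# Rigid branches which are lines with exits: the hypotheses of the theorem on rigid ends, and the coarse state
-/

set_option autoImplicit false

namespace AEN

open Finset AE15 AED AELT AEK AEJ AEB AEG AEF AET AEW AEY
open scoped Classical

/-- the hypotheses on the rigid branch (children forest `F` of its root) -/
structure RigHW (m₀ : ℕ) (γB : ℝ) (p : NP) (κ η s C : ℝ) (F : Fd) : Prop where
  ee : ∀ {V : Type} {R : V → V → Prop}, AE32.Tour R → EE R κ η s p 1 C F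
  ee1 : ∀ c, F.hv = some (true, c) → ∀ {V : Type} {R : V → V → Prop}, AE32.Tour R → EE R κ η s p 1 C c
  ee2 : ∀ c c', F.hv = some (true, c) → c.hv = some (true, c') → ∀ {V : Type} {R : V → V → Prop}, AE32.Tour R →
    EE R κ η s p 1 C c'
  ee3 : ∀ c c' c'', F.hv = some (true, c) → c.hv = some (true, c') → c'.hv = some (true, c'') →
    ∀ {V : Type} {R : V → V → Prop}, AE32.Tour R → EE R κ η s p 1 C c''
  b0 : blk F ≤ m₀
  b1 : ∀ c, F.hv = some (true, c) → blk c ≤ m₀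
  b2 : ∀ c, NN F → F.hv = some (true, c) → ∀ D, (true, D) ∈ c.trees → blk D ≤ m₀
  w : ∃ W : Fd → Prop, (∀ D, W D → (blk D + 1 : ℝ) ≤ γB * (F.size + 1)) ∧ OutB W F ∧
    ∀ c, NN F → F.hv = some (true, c) → OutB W c ∧ ∀ D, (true, D) ∈ c.trees → OutB W D

/-- the theorem on rigid ends -/
def RigSt (b m₀ : ℕ) : Prop :=
  ∃ g : ℕ → ℕ, ∀ {θ κ ε β : ℝ}, 0 < θ → 0 < κ → 0 < ε → 0 < β → ∀ p : NP, p.OK → g p.c0 ≤ p.u0 → ∃ D₁ : ℕ,
    ∀ D : ℕ, D₁ ≤ D → ∀ {ω c η η₁ κ₀ κ₁ κ' γ₀ τ s' σ₂ μ : ℝ}, KB D ω c η η₁ κ₀ κ₁ κ' γ₀ τ s' σ₂ μ →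
      ∃ γB C₀ : ℝ, 0 < γB ∧ ∀ C : ℝ, C₀ ≤ C → ∀ (c : Fd) (d0 : Bool) (F : Fd) (m : ℕ), c.len ≤ b → c.Deg b →
        AESK.PtT 0 (d0, c) (false, F) m → F.size < c.size → θ * (c.size + 1) ≤ (F.size + 1 : ℝ) →
          RigHW m₀ γB p κ' η s' C F → Coarse κ ε β C c

/-- one step down the main line, away from the root -/
theorem fx_down {b l K A e : ℕ} (hb : 1 ≤ b) (hA : 1 ≤ A) {W : Fd → Prop} {F c : Fd}
    (h : FX b l K (fun c => W c ∧ A * (2 * b) ^ (e + 1) * (c.size + 1) < F.size + 1) 0 F) (hF : F.hv = some (true, c)) :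
    FX b l K (fun c' => W c' ∧ A * (2 * b) ^ e * (c'.size + 1) < c.size + 1) 0 c := by
  have h1 : F.size ≤ b * (c.size + 1) := (hv_size hF h.1).1
  have h2 : F.size + 1 ≤ 2 * b * (c.size + 1) := by nlinarith
  have h3 : 1 ≤ (2 * b) ^ e := Nat.one_le_pow _ _ (by omega)
  have h4 : 1 ≤ A * (2 * b) ^ e := Nat.one_le_iff_ne_zero.2 (by positivity)
  rcases h.heavy hF with h5 | ⟨-, -, h5, -⟩
  · refine h5.monoQ fun c' hc' => ⟨hc'.1, ?_⟩
    have h6 : A * (2 * b) ^ (e + 1) * (c'.size + 1) = 2 * b * (A * (2 * b) ^ e * (c'.size + 1)) := by ring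
    have h7 := hc'.2
    rw [h6] at h7
    exact lt_of_mul_lt_mul_left (h7.trans_le h2) (Nat.zero_le _)
  · exfalso
    have h6 : A * (2 * b) ^ (e + 1) * (c.size + 1) = A * (2 * b) ^ e * (2 * b * (c.size + 1)) := by ring
    have h7 := h5.2
    rw [h6] at h7
    have h8 : 1 * (2 * b * (c.size + 1)) ≤ A * (2 * b) ^ e * (2 * b * (c.size + 1)) := Nat.mul_le_mul_right _ h4
    omega

/-- **the hypotheses of the theorem on rigid ends hold** for lines with small exits -/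
theorem rig_hw (p : NP) (hp : p.OK) (hab : ab p.b p.l ≤ p.a) (hB2 : (2 * p.b) ^ p.A0 ≤ p.B) {D₀ : ℕ} (hD₀ : p.A ≤ D₀)
    {ω c η η₁ κ₀ κ₁ κ γ₀ τ s σ₂ μ₂ : ℝ} (P : KB D₀ ω c η η₁ κ₀ κ₁ κ γ₀ τ s σ₂ μ₂) {D' : ℕ} (hD' : D₀ ≤ D')
    {ω' c' η' η₁' κ₀' κ₁' κ' γ₀' τ' s' σ₂' μ₂' : ℝ} (P' : KB D' ω' c' η' η₁' κ₀' κ₁' κ' γ₀' τ' s' σ₂' μ₂') {γB : ℝ}
    (hγB : 0 < γB) : ∃ K₁ : ℕ, ∀ K : ℕ, K₁ ≤ K → ∃ n₀ : ℕ, ∀ {W : Fd → Prop} (C : ℝ), (n₀ : ℝ) ≤ C → ∀ F : Fd,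
      FX p.b p.l K (fun c => W c ∧ p.A * (2 * p.b) ^ 3 * (c.size + 1) < F.size + 1) 0 F → TameR p.b p.l K F →
      K * p.a ≤ F.size + 1 →
      (∀ F' : Fd, FX p.b p.l K W 0 F' → F'.size < F.size → ∀ {V : Type} {R : V → V → Prop}, AE32.Tour R →
        EE R κ η s p 1 C F') → RigHW (ab p.b p.l) γB p κ' η' s' C F := by
  obtain ⟨K₁, h⟩ := ee_poor p hp hab hB2 hD₀ P hD' P'
  refine ⟨max K₁ (⌈1 / γB⌉₊ + 1), ?_⟩
  intro K hK
  obtain ⟨n₀, h⟩ := h K ((le_max_left _ _).trans hK)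
  have hKγ : 1 ≤ γB * K := by
    have h1 : ⌈1 / γB⌉₊ + 1 ≤ K := (le_max_right _ _).trans hK
    have h2 : 1 / γB ≤ (⌈1 / γB⌉₊ : ℝ) := Nat.le_ceil _
    have h3 : ((⌈1 / γB⌉₊ : ℕ) : ℝ) + 1 ≤ K := by exact_mod_cast h1
    have h4 : 1 / γB ≤ K := by linarith
    rw [div_le_iff₀ hγB] at h4
    linarith
  refine ⟨n₀, ?_⟩
  intro W C hC F hF hTm hKF ih
  have hA1 : 1 ≤ p.A := Nat.one_le_pow _ _ (by have := hp.hb; omega)
  have hb := hp.hb
  have h2b : 1 ≤ 2 * p.b := by omega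
  -- the forests of the line
  have down : ∀ {A e : ℕ}, 1 ≤ A → ∀ {G : Fd}, FX p.b p.l K (fun c => W c ∧ A * (2 * p.b) ^ e * (c.size + 1) < G.size + 1) 0 G →
      FX p.b p.l K (fun c => W c ∧ A * (c.size + 1) < G.size + 1) 0 G := by
    intro A e hA G hG
    refine hG.monoQ fun c hc => ⟨hc.1, lt_of_le_of_lt ?_ hc.2⟩
    have h1 : 1 ≤ (2 * p.b) ^ e := Nat.one_le_pow _ _ h2b
    have h2 : A * 1 ≤ A * (2 * p.b) ^ e := Nat.mul_le_mul_left _ h1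
    rw [mul_one] at h2
    exact Nat.mul_le_mul_right _ h2
  have f1 : ∀ c, F.hv = some (true, c) →
      FX p.b p.l K (fun c' => W c' ∧ p.A * (2 * p.b) ^ 2 * (c'.size + 1) < c.size + 1) 0 c ∧ c.size < F.size :=
    fun c hc => ⟨fx_down hb hA1 hF hc, (hv_size hc hF.1).2⟩
  have f2 : ∀ c c', F.hv = some (true, c) → c.hv = some (true, c') →
      FX p.b p.l K (fun c'' => W c'' ∧ p.A * (2 * p.b) ^ 1 * (c''.size + 1) < c'.size + 1) 0 c' ∧ c'.size < F.size :=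
    fun c c' hc hc' => ⟨fx_down hb hA1 (f1 c hc).1 hc', (hv_size hc' (f1 c hc).1.1).2.trans (f1 c hc).2⟩
  have f3 : ∀ c c' c'', F.hv = some (true, c) → c.hv = some (true, c') → c'.hv = some (true, c'') →
      FX p.b p.l K (fun x => W x ∧ p.A * (2 * p.b) ^ 0 * (x.size + 1) < c''.size + 1) 0 c'' ∧ c''.size < F.size :=
    fun c c' c'' hc hc' hc'' => ⟨fx_down hb hA1 (f2 c c' hc hc').1 hc'',
      (hv_size hc'' (f2 c c' hc hc').1.1).2.trans (f2 c c' hc hc').2⟩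
  have hEE : ∀ {e : ℕ} {G : Fd}, FX p.b p.l K (fun c => W c ∧ p.A * (2 * p.b) ^ e * (c.size + 1) < G.size + 1) 0 G →
      G.size ≤ F.size → ∀ {V : Type} {R : V → V → Prop}, AE32.Tour R → EE R κ' η' s' p 1 C G := by
    intro e G hG hGF V R hT
    exact h hT C hC G (down hA1 hG) fun F' hF' hlt => ih F' hF' (lt_of_lt_of_le hlt hGF) hT
  have hbk : ∀ {Q : Fd → Prop} {G : Fd}, FX p.b p.l K Q 0 G → blk G ≤ ab p.b p.l := fun hG => by
    have := hG.blk_lt_a (Nat.zero_le _) (le_refl (ab p.b p.l))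
    omega
  have hS : ∀ G : Fd, G.size ≤ F.size → FX p.b p.l K (fun _ => True) 0 G → OutB (Qi K p.b (F.size + 1)) G :=
    fun G hG hFX => hFX.outB (Nat.zero_le _) hab hKF (by omega)
  have hWT : ∀ {Q : Fd → Prop} {G : Fd}, FX p.b p.l K Q 0 G → FX p.b p.l K (fun _ => True) 0 G :=
    fun hG => hG.monoQ fun _ _ => trivial
  refine ⟨fun hT => hEE hF le_rfl hT, fun c hc {V R} hT => hEE (f1 c hc).1 (f1 c hc).2.le hT,
    fun c c' hc hc' {V R} hT => hEE (f2 c c' hc hc').1 (f2 c c' hc hc').2.le hT,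
    fun c c' c'' hc hc' hc'' {V R} hT => hEE (f3 c c' c'' hc hc' hc'').1 (f3 c c' c'' hc hc' hc'').2.le hT,
    hbk hF, fun c hc => hbk (f1 c hc).1, ?_, ?_⟩
  · rintro c ⟨c₁, c', h1, h2⟩ hc D hD
    rw [hc] at h1
    simp only [Option.some.injEq, Prod.mk.injEq, true_and] at h1
    subst h1
    rcases hTm c c' hc h2 D hD with rfl | h3
    · exact hbk (f2 c D hc h2).1
    · have := h3.blk_lt_a (Nat.zero_le _) (le_refl (ab p.b p.l))
      omega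
  · refine ⟨Qi K p.b (F.size + 1), ?_, hS F le_rfl (hWT hF), ?_⟩
    · intro D hD
      have h1 : ((K * (blk D + 1) : ℕ) : ℝ) ≤ ((F.size + 1 : ℕ) : ℝ) := by exact_mod_cast hD.1
      push_cast at h1
      have h2 : γB * (K * ((blk D : ℝ) + 1)) ≤ γB * (F.size + 1) := mul_le_mul_of_nonneg_left h1 hγB.le
      have h3 : 1 * ((blk D : ℝ) + 1) ≤ γB * K * (blk D + 1) := mul_le_mul_of_nonneg_right hKγ (by positivity)
      linarith
    · rintro c ⟨c₁, c', h1, h2⟩ hc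
      rw [hc] at h1
      simp only [Option.some.injEq, Prod.mk.injEq, true_and] at h1
      subst h1
      refine ⟨hS c (f1 c hc).2.le (hWT (f1 c hc).1), fun D hD => ?_⟩
      rcases hTm c c' hc h2 D hD with rfl | h3
      · exact hS D (f2 c D hc h2).2.le (hWT (f2 c D hc h2).1)
      · refine h3.outB (Nat.zero_le _) hab hKF ?_
        have h4 := size_lt_of_mem hD
        have h5 := (f1 c hc).2
        simp only at h4
        omega

end AEN
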