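import Pool.Agent.AEN.MainN
import Pool.Agent.AER.RigI

/-!
# Pure rigid branches: arborescences which hang against their direction
-/

set_option autoImplicit false

namespace AEN

open Finset AE15 AED AELT AEK AEJ AEW AEY
open scoped Classical

/-- an out-arborescence whose root is joined to its parent by an arc towards the parent, or the mirror image -/
def RgPure (b : ℕ) (p : Bool × Fd) (s : ℕ) : Prop :=
  (p.1 = false ∧ AEB.FOK b 0 0 p.2 ∧ s = p.2.size) ∨ (p.1 = true ∧ AEB.FOK b 0 0 (mrr p.2) ∧ s = p.2.size)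

theorem mem_mrr_trees {d : Bool} {t c : Fd} (h : (d, t) ∈ c.trees) : (!d, mrr t) ∈ (mrr c).trees := by
  induction c with
  | nil => simp [Fd.trees] at h
  | node d' c s _ ihs =>
    simp only [Fd.trees, List.mem_cons, Prod.mk.injEq] at h
    simp only [mrr, Fd.trees, List.mem_cons, Prod.mk.injEq]
    rcases h with ⟨rfl, rfl⟩ | h
    · exact Or.inl ⟨rfl, rfl⟩
    · exact Or.inr (ihs h)

theorem rigPure_to (b : ℕ) (hb : 1 ≤ b) : RigTo b (RgPure b) := by
  intro k e be th hk he hbe hth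
  obtain ⟨C₀, h⟩ := AER.rigI b hb hth hk he hbe
  refine ⟨C₀, ?_⟩
  rintro C hC c ⟨d, F⟩ s hl hD hp hRg hs V R
  rcases hRg with ⟨h1, h2, h3⟩ | ⟨h1, h2, h3⟩
  · simp only at h1 h2 h3
    subst h1 h3
    exact h C hC c F hl hD hp h2 hs
  · simp only at h1 h2 h3
    subst h1 h3
    have h4 : AEJ.Coarse k e be C (mrr c) := h C hC (mrr c) (mrr F) (by rw [mrr_len]; exact hl) (mrr_deg hD)
      (mem_mrr_trees hp) h2 (by rw [mrr_size, mrr_size]; exact hs)
    exact (@coarse_mrr k e be C c).1 h4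

theorem blk_fok0 {b : ℕ} (F : Fd) (h : AEB.FOK b 0 0 F) : AEB.blk F = 0 := by
  obtain ⟨-, -, h⟩ := h
  induction F with
  | nil => rfl
  | node d c s _ ihs =>
    cases d with
    | true =>
      simp only [AEB.blk, if_true, Nat.zero_add]
      exact ihs h.2
    | false =>
      exfalso
      have := h.1
      simp only [Bool.false_eq_true, if_false] at this
      omega

theorem rigPure_window (b : ℕ) : RigW (RgPure b) := by
  rintro ⟨d, F⟩ s h
  rcases h with ⟨h1, h2, h3⟩ | ⟨h1, h2, h3⟩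
  · simp only at h1 h2 h3
    subst h1 h3
    simp only [Bool.false_eq_true, if_false]
    rw [blk_fok0 F h2]
    omega
  · simp only at h1 h2 h3
    subst h1 h3
    simp only [if_true]
    have h4 := blk_fok0 _ h2
    rw [blk_mrr] at h4
    omega

/-- **chains of branches which end with a small branch, with many good pieces, or with a rigid branch** -/
theorem scales_pure (b : ℕ) (hb : 1 ≤ b) {θ : ℝ} (hθ : 0 < θ) (hθ1 : θ ≤ 1) :
    ∃ ε₀ μ₀ : ℝ, 0 < ε₀ ∧ 0 < μ₀ ∧ ∀ M : ℕ, ∃ C : ℕ,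
      ∀ {V : Type} {R : V → V → Prop}, AE32.Tour R → ∀ {ε μ : ℝ}, ε ≤ ε₀ → μ ≤ μ₀ → ∀ c : Fd, c.len ≤ b → c.Deg b →
        BlN θ ε μ M (RgPure (b + 2)) (EndP θ ε M) c → ∀ X : Finset V, c.size + 1 + C ≤ X.card →
          In R c (fun _ => True) X :=
  scales_full b hb hθ hθ1 (rigPure_to (b + 2) (by omega)) (rigPure_window (b + 2))

/-- **main lines with exits into such trees** -/
theorem main_pure (b l : ℕ) (hb : 1 ≤ b) {θ : ℝ} (hθ : 0 < θ) (hθ1 : θ ≤ 1) :
    ∃ (ε₀ μ₀ : ℝ) (K K' : ℕ), 0 < ε₀ ∧ 0 < μ₀ ∧ ∀ M : ℕ, ∃ C : ℕ,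
      ∀ {V : Type} {R : V → V → Prop}, AE32.Tour R → ∀ {ε μ : ℝ}, ε ≤ ε₀ → μ ≤ μ₀ → ∀ F : Fd,
        FX b l K (Ex θ ε μ M K' (RgPure b)) 0 F → ∀ X : Finset V, F.size + 1 + C ≤ X.card →
          In R F (fun _ => True) X :=
  main_fxN b l hb hθ hθ1 (rigPure_to b hb) (rigPure_window b)

end AEN
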