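import Pool.Agent.AEN.RigC
import Pool.Agent.AEN.RigPure
import Pool.Agent.AET.TopL

/-!
# Trees with a branch of comparable size which has a rigid branch at its root are coarse
-/

set_option autoImplicit false

namespace AEN

open Finset AE15 AED AELT AEK AEJ AEB AEG AEF AET AEW AEY
open scoped Classical

theorem wide_monoK {V : Type*} {R : V → V → Prop} {κ κ' a : ℝ} (hk : κ ≤ κ') {X : Finset V} {z : V}
    (h : Wide R κ' a X z) : Wide R κ a X z := fun Q hQ h1 h2 => h Q hQ h1 (Closed.mono h2 hk)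

theorem coarse_mono {k e be k' e' be' C : ℝ} {c : Fd} (hk : k ≤ k') (he : e ≤ e') (hbe : be ≤ be')
    (h : Coarse k e be C c) : Coarse k' e' be' C c := by
  intro V R hT X N hX hA
  have hX0 : (0 : ℝ) ≤ X.card := Nat.cast_nonneg _
  refine h hT X N hX (le_trans (mul_le_mul_of_nonneg_right hbe hX0) (hA.trans ?_))
  have h1 : Adm R k' e' c X N ⊆ Adm R k e c X N := by
    intro z hz
    rw [Adm, mem_filter] at hz ⊢
    have h2 : e * (X.card : ℝ) ≤ e' * X.card := mul_le_mul_of_nonneg_right he hX0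
    refine ⟨hz.1, hz.2.1, ?_, ?_⟩
    · exact wide_monoK hk (AEK.wide_mono (by linarith) hz.2.2.1)
    · exact wide_monoK hk (AEK.wide_mono (by linarith) hz.2.2.2)
  exact_mod_cast card_le_card h1

theorem ptT_mrr {d0 : Bool} {c : Fd} {a : Bool × Fd} {m : ℕ} (h : AESK.PtT 0 (d0, c) a m) :
    AESK.PtT 0 (!d0, mrr c) (!a.1, mrr a.2) m := by
  induction h with
  | refl => exact AESK.PtT.refl
  | step q r m h1 h2 h3 ih =>
    obtain ⟨dq, q⟩ := q
    obtain ⟨dr, r⟩ := r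
    have h4 := AESK.PtT.step (!dq, mrr q) (!dr, mrr r) m ih (mem_mrr_trees h2) (Nat.zero_le _)
    have h5 : (if (!dr) = (!dq) then 0 else 1) = (if dr = dq then 0 else 1) := by
      cases dr <;> cases dq <;> rfl
    simp only at h4
    rw [h5] at h4
    exact h4

/-- **rigid branches** -/
theorem rig_coarse (b l : ℕ) (hb : 1 ≤ b) (hR : RigSt b (ab b l)) : ∃ A' : ℕ, ∀ θ : ℝ, 0 < θ → θ ≤ 1 →
    ∃ ke ee be : ℝ, 0 < ke ∧ 0 < ee ∧ 0 < be ∧ ∀ {th k e bt : ℝ}, 0 < th → 0 < k → 0 < e → 0 < bt →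
      ∃ K₁ : ℕ, ∀ K : ℕ, K₁ ≤ K → ∃ C₀ : ℝ, ∀ {W : Fd → Prop}, ∀ C : ℝ, C₀ ≤ C →
        (∀ c : Fd, W c → (dcl c : ℝ) + blk c ≤ (1 - θ) * (c.size + 1 + C)) →
          (∀ c : Fd, c.len ≤ b → c.Deg b → W c → Coarse ke ee be C c) →
            ∀ (c : Fd) (d0 : Bool), c.len ≤ b → c.Deg b → RigIn θ th (RgS b l K A' W) d0 c → Coarse k e bt C c := by
  obtain ⟨g, hg⟩ := hR
  obtain ⟨p₀, hp₀, hpb₀, hpl₀, hab₀, hB₀⟩ := exists_npL b l hb
  obtain ⟨p, hp, q1, q2, q3, q4, q5, q6, q7, q8, q9⟩ := exists_np2L p₀ hp₀ (g p₀.c0)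
  have hpb : p.b = b := q1.trans hpb₀
  have hpl : p.l = l := q2.trans hpl₀
  have hab : ab p.b p.l ≤ p.a := by rw [hpb, hpl, q3]; exact hab₀
  have hB2 : (2 * p.b) ^ p.A0 ≤ p.B := by rw [q1, q8, q9]; exact hB₀
  have hpg : g p.c0 ≤ p.u0 := by rw [q5]; exact q7
  subst hpb hpl
  refine ⟨p.A * (2 * p.b) ^ 3, ?_⟩
  intro θ hθ hθ1
  have hA1 : 1 ≤ p.A := Nat.one_le_pow _ _ (by omega)
  have hc1 : 1 ≤ ⌈1 / θ⌉₊ := Nat.one_le_ceil_iff.2 (by positivity)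
  obtain ⟨D₀, hD₀⟩ : ∃ D₀ : ℕ, D₀ = p.A * ⌈1 / θ⌉₊ := ⟨_, rfl⟩
  have hDA : p.A ≤ D₀ := by rw [hD₀]; exact Nat.le_mul_of_pos_right _ hc1
  have hD64 : 64 ≤ D₀ := hp.D₀.trans hDA
  obtain ⟨ω, c, η, η₁, κ₀, κ₁, κ, γ₀, τ, s, σ₂, μ, P⟩ := exists_KB hD64
  obtain ⟨hω0, hω1, hc0, hc1', hη0, hη1, hη₁0, hη₁1, hκ₀0, hκ₁0, hκ₁1, hκ0, hκ1, hs0, hγ₀0, hτ0, hσ₂0, -, hκ₁η, hκs⟩ :=
    P.num
  have hcη : c * η ≤ 1 * η := mul_le_mul_of_nonneg_right (by linarith) hη0.le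
  obtain ⟨γ, ε₀, μ₀, m₁, hγ, hε₀, hμ₀, hL⟩ := itX_one p.b hb (κ := κ) (η := η) hκ0 (by linarith) hη0 (by linarith)
  have hηθ : 16 * η * p.A ≤ θ := by
    have hD0 : (0 : ℝ) < D₀ := by exact_mod_cast (by omega : 0 < D₀)
    have h1 : (p.A : ℝ) ≤ θ * D₀ := by
      have h2 : 1 / θ ≤ ⌈1 / θ⌉₊ := Nat.le_ceil _
      rw [div_le_iff₀ hθ] at h2
      rw [hD₀]
      push_cast
      have h3 : (p.A : ℝ) * 1 ≤ p.A * (⌈1 / θ⌉₊ * θ) := mul_le_mul_of_nonneg_left h2 (Nat.cast_nonneg _)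
      linarith
    have h2 : η = 1 / (112 * D₀) := by
      rw [P.hη, P.hω]
      field_simp
      norm_num
    rw [h2]
    have h3 : 16 * (1 / (112 * (D₀ : ℝ))) * p.A = p.A / (7 * D₀) := by
      field_simp
      norm_num
    rw [h3, div_le_iff₀ (by positivity)]
    have h4 : 0 ≤ θ * D₀ := by positivity
    linarith
  obtain ⟨ke, ee, be, K₁, h1, h2, h3, hu⟩ := ee_allY' p hp hab hB2 hDA P hγ hε₀ hμ₀ hL hθ hθ1 hηθ
  refine ⟨ke, ee, be, h1, h2, h3, ?_⟩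
  intro th k e bt hth hk he hbt
  have hθth : 0 < θ * th := by positivity
  obtain ⟨D₁, hD₁⟩ := hg hθth hk he hbt p hp hpg
  obtain ⟨D', hD'⟩ : ∃ D' : ℕ, D' = max D₀ D₁ := ⟨_, rfl⟩
  have hD'0 : D₀ ≤ D' := by rw [hD']; exact le_max_left _ _
  have hD'1 : D₁ ≤ D' := by rw [hD']; exact le_max_right _ _
  obtain ⟨ω', c', η', η₁', κ₀', κ₁', κ', γ₀', τ', s', σ₂', μ', P'⟩ := exists_KB (hD64.trans hD'0)
  obtain ⟨γB, C₁, hγB, hrig⟩ := hD₁ D' hD'1 P'
  obtain ⟨K₂, hhw⟩ := rig_hw p hp hab hB2 hDA P hD'0 P' hγB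
  refine ⟨max K₁ K₂, ?_⟩
  intro K hK
  obtain ⟨n₁, hu⟩ := hu K ((le_max_left _ _).trans hK)
  obtain ⟨n₂, hhw⟩ := hhw K ((le_max_right _ _).trans hK)
  obtain ⟨C₂, hC₂⟩ := coarse_small hb (M := K * p.a / (θ * th)) hbt
  refine ⟨max (max C₁ C₂) (max n₁ n₂), ?_⟩
  intro W C hC hwin hco
  have hC1 : C₁ ≤ C := (le_max_left _ _).trans ((le_max_left _ _).trans hC)
  have hC2 : C₂ ≤ C := (le_max_right _ _).trans ((le_max_left _ _).trans hC)
  have hn1 : (n₁ : ℝ) ≤ C := (le_max_left _ _).trans ((le_max_right _ _).trans hC)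
  have hn2 : (n₂ : ℝ) ≤ C := (le_max_right _ _).trans ((le_max_right _ _).trans hC)
  -- one direction
  have main : ∀ {W' : Fd → Prop}, (∀ c : Fd, W' c → (dcl c : ℝ) + blk c ≤ (1 - θ) * (c.size + 1 + C)) →
      (∀ c : Fd, c.len ≤ p.b → c.Deg p.b → W' c → Coarse ke ee be C c) →
      ∀ (c : Fd) (d0 : Bool) (F : Fd) (m : ℕ), c.len ≤ p.b → c.Deg p.b → AESK.PtT 0 (d0, c) (false, F) m →
        F.size < c.size → θ * th * (c.size + 1) ≤ (F.size + 1 : ℝ) →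
        FX p.b p.l K (fun c => W' c ∧ p.A * (2 * p.b) ^ 3 * (c.size + 1) < F.size + 1) 0 F → TameR p.b p.l K F →
          Coarse k e bt C c := by
    intro W' hwin' hco' c d0 F m hl hD hP hlt hsz hF hTm
    by_cases hsm : K * p.a ≤ F.size + 1
    · refine hrig C hC1 c d0 F m hl hD hP hlt hsz (hhw C hn2 F hF hTm hsm ?_)
      intro F' hF' _ V R hT
      exact hu hT C hn1 hwin' F'.size (fun c _ hcl hcD hcW => hco' c hcl hcD hcW) F' le_rfl hF'
    · refine hC₂ C hC2 k e c hl hD ?_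
      push Not at hsm
      rw [le_div_iff₀ hθth]
      have g1 : ((F.size + 1 : ℕ) : ℝ) < ((K * p.a : ℕ) : ℝ) := by exact_mod_cast hsm
      push_cast at g1
      linarith
  rintro c d0 hl hD ⟨a', m', f1, f2, ⟨dF, F⟩, w, f3, f4, f5⟩
  have hP := AESK.PtT.step a' (dF, F) m' f1 f3 (Nat.zero_le _)
  have g1 := f1.sz_le
  unfold AESK.sz at g1
  have g2 := size_lt_of_mem f3
  simp only at g1 g2
  have hlt : F.size < c.size := by omega
  have hsz : w ≤ F.size → θ * th * ((c.size : ℝ) + 1) ≤ F.size + 1 := by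
    intro hw
    have g3 : (w : ℝ) ≤ F.size := by exact_mod_cast hw
    have g4 : θ * (th * ((c.size : ℝ) + 1)) ≤ θ * (a'.2.size + 1) := mul_le_mul_of_nonneg_left f2.le hθ.le
    linarith
  rcases f4 with ⟨e1, e2, e3, e4⟩ | ⟨e1, e2, e3, e4⟩
  · simp only at e1 e2 e3 e4
    subst e1
    intro V R
    exact main hwin hco c d0 F _ hl hD hP hlt (hsz (by omega)) e2 e3
  · simp only at e1 e2 e3 e4
    subst e1
    have hP' := ptT_mrr hP
    simp only [Bool.not_true] at hP'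
    have key : Coarse k e bt C (mrr c) := by
      intro V R
      refine main (W' := fun c => W (mrr c)) ?_ ?_ (mrr c) (!d0) (mrr F) _ (by rw [mrr_len]; exact hl)
        (mrr_deg hD) hP' (by rw [mrr_size, mrr_size]; exact hlt)
        (by rw [mrr_size, mrr_size]; exact hsz (by omega)) (by rw [mrr_size]; exact e2) e3
      · intro c hc
        have g3 := hwin _ hc
        rw [mrr_size, dcl_mrr, blk_mrr] at g3
        linarith
      · intro c hcl hcD hc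
        have g4 : Coarse ke ee be C (mrr c) := hco (mrr c) (by rw [mrr_len]; exact hcl) (mrr_deg hcD) hc
        intro V R
        exact (@coarse_mrr ke ee be C c).1 g4
    intro V R
    exact (@coarse_mrr k e bt C c).1 key

end AEN
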