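import Pool.Agent.AEY.StmtY

/-!
# Alternation of lines, balanced branches and many small pieces: the statement

The tree `G` (underlying `E`) is rooted at `r`; `Br G r v`: the branch at `v`; `Ic E G r w`: the vertices from which a
directed path towards the root leads to `w`; `Nc E G r v`: the vertices of the branch at `v` which are not joined to `v`
by directed paths; `h u`: the main child of `u`.
-/

set_option autoImplicit false

namespace AEN

open Relation AEY

variable {τ : Type*}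

/-- The path `p a, …, p t` follows the main children; the arc between `p a` and its parent `p (a - 1)` is directed towards
the parent; the branch at `p t` is small, or the path leaves by an arc directed away from the root into a branch which has
bounded size or many vertices not joined to its root; long runs towards `r` inside the branch at `p a` start in the branch at `p t` or behind a
light arc (which does not start at `p (a + 1)`, if `a > 0`). -/
def LineG (l K L M : ℕ) (E : τ → τ → Prop) (G : SimpleGraph τ) (r : τ) (h : τ → τ) (p : ℕ → τ) (a t : ℕ) : Prop :=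
  a ≤ t ∧ (∀ i, a ≤ i → i < t → p (i + 1) = h (p i)) ∧ (a = 0 ∨ E (p a) (p (a - 1))) ∧
  ((Br G r (p t)).ncard ≤ L ∨ (a < t ∧ E (p (t - 1)) (p t) ∧
      K * (Ic E G r (p t)).ncard ≤ (Br G r (p (t - 1))).ncard ∧
      ((Br G r (p t)).ncard ≤ M ∨ (Br G r (p t)).ncard ≤ L * (Nc E G r (p t)).ncard))) ∧
  ∀ q : ℕ → τ, (∀ i ≤ l, E (q i) (q (i + 1)) ∧ G.dist r (q i) = G.dist r (q (i + 1)) + 1) →
    q (l + 1) ∈ Br G r (p a) →
      q 0 ∈ Br G r (p t) ∨ ∃ u w, u ∈ Br G r (p a) ∧ (a = 0 ∨ u ≠ p (a + 1)) ∧ E u w ∧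
        G.dist r w = G.dist r u + 1 ∧ w ≠ h u ∧ K * (Ic E G r w).ncard ≤ (Br G r u).ncard ∧ q 0 ∈ Br G r w

/-- a line with respect to the arcs, or to the reversed arcs -/
def LineD (l K L M : ℕ) (E : τ → τ → Prop) (G : SimpleGraph τ) (r : τ) (h : τ → τ) (p : ℕ → τ) (a t : ℕ) : Prop :=
  LineG l K L M E G r h p a t ∨ LineG l K L M (fun a b => E b a) G r h p a t

/-- the calm vertices: no directed path with `l + 1` arcs lies within distance `ρ` of `v` -/
def Calm (E : τ → τ → Prop) (G : SimpleGraph τ) (l ρ : ℕ) : Set τ :=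
  {v | ∀ q : ℕ → τ, (∀ i ≤ l, E (q i) (q (i + 1))) → ∃ i ≤ l + 1, ρ < G.dist v (q i)}

/-- **The class of trees**: a path from the root, and a set `S` of indices; every large branch at `p i`, `i ∈ S`, contains
many calm vertices, or a balanced branch at some `p j`, `j ∈ S`, which is of comparable size or has many calm vertices
outside, or a line of comparable size which leads to some `p t`, `t ∈ S`. -/
def AltG (l K L M : ℕ) (E : τ → τ → Prop) (G : SimpleGraph τ) (r : τ) (h : τ → τ) : Prop :=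
  ∃ (p : ℕ → τ) (m : ℕ) (S : Set ℕ), p 0 = r ∧
    (∀ i < m, G.Adj (p i) (p (i + 1)) ∧ G.dist r (p (i + 1)) = G.dist r (p i) + 1) ∧ (∀ i ∈ S, i ≤ m) ∧
    (0 ∈ S ∨ ∃ t ∈ S, LineD l K L M E G r h p 0 t) ∧
    ∀ i ∈ S, M < (Br G r (p i)).ncard →
      (Br G r (p i)).ncard ≤ L * (Br G r (p i) ∩ Calm E G l K).ncard ∨
      (∃ j, i < j ∧ j ≤ m ∧ j ∈ S ∧ (Br G r (p j)).ncard ≤ L * (Nc E G r (p j)).ncard ∧
        (Br G r (p i)).ncard ≤ L * ((Br G r (p j)).ncard + ((Br G r (p i) \ Br G r (p j)) ∩ Calm E G l K).ncard)) ∨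
      ∃ j, i < j ∧ j ≤ m ∧ (Br G r (p i)).ncard ≤ L * (Br G r (p j)).ncard ∧ ∃ t ∈ S, LineD l K L M E G r h p j t

/-- the final statement -/
def FinalSt : Prop := ∀ Δ l L : ℕ, ∃ K : ℕ, ∀ M : ℕ, ∃ C : ℕ, ∀ k n : ℕ, k + C ≤ n → ∀ R : Fin n → Fin n → Prop,
    (∀ a, ¬ R a a) → (∀ a b, a ≠ b → R a b ∨ R b a) → (∀ a b, R a b → ¬ R b a) →
    ∀ E : Fin (k + 1) → Fin (k + 1) → Prop,
      (∀ a b, E a b → ¬ E b a) →
      (SimpleGraph.fromRel E).IsTree →
      (∀ v, ((SimpleGraph.fromRel E).neighborSet v).ncard ≤ Δ) →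
      ∀ (r : Fin (k + 1)) (h : Fin (k + 1) → Fin (k + 1)), AET.MainChild (SimpleGraph.fromRel E) r h →
      AltG l K L M E (SimpleGraph.fromRel E) r h →
      ∃ f : Fin (k + 1) → Fin n, Function.Injective f ∧ ∀ a b, E a b → R (f a) (f b)

end AEN
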